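import Pool.Agent.PepsY.Defs

/-!
# Connectedness of rows, columns, unions and squares
-/

open Finset

set_option autoImplicit false
set_option linter.unusedSectionVars false

namespace Pool.Agent.PepsY

open Pool.Agent.PEPS953

variable {L : ℕ}

theorem adj_symm {u v : Site L} (h : Adj u v) : Adj v u := by
  rcases h with h | h | h | h
  · exact Or.inr (Or.inr (Or.inl h))
  · exact Or.inr (Or.inr (Or.inr h))
  · exact Or.inl h
  · exact Or.inr (Or.inl h)

theorem tile_succ_x (X Y x y : ℕ) :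
    tile L X Y (x + 1) y = ((tile L X Y x y).1 + 1, (tile L X Y x y).2) := by
  simp only [tile, Prod.mk.injEq, and_true]
  push_cast
  ring

theorem tile_succ_y (X Y x y : ℕ) :
    tile L X Y x (y + 1) = ((tile L X Y x y).1, (tile L X Y x y).2 + 1) := by
  simp only [tile, Prod.mk.injEq, true_and]
  push_cast
  ring

/-- One step inside `K`. -/
theorem step_symm {K : Finset (Site L)} {a b : Site L} (h : a ∈ K ∧ b ∈ K ∧ Adj a b) :
    b ∈ K ∧ a ∈ K ∧ Adj b a := ⟨h.2.1, h.1, adj_symm h.2.2⟩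

theorem rtg_symm {K : Finset (Site L)} {u v : Site L}
    (h : Relation.ReflTransGen (fun a b => a ∈ K ∧ b ∈ K ∧ Adj a b) u v) :
    Relation.ReflTransGen (fun a b => a ∈ K ∧ b ∈ K ∧ Adj a b) v u := by
  induction h with
  | refl => exact Relation.ReflTransGen.refl
  | tail _ h2 ih => exact Relation.ReflTransGen.head (step_symm h2) ih

theorem rtg_mono {K K' : Finset (Site L)} (hK : K ⊆ K') {u v : Site L}
    (h : Relation.ReflTransGen (fun a b => a ∈ K ∧ b ∈ K ∧ Adj a b) u v) :
    Relation.ReflTransGen (fun a b => a ∈ K' ∧ b ∈ K' ∧ Adj a b) u v :=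
  Relation.ReflTransGen.mono (fun _ _ hab => ⟨hK hab.1, hK hab.2.1, hab.2.2⟩) _ _ h

/-- A sequence of tiles with neighbouring consecutive members is a walk. -/
theorem walk_le {K : Finset (Site L)} (g : ℕ → Site L) (a : ℕ)
    (hadj : ∀ n, Adj (g n) (g (n + 1))) (n : ℕ) (hn : ∀ k, k ≤ n → g (a + k) ∈ K) :
    Relation.ReflTransGen (fun a b => a ∈ K ∧ b ∈ K ∧ Adj a b) (g a) (g (a + n)) := by
  induction n with
  | zero => exact Relation.ReflTransGen.refl
  | succ n ih =>
    refine (ih fun k hk => hn k (by omega)).tail ⟨hn n (by omega), ?_, hadj _⟩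
    exact hn (n + 1) le_rfl

theorem conn_seq (g : ℕ → Site L) (hadj : ∀ n, Adj (g n) (g (n + 1))) (a c : ℕ) :
    Conn ((Ico a c).image g) := by
  have key : ∀ i j, i ∈ Ico a c → j ∈ Ico a c → i ≤ j →
      Relation.ReflTransGen
        (fun u v => u ∈ (Ico a c).image g ∧ v ∈ (Ico a c).image g ∧ Adj u v) (g i) (g j) := by
    intro i j hi hj hij
    obtain ⟨n, rfl⟩ := Nat.exists_eq_add_of_le hij
    refine walk_le g i hadj n fun k hk => mem_image_of_mem _ ?_
    rw [mem_Ico] at hi hj ⊢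
    omega
  intro u hu v hv
  obtain ⟨i, hi, rfl⟩ := mem_image.1 hu
  obtain ⟨j, hj, rfl⟩ := mem_image.1 hv
  rcases le_total i j with h | h
  · exact key i j hi hj h
  · exact rtg_symm (key j i hj hi h)

theorem conn_row (X Y a c y : ℕ) : Conn ((Ico a c).image fun x => tile L X Y x y) :=
  conn_seq _ (fun n => Or.inl (tile_succ_x X Y n y)) a c

theorem conn_col (X Y a c x : ℕ) : Conn ((Ico a c).image fun y => tile L X Y x y) :=
  conn_seq _ (fun n => Or.inr (Or.inl (tile_succ_y X Y x n))) a c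

theorem conn_union (K K' : Finset (Site L)) (h : Conn K) (h' : Conn K') (u : Site L) (hu : u ∈ K)
    (hu' : u ∈ K') : Conn (K ∪ K') := by
  have key : ∀ v ∈ K ∪ K', Relation.ReflTransGen
      (fun a b => a ∈ K ∪ K' ∧ b ∈ K ∪ K' ∧ Adj a b) u v := by
    intro v hv
    rcases mem_union.1 hv with hv | hv
    · exact rtg_mono subset_union_left (h u hu v hv)
    · exact rtg_mono subset_union_right (h' u hu' v hv)
  intro v hv w hw
  exact (rtg_symm (key v hv)).trans (key w hw)

theorem conn_square (X Y S : ℕ) : Conn (square L X Y S) := by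
  have hrow : ∀ x y, x < S → y < S → Relation.ReflTransGen
      (fun a b => a ∈ square L X Y S ∧ b ∈ square L X Y S ∧ Adj a b)
      (tile L X Y 0 y) (tile L X Y x y) := by
    intro x y hx hy
    refine rtg_mono ?_ (conn_row X Y 0 S y _ (mem_image_of_mem _ (mem_Ico.2 ⟨le_rfl, by omega⟩)) _
      (mem_image_of_mem _ (mem_Ico.2 ⟨Nat.zero_le _, hx⟩)))
    intro t ht
    obtain ⟨k, hk, rfl⟩ := mem_image.1 ht
    refine mem_image.2 ⟨(k, y), ?_, rfl⟩
    rw [mem_product, mem_range, mem_range]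
    exact ⟨(mem_Ico.1 hk).2, hy⟩
  have hcol : ∀ y, y < S → Relation.ReflTransGen
      (fun a b => a ∈ square L X Y S ∧ b ∈ square L X Y S ∧ Adj a b)
      (tile L X Y 0 0) (tile L X Y 0 y) := by
    intro y hy
    refine rtg_mono ?_ (conn_col X Y 0 S 0 _ (mem_image_of_mem _ (mem_Ico.2 ⟨le_rfl, by omega⟩)) _
      (mem_image_of_mem _ (mem_Ico.2 ⟨Nat.zero_le _, hy⟩)))
    intro t ht
    obtain ⟨k, hk, rfl⟩ := mem_image.1 ht
    refine mem_image.2 ⟨(0, k), ?_, rfl⟩
    rw [mem_product, mem_range, mem_range]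
    exact ⟨by omega, (mem_Ico.1 hk).2⟩
  have key : ∀ v ∈ square L X Y S, Relation.ReflTransGen
      (fun a b => a ∈ square L X Y S ∧ b ∈ square L X Y S ∧ Adj a b) (tile L X Y 0 0) v := by
    intro v hv
    obtain ⟨⟨x, y⟩, hp, rfl⟩ := mem_image.1 hv
    rw [mem_product, mem_range, mem_range] at hp
    exact (hcol y hp.2).trans (hrow x y hp.1 hp.2)
  intro v hv w hw
  exact (rtg_symm (key v hv)).trans (key w hw)

end Pool.Agent.PepsY
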