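import Pool.Agent.PepsY.Blocks
import Pool.Agent.PepsX.Layers

/-!
# Polynomials of the Hamiltonian in terms of the amplitudes of the whole space-time
-/

open Finset

set_option autoImplicit false
set_option linter.unusedSectionVars false

namespace Pool.Agent.PepsY

open Pool.Agent.PEPS953 Pool.Agent.PepsX

variable {d r n L : ℕ} [NeZero L]

namespace AevalAmp

/-- The path and the history of an assignment, as an equivalence. -/
def asn (d r n L : ℕ) : ((Fin (n + 1) → Conf d L) × (Fin n → Site L → Opn d r)) ≃ Asn d r n L :=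
  ((Equiv.curry (Fin (n + 1)) (Site L) (Fin d)).symm.prodCongr
    (Equiv.curry (Fin n) (Site L) (Opn d r)).symm).trans
    (jnEquiv d (Fin (n + 1) × Site L) (Fin n × Site L) (Opn d r))

lemma asn_p (q : (Fin (n + 1) → Conf d L) × (Fin n → Site L → Opn d r)) (t : Fin (n + 1))
    (v : Site L) : (asn d r n L q).p t v = q.1 t v := rfl

lemma asn_o (q : (Fin (n + 1) → Conf d L) × (Fin n → Site L → Opn d r)) (t : Fin n)
    (v : Site L) : (asn d r n L q).o t v = q.2 t v := rfl

lemma vol_full (x : Asn d r n L) : vol (full L n) x = nins x.o := by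
  unfold vol nins full
  rw [Finset.card_filter, Fintype.sum_prod_type]
  refine Finset.sum_congr rfl fun t _ => Finset.sum_congr rfl fun τ _ => ?_
  by_cases h : x.o t τ = none
  · rw [if_neg (fun h' => h'.2.2.2 h), if_pos h]
  · rw [if_pos ⟨Nat.zero_le _, t.2, fun _ => mem_univ _, h⟩, if_neg h]

lemma nins_le (ω : Fin n → Site L → Opn d r) : nins ω ≤ n * L ^ 2 := by
  unfold nins
  calc ∑ t : Fin n, ∑ v : Site L, (if ω t v = none then 0 else 1)
      ≤ ∑ t : Fin n, ∑ v : Site L, 1 := by
        refine Finset.sum_le_sum fun t _ => Finset.sum_le_sum fun v _ => ?_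
        split_ifs <;> omega
    _ = n * L ^ 2 := by
        simp [Fintype.card_prod, ZMod.card, pow_two]

lemma mem_vis_full (hr : 0 < r) (a : Vr n L) : a ∈ (full L n).vis r n := by
  unfold Blk.vis full
  cases a with
  | inl a =>
    rw [Finset.inl_mem_disjSum, mem_filter]
    exact ⟨mem_univ _, mem_univ _, Nat.zero_le _, Nat.lt_succ_iff.1 a.1.2⟩
  | inr a =>
    rw [Finset.inr_mem_disjSum, mem_filter]
    exact ⟨mem_univ _, ⟨(⟨0, hr⟩, ⟨0, hr⟩), mem_univ _⟩, Nat.zero_le _, a.1.2⟩

lemma mem_cmp_full (hr : 0 < r) (hn : 0 < n) (d₀ : Fin d) (s f : Conf d L) (x : Asn d r n L) :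
    x ∈ cmp d₀ ((full L n).vis r n) ((full L n).ext r n) (bdata d₀ s f) ↔
      x.p 0 = s ∧ x.p (Fin.last n) = f := by
  unfold cmp
  rw [Fintype.mem_piFinset]
  constructor
  · intro h
    constructor
    · funext v
      have h1 := h (.inl (0, v))
      have h2 : (Sum.inl (0, v) : Vr n L) ∈ (full L n).ext r n := by
        unfold Blk.ext full
        rw [Finset.inl_mem_disjSum, mem_filter]
        exact ⟨mem_univ _, mem_univ _, Or.inl rfl⟩
      rw [if_pos h2, mem_singleton] at h1
      unfold Asn.p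
      rw [h1]
      unfold bdata
      simp
    · funext v
      have h1 := h (.inl (Fin.last n, v))
      have h2 : (Sum.inl (Fin.last n, v) : Vr n L) ∈ (full L n).ext r n := by
        unfold Blk.ext full
        rw [Finset.inl_mem_disjSum, mem_filter]
        exact ⟨mem_univ _, mem_univ _, Or.inr rfl⟩
      rw [if_pos h2, mem_singleton] at h1
      unfold Asn.p
      rw [h1]
      unfold bdata
      simp [hn.ne']
  · rintro ⟨h1, h2⟩ a
    by_cases ha : a ∈ (full L n).ext r n
    · rw [if_pos ha, mem_singleton]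
      cases a with
      | inl a =>
        obtain ⟨t, v⟩ := a
        unfold Blk.ext full at ha
        rw [Finset.inl_mem_disjSum, mem_filter] at ha
        obtain ⟨_, _, h3⟩ := ha
        simp only at h3
        rcases h3 with h3 | h3
        · have ht : t = 0 := Fin.ext h3
          subst ht
          have := congrFun h1 v
          unfold Asn.p at this
          rw [this]
          rfl
        · have ht : t = Fin.last n := Fin.ext h3
          subst ht
          have := congrFun h2 v
          unfold Asn.p at this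
          rw [this]
          change f v = if ((Fin.last n : Fin (n + 1)) : ℕ) = 0 then s v else
            if ((Fin.last n : Fin (n + 1)) : ℕ) = n then f v else d₀
          simp [hn.ne']
      | inr a =>
        unfold Blk.ext full at ha
        rw [Finset.inr_mem_disjSum, mem_filter] at ha
        obtain ⟨_, _, h3, _⟩ := ha
        exact absurd (fun p => mem_univ _) h3
    · rw [if_neg ha, if_pos (mem_vis_full hr a)]
      exact mem_univ _

/-- The weights. -/
noncomputable def wgt (h : Matrix (LConf d r) (LConf d r) ℂ) (i : ℕ) (z : ℂ) (t : Fin n)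
    (_ : Site L) (o : Opn d r) : ℂ :=
  if o = none then 1 else if i ≤ (t : ℕ) then 0 else z * hh h o

lemma prod_wgt (h : Matrix (LConf d r) (LConf d r) ℂ) (i : ℕ) (z : ℂ)
    (ω : Fin n → Site L → Opn d r) :
    ∏ t, ∏ v, wgt h i z t v (ω t v) =
      if (∀ t : Fin n, i ≤ t → ∀ v, ω t v = none) then z ^ nins ω * ∏ t, ∏ v, hh h (ω t v)
      else 0 := by
  by_cases hc : ∀ t : Fin n, i ≤ t → ∀ v, ω t v = none
  · rw [if_pos hc]
    unfold nins
    rw [← Finset.prod_pow_eq_pow_sum, ← Finset.prod_mul_distrib]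
    refine Finset.prod_congr rfl fun t _ => ?_
    rw [← Finset.prod_pow_eq_pow_sum, ← Finset.prod_mul_distrib]
    refine Finset.prod_congr rfl fun v _ => ?_
    unfold wgt
    by_cases ho : ω t v = none
    · rw [if_pos ho, if_pos ho, ho]
      simp [hh]
    · rw [if_neg ho, if_neg ho, if_neg (fun hi => ho (hc t hi v)), pow_one]
  · rw [if_neg hc]
    push Not at hc
    obtain ⟨t, ht, v, hv⟩ := hc
    refine Finset.prod_eq_zero (mem_univ t) (Finset.prod_eq_zero (mem_univ v) ?_)
    unfold wgt
    rw [if_neg hv, if_pos ht]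

lemma Wt_full (w : Fin n → Site L → Opn d r → ℂ) (x : Asn d r n L) :
    Wt w (full L n) x = (∏ t, ∏ v, w t v (x.o t v)) *
      ∏ t, ∏ v, lay (x.o t) v (x.p t.castSucc v) (x.p t.succ v) := by
  unfold Wt full
  have h1 : (univ.filter fun t : Fin n => 0 ≤ (t : ℕ) ∧ (t : ℕ) < n) = univ := by
    rw [Finset.filter_true_of_mem]
    intro t _
    exact ⟨Nat.zero_le _, t.2⟩
  simp only [h1]
  rw [← Finset.prod_mul_distrib]
  refine Finset.prod_congr rfl fun t _ => ?_
  rw [← Finset.prod_mul_distrib]

end AevalAmp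

open AevalAmp in
/-- YB9: polynomials of the Hamiltonian in terms of the amplitudes of the whole space-time. -/
theorem aeval_amp (hr : 0 < r) (hrL : r ≤ L) (hn : 0 < n) (d₀ : Fin d)
    (h : Matrix (LConf d r) (LConf d r) ℂ) (P : Polynomial ℂ) (hP : P.natDegree ≤ n) :
    ∃ (c : Fin ((n + 1) * (n * L ^ 2 + 1)) → ℂ)
      (w : Fin ((n + 1) * (n * L ^ 2 + 1)) → Fin n → Site L → Opn d r → ℂ),
      ∀ (Φ : Hil d L) (s : Conf d L), (Polynomial.aeval (ham L h) P Φ) s =
        ∑ f, (∑ k, c k * Amp d₀ (w k) n (full L n) (bdata d₀ s f)) * Φ f := by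
  classical
  set M := n * L ^ 2 + 1 with hM
  set F : ℕ → ℕ → ℂ := fun i N => if N ≤ n then
    P.coeff N * (-1) ^ (N - i) * ((N.choose i : ℕ) : ℂ) else 0 with hF
  have hst : ∀ i : Fin (n + 1), ∃ (a z : Fin M → ℂ), ∀ N < M, F i N = ∑ m, a m * z m ^ N := by
    intro i
    obtain ⟨a, z, haz⟩ := stat_expand (J := Unit) M (Nat.succ_pos _) (fun A => F i (A ()))
    refine ⟨fun m => a fun _ => m, z, fun N hN => ?_⟩
    have h1 := haz (fun _ => N) (fun _ => hN)
    rw [h1, ← (Equiv.funUnique Unit (Fin M)).symm.sum_comp]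
    refine Finset.sum_congr rfl fun m _ => ?_
    have h2 : ((Equiv.funUnique Unit (Fin M)).symm m) = fun _ => m := rfl
    rw [h2]
    simp
  choose a z haz using hst
  refine ⟨fun k => a (finProdFinEquiv.symm k).1 (finProdFinEquiv.symm k).2,
    fun k => wgt h (finProdFinEquiv.symm k).1
      (z (finProdFinEquiv.symm k).1 (finProdFinEquiv.symm k).2), fun Φ s => ?_⟩
  rw [aeval_ham_apply hrL h P n hP Φ s]
  beta_reduce
  have key : ∀ f : Conf d L, (∑ k : Fin ((n + 1) * M),
      a (finProdFinEquiv.symm k).1 (finProdFinEquiv.symm k).2 *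
        Amp d₀ (wgt (n := n) h (finProdFinEquiv.symm k).1
          (z (finProdFinEquiv.symm k).1 (finProdFinEquiv.symm k).2)) n (full L n)
          (bdata d₀ s f)) = ∑ i : Fin (n + 1), ∑ x : Asn d r n L,
        if x.p 0 = s ∧ x.p (Fin.last n) = f then
          (if (∀ t : Fin n, (i : ℕ) ≤ t → ∀ v, x.o t v = none) then F i (nins x.o) *
            (∏ t, ∏ v, hh h (x.o t v)) *
            (∏ t, ∏ v, lay (x.o t) v (x.p t.castSucc v) (x.p t.succ v)) else 0) else 0 := by
    intro f
    rw [(finProdFinEquiv (m := n + 1) (n := M)).symm.sum_comp (fun q : Fin (n + 1) × Fin M =>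
      a q.1 q.2 * Amp d₀ (wgt (n := n) h q.1 (z q.1 q.2)) n (full L n) (bdata d₀ s f)),
      Fintype.sum_prod_type]
    refine Finset.sum_congr rfl fun i _ => ?_
    unfold Amp
    simp_rw [Finset.mul_sum]
    rw [Finset.sum_comm]
    have h1 : cmp d₀ ((full L n).vis r n) ((full L n).ext r n) (bdata d₀ s f) =
        univ.filter fun x : Asn d r n L => x.p 0 = s ∧ x.p (Fin.last n) = f := by
      ext x
      rw [mem_cmp_full hr hn, mem_filter]
      simp
    rw [h1, Finset.sum_filter]
    refine Finset.sum_congr rfl fun x _ => ?_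
    by_cases hx : x.p 0 = s ∧ x.p (Fin.last n) = f
    · rw [if_pos hx, if_pos hx]
      unfold TWt
      rw [vol_full]
      simp_rw [Wt_full, prod_wgt]
      by_cases hc : ∀ t : Fin n, (i : ℕ) ≤ t → ∀ v, x.o t v = none
      · simp_rw [if_pos hc]
        rw [haz i _ (Nat.lt_succ_of_le (nins_le x.o))]
        by_cases hv : nins x.o ≤ n
        · simp_rw [if_pos hv]
          rw [Finset.sum_mul, Finset.sum_mul]
          refine Finset.sum_congr rfl fun m _ => ?_
          ring
        · simp_rw [if_neg hv, mul_zero]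
          rw [← haz i _ (Nat.lt_succ_of_le (nins_le x.o))]
          simp [hF, hv]
      · simp_rw [if_neg hc]
        simp
    · rw [if_neg hx, if_neg hx]
  simp_rw [key]
  -- the sum over the final configurations
  have h2 : ∀ f : Conf d L, (∑ i : Fin (n + 1), ∑ x : Asn d r n L,
        if x.p 0 = s ∧ x.p (Fin.last n) = f then
          (if (∀ t : Fin n, (i : ℕ) ≤ t → ∀ v, x.o t v = none) then F i (nins x.o) *
            (∏ t, ∏ v, hh h (x.o t v)) *
            (∏ t, ∏ v, lay (x.o t) v (x.p t.castSucc v) (x.p t.succ v)) else 0) else 0) * Φ f =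
      ∑ i : Fin (n + 1), ∑ x : Asn d r n L, if x.p (Fin.last n) = f then
        (if x.p 0 = s ∧ (∀ t : Fin n, (i : ℕ) ≤ t → ∀ v, x.o t v = none) then F i (nins x.o) *
            (∏ t, ∏ v, hh h (x.o t v)) *
            (∏ t, ∏ v, lay (x.o t) v (x.p t.castSucc v) (x.p t.succ v)) *
              Φ (x.p (Fin.last n)) else 0) else 0 := by
    intro f
    rw [Finset.sum_mul]
    refine Finset.sum_congr rfl fun i _ => ?_
    rw [Finset.sum_mul]
    refine Finset.sum_congr rfl fun x _ => ?_
    by_cases h3 : x.p (Fin.last n) = f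
    · rw [if_pos h3]
      by_cases h4 : x.p 0 = s
      · rw [if_pos ⟨h4, h3⟩]
        by_cases hc : ∀ t : Fin n, (i : ℕ) ≤ t → ∀ v, x.o t v = none
        · rw [if_pos hc, if_pos ⟨h4, hc⟩, h3]
        · rw [if_neg hc, if_neg (fun h => hc h.2), zero_mul]
      · rw [if_neg (fun h => h4 h.1), if_neg (fun h => h4 h.1), zero_mul]
    · rw [if_neg h3, if_neg (fun h => h3 h.2), zero_mul]
  simp_rw [h2]
  rw [Finset.sum_comm (s := (univ : Finset (Conf d L)))]
  refine Finset.sum_congr rfl fun i _ => ?_
  rw [Finset.sum_comm (s := (univ : Finset (Conf d L)))]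
  simp_rw [Finset.sum_ite_eq (univ : Finset (Conf d L)), if_pos (Finset.mem_univ _)]
  have h7 : ∀ G : Asn d r n L → ℂ, ∑ x, G x = ∑ ω : Fin n → Site L → Opn d r,
      ∑ p : Fin (n + 1) → Conf d L, G (asn d r n L (p, ω)) := by
    intro G
    let _ : Fintype ((Fin (n + 1) → Conf d L) × (Fin n → Site L → Opn d r)) := instFintypeProd _ _
    rw [← (asn d r n L).sum_comp G]
    refine (Fintype.sum_prod_type _).trans ?_
    exact Finset.sum_comm
  rw [h7]
  refine Finset.sum_congr rfl fun ω _ => Finset.sum_congr rfl fun p _ => ?_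
  have e1 : (asn d r n L (p, ω)).p = p := rfl
  have e2 : (asn d r n L (p, ω)).o = ω := rfl
  rw [e1, e2]
  by_cases h5 : p 0 = s ∧ ∀ t : Fin n, (i : ℕ) ≤ t → ∀ v, ω t v = none
  · rw [if_pos h5, if_pos h5]
    congr 3
    by_cases h6 : nins ω ≤ n
    · simp only [hF]
      rw [if_pos h6]
    · simp only [hF]
      rw [if_neg h6, Polynomial.coeff_eq_zero_of_natDegree_lt (by omega), zero_mul, zero_mul]
  · rw [if_neg h5, if_neg h5]

end Pool.Agent.PepsY
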