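import Pool.Agent.PepsY.Blocks
import Pool.Agent.PepsX.CellCount

/-!
# YB11: cutting the torus
-/

open Finset

set_option autoImplicit false
set_option linter.unusedSectionVars false

namespace Pool.Agent.PepsY

open Pool.Agent.PEPS953 Pool.Agent.PepsX

variable {d r n L : ℕ} [NeZero L]

private lemma gt_val_sub (x : ZMod L) (m : ℕ) (hm : m < L) :
    (m ≤ x.val ∧ (x - (m : ZMod L)).val = x.val - m) ∨
      (x.val < m ∧ (x - (m : ZMod L)).val = x.val + L - m) := by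
  set y := x - (m : ZMod L) with hy
  have hx : x = y + (m : ZMod L) := by rw [hy]; ring
  have hyL : y.val < L := ZMod.val_lt y
  have h1 : x.val = (y.val + m) % L := by
    rw [hx, ZMod.val_add, ZMod.val_natCast, Nat.mod_eq_of_lt hm]
  rcases Nat.lt_or_ge (y.val + m) L with h | h
  · rw [Nat.mod_eq_of_lt h] at h1
    left; omega
  · rw [Nat.mod_eq_sub_mod h, Nat.mod_eq_of_lt (by omega)] at h1
    right; omega

private lemma gt_cidx {R : ℕ} (hR : 0 < R) (hRL : R ≤ L) (k : ℕ) :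
    ∃ m ℓ : ℕ, ℓ ≤ 2 * R ∧ ∀ x : ZMod L, cidx L R x = k ↔ (x - (m : ZMod L)).val < ℓ := by
  have h1 : 1 ≤ L / R := (Nat.one_le_div_iff hR).2 hRL
  have hLR : L / R * R ≤ L := Nat.div_mul_le_self _ _
  have hLR2 : L < L / R * R + R := Nat.lt_div_mul_add hR
  rcases lt_trichotomy k (L / R - 1) with hk | hk | hk
  · have hkR : k * R + 2 * R ≤ L := by
      calc k * R + 2 * R = (k + 2) * R := by ring
        _ ≤ L / R * R := Nat.mul_le_mul_right R (by omega)
        _ ≤ L := hLR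
    refine ⟨k * R, R, by omega, fun x => ?_⟩
    have hx : x.val < L := ZMod.val_lt x
    have e1 : cidx L R x = k ↔ x.val / R = k := by
      unfold cidx; omega
    rw [e1, Nat.div_eq_iff hR]
    rcases gt_val_sub x (k * R) (by omega) with h | h
    · rw [h.2]; omega
    · rw [h.2]; omega
  · have hkR : k * R + R = L / R * R := by
      calc k * R + R = (k + 1) * R := by ring
        _ = L / R * R := by congr 1; omega
    refine ⟨k * R, L - k * R, by omega, fun x => ?_⟩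
    have hx : x.val < L := ZMod.val_lt x
    have e1 : cidx L R x = k ↔ k ≤ x.val / R := by
      unfold cidx; omega
    rw [e1, Nat.le_div_iff_mul_le hR]
    rcases gt_val_sub x (k * R) (by omega) with h | h
    · rw [h.2]; omega
    · rw [h.2]; omega
  · refine ⟨0, 0, by omega, fun x => ?_⟩
    unfold cidx
    omega

/-- Cells are rectangles. -/
theorem isRect_cell {R : ℕ} (hR : 0 < R) (hRL : R ≤ L) (o : Site L) (c : ℕ × ℕ) :
    IsRect R (univ.filter fun u : Site L => cell R o u = c) := by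
  obtain ⟨m₁, ℓ₁, h1, e1⟩ := gt_cidx (L := L) hR hRL c.1
  obtain ⟨m₂, ℓ₂, h2, e2⟩ := gt_cidx (L := L) hR hRL c.2
  refine ⟨(o.1 + m₁, o.2 + m₂), ℓ₁, ℓ₂, h1, h2, ?_⟩
  ext u
  simp only [mem_filter, mem_univ, true_and, rect]
  unfold cell
  rw [Prod.ext_iff]
  simp only
  rw [e1, e2, sub_sub, sub_sub]

private lemma gt_cardA (a : ZMod L) (ℓ : ℕ) :
    (univ.filter fun x : ZMod L => ∃ i : ℕ, i < r ∧ (x + (i : ZMod L) - a).val < ℓ).card ≤
      ℓ + r - 1 := by
  have hsub : (univ.filter fun x : ZMod L => ∃ i : ℕ, i < r ∧ (x + (i : ZMod L) - a).val < ℓ) ⊆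
      (range (ℓ + r - 1)).image fun j : ℕ => a + (j : ZMod L) - ((r - 1 : ℕ) : ZMod L) := by
    intro x hx
    obtain ⟨i, hi, h⟩ := (mem_filter.1 hx).2
    rw [mem_image]
    refine ⟨(x + (i : ZMod L) - a).val + (r - 1 - i), mem_range.2 (by omega), ?_⟩
    have h1 : ((r - 1 : ℕ) : ZMod L) = ((r - 1 - i : ℕ) : ZMod L) + (i : ZMod L) := by
      rw [← Nat.cast_add]
      congr 1
      omega
    rw [Nat.cast_add, ZMod.natCast_zmod_val, h1]
    ring
  calc _ ≤ _ := card_le_card hsub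
    _ ≤ (range (ℓ + r - 1)).card := card_image_le
    _ = _ := card_range _

private lemma gt_succ (w : ZMod L) : (w + 1).val = w.val + 1 ∨ (w + 1).val = 0 := by
  have hw : w.val < L := ZMod.val_lt w
  have hadd : (w + 1).val = (w.val + 1) % L := by
    rcases Nat.lt_or_ge 1 L with hL | hL
    · have : Fact (1 < L) := ⟨hL⟩
      rw [ZMod.val_add, ZMod.val_one]
    · have hL1 : L = 1 := by
        have := NeZero.pos L
        omega
      subst hL1
      have h0 : ∀ z : ZMod 1, z.val = 0 := fun z => by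
        have := ZMod.val_lt z
        omega
      rw [h0, h0]
  rcases Nat.lt_or_ge (w.val + 1) L with hlt | hge
  · left; rw [hadd, Nat.mod_eq_of_lt hlt]
  · right
    have : w.val + 1 = L := by omega
    rw [hadd, this, Nat.mod_self]

private lemma gt_change (g : ℕ → Prop) : ∀ j, ¬ (g 0 ↔ g j) → ∃ k, k < j ∧ ¬ (g (k + 1) ↔ g k) := by
  intro j
  induction j with
  | zero => intro h; exact absurd Iff.rfl h
  | succ j ih =>
    intro h
    by_cases h2 : g 0 ↔ g j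
    · exact ⟨j, by omega, fun h3 => h (h2.trans h3.symm)⟩
    · obtain ⟨k, hk, h3⟩ := ih h2
      exact ⟨k, by omega, h3⟩

private lemma gt_cardB (a : ZMod L) (ℓ : ℕ) :
    (univ.filter fun x : ZMod L => (∃ i : ℕ, i < r ∧ (x + (i : ZMod L) - a).val < ℓ) ∧
      ∃ i : ℕ, i < r ∧ ¬ (x + (i : ZMod L) - a).val < ℓ).card ≤ 2 * (r - 1) := by
  have hsub : (univ.filter fun x : ZMod L => (∃ i : ℕ, i < r ∧ (x + (i : ZMod L) - a).val < ℓ) ∧
      ∃ i : ℕ, i < r ∧ ¬ (x + (i : ZMod L) - a).val < ℓ) ⊆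
      ((range (r - 1)).image fun k : ℕ => a + ((ℓ - 1 : ℕ) : ZMod L) - (k : ZMod L)) ∪
      ((range (r - 1)).image fun k : ℕ => a - ((k + 1 : ℕ) : ZMod L)) := by
    intro x hx
    obtain ⟨⟨i, hi, h⟩, ⟨i', hi', h'⟩⟩ := (mem_filter.1 hx).2
    obtain ⟨k, hk, hc⟩ : ∃ k, k < r - 1 ∧
        ¬ ((x + ((k + 1 : ℕ) : ZMod L) - a).val < ℓ ↔ (x + (k : ZMod L) - a).val < ℓ) := by
      by_cases h0 : (x + ((0 : ℕ) : ZMod L) - a).val < ℓ
      · obtain ⟨k, hk, hc⟩ := gt_change (fun j => (x + (j : ZMod L) - a).val < ℓ) i'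
          (fun hh => h' (hh.1 h0))
        exact ⟨k, by omega, hc⟩
      · obtain ⟨k, hk, hc⟩ := gt_change (fun j => (x + (j : ZMod L) - a).val < ℓ) i
          (fun hh => h0 (hh.2 h))
        exact ⟨k, by omega, hc⟩
    have e1 : x + ((k + 1 : ℕ) : ZMod L) - a = (x + (k : ZMod L) - a) + 1 := by push_cast; ring
    have hs := gt_succ (x + (k : ZMod L) - a)
    rw [← e1] at hs
    rw [mem_union, mem_image, mem_image]
    by_cases hin : (x + (k : ZMod L) - a).val < ℓ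
    · left
      have hout : ¬ (x + ((k + 1 : ℕ) : ZMod L) - a).val < ℓ := fun hh => hc ⟨fun _ => hin, fun _ => hh⟩
      refine ⟨k, mem_range.2 hk, ?_⟩
      have hv : (x + (k : ZMod L) - a).val = ℓ - 1 := by omega
      rw [← hv, ZMod.natCast_zmod_val]
      ring
    · right
      have hin' : (x + ((k + 1 : ℕ) : ZMod L) - a).val < ℓ := by
        by_contra hh
        exact hc ⟨fun h => absurd h hh, fun h => absurd h hin⟩
      refine ⟨k, mem_range.2 hk, ?_⟩
      have hv : (x + ((k + 1 : ℕ) : ZMod L) - a).val = 0 := by omega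
      have hz := (ZMod.val_eq_zero _).1 hv
      rw [sub_eq_zero] at hz
      rw [← hz]
      ring
  calc _ ≤ _ := card_le_card hsub
    _ ≤ _ := card_union_le _ _
    _ ≤ (r - 1) + (r - 1) := by
        gcongr
        · exact card_image_le.trans (card_range _).le
        · exact card_image_le.trans (card_range _).le
    _ = _ := by ring

/-- The number of boxes which meet a rectangle but are not contained in it. -/
theorem bdry_rect_torus {R : ℕ} (hr : 0 < r) (hrR : r ≤ R) (C : Finset (Site L))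
    (hC : IsRect R C) :
    (univ.filter fun τ : Site L => Tch r C τ ∧ ¬ Ins r C τ).card ≤ 12 * r * R := by
  obtain ⟨a, ℓ₁, ℓ₂, h1, h2, rfl⟩ := hC
  set A₁ := univ.filter fun x : ZMod L => ∃ i : ℕ, i < r ∧ (x + (i : ZMod L) - a.1).val < ℓ₁
  set A₂ := univ.filter fun x : ZMod L => ∃ i : ℕ, i < r ∧ (x + (i : ZMod L) - a.2).val < ℓ₂
  set B₁ := univ.filter fun x : ZMod L => (∃ i : ℕ, i < r ∧ (x + (i : ZMod L) - a.1).val < ℓ₁) ∧
      ∃ i : ℕ, i < r ∧ ¬ (x + (i : ZMod L) - a.1).val < ℓ₁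
  set B₂ := univ.filter fun x : ZMod L => (∃ i : ℕ, i < r ∧ (x + (i : ZMod L) - a.2).val < ℓ₂) ∧
      ∃ i : ℕ, i < r ∧ ¬ (x + (i : ZMod L) - a.2).val < ℓ₂
  have cA₁ : A₁.card ≤ ℓ₁ + r - 1 := gt_cardA a.1 ℓ₁
  have cA₂ : A₂.card ≤ ℓ₂ + r - 1 := gt_cardA a.2 ℓ₂
  have cB₁ : B₁.card ≤ 2 * (r - 1) := gt_cardB a.1 ℓ₁
  have cB₂ : B₂.card ≤ 2 * (r - 1) := gt_cardB a.2 ℓ₂
  have hsub : (univ.filter fun τ : Site L => Tch r (rect a ℓ₁ ℓ₂) τ ∧ ¬ Ins r (rect a ℓ₁ ℓ₂) τ) ⊆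
      (B₁ ×ˢ A₂) ∪ (A₁ ×ˢ B₂) := by
    intro τ hτ
    obtain ⟨⟨p, hp⟩, hq⟩ := (mem_filter.1 hτ).2
    unfold Ins at hq
    push Not at hq
    obtain ⟨q, hq⟩ := hq
    simp only [rect, boxPos, mem_filter, mem_univ, true_and] at hp hq
    have hA₁ : τ.1 ∈ A₁ := mem_filter.2 ⟨mem_univ _, p.1, p.1.2, hp.1⟩
    have hA₂ : τ.2 ∈ A₂ := mem_filter.2 ⟨mem_univ _, p.2, p.2.2, hp.2⟩
    rw [mem_union, mem_product, mem_product]
    by_cases hq1 : (τ.1 + ((q.1 : ℕ) : ZMod L) - a.1).val < ℓ₁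
    · right
      refine ⟨hA₁, mem_filter.2 ⟨mem_univ _, ⟨p.2, p.2.2, hp.2⟩, q.2, q.2.2, fun hh => hq ⟨hq1, hh⟩⟩⟩
    · left
      exact ⟨mem_filter.2 ⟨mem_univ _, ⟨p.1, p.1.2, hp.1⟩, q.1, q.1.2, hq1⟩, hA₂⟩
  have hA : ∀ ℓ, ℓ ≤ 2 * R → ℓ + r - 1 ≤ 3 * R := fun ℓ h => by omega
  calc _ ≤ _ := card_le_card hsub
    _ ≤ _ := card_union_le _ _
    _ = B₁.card * A₂.card + A₁.card * B₂.card := by rw [card_product, card_product]
    _ ≤ (2 * r) * (3 * R) + (3 * R) * (2 * r) := by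
        gcongr
        · omega
        · exact cA₂.trans (hA _ h2)
        · exact cA₁.trans (hA _ h1)
        · omega
    _ = 12 * r * R := by ring

/-- YB11: cutting the torus. -/
theorem geo_torus {R : ℕ} (hr : 0 < r) (hrR : r ≤ R) (hL : 2 * R + r ≤ L) :
    Nonempty (Geo r R (L / R) (4 * R ^ 2) (12 * r * R) (univ : Finset (Site L)) (IsRect R)) := by
  classical
  have hR : 0 < R := by omega
  have hRL : R ≤ L := by omega
  have h1 : 1 ≤ L / R := (Nat.one_le_div_iff hR).2 hRL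
  refine ⟨{
    part := fun o₁ o₂ v => cell R ((o₁ : ZMod L), (o₂ : ZMod L)) v
    cr₁ := fun o τ => ∃ i : ℕ, i < r ∧
      cidx L R (τ.1 + ((i : ℕ) : ZMod L) - ((o : ℕ) : ZMod L)) ≠ cidx L R (τ.1 - ((o : ℕ) : ZMod L))
    cr₂ := fun o τ => ∃ i : ℕ, i < r ∧
      cidx L R (τ.2 + ((i : ℕ) : ZMod L) - ((o : ℕ) : ZMod L)) ≠ cidx L R (τ.2 - ((o : ℕ) : ZMod L))
    dec₁ := fun _ _ => Classical.dec _
    dec₂ := fun _ _ => Classical.dec _
    bound := ?_
    cross := ?_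
    few₁ := ?_
    few₂ := ?_
    touch := ?_
    area := ?_
    bdry := ?_
    prop := ?_ }⟩
  · intro o₁ _ o₂ _ v _
    simp only [cell, cidx]
    omega
  · intro o₁ _ o₂ _ τ _ p p' hne
    by_contra hcon
    push Not at hcon
    obtain ⟨hc1, hc2⟩ := hcon
    apply hne
    simp only [cell, boxPos]
    rw [hc1 p.1 p.1.2, hc1 p'.1 p'.1.2, hc2 p.2 p.2.2, hc2 p'.2 p'.2.2]
  · intro τ _
    refine le_trans (le_of_eq ?_) (card_bad_offset_le (r := r) R hR hRL τ.1)
    congr 1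
    ext o
    simp only [mem_filter]
  · intro τ _
    refine le_trans (le_of_eq ?_) (card_bad_offset_le (r := r) R hR hRL τ.2)
    congr 1
    ext o
    simp only [mem_filter]
  · intro o₁ _ o₂ _ τ
    refine le_trans (card_le_card ?_) (card_touch_le (r := r) R hrR hR hRL
      ((o₁ : ZMod L), (o₂ : ZMod L)) τ)
    exact image_subset_image (filter_subset _ _)
  · intro o₁ _ o₂ _ c
    refine (card_cell_le R hR hRL _ c).trans (le_of_eq (by ring))
  · intro o₁ _ o₂ _ c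
    exact bdry_rect_torus hr hrR _ (isRect_cell hR hRL _ c)
  · intro o₁ _ o₂ _ c
    exact isRect_cell hR hRL _ c

end Pool.Agent.PepsY
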