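import Pool.Agent.PepsY.Blocks
import Pool.Agent.PepsX.TermPeps

/-!
# Truncated weights and labels of views (package YB2)
-/

open Finset

set_option autoImplicit false
set_option linter.unusedSectionVars false

namespace Pool.Agent.PepsY

open Pool.Agent.PEPS953 Pool.Agent.PepsX

variable {d r n L : ℕ} [NeZero L]

theorem inl_mem_vis {X : Blk L} {a : Fin (n + 1) × Site L} :
    (Sum.inl a : Vr n L) ∈ X.vis r n ↔ a.2 ∈ X.C ∧ X.s ≤ a.1 ∧ (a.1 : ℕ) ≤ X.e := by
  unfold Blk.vis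
  rw [inl_mem_disjSum, mem_filter]
  simp

theorem inr_mem_vis {X : Blk L} {a : Fin n × Site L} :
    (Sum.inr a : Vr n L) ∈ X.vis r n ↔ Tch r X.C a.2 ∧ X.s ≤ a.1 ∧ (a.1 : ℕ) < X.e := by
  unfold Blk.vis
  rw [inr_mem_disjSum, mem_filter]
  simp

theorem inl_mem_ext {X : Blk L} {a : Fin (n + 1) × Site L} :
    (Sum.inl a : Vr n L) ∈ X.ext r n ↔ a.2 ∈ X.C ∧ ((a.1 : ℕ) = X.s ∨ (a.1 : ℕ) = X.e) := by
  unfold Blk.ext
  rw [inl_mem_disjSum, mem_filter]
  simp

theorem inr_mem_ext {X : Blk L} {a : Fin n × Site L} :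
    (Sum.inr a : Vr n L) ∈ X.ext r n ↔
      Tch r X.C a.2 ∧ ¬ Ins r X.C a.2 ∧ X.s ≤ a.1 ∧ (a.1 : ℕ) < X.e := by
  unfold Blk.ext
  rw [inr_mem_disjSum, mem_filter]
  simp

/-- YB2: the truncated weight depends on the visible variables only. -/
theorem TWt_congr (hr : 0 < r) (w : Fin n → Site L → Opn d r → ℂ) (V : ℕ) (X : Blk L)
    (x x' : Asn d r n L) (h : ∀ a ∈ X.vis r n, x a = x' a) : TWt w V X x = TWt w V X x' := by
  have hp : ∀ (t : Fin (n + 1)) (v : Site L), v ∈ X.C → X.s ≤ (t : ℕ) → (t : ℕ) ≤ X.e →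
      x.p t v = x'.p t v := fun t v hv h1 h2 => h (Sum.inl (t, v)) (inl_mem_vis.2 ⟨hv, h1, h2⟩)
  have ho : ∀ (t : Fin n) (τ : Site L), Tch r X.C τ → X.s ≤ (t : ℕ) → (t : ℕ) < X.e →
      x.o t τ = x'.o t τ := fun t τ hv h1 h2 => h (Sum.inr (t, τ)) (inr_mem_vis.2 ⟨hv, h1, h2⟩)
  have hvol : vol X x = vol X x' := by
    unfold vol
    congr 1
    refine filter_congr fun a _ => ?_
    refine and_congr_right fun h1 => and_congr_right fun h2 => and_congr_right fun h3 => ?_
    rw [ho a.1 a.2 ⟨((⟨0, hr⟩, ⟨0, hr⟩) : Box r), h3 _⟩ h1 h2]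
  have hWt : Wt w X x = Wt w X x' := by
    unfold Wt
    refine prod_congr rfl fun t ht => prod_congr rfl fun v hv => ?_
    obtain ⟨-, h1, h2⟩ := mem_filter.1 ht
    have hTv : Tch r X.C v := ⟨((⟨0, hr⟩, ⟨0, hr⟩) : Box r), by rw [boxPos_zero hr]; exact hv⟩
    rw [ho t v hTv h1 h2, hp t.castSucc v hv (by simpa using h1) (by simpa using h2.le),
      hp t.succ v hv (by simp; omega) (by simp; omega)]
    rw [lay_congr (η := x.o t) (η' := x'.o t) (v := v) (fun τ hτ => ?_)]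
    obtain ⟨p, hp'⟩ := hτ
    exact ho t τ ⟨p, by rw [hp']; exact hv⟩ h1 h2
  unfold TWt
  rw [hvol, hWt]

/-- YB2: number of labels of a view. -/
theorem card_vld_le (d₀ : Fin d) (lam Lam : ℕ) (Z : Finset (Vr n L)) (hZ : paths Z ≤ lam) :
    (vld (r := r) d₀ Lam Z).card ≤ labs d r n L lam Lam := by
  classical
  set S₁ : Finset (Fin (n + 1) × Site L) := univ.filter fun a => (Sum.inl a : Vr n L) ∈ Z with hS₁
  set S₂ : Finset (Fin n × Site L) := univ.filter fun a => (Sum.inr a : Vr n L) ∈ Z with hS₂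
  have h1 : (vld (r := r) d₀ Lam Z).card ≤
      ((univ.filter fun P : Fin (n + 1) × Site L → Fin d => ∀ a, a ∉ S₁ → P a = d₀) ×ˢ
        (univ.filter fun O : Fin n × Site L → Opn d r => (∀ a, a ∉ S₂ → O a = none) ∧
          (univ.filter fun a => O a ≠ none).card ≤ Lam)).card := by
    refine card_le_card_of_injOn (fun x : Asn d r n L => ((fun a => x (Sum.inl a) :
      Fin (n + 1) × Site L → Fin d), (fun a => x (Sum.inr a) : Fin n × Site L → Opn d r))) ?_ ?_
    · intro x hx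
      have hx' := (mem_filter.1 hx).2
      rw [mem_coe, mem_product, mem_filter, mem_filter]
      refine ⟨⟨mem_univ _, fun a ha => ?_⟩, mem_univ _, fun a ha => ?_, ?_⟩
      · exact hx'.1 (Sum.inl a) fun hmem => ha (mem_filter.2 ⟨mem_univ _, hmem⟩)
      · exact hx'.1 (Sum.inr a) fun hmem => ha (mem_filter.2 ⟨mem_univ _, hmem⟩)
      · refine le_trans (card_le_card ?_) hx'.2
        intro a ha
        refine mem_filter.2 ⟨mem_univ _, ?_, (mem_filter.1 ha).2⟩
        by_contra hcon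
        exact (mem_filter.1 ha).2 (hx'.1 (Sum.inr a) hcon)
    · intro x _ x' _ hxx
      rw [Prod.mk.injEq] at hxx
      funext a
      cases a with
      | inl a => exact congrFun hxx.1 a
      | inr a => exact congrFun hxx.2 a
  refine h1.trans ?_
  rw [card_product]
  unfold labs
  refine Nat.mul_le_mul ?_ ?_
  · refine (card_off_le _ _).trans ?_
    exact Nat.pow_le_pow_right (Fin.pos d₀) hZ
  · refine le_trans (le_of_eq ?_) ((card_sparse_le (P := LConf d r × LConf d r) S₂ Lam).trans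
      (Nat.pow_le_pow_left ?_ _))
    · congr 1
    · refine Nat.add_le_add_left (Nat.mul_le_mul ?_ (le_of_eq (by simp [LConf, Box]))) 1
      refine (card_le_univ _).trans (le_of_eq ?_)
      simp [Site, ZMod.card, sq]

end Pool.Agent.PepsY
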