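import Pool.Agent.PepsY.Defs

/-!
# YA4, YA6: leaves and constants
-/

open Finset

set_option autoImplicit false
set_option linter.unusedSectionVars false

namespace Pool.Agent.PepsY

open Pool.Agent.PEPS953

variable {L d : ℕ} [NeZero L]

namespace LeafAux

lemma tile_step (X Y j : ℕ) : Adj (tile L X Y 0 j) (tile L X Y 0 (j + 1)) := by
  right; left
  unfold tile
  simp only [Prod.mk.injEq, true_and]
  push_cast
  ring

lemma adj_symm {u v : Site L} (h : Adj u v) : Adj v u := by
  rcases h with h | h | h | h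
  · exact Or.inr (Or.inr (Or.inl h))
  · exact Or.inr (Or.inr (Or.inr h))
  · exact Or.inl h
  · exact Or.inr (Or.inl h)

/-- the initial segment of the left column -/
def seg (L X Y i : ℕ) : Finset (Site L) := (range (i + 1)).image fun j => tile L X Y 0 j

lemma mem_seg {X Y i j : ℕ} (h : j ≤ i) : tile L X Y 0 j ∈ seg L X Y i :=
  mem_image_of_mem _ (mem_range.2 (by omega))

lemma up (X Y i j : ℕ) (h : j ≤ i) :
    Relation.ReflTransGen (fun a b => a ∈ seg L X Y i ∧ b ∈ seg L X Y i ∧ Adj a b)
      (tile L X Y 0 0) (tile L X Y 0 j) := by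
  induction j with
  | zero => exact Relation.ReflTransGen.refl
  | succ j ih =>
    exact (ih (by omega)).tail ⟨mem_seg (by omega), mem_seg h, tile_step X Y j⟩

lemma down (X Y i j : ℕ) (h : j ≤ i) :
    Relation.ReflTransGen (fun a b => a ∈ seg L X Y i ∧ b ∈ seg L X Y i ∧ Adj a b)
      (tile L X Y 0 j) (tile L X Y 0 0) := by
  induction j with
  | zero => exact Relation.ReflTransGen.refl
  | succ j ih =>
    exact (ih (by omega)).head ⟨mem_seg h, mem_seg (by omega), adj_symm (tile_step X Y j)⟩

lemma conn_seg (X Y i : ℕ) : Conn (seg L X Y i) := by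
  intro u hu v hv
  obtain ⟨a, ha, rfl⟩ := mem_image.1 hu
  obtain ⟨b, hb, rfl⟩ := mem_image.1 hv
  exact (down X Y i a (by simpa using Nat.lt_succ_iff.1 (mem_range.1 ha))).trans
    (up X Y i b (by simpa using Nat.lt_succ_iff.1 (mem_range.1 hb)))

lemma seg_subset {X Y i S : ℕ} (hi : i < S) : seg L X Y i ⊆ square L X Y S := by
  intro u hu
  obtain ⟨j, hj, rfl⟩ := mem_image.1 hu
  have hj' := mem_range.1 hj
  exact mem_image.2 ⟨(0, j), mem_product.2 ⟨mem_range.2 (by omega), mem_range.2 (by omega)⟩, rfl⟩

lemma tile_mem_square {X Y S : ℕ} (hS : 0 < S) : tile L X Y 0 0 ∈ square L X Y S :=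
  mem_image.2 ⟨(0, 0), mem_product.2 ⟨mem_range.2 hS, mem_range.2 hS⟩, rfl⟩

lemma leaf_sum {b q : ℕ} (dec : ∀ a c : Fin q, Decidable (a = c)) (f : (Fin b → Fin q) → ℂ)
    (ℓ : Fin b → Fin q) :
    ∑ x : Fin b → Fin q, (∏ i, @ite ℂ (x i = ℓ i) (dec (x i) (ℓ i)) 1 0) * f x = f ℓ := by
  rw [sum_eq_single ℓ]
  · rw [prod_eq_one fun i _ => if_pos rfl, one_mul]
  · intro x _ hx
    obtain ⟨i, hi⟩ : ∃ i, x i ≠ ℓ i := by
      by_contra hcon
      push Not at hcon
      exact hx (funext hcon)
    rw [prod_eq_zero (mem_univ i) (if_neg hi), zero_mul]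
  · intro h
    exact absurd (mem_univ _) h

/-- the skeleton of a leaf -/
def leafSkel (L X Y b q : ℕ) : Skel L where
  ι := Fin b
  fin := inferInstance
  dec := inferInstance
  k := fun _ => q
  K := fun i => seg L X Y i

end LeafAux

open LeafAux

/-- YA4: leaves. -/
theorem place_leaf {S b q : ℕ} (hq : 0 < q) (hS : 0 < S) (hb : b ≤ S) :
    Placeable L S b q (q ^ b) Set.univ := by
  classical
  intro X Y _ _
  refine ⟨leafSkel L X Y b q, ⟨fun _ => hq, fun i => ⟨_, mem_seg (le_refl _)⟩,
    fun i => seg_subset (lt_of_lt_of_le i.2 hb), fun i => conn_seg X Y _, fun u => ?_⟩,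
    fun f _ => ?_⟩
  · have h1 : ∏ i ∈ univ.filter (fun i : Fin b => u ∈ seg L X Y i), q ≤ q ^ b := by
      rw [prod_const]
      refine Nat.pow_le_pow_right hq ?_
      exact (card_le_univ _).trans (by simp)
    exact h1
  · refine ⟨fun u ℓ x => (∏ i : Fin b, if tile L X Y 0 i = u then
        (@ite ℂ ((x i : Fin q) = ℓ i) (Classical.propDecidable _) 1 0) else 1) *
        (if u = tile L X Y 0 0 then f (fun i => x i) else 1), ?_, ?_, ?_⟩
    · intro u ℓ ℓ' x x' h1 h2
      simp only
      congr 1
      · refine prod_congr rfl fun i _ => ?_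
        split_ifs with h3 h4 h5 h5
        · rfl
        · exfalso
          apply h5
          have h6 : x i = x' i := h2 i (by rw [← h3]; exact mem_seg (le_refl _))
          rw [← h6, h4, h1 i h3]
        · exfalso
          apply h4
          have h6 : x i = x' i := h2 i (by rw [← h3]; exact mem_seg (le_refl _))
          rw [h6, h5, h1 i h3]
        · rfl
        · rfl
      · split_ifs with h3
        · congr 1
          funext i
          exact h2 i (by rw [h3]; exact mem_seg (Nat.zero_le _))
        · rfl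
    · intro u hu ℓ x
      simp only
      have hne : u ≠ tile L X Y 0 0 := by
        rintro rfl
        exact hu (tile_mem_square hS)
      rw [if_neg hne, mul_one]
      refine prod_eq_one fun i _ => if_neg fun h => hu ?_
      rw [← h]
      exact seg_subset (lt_of_lt_of_le i.2 hb) (mem_seg (le_refl _))
    · intro ℓ
      have h1 : ∀ x : (leafSkel L X Y b q).Asg, (∏ u : Site L,
          ((∏ i : Fin b, if tile L X Y 0 i = u then
            (@ite ℂ ((x i : Fin q) = ℓ i) (Classical.propDecidable _) 1 0) else 1) *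
            (if u = tile L X Y 0 0 then f (fun i => x i) else 1))) =
          (∏ i : Fin b, @ite ℂ ((x i : Fin q) = ℓ i) (Classical.propDecidable _) 1 0) *
            f (fun i => x i) := by
        intro x
        rw [prod_mul_distrib, prod_comm]
        congr 1
        · refine prod_congr rfl fun i _ => ?_
          rw [prod_ite_eq]
          simp
        · rw [prod_ite_eq']
          simp
      exact (leaf_sum (fun _ _ => Classical.propDecidable _) f ℓ).symm.trans
        (sum_congr rfl fun x _ => (h1 x).symm)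

/-- YA6: constants. -/
theorem place_const {S b q B : ℕ} {𝓕 : Set ((Fin b → Fin q) → ℂ)} (hS : 0 < S)
    (h : Placeable L S b q B 𝓕) : Placeable L S b q B (𝓕 ∪ {fun _ => 1}) := by
  classical
  intro X Y hX hY
  obtain ⟨sk, hg, hr⟩ := h X Y hX hY
  refine ⟨sk, hg, fun f hf => ?_⟩
  rcases hf with hf | hf
  · exact hr f hf
  · rw [Set.mem_singleton_iff] at hf
    subst hf
    refine ⟨fun u _ _ => if u = tile L X Y 0 0 then (∏ i, (sk.k i : ℂ))⁻¹ else 1, ?_, ?_, ?_⟩
    · intro u ℓ ℓ' x x' _ _
      rfl
    · intro u hu ℓ x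
      have hne : u ≠ tile L X Y 0 0 := by
        rintro rfl
        exact hu (tile_mem_square hS)
      exact if_neg hne
    · intro ℓ
      have h1 : ∀ x : sk.Asg, (∏ u : Site L,
          if u = tile L X Y 0 0 then (∏ i, (sk.k i : ℂ))⁻¹ else 1) = (∏ i, (sk.k i : ℂ))⁻¹ := by
        intro x
        rw [prod_ite_eq']
        simp
      rw [sum_congr rfl fun x _ => h1 x, sum_const, card_univ]
      have h2 : Fintype.card sk.Asg = ∏ i, sk.k i := by
        rw [Fintype.card_pi]
        simp
      rw [h2, nsmul_eq_mul]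
      push_cast
      refine (mul_inv_cancel₀ ?_).symm
      rw [prod_ne_zero_iff]
      intro i _
      exact_mod_cast (hg.pos i).ne'

end Pool.Agent.PepsY
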