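import Pool.Agent.PepsY.Blocks

/-!
# Regrouping with views
-/

open Finset

set_option autoImplicit false
set_option linter.unusedSectionVars false

namespace Pool.Agent.PepsY

open Pool.Agent.PEPS953 Pool.Agent.PepsX

variable {d r n L : ℕ} [NeZero L]

lemma vw_mask_pos (d₀ : Fin d) (Z : Finset (Vr n L)) (x : Asn d r n L) {a : Vr n L} (h : a ∈ Z) :
    mask d₀ Z x a = x a := if_pos h

lemma vw_mask_neg (d₀ : Fin d) (Z : Finset (Vr n L)) (x : Asn d r n L) {a : Vr n L} (h : a ∉ Z) :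
    mask d₀ Z x a = dft d₀ a := if_neg h

lemma vw_mem_cmp (d₀ : Fin d) (V E : Finset (Vr n L)) (y x : Asn d r n L) :
    x ∈ cmp d₀ V E y ↔ (∀ a ∈ E, x a = y a) ∧ ∀ a, a ∉ E → a ∉ V → x a = dft d₀ a := by
  unfold cmp
  rw [Fintype.mem_piFinset]
  constructor
  · intro h
    refine ⟨fun a h1 => ?_, fun a h1 h2 => ?_⟩
    · have := h a
      rw [if_pos h1, mem_singleton] at this
      exact this
    · have := h a
      rw [if_neg h1, if_neg h2, mem_singleton] at this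
      exact this
  · rintro ⟨h1, h2⟩ a
    by_cases he : a ∈ E
    · rw [if_pos he, mem_singleton]; exact h1 a he
    · rw [if_neg he]
      by_cases hv : a ∈ V
      · rw [if_pos hv]; exact mem_univ _
      · rw [if_neg hv, mem_singleton]; exact h2 a he hv

lemma vw_glue_spec {b : ℕ} (d₀ : Fin d) (Z : Fin b → Finset (Vr n L)) (W : Fin b → Asn d r n L)
    (a : Vr n L) (h : ∃ i, a ∈ Z i) : ∃ i, a ∈ Z i ∧ glue d₀ Z W a = W i a := by
  refine ⟨h.choose, h.choose_spec, ?_⟩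
  unfold glue
  rw [dif_pos h]

open scoped Classical in
/-- YB1: regrouping with views. -/
theorem views_sum {U : Type} [Fintype U] [DecidableEq U] {b' : ℕ} (d₀ : Fin d)
    (Vs Es : Finset (Vr n L)) (vis ex : U → Finset (Vr n L)) (hEV : Es ⊆ Vs)
    (hex : ∀ u, ex u ⊆ vis u) (hvis : ∀ x, x ∈ Vs ↔ ∃ u, x ∈ vis u)
    (hext : ∀ u x, x ∈ vis u → x ∈ Es → x ∈ ex u)
    (hdis : ∀ u u' x, u ≠ u' → x ∈ vis u → x ∈ vis u' → x ∈ ex u)
    (Z : U → Fin b' → Finset (Vr n L)) (hcov : ∀ u x, x ∈ ex u → ∃ i, x ∈ Z u i)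
    (hsub : ∀ u i, Z u i ⊆ ex u)
    (h : U → Asn d r n L → ℂ) (hh : ∀ u x x', (∀ a ∈ vis u, x a = x' a) → h u x = h u x')
    (J : U → Fin b' → Asn d r n L → ℂ)
    (hJ : ∀ u i x x', (∀ a ∈ Z u i, x a = x' a) → J u i x = J u i x')
    (𝒜 : U → Fin b' → Finset (Asn d r n L))
    (h𝒜 : ∀ u i, ∀ w ∈ 𝒜 u i, ∀ a, a ∉ Z u i → w a = dft d₀ a)
    (hJA : ∀ u i x, J u i x ≠ 0 → mask d₀ (Z u i) x ∈ 𝒜 u i) (y : Asn d r n L) :
    ∑ x ∈ cmp d₀ Vs Es y, ∏ u, (h u x * ∏ i, J u i x) =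
      ∑ W ∈ Fintype.piFinset fun u => Fintype.piFinset fun i => 𝒜 u i,
        if (∀ u i u' i' a, a ∈ Z u i → a ∈ Z u' i' → W u i a = W u' i' a) ∧
            (∀ u i a, a ∈ Z u i → a ∈ Es → W u i a = y a) then
          (∏ u, ∏ i, J u i (W u i)) *
            ∏ u, ∑ x ∈ cmp d₀ (vis u) (ex u) (glue d₀ (Z u) (W u)), h u x
        else 0 := by
  have hZex : ∀ u a, a ∈ ex u ↔ ∃ i, a ∈ Z u i := fun u a =>
    ⟨fun hx => hcov u a hx, fun ⟨i, hi⟩ => hsub u i hi⟩
  rw [← Finset.sum_filter]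
  simp_rw [Finset.prod_univ_sum, Finset.mul_sum]
  rw [Finset.sum_sigma']
  have hL : ∑ x ∈ cmp d₀ Vs Es y, ∏ u, (h u x * ∏ i, J u i x) =
      ∑ x ∈ (cmp d₀ Vs Es y).filter (fun x => ∀ u i, mask d₀ (Z u i) x ∈ 𝒜 u i),
        ∏ u, (h u x * ∏ i, J u i x) := by
    symm
    refine Finset.sum_subset (Finset.filter_subset _ _) ?_
    intro x hx hx2
    rw [mem_filter] at hx2
    push Not at hx2
    obtain ⟨u, i, hui⟩ := hx2 hx
    have h0 : J u i x = 0 := by
      by_contra hne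
      exact hui (hJA u i x hne)
    refine Finset.prod_eq_zero (mem_univ u) ?_
    rw [Finset.prod_eq_zero (mem_univ i) h0, mul_zero]
  rw [hL]
  symm
  -- the assignment `x` recovered from `(W, X)` agrees with `X u` on `vis u`
  have key : ∀ (W : U → Fin b' → Asn d r n L) (X : U → Asn d r n L),
      (∀ u i u' i' a, a ∈ Z u i → a ∈ Z u' i' → W u i a = W u' i' a) →
      (∀ u, X u ∈ cmp d₀ (vis u) (ex u) (glue d₀ (Z u) (W u))) →
      ∀ u a, a ∈ vis u → ∀ hq : ∃ u, a ∈ vis u, X hq.choose a = X u a := by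
    intro W X h1 h3 u a hua hq
    have hown : a ∈ vis hq.choose := hq.choose_spec
    by_cases hne : hq.choose = u
    · rw [hne]
    · have e1 : a ∈ ex hq.choose := hdis _ _ a hne hown hua
      have e2 : a ∈ ex u := hdis _ _ a (Ne.symm hne) hua hown
      have f1 := ((vw_mem_cmp _ _ _ _ _).1 (h3 hq.choose)).1 a e1
      have f2 := ((vw_mem_cmp _ _ _ _ _).1 (h3 u)).1 a e2
      obtain ⟨i1, g1, g1'⟩ := vw_glue_spec d₀ (Z hq.choose) (W hq.choose) a ((hZex _ _).1 e1)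
      obtain ⟨i2, g2, g2'⟩ := vw_glue_spec d₀ (Z u) (W u) a ((hZex _ _).1 e2)
      rw [f1, f2, g1', g2']
      exact h1 _ _ _ _ _ g1 g2
  have keyW : ∀ (W : U → Fin b' → Asn d r n L) (X : U → Asn d r n L),
      (∀ u i u' i' a, a ∈ Z u i → a ∈ Z u' i' → W u i a = W u' i' a) →
      (∀ u, X u ∈ cmp d₀ (vis u) (ex u) (glue d₀ (Z u) (W u))) →
      ∀ u i a, a ∈ Z u i → X u a = W u i a := by
    intro W X h1 h3 u i a hi
    have e2 : a ∈ ex u := hsub u i hi
    have f2 := ((vw_mem_cmp _ _ _ _ _).1 (h3 u)).1 a e2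
    obtain ⟨i2, g2, g2'⟩ := vw_glue_spec d₀ (Z u) (W u) a ⟨i, hi⟩
    rw [f2, g2']
    exact h1 _ _ _ _ _ g2 hi
  refine Finset.sum_bij'
    (i := fun p _ a => if hq : ∃ u, a ∈ vis u then p.2 hq.choose a else dft d₀ a)
    (j := fun x _ => ⟨fun u i => mask d₀ (Z u i) x, fun u => mask d₀ (vis u) x⟩)
    ?_ ?_ ?_ ?_ ?_
  · rintro ⟨W, X⟩ hp
    rw [mem_sigma, mem_filter, Fintype.mem_piFinset] at hp
    obtain ⟨⟨hW, h1, h2⟩, h3⟩ := hp
    rw [Fintype.mem_piFinset] at h3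
    simp only [Fintype.mem_piFinset] at hW
    dsimp only at h1 h2 h3
    rw [mem_filter, vw_mem_cmp]
    refine ⟨⟨fun a ha => ?_, fun a ha ha' => ?_⟩, fun u i => ?_⟩
    · have hq : ∃ u, a ∈ vis u := (hvis a).1 (hEV ha)
      dsimp only
      rw [dif_pos hq]
      have e1 : a ∈ ex hq.choose := hext _ _ hq.choose_spec ha
      obtain ⟨i, hi⟩ := (hZex _ _).1 e1
      rw [keyW W X h1 h3 _ i a hi]
      exact h2 _ _ _ hi ha
    · have hq : ¬ ∃ u, a ∈ vis u := fun hq => ha' ((hvis a).2 hq)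
      dsimp only
      rw [dif_neg hq]
    · have e : mask d₀ (Z u i) (fun a => if hq : ∃ u, a ∈ vis u then X hq.choose a
          else dft d₀ a) = W u i := by
        funext a
        by_cases hi : a ∈ Z u i
        · rw [vw_mask_pos _ _ _ hi]
          have hua : a ∈ vis u := hex u (hsub u i hi)
          have hq : ∃ u, a ∈ vis u := ⟨u, hua⟩
          rw [dif_pos hq, key W X h1 h3 u a hua hq, keyW W X h1 h3 u i a hi]
        · rw [vw_mask_neg _ _ _ hi]
          exact (h𝒜 u i _ (hW u i) a hi).symm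
      dsimp only
      rw [e]
      exact hW u i
  · intro x hx
    rw [mem_filter, vw_mem_cmp] at hx
    obtain ⟨⟨h1, h2⟩, h3⟩ := hx
    rw [mem_sigma, mem_filter]
    refine ⟨⟨?_, ?_, ?_⟩, ?_⟩
    · rw [Fintype.mem_piFinset]
      intro u
      rw [Fintype.mem_piFinset]
      intro i
      exact h3 u i
    · intro u i u' i' a ha ha'
      dsimp only
      rw [vw_mask_pos _ _ _ ha, vw_mask_pos _ _ _ ha']
    · intro u i a ha hE
      dsimp only
      rw [vw_mask_pos _ _ _ ha]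
      exact h1 a hE
    · rw [Fintype.mem_piFinset]
      intro u
      rw [vw_mem_cmp]
      refine ⟨fun a ha => ?_, fun a _ ha' => ?_⟩
      · dsimp only
        rw [vw_mask_pos _ _ _ (hex u ha)]
        obtain ⟨i, hi, hi'⟩ := vw_glue_spec d₀ (Z u) (fun i => mask d₀ (Z u i) x) a ((hZex _ _).1 ha)
        rw [hi', vw_mask_pos _ _ _ hi]
      · dsimp only
        rw [vw_mask_neg _ _ _ ha']
  · rintro ⟨W, X⟩ hp
    rw [mem_sigma, mem_filter, Fintype.mem_piFinset] at hp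
    obtain ⟨⟨hW, h1, h2⟩, h3⟩ := hp
    rw [Fintype.mem_piFinset] at h3
    simp only [Fintype.mem_piFinset] at hW
    dsimp only at h1 h2 h3
    refine Sigma.ext ?_ (heq_of_eq ?_)
    · dsimp only
      funext u i a
      by_cases hi : a ∈ Z u i
      · rw [vw_mask_pos _ _ _ hi]
        have hua : a ∈ vis u := hex u (hsub u i hi)
        have hq : ∃ u, a ∈ vis u := ⟨u, hua⟩
        rw [dif_pos hq, key W X h1 h3 u a hua hq, keyW W X h1 h3 u i a hi]
      · rw [vw_mask_neg _ _ _ hi]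
        exact (h𝒜 u i _ (hW u i) a hi).symm
    · dsimp only
      funext u a
      by_cases hua : a ∈ vis u
      · rw [vw_mask_pos _ _ _ hua]
        have hq : ∃ u, a ∈ vis u := ⟨u, hua⟩
        rw [dif_pos hq, key W X h1 h3 u a hua hq]
      · rw [vw_mask_neg _ _ _ hua]
        exact (((vw_mem_cmp _ _ _ _ _).1 (h3 u)).2 a (fun he => hua (hex u he)) hua).symm
  · intro x hx
    rw [mem_filter, vw_mem_cmp] at hx
    obtain ⟨⟨h1, h2⟩, _⟩ := hx
    funext a
    dsimp only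
    by_cases hq : ∃ u, a ∈ vis u
    · rw [dif_pos hq, vw_mask_pos _ _ _ hq.choose_spec]
    · rw [dif_neg hq]
      have hV : a ∉ Vs := fun hV => hq ((hvis a).1 hV)
      exact (h2 a (fun hE => hV (hEV hE)) hV).symm
  · rintro ⟨W, X⟩ hp
    rw [mem_sigma, mem_filter, Fintype.mem_piFinset] at hp
    obtain ⟨⟨hW, h1, h2⟩, h3⟩ := hp
    rw [Fintype.mem_piFinset] at h3
    simp only [Fintype.mem_piFinset] at hW
    dsimp only at h1 h2 h3
    dsimp only
    rw [← Finset.prod_mul_distrib]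
    refine Finset.prod_congr rfl fun u _ => ?_
    rw [mul_comm]
    congr 1
    · refine hh u _ _ fun a hua => ?_
      have hq : ∃ u, a ∈ vis u := ⟨u, hua⟩
      rw [dif_pos hq, key W X h1 h3 u a hua hq]
    · refine Finset.prod_congr rfl fun i _ => hJ u i _ _ fun a hi => ?_
      have hua : a ∈ vis u := hex u (hsub u i hi)
      have hq : ∃ u, a ∈ vis u := ⟨u, hua⟩
      rw [dif_pos hq, key W X h1 h3 u a hua hq, keyW W X h1 h3 u i a hi]

end Pool.Agent.PepsY
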