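import Pool.Agent.PepsY.Top
import Pool.Agent.PepsY.Leaf
import Pool.Agent.PepsY.Views
import Pool.Agent.PepsY.Labels

/-!
# YB8: the top level
-/

open Finset

set_option autoImplicit false
set_option linter.unusedSectionVars false

namespace Pool.Agent.PepsY

open Pool.Agent.PEPS953 Pool.Agent.PepsX

variable {d r n L : ℕ} [NeZero L]

namespace TopStepAux

/-- products of indicators -/
lemma prod2_ind {α β : Type*} [Fintype α] [Fintype β] (P : α → β → Prop)
    (dP : ∀ a b, Decidable (P a b)) (Q : Prop) (dQ : Decidable Q) (hPQ : (∀ a b, P a b) ↔ Q) :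
    ∏ a, ∏ b, (@ite ℂ (P a b) (dP a b) 1 0) = @ite ℂ Q dQ 1 0 :=
  prod_prod_ite P Q hPQ

/-- the code of a valid label -/
lemma dc_code (d₀ : Fin d) (Lam : ℕ) (Z : Finset (Vr n L)) (k : ℕ)
    (h : k < (vld (r := r) d₀ Lam Z).card) :
    (dc d₀ Lam Z k : Asn d r n L) = ((vld (r := r) d₀ Lam Z).equivFin.symm ⟨k, h⟩ :
      Asn d r n L) := dif_pos h

lemma dc_mem (d₀ : Fin d) (Lam : ℕ) (Z : Finset (Vr n L)) (k : ℕ)
    (h : k < (vld (r := r) d₀ Lam Z).card) :
    (dc d₀ Lam Z k : Asn d r n L) ∈ vld (r := r) d₀ Lam Z := by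
  rw [dc_code d₀ Lam Z k h]
  exact Subtype.coe_prop _

/-- Sums over families of valid labels as sums over codes. -/
lemma sum_vld {m b' q : ℕ} (d₀ : Fin d) (Lam : ℕ)
    (Z : Fin m × Fin m → Fin b' → Finset (Vr n L))
    (hq : ∀ p i, (vld (r := r) d₀ Lam (Z p i)).card ≤ q)
    (F : (Fin m × Fin m → Fin b' → Asn d r n L) → ℂ) :
    ∑ W ∈ Fintype.piFinset fun p => Fintype.piFinset fun i => vld (r := r) d₀ Lam (Z p i), F W =
      ∑ w ∈ univ.filter (fun w : Trk m b' → Fin q => ∀ a : Trk m b',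
        (w a : ℕ) < (vld (r := r) d₀ Lam (Z (a.1, a.2.1) a.2.2)).card),
        F fun p i => dc d₀ Lam (Z p i) (w (p.1, p.2, i)) := by
  classical
  have hm : ∀ W ∈ (Fintype.piFinset fun p => Fintype.piFinset fun i =>
      vld (r := r) d₀ Lam (Z p i)), ∀ p i, W p i ∈ vld (r := r) d₀ Lam (Z p i) := fun W hW p i =>
    Fintype.mem_piFinset.1 (Fintype.mem_piFinset.1 hW p) i
  symm
  refine Finset.sum_bij' (i := fun w _ p i => dc d₀ Lam (Z p i) (w (p.1, p.2, i)))
    (j := fun W hW a => ⟨((vld (r := r) d₀ Lam (Z (a.1, a.2.1) a.2.2)).equivFin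
      ⟨W (a.1, a.2.1) a.2.2, hm W hW _ _⟩ : ℕ), lt_of_lt_of_le (Fin.is_lt _) (hq _ _)⟩)
    ?_ ?_ ?_ ?_ ?_
  · intro w hw
    rw [mem_filter] at hw
    rw [Fintype.mem_piFinset]
    intro p
    rw [Fintype.mem_piFinset]
    intro i
    exact dc_mem d₀ Lam (Z p i) _ (hw.2 (p.1, p.2, i))
  · intro W hW
    rw [mem_filter]
    exact ⟨mem_univ _, fun a => Fin.is_lt ((vld (r := r) d₀ Lam (Z (a.1, a.2.1) a.2.2)).equivFin
      ⟨W (a.1, a.2.1) a.2.2, hm W hW _ _⟩)⟩
  · intro w hw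
    rw [mem_filter] at hw
    funext a
    refine Fin.ext ?_
    simp only
    have h1 : (⟨(dc d₀ Lam (Z (a.1, a.2.1) a.2.2) (w a) : Asn d r n L),
        dc_mem d₀ Lam _ _ (hw.2 a)⟩ :
        {x // x ∈ vld (r := r) d₀ Lam (Z (a.1, a.2.1) a.2.2)}) =
        (vld (r := r) d₀ Lam (Z (a.1, a.2.1) a.2.2)).equivFin.symm ⟨w a, hw.2 a⟩ :=
      Subtype.ext (dc_code d₀ Lam _ _ (hw.2 a))
    have h2 : (vld (r := r) d₀ Lam (Z (a.1, a.2.1) a.2.2)).equivFin
        ⟨(dc d₀ Lam (Z (a.1, a.2.1) a.2.2) (w a) : Asn d r n L),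
        dc_mem d₀ Lam _ _ (hw.2 a)⟩ = ⟨w a, hw.2 a⟩ := by
      rw [h1, Equiv.apply_symm_apply]
    exact congrArg Fin.val h2
  · intro W hW
    funext p i
    simp only
    rw [dc_code d₀ Lam (Z p i) _ (Fin.is_lt _)]
    simp
  · intro w hw
    rfl

lemma ext_subset_vis (X : Blk L) (h : X.s ≤ X.e) : X.ext r n ⊆ X.vis r n := by
  intro a ha
  unfold Blk.ext at ha
  unfold Blk.vis
  rcases a with a | a
  · simp only [inl_mem_disjSum, mem_filter, mem_univ, true_and] at ha ⊢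
    obtain ⟨h1, h2⟩ := ha
    refine ⟨h1, ?_, ?_⟩ <;> omega
  · simp only [inr_mem_disjSum, mem_filter, mem_univ, true_and] at ha ⊢
    exact ⟨ha.1, ha.2.2⟩

open scoped Classical in
/-- the product of the pairwise factors -/
lemma cprod {m b' q : ℕ} (d₀ : Fin d) (Lam : ℕ) (hm : 0 < m) (hb' : 0 < b')
    (Z : Fin m × Fin m → Fin b' → Finset (Vr n L)) (α : ℂ)
    (J : Fin m × Fin m → Fin b' → Asn d r n L → ℂ) (w : Trk m b' → Fin q) :
    ∏ a : Trk m b', ∏ a' : Trk m b', (if ((w a : ℕ) < (vld (r := r) d₀ Lam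
        (Z (a.1, a.2.1) a.2.2)).card ∧
        ∀ c, c ∈ Z (a.1, a.2.1) a.2.2 → c ∈ Z (a'.1, a'.2.1) a'.2.2 →
          (dc d₀ Lam (Z (a.1, a.2.1) a.2.2) (w a) : Asn d r n L) c =
            (dc d₀ Lam (Z (a'.1, a'.2.1) a'.2.2) (w a') : Asn d r n L) c) then 1 else 0) *
      (if a = a' then (if a = (⟨0, hm⟩, ⟨0, hm⟩, ⟨0, hb'⟩) then α else 1) *
        J (a.1, a.2.1) a.2.2 (dc d₀ Lam (Z (a.1, a.2.1) a.2.2) (w a)) else 1) =
      (if (∀ a : Trk m b', (w a : ℕ) < (vld (r := r) d₀ Lam (Z (a.1, a.2.1) a.2.2)).card) ∧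
        (∀ (p : Fin m × Fin m) (i : Fin b') (p' : Fin m × Fin m) (i' : Fin b') (c : Vr n L),
        c ∈ Z p i → c ∈ Z p' i' →
        (dc d₀ Lam (Z p i) (w (p.1, p.2, i)) : Asn d r n L) c =
          (dc d₀ Lam (Z p' i') (w (p'.1, p'.2, i')) : Asn d r n L) c) then 1 else 0) *
      (α * ∏ p : Fin m × Fin m, ∏ i, J p i (dc d₀ Lam (Z p i) (w (p.1, p.2, i)))) := by
  simp_rw [prod_mul_distrib]
  congr 1
  · refine prod2_ind _ _ _ _ ?_
    constructor
    · intro h
      exact ⟨fun a => (h a a).1, fun p i p' i' c h1 h2 =>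
        (h (p.1, p.2, i) (p'.1, p'.2, i')).2 c h1 h2⟩
    · intro h a a'
      exact ⟨h.1 a, fun c h1 h2 => h.2 (a.1, a.2.1) a.2.2 (a'.1, a'.2.1) a'.2.2 c h1 h2⟩
  · have h1 : ∀ a : Trk m b', (∏ a' : Trk m b', if a = a' then
        (if a = (⟨0, hm⟩, ⟨0, hm⟩, ⟨0, hb'⟩) then α else 1) *
        J (a.1, a.2.1) a.2.2 (dc d₀ Lam (Z (a.1, a.2.1) a.2.2) (w a)) else 1) =
        (if a = (⟨0, hm⟩, ⟨0, hm⟩, ⟨0, hb'⟩) then α else 1) *
        J (a.1, a.2.1) a.2.2 (dc d₀ Lam (Z (a.1, a.2.1) a.2.2) (w a)) := by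
      intro a
      rw [prod_ite_eq univ a, if_pos (mem_univ _)]
    rw [prod_congr rfl fun a _ => h1 a, prod_mul_distrib, prod_ite_eq' univ, if_pos (mem_univ _)]
    congr 1
    rw [Fintype.prod_prod_type, Fintype.prod_prod_type]
    refine prod_congr rfl fun p _ => ?_
    rw [Fintype.prod_prod_type]

lemma bdata_zero (d₀ : Fin d) (s f : Conf d L) (t : Fin (n + 1)) (v : Site L) (h : (t : ℕ) = 0) :
    (bdata d₀ s f : Asn d r n L).p t v = s v := if_pos h

lemma bdata_last (d₀ : Fin d) (hn : 0 < n) (s f : Conf d L) (t : Fin (n + 1)) (v : Site L)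
    (h : (t : ℕ) = n) : (bdata d₀ s f : Asn d r n L).p t v = f v :=
  (if_neg (by omega)).trans (if_pos h)

open scoped Classical in
/-- the product of the factors at the boundary -/
lemma eprod {m b' q : ℕ} (d₀ : Fin d) (Lam : ℕ) (hn : 0 < n)
    (Z : Fin m × Fin m → Fin b' → Finset (Vr n L)) (s f : Conf d L) (w : Trk m b' → Fin q) :
    ∏ a : Trk m b', ∏ y : ZMod L, (if (∀ x : ZMod L, ∀ t : Fin (n + 1),
        (Sum.inl (t, ((x, y) : Site L)) : Vr n L) ∈ Z (a.1, a.2.1) a.2.2 →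
        ((t : ℕ) = 0 → (dc d₀ Lam (Z (a.1, a.2.1) a.2.2) (w a) : Asn d r n L).p t (x, y) =
          (fun x => s (x, y)) x) ∧
        ((t : ℕ) = n → (dc d₀ Lam (Z (a.1, a.2.1) a.2.2) (w a) : Asn d r n L).p t (x, y) =
          (fun x => f (x, y)) x))
        then (1 : ℂ) else 0) = if (∀ (p : Fin m × Fin m) (i : Fin b') (c : Vr n L), c ∈ Z p i →
          c ∈ (full L n).ext r n → (dc d₀ Lam (Z p i) (w (p.1, p.2, i)) : Asn d r n L) c =
            (bdata d₀ s f : Asn d r n L) c) then 1 else 0 := by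
  refine prod2_ind _ _ _ _ ?_
  constructor
  · intro h p i c h1 h2
    rcases c with ⟨t, x, y⟩ | ⟨t, τ⟩
    · have h3 := h (p.1, p.2, i) y x t h1
      unfold Blk.ext at h2
      simp only [inl_mem_disjSum, mem_filter, mem_univ, true_and, full] at h2
      rcases h2 with h2 | h2
      · exact (h3.1 h2).trans (bdata_zero d₀ s f t (x, y) h2).symm
      · exact (h3.2 h2).trans (bdata_last d₀ hn s f t (x, y) h2).symm
    · unfold Blk.ext at h2
      rw [inr_mem_disjSum, mem_filter] at h2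
      exact absurd (fun p => mem_univ _) h2.2.2.1
  · intro h a y x t h1
    refine ⟨fun h2 => ?_, fun h2 => ?_⟩
    · have h3 := h (a.1, a.2.1) a.2.2 _ h1 (by
        unfold Blk.ext
        simp only [inl_mem_disjSum, mem_filter, mem_univ, true_and, full]
        exact Or.inl h2)
      exact h3.trans (bdata_zero d₀ s f t (x, y) h2)
    · have h3 := h (a.1, a.2.1) a.2.2 _ h1 (by
        unfold Blk.ext
        simp only [inl_mem_disjSum, mem_filter, mem_univ, true_and, full]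
        exact Or.inr h2)
      exact h3.trans (bdata_last d₀ hn s f t (x, y) h2)

end TopStepAux

open TopStepAux

set_option linter.unusedVariables false in
/-- YB8: the top level. -/
theorem top_step {V' m b' q lam Lam S' B : ℕ} {PP' : Blk L → Prop}
    {𝓖' : Set ((Fin b' → Fin q) → ℂ)} (hr : 0 < r) (hPP' : ∀ X, PP' X → X.s ≤ X.e)
    (d₀ : Fin d) (hm : 0 < m) (hb' : 0 < b')
    (hn : 0 < n) (hS' : 0 < S') (hq : labs d r n L lam Lam ≤ q)
    (h' : LevelOK n r d₀ PP' V' b' q lam Lam 𝓖') (hP : Placeable L S' b' q B 𝓖')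
    (h1 : m * S' ≤ L) (h2 : m * b' ≤ S') (D : Dcp d r n (full L n) PP' m b' lam Lam) :
    IsPEPO (d ^ L * d ^ L * (q ^ 3 * B)) (fun s f =>
      ∑ x ∈ cmp d₀ ((full L n).vis r n) ((full L n).ext r n) (bdata d₀ s f), D.val V' x) := by
  classical
  -- the embedding
  obtain ⟨e⟩ : Nonempty (D.U ↪ Fin m × Fin m) := by
    refine Function.Embedding.nonempty_of_card_le ?_
    have := D.card_le
    rw [Fintype.card_prod, Fintype.card_fin]
    nlinarith [this]
  have hinj : Function.Injective e := e.injective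
  -- the extended data
  set xvis : Fin m × Fin m → Finset (Vr n L) :=
    Function.extend e (fun u => (D.X' u).vis r n) (fun _ => ∅) with hxvis
  set xex : Fin m × Fin m → Finset (Vr n L) :=
    Function.extend e (fun u => (D.X' u).ext r n) (fun _ => ∅) with hxex
  set xZ : Fin m × Fin m → Fin b' → Finset (Vr n L) :=
    Function.extend e D.Z (fun _ _ => ∅) with hxZ
  set xJ : Fin m × Fin m → Fin b' → Asn d r n L → ℂ :=
    Function.extend e D.J (fun _ _ _ => 1) with hxJ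
  set xh : Fin m × Fin m → Asn d r n L → ℂ :=
    Function.extend e (fun u => TWt D.w' V' (D.X' u)) (fun _ _ => 1) with hxh
  have cvis : ∀ u, xvis (e u) = (D.X' u).vis r n := fun u => hinj.extend_apply _ _ _
  have cex : ∀ u, xex (e u) = (D.X' u).ext r n := fun u => hinj.extend_apply _ _ _
  have cZ : ∀ u, xZ (e u) = D.Z u := fun u => hinj.extend_apply _ _ _
  have cJ : ∀ u, xJ (e u) = D.J u := fun u => hinj.extend_apply _ _ _
  have ch : ∀ u, xh (e u) = TWt D.w' V' (D.X' u) := fun u => hinj.extend_apply _ _ _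
  have nvis : ∀ p, (¬ ∃ u, e u = p) → xvis p = ∅ := fun p hp => Function.extend_apply' _ _ _ hp
  have nex : ∀ p, (¬ ∃ u, e u = p) → xex p = ∅ := fun p hp => Function.extend_apply' _ _ _ hp
  have nZ : ∀ p, (¬ ∃ u, e u = p) → xZ p = fun _ => ∅ :=
    fun p hp => Function.extend_apply' _ _ _ hp
  have nJ : ∀ p, (¬ ∃ u, e u = p) → xJ p = fun _ _ => 1 :=
    fun p hp => Function.extend_apply' _ _ _ hp
  have nh : ∀ p, (¬ ∃ u, e u = p) → xh p = fun _ => 1 :=
    fun p hp => Function.extend_apply' _ _ _ hp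
  have hpZ : ∀ p i, paths (xZ p i) ≤ lam := by
    intro p i
    by_cases hp : ∃ u, e u = p
    · obtain ⟨u, rfl⟩ := hp
      rw [cZ]
      exact D.hpth u i
    · rw [nZ p hp]
      simp [paths]
  have hcard : ∀ p i, (vld (r := r) d₀ Lam (xZ p i)).card ≤ q := fun p i =>
    (card_vld_le d₀ lam Lam _ (hpZ p i)).trans hq
  have hq0 : 0 < q := by
    refine lt_of_lt_of_le ?_ hq
    unfold labs
    have := d₀.pos
    positivity
  -- the value of the decomposition
  have hval : ∀ x, D.val V' x = D.a * ∏ p, (xh p x * ∏ i, xJ p i x) := by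
    intro x
    unfold Dcp.val
    congr 1
    refine Fintype.prod_of_injective e hinj _ _ ?_ ?_
    · intro p hp
      have hp' : ¬ ∃ u, e u = p := hp
      rw [nh p hp', nJ p hp']
      simp
    · intro u
      rw [ch, cJ]
  -- the functions of the children
  have hch : ∀ p : Fin m × Fin m, ∃ f ∈ 𝓖' ∪ {fun _ => (1 : ℂ)}, ∀ ℓ : Fin b' → Fin q,
      (∀ i, (ℓ i : ℕ) < (vld (r := r) d₀ Lam (xZ p i)).card) →
      (∀ i i' a, a ∈ xZ p i → a ∈ xZ p i' →
        (dc d₀ Lam (xZ p i) (ℓ i) : Asn d r n L) a = (dc d₀ Lam (xZ p i') (ℓ i') : Asn d r n L) a) →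
      f ℓ = ∑ x ∈ cmp d₀ (xvis p) (xex p) (glue d₀ (xZ p) fun i => dc d₀ Lam (xZ p i) (ℓ i)),
        xh p x := by
    intro p
    by_cases hp : ∃ u, e u = p
    · obtain ⟨u, rfl⟩ := hp
      obtain ⟨f, hf, hA⟩ := h' (D.X' u) (D.prop u) D.w' (D.Z u)
        ⟨fun a ha => D.hcov u a ha, fun i => D.hsub u i, fun i => D.hpth u i⟩
      refine ⟨f, Or.inl hf, ?_⟩
      rw [cZ, cvis, cex, ch]
      exact hA
    · refine ⟨fun _ => 1, Or.inr rfl, fun ℓ _ _ => ?_⟩
      rw [nvis p hp, nex p hp, nh p hp]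
      simp [cmp]
  choose FF hFF hFA using hch
  refine top_pepo d₀.pos hq0 hm hS' (place_const hS' hP) h1 h2
    (fun a a' k k' => (if ((k : ℕ) < (vld (r := r) d₀ Lam (xZ (a.1, a.2.1) a.2.2)).card ∧
        ∀ c, c ∈ xZ (a.1, a.2.1) a.2.2 → c ∈ xZ (a'.1, a'.2.1) a'.2.2 →
          (dc d₀ Lam (xZ (a.1, a.2.1) a.2.2) k : Asn d r n L) c =
            (dc d₀ Lam (xZ (a'.1, a'.2.1) a'.2.2) k' : Asn d r n L) c) then 1 else 0) *
      (if a = a' then (if a = (⟨0, hm⟩, ⟨0, hm⟩, ⟨0, hb'⟩) then D.a else 1) *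
        xJ (a.1, a.2.1) a.2.2 (dc d₀ Lam (xZ (a.1, a.2.1) a.2.2) k) else 1))
    (fun p p' => FF (p, p')) (fun p p' => hFF (p, p'))
    (fun a y sr fr k => if (∀ x : ZMod L, ∀ t : Fin (n + 1),
        (Sum.inl (t, ((x, y) : Site L)) : Vr n L) ∈ xZ (a.1, a.2.1) a.2.2 →
        ((t : ℕ) = 0 → (dc d₀ Lam (xZ (a.1, a.2.1) a.2.2) k : Asn d r n L).p t (x, y) = sr x) ∧
        ((t : ℕ) = n → (dc d₀ Lam (xZ (a.1, a.2.1) a.2.2) k : Asn d r n L).p t (x, y) = fr x))
        then 1 else 0) _ ?_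
  intro s f
  obtain ⟨y, hy⟩ : ∃ y : Asn d r n L, y = bdata d₀ s f := ⟨_, rfl⟩
  have hvs := views_sum (U := Fin m × Fin m) d₀ ((full L n).vis r n) ((full L n).ext r n) xvis xex
    (ext_subset_vis _ (Nat.zero_le _)) (by
      intro p
      by_cases hp : ∃ u, e u = p
      · obtain ⟨u, rfl⟩ := hp
        rw [cex, cvis]
        exact ext_subset_vis _ (hPP' _ (D.prop u))
      · rw [nex p hp]
        exact empty_subset _) (by
      intro x
      rw [D.hvis]
      constructor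
      · rintro ⟨u, hu⟩
        exact ⟨e u, by rw [cvis]; exact hu⟩
      · rintro ⟨p, hp⟩
        by_cases hp' : ∃ u, e u = p
        · obtain ⟨u, rfl⟩ := hp'
          rw [cvis] at hp
          exact ⟨u, hp⟩
        · rw [nvis p hp'] at hp
          exact absurd hp (notMem_empty _)) (by
      intro p x hx hx2
      by_cases hp' : ∃ u, e u = p
      · obtain ⟨u, rfl⟩ := hp'
        rw [cvis] at hx
        rw [cex]
        exact D.hext u x hx hx2
      · rw [nvis p hp'] at hx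
        exact absurd hx (notMem_empty _)) (by
      intro p p' x hne hx hx2
      by_cases hp : ∃ u, e u = p
      · obtain ⟨u, rfl⟩ := hp
        by_cases hp' : ∃ u, e u = p'
        · obtain ⟨u', rfl⟩ := hp'
          rw [cvis] at hx hx2
          rw [cex]
          exact D.hdis u u' x (fun h => hne (by rw [h])) hx hx2
        · rw [nvis p' hp'] at hx2
          exact absurd hx2 (notMem_empty _)
      · rw [nvis p hp] at hx
        exact absurd hx (notMem_empty _))
    xZ (by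
      intro p x hx
      by_cases hp : ∃ u, e u = p
      · obtain ⟨u, rfl⟩ := hp
        rw [cex] at hx
        rw [cZ]
        exact D.hcov u x hx
      · rw [nex p hp] at hx
        exact absurd hx (notMem_empty _)) (by
      intro p i
      by_cases hp : ∃ u, e u = p
      · obtain ⟨u, rfl⟩ := hp
        rw [cex, cZ]
        exact D.hsub u i
      · rw [nZ p hp]
        exact empty_subset _)
    xh (by
      intro p x x' hx
      by_cases hp : ∃ u, e u = p
      · obtain ⟨u, rfl⟩ := hp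
        rw [cvis] at hx
        rw [ch]
        exact TWt_congr hr _ _ _ _ _ hx
      · rw [nh p hp])
    xJ (by
      intro p i x x' hx
      by_cases hp : ∃ u, e u = p
      · obtain ⟨u, rfl⟩ := hp
        rw [cZ] at hx
        rw [cJ]
        exact D.hJ u i x x' hx
      · rw [nJ p hp])
    (fun p i => vld (r := r) d₀ Lam (xZ p i)) (by
      intro p i w hw
      unfold vld at hw
      rw [mem_filter] at hw
      exact hw.2.1) (by
      intro p i x hx
      unfold vld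
      rw [mem_filter]
      refine ⟨mem_univ _, fun a ha => vw_mask_neg d₀ _ x ha, ?_⟩
      by_cases hp : ∃ u, e u = p
      · obtain ⟨u, rfl⟩ := hp
        rw [cJ] at hx
        rw [cZ]
        refine D.hJ0 u i _ ?_
        rwa [D.hJ u i (mask d₀ (D.Z u i) x) x fun a ha => vw_mask_pos d₀ _ x ha]
      · rw [nZ p hp]
        simp [lets]) y
  rw [sum_vld (q := q) d₀ Lam xZ hcard, sum_filter] at hvs
  have hL : ∑ x ∈ cmp d₀ ((full L n).vis r n) ((full L n).ext r n) (bdata d₀ s f),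
      D.val V' x = D.a * ∑ x ∈ cmp d₀ ((full L n).vis r n) ((full L n).ext r n) y,
        ∏ p, (xh p x * ∏ i, xJ p i x) := by
    rw [mul_sum, hy]
    exact sum_congr rfl fun x _ => hval x
  refine hL.trans ((congrArg (fun z => D.a * z) hvs).trans ?_)
  simp only
  rw [mul_sum]
  refine sum_congr rfl fun w _ => ?_
  have e1 := cprod d₀ Lam hm hb' xZ D.a xJ w
  have e2 := eprod (r := r) d₀ Lam hn xZ s f w
  rw [← hy] at e2
  refine Eq.trans ?_ (congrArg₂ (fun z z' => z * (∏ p, ∏ p', FF (p, p') fun i => w (p, p', i)) * z')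
    e1.symm e2.symm)
  by_cases hv : ∀ a : Trk m b', (w a : ℕ) < (vld (r := r) d₀ Lam (xZ (a.1, a.2.1) a.2.2)).card
  · by_cases hc : ∀ (p : Fin m × Fin m) (i : Fin b') (p' : Fin m × Fin m) (i' : Fin b') (c : Vr n L),
        c ∈ xZ p i → c ∈ xZ p' i' →
        (dc d₀ Lam (xZ p i) (w (p.1, p.2, i)) : Asn d r n L) c =
          (dc d₀ Lam (xZ p' i') (w (p'.1, p'.2, i')) : Asn d r n L) c
    · rw [if_pos hv, if_pos (⟨hv, hc⟩ : _ ∧ _)]
      by_cases hE : ∀ (p : Fin m × Fin m) (i : Fin b') (c : Vr n L), c ∈ xZ p i →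
          c ∈ (full L n).ext r n → (dc d₀ Lam (xZ p i) (w (p.1, p.2, i)) : Asn d r n L) c = y c
      · rw [if_pos (⟨hc, hE⟩ : _ ∧ _), if_pos hE]
        have h3 : ∏ p : Fin m, ∏ p' : Fin m, FF (p, p') (fun i => w (p, p', i)) =
            ∏ p : Fin m × Fin m, ∑ x ∈ cmp d₀ (xvis p) (xex p)
              (glue d₀ (xZ p) fun i => dc d₀ Lam (xZ p i) (w (p.1, p.2, i))), xh p x := by
          rw [← Fintype.prod_prod_type' (f := fun p p' => FF (p, p') (fun i => w (p, p', i)))]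
          refine prod_congr rfl fun p _ => ?_
          exact hFA p (fun i => w (p.1, p.2, i)) (fun i => hv (p.1, p.2, i))
            (fun i i' c h4 h5 => hc p i p i' c h4 h5)
        rw [h3]
        ring
      · rw [if_neg (fun h => hE h.2), if_neg hE]
        ring
    · rw [if_pos hv, if_neg (fun h => hc h.1), if_neg (fun h => hc h.2)]
      ring
  · rw [if_neg hv, if_neg (fun h => hv h.1)]
    ring

end Pool.Agent.PepsY
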