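import Pool.Agent.PepsY.Levels
import Pool.Agent.PepsY.GeoTorus
import Pool.Agent.PepsY.AevalAmp
import Pool.Agent.PepsY.TopStep

/-!
# Assembly
-/

open Finset

set_option autoImplicit false
set_option linter.unusedSectionVars false

namespace Pool.Agent.PepsY

open Pool.Agent.PEPS953 Pool.Agent.PepsX

variable {d r n L : ℕ} [NeZero L]

/-- There are no external letters in the whole space-time. -/
lemma lets_full (x : Asn d r n L) : lets ((full L n).ext r n) x = 0 := by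
  unfold lets
  rw [Finset.card_eq_zero, Finset.filter_eq_empty_iff]
  rintro a - ⟨h, -⟩
  unfold Blk.ext full at h
  simp only [Finset.inr_mem_disjSum, Finset.mem_filter, Finset.mem_univ, true_and] at h
  exact h.2.1 fun p => Finset.mem_univ _

/-- The bound on the bond dimension of the polynomials of the Hamiltonian. -/
theorem assemble (hr : 0 < r) (d₀ : Fin d) {ρ c₁ lam R q K Tm N : ℕ} (hn : 0 < n)
    (hρ : 24 * r + 310 ≤ ρ)
    (hρ' : 24 * (8 * r + 1) * c₁ + 4 ≤ ρ) (hnc : n ≤ c₁ * L ^ 3)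
    (hR : 24 * r + 8 ≤ R) (hlam : 0 < lam) (hlamL : 12 * r * L ≤ lam) (hlam2 : lam ≤ (ρ * R) ^ 2)
    (hq : labs d r n L lam (2 * lam) ≤ q) (hq0 : 0 < q)
    (hK : 2 * (ρ ^ K * R) + r ≤ L) (hL : L ≤ 2 * (ρ * (ρ ^ K * R)))
    (hT : ∀ i < K, profs n L (ρ ^ i * R) (2 * ρ + 1) (ρ ^ 2) (ρ ^ i * R)
      ((ρ ^ i * R) ^ 2 / lam + 1) * q ^ 5 ≤ Tm)
    (hN : profs n L (ρ ^ K * R) (L / (ρ ^ K * R)) (ρ ^ 2) (ρ ^ K * R)
      ((ρ ^ K * R) ^ 2 / lam + 1) ≤ N)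
    (hfit : ρ ^ 2 * (ρ ^ (2 * K) * (ρ ^ 2 * (bb lam R + 3))) ≤ L)
    (h : Matrix (LConf d r) (LConf d r) ℂ) (P : Polynomial ℂ) (hP : P.natDegree ≤ n)
    {D₀ : ℕ} {Φ₀ : Hil d L} (hΦ₀ : IsPEPS D₀ Φ₀) :
    ∃ D : ℕ, D ≤ ((n + 1) * (n * L ^ 2 + 1) * N) * (D₀ * (d ^ L * d ^ L * (q ^ 3 *
      (Tm ^ K * q ^ bb lam R)))) ∧ IsPEPS D (Polynomial.aeval (ham L h) P Φ₀) := by
  obtain ⟨B, 𝓖, h1, h2, h3⟩ := levels (n := n) hr d₀ hρ hR hlam hlamL hlam2 hq hq0 hK hT K le_rfl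
  have hρ0 : 0 < ρ := by omega
  set R' := ρ ^ K * R with hR'
  set N' := profs n L R' (L / R') (ρ ^ 2) R' (R' ^ 2 / lam + 1) with hN'
  have hRR' : R ≤ R' := Nat.le_mul_of_pos_left _ (by positivity)
  have hR'L : R' ≤ L := by omega
  obtain ⟨Geo⟩ := geo_torus (L := L) (R := R') hr (by omega) hK
  have hrL : r ≤ L := by omega
  obtain ⟨c, w, hcw⟩ := aeval_amp hr hrL hn d₀ h P hP
  have hX : (full L n).s < (full L n).e ∧ (full L n).e ≤ n := ⟨hn, le_rfl⟩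
  have hlam12 : 12 * r * R' ≤ lam := (Nat.mul_le_mul_left _ hR'L).trans hlamL
  have hdc : ∀ k, ∃ D : Fin N' → Dcp d r n (full L n) (LBlk n R') (ρ ^ 2) (bb lam R') lam (2 * lam),
      ∀ x, lets ((full L n).ext r n) x ≤ 0 → TWt (w k) n (full L n) x =
        ∑ j, (D j).val (R' ^ 3) x := fun k =>
    exists_dcps hr (prm_top (c₁ := c₁) hρ' (by omega) hlam hlam12 hL hnc) (full L n) hX Geo d₀ (w k)
  choose D hD using hdc
  have hb0 : 0 < bb lam R' := Nat.add_pos_left (Nat.succ_pos _) _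
  have hfit2 : ρ ^ 2 * bb lam R' ≤ ρ ^ (2 * K) * (ρ ^ 2 * (bb lam R + 3)) := by
    calc ρ ^ 2 * bb lam R' ≤ ρ ^ 2 * (ρ ^ (2 * K) * (bb lam R + 3)) :=
          Nat.mul_le_mul_left _ (bb_pow_le hlam hρ0 K)
      _ = _ := by ring
  have hstep : ∀ k j, IsPEPO (d ^ L * d ^ L * (q ^ 3 * B)) (fun s f =>
      ∑ x ∈ cmp d₀ ((full L n).vis r n) ((full L n).ext r n) (bdata d₀ s f),
        (D k j).val (R' ^ 3) x) := fun k j =>
    top_step hr (fun X hX => hX.1.le) d₀ (by positivity) hb0 hn (by positivity) hq h2 h1 hfit hfit2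
      (D k j)
  have hψ : ∀ g : Fin ((n + 1) * (n * L ^ 2 + 1)) × Fin N',
      IsPEPS (D₀ * (d ^ L * d ^ L * (q ^ 3 * B))) (c g.1 • (WithLp.toLp 2 fun s => ∑ f,
        (∑ x ∈ cmp d₀ ((full L n).vis r n) ((full L n).ext r n) (bdata d₀ s f),
          (D g.1 g.2).val (R' ^ 3) x) * Φ₀ f : Hil d L)) := fun g =>
    (pepo_apply (hstep g.1 g.2) hΦ₀ _ (fun s => rfl)).smul _
  have hsum : Polynomial.aeval (ham L h) P Φ₀ = ∑ g : Fin ((n + 1) * (n * L ^ 2 + 1)) × Fin N',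
      (c g.1 • (WithLp.toLp 2 fun s => ∑ f,
        (∑ x ∈ cmp d₀ ((full L n).vis r n) ((full L n).ext r n) (bdata d₀ s f),
          (D g.1 g.2).val (R' ^ 3) x) * Φ₀ f : Hil d L)) := by
    ext s
    rw [hcw Φ₀ s, WithLp.ofLp_sum, Finset.sum_apply, Fintype.sum_prod_type]
    simp only [WithLp.ofLp_smul, Pi.smul_apply, smul_eq_mul]
    have e1 : ∀ k f, Amp d₀ (w k) n (full L n) (bdata d₀ s f) = ∑ j,
        ∑ x ∈ cmp d₀ ((full L n).vis r n) ((full L n).ext r n) (bdata d₀ s f),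
          (D k j).val (R' ^ 3) x := by
      intro k f
      unfold Amp
      rw [sum_comm]
      exact sum_congr rfl fun x _ => hD k x (lets_full x).le
    simp only [e1, Finset.sum_mul, Finset.mul_sum]
    rw [sum_comm]
    refine sum_congr rfl fun k _ => ?_
    rw [sum_comm]
    refine sum_congr rfl fun j _ => sum_congr rfl fun f _ => sum_congr rfl fun x _ => ?_
    ring
  refine ⟨_, ?_, hsum ▸ isPEPS_sum _ hψ⟩
  rw [Fintype.card_prod, Fintype.card_fin, Fintype.card_fin]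
  gcongr

end Pool.Agent.PepsY
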