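import Pool.Agent.PepsY.Assemble

/-!
# The choice of the parameters
-/

open Finset

set_option autoImplicit false
set_option linter.unusedSectionVars false

namespace Pool.Agent.PepsY

open Pool.Agent.PEPS953 Pool.Agent.PepsX

/-- The number of labels. -/
lemma labs_le {d r n L lam : ℕ} (hdL : d ≤ L)
    (h1 : 1 + n * L ^ 2 * (d ^ (r * r) * d ^ (r * r)) ≤ L ^ 9) :
    labs d r n L lam (2 * lam) ≤ L ^ (19 * lam) := by
  unfold labs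
  calc d ^ lam * (1 + n * L ^ 2 * (d ^ (r * r) * d ^ (r * r))) ^ (2 * lam)
      ≤ L ^ lam * (L ^ 9) ^ (2 * lam) := by gcongr
    _ = L ^ (19 * lam) := by rw [← pow_mul, ← pow_add]; congr 1; ring

/-- The number of profiles. -/
lemma profs_le {n L R g m lam : ℕ} (hL : 0 < L) (hR : R ≤ L) (hg : g ≤ L) (hlam : L ≤ lam)
    (h1 : (L + 1) * n * L ^ 2 + 1 ≤ L ^ 9) :
    profs n L R g m R (R ^ 2 / lam + 1) ≤ L ^ ((29 + 45 * m ^ 2) * L) := by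
  have h2 : (R + 1) * n * L ^ 2 + 1 ≤ L ^ 9 := by
    refine le_trans ?_ h1
    gcongr
  have h3 : 1 + g ^ 2 * n ≤ L ^ 9 := by
    refine le_trans ?_ h1
    have e1 : g ^ 2 * n ≤ L ^ 2 * n := Nat.mul_le_mul_right _ (Nat.pow_le_pow_left hg 2)
    have e2 : L ^ 2 * n ≤ (L + 1) * n * L ^ 2 := by
      calc L ^ 2 * n = 1 * n * L ^ 2 := by ring
        _ ≤ (L + 1) * n * L ^ 2 := by gcongr; omega
    omega
  have h4 : R ^ 2 / lam ≤ L := by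
    refine Nat.div_le_of_le_mul ?_
    calc R ^ 2 = R * R := by ring
      _ ≤ lam * L := Nat.mul_le_mul (hR.trans hlam) hR
  unfold profs profs₁ profs₂
  calc R * R * ((R + 1) * n * L ^ 2 + 1) ^ (2 * R + 1) *
        ((1 + g ^ 2 * n) ^ (m ^ 2 * (1 + (R ^ 2 / lam + 1))) *
          ((R + 1) * n * L ^ 2 + 1) ^ (2 * m ^ 2))
      ≤ L * L * (L ^ 9) ^ (2 * L + 1) *
        ((L ^ 9) ^ (m ^ 2 * (1 + (L + 1))) * (L ^ 9) ^ (2 * m ^ 2)) := by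
        gcongr
        all_goals exact Nat.one_le_pow _ _ hL
    _ = L ^ (2 + 9 * (2 * L + 1) + (9 * (m ^ 2 * (1 + (L + 1))) + 9 * (2 * m ^ 2))) := by
        simp only [← pow_mul, ← pow_add, ← pow_two]
    _ ≤ L ^ ((29 + 45 * m ^ 2) * L) := by
        apply Nat.pow_le_pow_right hL
        have : m ^ 2 ≤ m ^ 2 * L := Nat.le_mul_of_pos_right _ hL
        have e : 2 + 9 * (2 * L + 1) + (9 * (m ^ 2 * (1 + (L + 1))) + 9 * (2 * m ^ 2)) =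
          11 + 18 * L + 9 * (m ^ 2 * L) + 36 * m ^ 2 := by ring
        have e' : (29 + 45 * m ^ 2) * L = 29 * L + 45 * (m ^ 2 * L) := by ring
        omega

theorem poly_peps (d r c₁ : ℕ) (hd : 2 ≤ d) (hr : 0 < r) :
    ∃ c L₀ : ℕ, ∀ (L : ℕ) [NeZero L], L₀ ≤ L → ∀ n, 0 < n → n ≤ c₁ * L ^ 3 →
      ∀ (h : Matrix (LConf d r) (LConf d r) ℂ) (P : Polynomial ℂ), P.natDegree ≤ n →
      ∀ (D₀ : ℕ) (Φ₀ : Hil d L), IsPEPS D₀ Φ₀ →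
      ∃ K D : ℕ, 3 ^ K ≤ L ∧ D ≤ D₀ * L ^ (c * L * (K + 1)) ∧
        IsPEPS D (Polynomial.aeval (ham L h) P Φ₀) := by
  obtain ⟨ρ, hρ⟩ : ∃ ρ : ℕ, ρ = 24 * (8 * r + 1) * c₁ + 24 * r + 314 := ⟨_, rfl⟩
  obtain ⟨A, hA⟩ : ∃ A : ℕ, A = d ^ (r * r) * d ^ (r * r) := ⟨_, rfl⟩
  refine ⟨18 + 29 + 45 * ρ ^ 4 + 2 + 1026 * ρ ^ 2 + (29 + 45 * ρ ^ 4 + 1710 * ρ ^ 2) +
    342 * ρ ^ 2 * (24 * ρ ^ 2 + 3), 48 * ρ ^ 4 + d + (2 * c₁ + 1) + (c₁ * A + 1), ?_⟩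
  intro L _ hL n hn hnc h P hP D₀ Φ₀ hΦ₀
  have hρ1 : 24 * r + 310 ≤ ρ := by omega
  have hρ2 : 24 * (8 * r + 1) * c₁ + 4 ≤ ρ := by omega
  have hρ0 : 0 < ρ := by omega
  have hL1 : 48 * ρ ^ 4 ≤ L := by omega
  have hL0 : 0 < L := Nat.pos_of_ne_zero (NeZero.ne L)
  have hdL : d ≤ L := by omega
  have hc1L : 2 * c₁ + 1 ≤ L := by omega
  have hAL : c₁ * A + 1 ≤ L := by omega
  have hn5 : n * L ^ 2 ≤ c₁ * L ^ 5 := by
    calc n * L ^ 2 ≤ c₁ * L ^ 3 * L ^ 2 := by gcongr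
      _ = c₁ * L ^ 5 := by ring
  have b1 : (L + 1) * n * L ^ 2 + 1 ≤ L ^ 9 := by
    calc (L + 1) * n * L ^ 2 + 1 = (L + 1) * (n * L ^ 2) + 1 := by ring
      _ ≤ (2 * L) * (c₁ * L ^ 5) + L ^ 6 :=
        Nat.add_le_add (Nat.mul_le_mul (by omega) hn5) (Nat.one_le_pow _ _ hL0)
      _ = (2 * c₁ + 1) * L ^ 6 := by ring
      _ ≤ L * L ^ 6 := Nat.mul_le_mul_right _ hc1L
      _ = L ^ 7 := by ring
      _ ≤ L ^ 9 := Nat.pow_le_pow_right hL0 (by norm_num)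
  have b2 : 1 + n * L ^ 2 * (d ^ (r * r) * d ^ (r * r)) ≤ L ^ 9 := by
    rw [← hA]
    calc 1 + n * L ^ 2 * A ≤ L ^ 5 + c₁ * L ^ 5 * A :=
          Nat.add_le_add (Nat.one_le_pow _ _ hL0) (Nat.mul_le_mul_right _ hn5)
      _ = (c₁ * A + 1) * L ^ 5 := by ring
      _ ≤ L * L ^ 5 := Nat.mul_le_mul_right _ hAL
      _ = L ^ 6 := by ring
      _ ≤ L ^ 9 := Nat.pow_le_pow_right hL0 (by norm_num)
  have b4 : n * L ^ 2 + 1 ≤ L ^ 9 := by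
    refine le_trans ?_ b1
    have : 1 * (n * L ^ 2) ≤ (L + 1) * (n * L ^ 2) := Nat.mul_le_mul_right _ (by omega)
    calc n * L ^ 2 + 1 = 1 * (n * L ^ 2) + 1 := by ring
      _ ≤ (L + 1) * (n * L ^ 2) + 1 := by omega
      _ = _ := by ring
  have b3 : n + 1 ≤ L ^ 9 := by
    refine le_trans ?_ b4
    have : n * 1 ≤ n * L ^ 2 := Nat.mul_le_mul_left _ (Nat.one_le_pow _ _ hL0)
    omega
  -- the scale
  have hsq : ρ * (Nat.sqrt (12 * ρ ^ 2 * L) + 1) ≤ L := by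
    have e1 : 1 ≤ Nat.sqrt (12 * ρ ^ 2 * L) := by
      rw [Nat.le_sqrt']
      have : 0 < 12 * ρ ^ 2 * L := by positivity
      omega
    have e2 : Nat.sqrt (12 * ρ ^ 2 * L) ^ 2 ≤ 12 * ρ ^ 2 * L := Nat.sqrt_le' _
    refine (Nat.pow_le_pow_iff_left two_ne_zero).mp ?_
    calc (ρ * (Nat.sqrt (12 * ρ ^ 2 * L) + 1)) ^ 2
        ≤ (ρ * (2 * Nat.sqrt (12 * ρ ^ 2 * L))) ^ 2 :=
          Nat.pow_le_pow_left (Nat.mul_le_mul_left _ (by omega)) 2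
      _ = ρ ^ 2 * 4 * Nat.sqrt (12 * ρ ^ 2 * L) ^ 2 := by ring
      _ ≤ ρ ^ 2 * 4 * (12 * ρ ^ 2 * L) := Nat.mul_le_mul_left _ e2
      _ = (48 * ρ ^ 4) * L := by ring
      _ ≤ L * L := Nat.mul_le_mul_right _ hL1
      _ = L ^ 2 := by ring
  have hR2 : (ρ * (Nat.sqrt (12 * ρ ^ 2 * L) + 1)) ^ 2 ≤ 48 * ρ ^ 4 * L := by
    have e1 : 1 ≤ Nat.sqrt (12 * ρ ^ 2 * L) := by
      rw [Nat.le_sqrt']
      have : 0 < 12 * ρ ^ 2 * L := by positivity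
      omega
    have e2 : Nat.sqrt (12 * ρ ^ 2 * L) ^ 2 ≤ 12 * ρ ^ 2 * L := Nat.sqrt_le' _
    calc (ρ * (Nat.sqrt (12 * ρ ^ 2 * L) + 1)) ^ 2
        ≤ (ρ * (2 * Nat.sqrt (12 * ρ ^ 2 * L))) ^ 2 :=
          Nat.pow_le_pow_left (Nat.mul_le_mul_left _ (by omega)) 2
      _ = ρ ^ 2 * 4 * Nat.sqrt (12 * ρ ^ 2 * L) ^ 2 := by ring
      _ ≤ ρ ^ 2 * 4 * (12 * ρ ^ 2 * L) := Nat.mul_le_mul_left _ e2
      _ = (48 * ρ ^ 4) * L := by ring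
  obtain ⟨K, R, k1, k2, k3, k4, k5⟩ := choose_scale (ρ := ρ) (L := L) (by omega) hsq
  have hρR : ρ ≤ R := by
    refine (Nat.pow_le_pow_iff_left two_ne_zero).mp ?_
    calc ρ ^ 2 = ρ ^ 2 * 1 := (mul_one _).symm
      _ ≤ ρ ^ 2 * (12 * L) := Nat.mul_le_mul_left _ (by omega)
      _ = 12 * ρ ^ 2 * L := by ring
      _ ≤ R ^ 2 := k3
  have hR8 : 24 * r + 8 ≤ R := by omega
  have hR0 : 0 < R := by omega
  obtain ⟨lam, hlam⟩ : ∃ lam, lam = 18 * ρ ^ 2 * L := ⟨_, rfl⟩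
  have hlam0 : 0 < lam := by rw [hlam]; positivity
  have hlamL : L ≤ lam := by
    rw [hlam]
    exact Nat.le_mul_of_pos_left _ (by positivity)
  have hlam1 : 12 * r * L ≤ lam := by
    rw [hlam]
    refine Nat.mul_le_mul_right _ ?_
    have : ρ ≤ ρ ^ 2 := Nat.le_self_pow two_ne_zero ρ
    omega
  have hlam2 : lam ≤ (ρ * R) ^ 2 := by
    rw [hlam]
    calc 18 * ρ ^ 2 * L = ρ ^ 2 * (18 * L) := by ring
      _ ≤ ρ ^ 2 * R ^ 2 := by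
        refine Nat.mul_le_mul_left _ (le_trans ?_ k3)
        refine Nat.mul_le_mul_right _ ?_
        have : ρ ≤ ρ ^ 2 := Nat.le_self_pow two_ne_zero ρ
        omega
      _ = (ρ * R) ^ 2 := by ring
  obtain ⟨q, hq⟩ : ∃ q, q = labs d r n L lam (2 * lam) := ⟨_, rfl⟩
  have hq0 : 0 < q := by
    rw [hq]; unfold labs
    have : 0 < d := by omega
    positivity
  have hqL : q ≤ L ^ (19 * lam) := hq ▸ labs_le hdL b2
  have hρ3 : 3 ≤ ρ := by omega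
  have hRK : R ≤ ρ ^ K * R := Nat.le_mul_of_pos_left _ (by positivity)
  have hk1 : ρ * (ρ ^ K * R) ≤ L := by
    calc ρ * (ρ ^ K * R) = ρ ^ (K + 1) * R := by ring
      _ ≤ L := k1
  have h3R : 3 * (ρ ^ K * R) ≤ L := (Nat.mul_le_mul_right _ hρ3).trans hk1
  have hK : 2 * (ρ ^ K * R) + r ≤ L := by omega
  have hfit := fits (ρ := ρ) (L := L) (K := K) (R := R) hρ0 hR0 k1 k3 hL0
  rw [← hlam] at hfit
  have hgL : 2 * ρ + 1 ≤ L := by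
    have : ρ ≤ ρ ^ 4 := Nat.le_self_pow (by norm_num) ρ
    omega
  have hρ4 : (ρ ^ 2) ^ 2 = ρ ^ 4 := by ring
  have hiL : ∀ i ≤ K, ρ ^ i * R ≤ L := by
    intro i hi
    have : ρ ^ i * R ≤ ρ ^ K * R := Nat.mul_le_mul_right _ (Nat.pow_le_pow_right hρ0 hi)
    omega
  have hbb : bb lam R ≤ 24 * ρ ^ 2 + 3 := by
    have e1 := bb_mul_le (lam := lam) (R := R)
    have e2 : bb lam R * lam ≤ (24 * ρ ^ 2 + 3) * lam := by
      refine e1.trans ?_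
      have e3 : R ^ 2 ≤ 48 * ρ ^ 4 * L := (Nat.pow_le_pow_left k4 2).trans hR2
      calc 9 * R ^ 2 + 3 * lam ≤ 9 * (48 * ρ ^ 4 * L) + 3 * lam := by gcongr
        _ = (24 * ρ ^ 2 + 3) * lam := by rw [hlam]; ring
    exact Nat.le_of_mul_le_mul_right e2 hlam0
  obtain ⟨E, hE⟩ : ∃ E, E = 29 + 45 * ρ ^ 4 := ⟨_, rfl⟩
  obtain ⟨D, hD, hDP⟩ := assemble (Tm := L ^ (E * L) * (L ^ (19 * lam)) ^ 5) (N := L ^ (E * L))
    (q := q) hr (⟨0, by omega⟩ : Fin d) hn hρ1 hρ2 hnc hR8 hlam0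
    hlam1 hlam2 hq.ge hq0 hK k2 (fun i hi => Nat.mul_le_mul (by
      rw [hE, ← hρ4]
      exact profs_le hL0 (hiL i hi.le) hgL hlamL b1) (Nat.pow_le_pow_left hqL 5))
    (by
      rw [hE, ← hρ4]
      exact profs_le hL0 (hiL K le_rfl) (Nat.div_le_self _ _) hlamL b1) hfit h P hP hΦ₀
  refine ⟨K, D, (Nat.pow_le_pow_left hρ3 K).trans k5, hD.trans ?_, hDP⟩
  have hLp : 1 ≤ L ^ (19 * lam) := Nat.one_le_pow _ _ hL0
  calc (n + 1) * (n * L ^ 2 + 1) * L ^ (E * L) * (D₀ * (d ^ L * d ^ L * (q ^ 3 *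
        ((L ^ (E * L) * (L ^ (19 * lam)) ^ 5) ^ K * q ^ bb lam R))))
      ≤ L ^ 9 * L ^ 9 * L ^ (E * L) * (D₀ * (L ^ L * L ^ L * ((L ^ (19 * lam)) ^ 3 *
        ((L ^ (E * L) * (L ^ (19 * lam)) ^ 5) ^ K * (L ^ (19 * lam)) ^ (24 * ρ ^ 2 + 3))))) := by
        have e1 : q ^ bb lam R ≤ (L ^ (19 * lam)) ^ (24 * ρ ^ 2 + 3) :=
          (Nat.pow_le_pow_left hqL _).trans (Nat.pow_le_pow_right hLp hbb)
        gcongr
    _ = D₀ * L ^ (9 + 9 + E * L + (L + L + (19 * lam * 3 + ((E * L + 19 * lam * 5) * K +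
          19 * lam * (24 * ρ ^ 2 + 3))))) := by
        simp only [pow_add, pow_mul, mul_pow]
        ring
    _ ≤ _ := by
        refine Nat.mul_le_mul_left _ (Nat.pow_le_pow_right hL0 ?_)
        rw [hlam, hE]
        have e18 : 18 ≤ 18 * L := by omega
        set F := 29 + 45 * ρ ^ 4 with hF
        set G := 342 * ρ ^ 2 * (24 * ρ ^ 2 + 3) with hG
        calc 9 + 9 + F * L + (L + L + (19 * (18 * ρ ^ 2 * L) * 3 + ((F * L +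
              19 * (18 * ρ ^ 2 * L) * 5) * K + 19 * (18 * ρ ^ 2 * L) * (24 * ρ ^ 2 + 3))))
            = 18 + (F + 2 + 1026 * ρ ^ 2 + G) * L + (F + 1710 * ρ ^ 2) * (L * K) := by
              rw [hG]; ring
          _ ≤ 18 * L + (F + 2 + 1026 * ρ ^ 2 + G) * L + (F + 1710 * ρ ^ 2) * (L * K) := by gcongr
          _ = (18 + F + 2 + 1026 * ρ ^ 2 + G) * (L * 1) + (F + 1710 * ρ ^ 2) * (L * K) := by ring
          _ ≤ (18 + F + 2 + 1026 * ρ ^ 2 + G) * (L * (K + 1)) +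
                (F + 1710 * ρ ^ 2) * (L * (K + 1)) := by
              gcongr <;> omega
          _ = _ := by rw [hF]; ring

end Pool.Agent.PepsY
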