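import Pool.Agent.PEPS953.Mixed

/-!
# Layouts of tensor networks on the torus grid: definitions
-/

open Finset

set_option autoImplicit false
set_option linter.unusedSectionVars false

namespace Pool.Agent.PepsY

open Pool.Agent.PEPS953

/-- Neighbours on the torus grid. -/
def Adj {L : ℕ} (u v : Site L) : Prop :=
  v = (u.1 + 1, u.2) ∨ v = (u.1, u.2 + 1) ∨ u = (v.1 + 1, v.2) ∨ u = (v.1, v.2 + 1)

/-- The set of tiles `K` is connected. -/
def Conn {L : ℕ} (K : Finset (Site L)) : Prop :=
  ∀ u ∈ K, ∀ v ∈ K, Relation.ReflTransGen (fun a b => a ∈ K ∧ b ∈ K ∧ Adj a b) u v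

/-- The tile `(X + x, Y + y)`. -/
def tile (L X Y x y : ℕ) : Site L := (((X + x : ℕ) : ZMod L), ((Y + y : ℕ) : ZMod L))

/-- The square `[X, X + S) × [Y, Y + S)`. -/
def square (L X Y S : ℕ) : Finset (Site L) :=
  ((range S) ×ˢ (range S)).image fun p => tile L X Y p.1 p.2

/-- A skeleton: finitely many variables `i`, with values in `Fin (k i)`, and the set of tiles `K i`
through which the variable is routed. -/
structure Skel (L : ℕ) where
  /-- the variables -/
  ι : Type
  fin : Fintype ι
  dec : DecidableEq ι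
  /-- the size of the alphabet -/
  k : ι → ℕ
  /-- the route -/
  K : ι → Finset (Site L)

attribute [instance] Skel.fin Skel.dec

/-- The assignments of values to the variables. -/
abbrev Skel.Asg {L : ℕ} (sk : Skel L) : Type := ∀ i, Fin (sk.k i)

/-- The routes are connected nonempty subsets of `Q`, and the product of the alphabet sizes of the
variables routed through any tile is at most `B`. -/
structure Skel.Good {L : ℕ} (sk : Skel L) (Q : Finset (Site L)) (B : ℕ) : Prop where
  pos : ∀ i, 0 < sk.k i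
  ne : ∀ i, (sk.K i).Nonempty
  sub : ∀ i, sk.K i ⊆ Q
  conn : ∀ i, Conn (sk.K i)
  cong : ∀ u, ∏ i ∈ univ.filter (fun i => u ∈ sk.K i), sk.k i ≤ B

/-- The function `f` of `b` inputs in `Fin q`, the `i`-th one being located at the tile `pos i`, is
realized by factors at the tiles of `Q` which see the inputs located at the tile and the variables
routed through the tile. -/
def Skel.Rz {L : ℕ} [NeZero L] (sk : Skel L) {b q : ℕ} (Q : Finset (Site L)) (pos : Fin b → Site L)
    (f : (Fin b → Fin q) → ℂ) : Prop :=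
  ∃ φ : Site L → (Fin b → Fin q) → sk.Asg → ℂ,
    (∀ u ℓ ℓ' x x', (∀ i, pos i = u → ℓ i = ℓ' i) → (∀ i, u ∈ sk.K i → x i = x' i) →
      φ u ℓ x = φ u ℓ' x') ∧
    (∀ u, u ∉ Q → ∀ ℓ x, φ u ℓ x = 1) ∧
    ∀ ℓ, f ℓ = ∑ x, ∏ u, φ u ℓ x

/-- For every position of a square of side `S` some skeleton in this square, of congestion at most
`B`, realizes all the functions in `𝓕`, with the `b` inputs at the left column of the square. -/
def Placeable (L : ℕ) [NeZero L] (S b q B : ℕ) (𝓕 : Set ((Fin b → Fin q) → ℂ)) : Prop :=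
  ∀ X Y : ℕ, X + S ≤ L → Y + S ≤ L → ∃ sk : Skel L, sk.Good (square L X Y S) B ∧
    ∀ f ∈ 𝓕, sk.Rz (square L X Y S) (fun i : Fin b => tile L X Y 0 i) f

/-- The labels of the children of a composition: child `(p, p')`, label `i`. -/
abbrev Trk (m b' : ℕ) : Type := Fin m × Fin m × Fin b'

/-- Functions obtained by composition: a sum over a profile `g` and over the labels `w` of the
children of pairwise factors and of functions of the children. -/
def compClass (m b b' q G : ℕ) (𝓕' : Set ((Fin b' → Fin q) → ℂ)) : Set ((Fin b → Fin q) → ℂ) :=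
  {f | ∃ (C : Fin G → Trk m b' ⊕ Fin b → Trk m b' ⊕ Fin b → Fin q → Fin q → ℂ)
    (f' : Fin G → Fin m → Fin m → (Fin b' → Fin q) → ℂ), (∀ g p p', f' g p p' ∈ 𝓕') ∧
    ∀ ℓ, f ℓ = ∑ g, ∑ w : Trk m b' → Fin q,
      (∏ a, ∏ a', C g a a' (Sum.elim w ℓ a) (Sum.elim w ℓ a')) *
        ∏ p, ∏ p', f' g p p' fun i => w (p, p', i)}

end Pool.Agent.PepsY
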