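import Pool.Agent.PepsX.Regroup
import Pool.Agent.PepsX.Greedy
import Pool.Agent.PepsY.Defs

/-!
# Space-time blocks and their amplitudes
-/

open Finset

set_option autoImplicit false
set_option linter.unusedSectionVars false

namespace Pool.Agent.PepsY

open Pool.Agent.PEPS953 Pool.Agent.PepsX

variable {d r n L : ℕ} [NeZero L]

/-- The variables: the path variables `(t, v)` and the letters `(t, τ)`. -/
abbrev Vr (n L : ℕ) : Type := (Fin (n + 1) × Site L) ⊕ (Fin n × Site L)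

/-- The assignments of values to the variables. -/
abbrev Asn (d r n L : ℕ) : Type :=
  ∀ a : Vr n L, Val d (Fin (n + 1) × Site L) (Fin n × Site L) (Opn d r) a

/-- The value of a path variable. -/
def Asn.p (x : Asn d r n L) (t : Fin (n + 1)) (v : Site L) : Fin d := x (.inl (t, v))

/-- The value of a letter. -/
def Asn.o (x : Asn d r n L) (t : Fin n) (τ : Site L) : Opn d r := x (.inr (t, τ))

/-- The default assignment. -/
def dft (d₀ : Fin d) : Asn d r n L
  | .inl _ => d₀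
  | .inr _ => (none : Opn d r)

/-- The box at `τ` meets `C`. -/
def Tch (r : ℕ) (C : Finset (Site L)) (τ : Site L) : Prop := ∃ p : Box r, boxPos L r τ p ∈ C

/-- The box at `τ` is contained in `C`. -/
def Ins (r : ℕ) (C : Finset (Site L)) (τ : Site L) : Prop := ∀ p : Box r, boxPos L r τ p ∈ C

instance (r : ℕ) (C : Finset (Site L)) (τ : Site L) : Decidable (Tch r C τ) :=
  inferInstanceAs (Decidable (∃ p : Box r, _))

instance (r : ℕ) (C : Finset (Site L)) (τ : Site L) : Decidable (Ins r C τ) :=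
  inferInstanceAs (Decidable (∀ p : Box r, _))

/-- A space-time block: the set of sites `C` and the layers `s ≤ t < e`. -/
structure Blk (L : ℕ) where
  /-- the sites -/
  C : Finset (Site L)
  /-- the first layer -/
  s : ℕ
  /-- the end -/
  e : ℕ

/-- The variables seen by a block. -/
def Blk.vis (r n : ℕ) (X : Blk L) : Finset (Vr n L) :=
  (univ.filter fun a : Fin (n + 1) × Site L => a.2 ∈ X.C ∧ X.s ≤ a.1 ∧ (a.1 : ℕ) ≤ X.e).disjSum
    (univ.filter fun a : Fin n × Site L => Tch r X.C a.2 ∧ X.s ≤ a.1 ∧ (a.1 : ℕ) < X.e)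

/-- The external variables of a block. -/
def Blk.ext (r n : ℕ) (X : Blk L) : Finset (Vr n L) :=
  (univ.filter fun a : Fin (n + 1) × Site L => a.2 ∈ X.C ∧
      ((a.1 : ℕ) = X.s ∨ (a.1 : ℕ) = X.e)).disjSum
    (univ.filter fun a : Fin n × Site L => Tch r X.C a.2 ∧ ¬ Ins r X.C a.2 ∧ X.s ≤ a.1 ∧
      (a.1 : ℕ) < X.e)

/-- The assignments which agree with `y` on `E` and are equal to the default value off `V`. -/
def cmp (d₀ : Fin d) (V E : Finset (Vr n L)) (y : Asn d r n L) : Finset (Asn d r n L) :=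
  Fintype.piFinset fun a => if a ∈ E then {y a} else if a ∈ V then univ else {dft d₀ a}

/-- The weight of an assignment on a block. -/
noncomputable def Wt (w : Fin n → Site L → Opn d r → ℂ) (X : Blk L) (x : Asn d r n L) : ℂ :=
  ∏ t ∈ univ.filter (fun t : Fin n => X.s ≤ t ∧ (t : ℕ) < X.e), ∏ v ∈ X.C,
    w t v (x.o t v) * lay (x.o t) v (x.p t.castSucc v) (x.p t.succ v)

/-- The number of internal insertions. -/
def vol (X : Blk L) (x : Asn d r n L) : ℕ :=
  (univ.filter fun a : Fin n × Site L => X.s ≤ a.1 ∧ (a.1 : ℕ) < X.e ∧ Ins r X.C a.2 ∧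
    x.o a.1 a.2 ≠ none).card

/-- The number of insertions at the letters in `Z`. -/
def lets (Z : Finset (Vr n L)) (x : Asn d r n L) : ℕ :=
  (univ.filter fun a : Fin n × Site L => Sum.inr a ∈ Z ∧ x.o a.1 a.2 ≠ none).card

/-- The number of path variables in `Z`. -/
def paths (Z : Finset (Vr n L)) : ℕ :=
  (univ.filter fun a : Fin (n + 1) × Site L => (Sum.inl a : Vr n L) ∈ Z).card

/-- The truncated weight. -/
noncomputable def TWt (w : Fin n → Site L → Opn d r → ℂ) (V : ℕ) (X : Blk L)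
    (x : Asn d r n L) : ℂ := if vol X x ≤ V then Wt w X x else 0

/-- The amplitude of a block with boundary data `y`. -/
noncomputable def Amp (d₀ : Fin d) (w : Fin n → Site L → Opn d r → ℂ) (V : ℕ) (X : Blk L)
    (y : Asn d r n L) : ℂ := ∑ x ∈ cmp d₀ (X.vis r n) (X.ext r n) y, TWt w V X x

/-- A decomposition of the block `X` in at most `m ^ 2` blocks with the property `PP`, with `b'` views
for each of them. -/
structure Dcp (d r n : ℕ) (X : Blk L) (PP : Blk L → Prop) (m b' lam Lam : ℕ) where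
  /-- the children -/
  U : Type
  fin : Fintype U
  dec : DecidableEq U
  card_le : Fintype.card U ≤ m ^ 2
  /-- the blocks -/
  X' : U → Blk L
  prop : ∀ u, PP (X' u)
  /-- the weights -/
  w' : Fin n → Site L → Opn d r → ℂ
  /-- the views -/
  Z : U → Fin b' → Finset (Vr n L)
  /-- the factors of the views -/
  J : U → Fin b' → Asn d r n L → ℂ
  /-- the coefficient -/
  a : ℂ
  hvis : ∀ x, x ∈ X.vis r n ↔ ∃ u, x ∈ (X' u).vis r n
  hext : ∀ u x, x ∈ (X' u).vis r n → x ∈ X.ext r n → x ∈ (X' u).ext r n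
  hdis : ∀ u u' x, u ≠ u' → x ∈ (X' u).vis r n → x ∈ (X' u').vis r n → x ∈ (X' u).ext r n
  hcov : ∀ u x, x ∈ (X' u).ext r n → ∃ i, x ∈ Z u i
  hsub : ∀ u i, Z u i ⊆ (X' u).ext r n
  hpth : ∀ u i, paths (Z u i) ≤ lam
  hJ : ∀ u i x x', (∀ a ∈ Z u i, x a = x' a) → J u i x = J u i x'
  hJ0 : ∀ u i x, J u i x ≠ 0 → lets (Z u i) x ≤ Lam

attribute [instance] Dcp.fin Dcp.dec

/-- The product of the truncated weights of the children and of the factors of the views. -/
noncomputable def Dcp.val {X : Blk L} {PP : Blk L → Prop} {m b' lam Lam : ℕ}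
    (D : Dcp d r n X PP m b' lam Lam) (V' : ℕ) (x : Asn d r n L) : ℂ :=
  D.a * ∏ u, (TWt D.w' V' (D.X' u) x * ∏ i, D.J u i x)

/-- The rectangle with corner `a` and side lengths `ℓ₁`, `ℓ₂`. -/
def rect (a : Site L) (ℓ₁ ℓ₂ : ℕ) : Finset (Site L) :=
  univ.filter fun v => (v.1 - a.1).val < ℓ₁ ∧ (v.2 - a.2).val < ℓ₂

/-- Rectangles of side lengths at most `2 R`. -/
def IsRect (R : ℕ) (C : Finset (Site L)) : Prop :=
  ∃ (a : Site L) (ℓ₁ ℓ₂ : ℕ), ℓ₁ ≤ 2 * R ∧ ℓ₂ ≤ 2 * R ∧ C = rect a ℓ₁ ℓ₂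

/-- Blocks over rectangles of side lengths at most `2 R`. -/
def LBlk (n R : ℕ) (X : Blk L) : Prop := X.s < X.e ∧ X.e ≤ n ∧ IsRect R X.C

/-- The geometric data needed for cutting the set `C`: for all offsets `o₁, o₂ < R` a partition of
`C`, given by `part o₁ o₂`. -/
structure Geo (r R g A₁ A₂ : ℕ) (C : Finset (Site L)) (QQ : Finset (Site L) → Prop) where
  /-- the index of the cell -/
  part : ℕ → ℕ → Site L → ℕ × ℕ
  /-- the box is cut in the first direction -/
  cr₁ : ℕ → Site L → Prop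
  /-- the box is cut in the second direction -/
  cr₂ : ℕ → Site L → Prop
  dec₁ : ∀ o τ, Decidable (cr₁ o τ)
  dec₂ : ∀ o τ, Decidable (cr₂ o τ)
  bound : ∀ o₁ < R, ∀ o₂ < R, ∀ v ∈ C, (part o₁ o₂ v).1 < g ∧ (part o₁ o₂ v).2 < g
  cross : ∀ o₁ < R, ∀ o₂ < R, ∀ τ, Ins r C τ → ∀ p p' : Box r,
    part o₁ o₂ (boxPos L r τ p) ≠ part o₁ o₂ (boxPos L r τ p') → cr₁ o₁ τ ∨ cr₂ o₂ τ
  few₁ : ∀ τ, Ins r C τ → ((range R).filter fun o => cr₁ o τ).card ≤ r
  few₂ : ∀ τ, Ins r C τ → ((range R).filter fun o => cr₂ o τ).card ≤ r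
  touch : ∀ o₁ < R, ∀ o₂ < R, ∀ τ, ((univ.filter fun p : Box r => boxPos L r τ p ∈ C).image
    fun p => part o₁ o₂ (boxPos L r τ p)).card ≤ 4
  area : ∀ o₁ < R, ∀ o₂ < R, ∀ c, (C.filter fun v => part o₁ o₂ v = c).card ≤ A₁
  bdry : ∀ o₁ < R, ∀ o₂ < R, ∀ c, (univ.filter fun τ => Tch r (C.filter fun v =>
    part o₁ o₂ v = c) τ ∧ ¬ Ins r (C.filter fun v => part o₁ o₂ v = c) τ).card ≤ A₂
  prop : ∀ o₁ < R, ∀ o₂ < R, ∀ c, QQ (C.filter fun v => part o₁ o₂ v = c)

attribute [instance] Geo.dec₁ Geo.dec₂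

/-- The conditions on the parameters of one step. -/
structure Prm (r R g A₁ A₂ V K V' m b' lam Lam α B' β' γ' : ℕ) : Prop where
  hR : 0 < R
  hα : 0 < α
  hB : 0 < B'
  hlam : 0 < lam
  p1 : B' + α * A₂ + A₁ ≤ V'
  p2 : ∀ k, k * (R * B') ≤ α * (8 * r * V + 4 * K * R) + V * R → g ^ 2 + k ≤ m ^ 2
  p3 : ∀ k, k * (lam * α) ≤ V' → k + 1 ≤ β'
  p4 : lam + A₂ ≤ Lam
  p5 : A₁ ≤ γ' * lam
  p6 : β' + 2 * γ' ≤ b'

/-- `x` on `Z`, the default value elsewhere. -/
def mask (d₀ : Fin d) (Z : Finset (Vr n L)) (x : Asn d r n L) : Asn d r n L :=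
  fun a => if a ∈ Z then x a else dft d₀ a

open scoped Classical in
/-- The assignment given by the values of the views. -/
noncomputable def glue {b : ℕ} (d₀ : Fin d) (Z : Fin b → Finset (Vr n L))
    (W : Fin b → Asn d r n L) : Asn d r n L :=
  fun a => if h : ∃ i, a ∈ Z i then W h.choose a else dft d₀ a

open scoped Classical in
/-- The valid labels of the view `Z`. -/
noncomputable def vld (d₀ : Fin d) (Lam : ℕ) (Z : Finset (Vr n L)) : Finset (Asn d r n L) :=
  univ.filter fun x => (∀ a, a ∉ Z → x a = dft d₀ a) ∧ lets Z x ≤ Lam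

/-- The label with code `k`. -/
noncomputable def dc (d₀ : Fin d) (Lam : ℕ) (Z : Finset (Vr n L)) (k : ℕ) : Asn d r n L :=
  if h : k < (vld (r := r) d₀ Lam Z).card then ((vld (r := r) d₀ Lam Z).equivFin.symm ⟨k, h⟩ :
    Asn d r n L) else dft d₀

/-- The function `f` of the codes of the views `Z` is the amplitude of `X` on all consistent
families of valid codes. -/
def Agree (d₀ : Fin d) (q Lam V : ℕ) {b : ℕ} (X : Blk L) (w : Fin n → Site L → Opn d r → ℂ)
    (Z : Fin b → Finset (Vr n L)) (f : (Fin b → Fin q) → ℂ) : Prop :=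
  ∀ ℓ : Fin b → Fin q, (∀ i, (ℓ i : ℕ) < (vld (r := r) d₀ Lam (Z i)).card) →
    (∀ i i' a, a ∈ Z i → a ∈ Z i' →
      (dc d₀ Lam (Z i) (ℓ i) : Asn d r n L) a = (dc d₀ Lam (Z i') (ℓ i') : Asn d r n L) a) →
    f ℓ = Amp d₀ w V X (glue d₀ Z fun i => dc d₀ Lam (Z i) (ℓ i))

/-- The family `Z` of views covers the external variables of `X`. -/
def Cover (r lam : ℕ) {b : ℕ} (X : Blk L) (Z : Fin b → Finset (Vr n L)) : Prop :=
  (∀ a ∈ X.ext r n, ∃ i, a ∈ Z i) ∧ (∀ i, Z i ⊆ X.ext r n) ∧ ∀ i, paths (Z i) ≤ lam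

/-- The class `𝓖` contains the amplitudes of all blocks with the property `PP`. -/
def LevelOK (n : ℕ) (r : ℕ) (d₀ : Fin d) (PP : Blk L → Prop) (V b q lam Lam : ℕ)
    (𝓖 : Set ((Fin b → Fin q) → ℂ)) : Prop :=
  ∀ X, PP X → ∀ (w : Fin n → Site L → Opn d r → ℂ) (Z : Fin b → Finset (Vr n L)),
    Cover r lam X Z → ∃ f ∈ 𝓖, Agree d₀ q Lam V X w Z f

/-- The whole space-time. -/
def full (L n : ℕ) [NeZero L] : Blk L := ⟨univ, 0, n⟩

/-- The boundary data given by the configurations `s` and `f`. -/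
def bdata (d₀ : Fin d) (s f : Conf d L) : Asn d r n L
  | .inl (t, v) => if (t : ℕ) = 0 then s v else if (t : ℕ) = n then f v else d₀
  | .inr _ => (none : Opn d r)

/-- The next element of `D` after `a`, or `N`. -/
def nxt (N : ℕ) (D : Finset ℕ) (a : ℕ) : ℕ := (insert N (D.filter fun x => a < x)).min' (by simp)

/-- The number of modes for the choice of the offset. -/
def profs₁ (n L R α : ℕ) : ℕ := ((α + 1) * n * L ^ 2 + 1) ^ (2 * R + 1)

/-- The number of profiles for a fixed offset. -/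
def profs₂ (n L g m α β' : ℕ) : ℕ :=
  (1 + g ^ 2 * n) ^ (m ^ 2 * (1 + β')) * ((α + 1) * n * L ^ 2 + 1) ^ (2 * m ^ 2)

/-- The number of profiles of one step. -/
def profs (n L R g m α β' : ℕ) : ℕ := R * R * profs₁ n L R α * profs₂ n L g m α β'

/-- The number of labels. -/
def labs (d r n L lam Lam : ℕ) : ℕ :=
  d ^ lam * (1 + n * L ^ 2 * (d ^ (r * r) * d ^ (r * r))) ^ Lam

end Pool.Agent.PepsY
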