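import Pool.Agent.PepsY.Conn

/-!
# Layouts: composition
-/

open Finset

set_option autoImplicit false
set_option linter.unusedSectionVars false

namespace Pool.Agent.PepsY

open Pool.Agent.PEPS953

variable {L d : ℕ} [NeZero L]

/-! ### Arithmetic of the positions -/

theorem comp_digit_inj {n a b c e : ℕ} (hb : b < n) (he : e < n) (h : a * n + b = c * n + e) :
    a = c ∧ b = e := by
  have h1 : a = c := by
    rcases lt_trichotomy a c with h2 | h2 | h2
    · exfalso
      have := Nat.mul_le_mul_right n (Nat.succ_le_of_lt h2)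
      rw [Nat.succ_mul] at this
      omega
    · exact h2
    · exfalso
      have := Nat.mul_le_mul_right n (Nat.succ_le_of_lt h2)
      rw [Nat.succ_mul] at this
      omega
  subst h1
  exact ⟨rfl, by omega⟩

/-- the row and column of a track -/
def compR {m b' : ℕ} (S' : ℕ) (a : Trk m b') : ℕ := a.2.1 * S' + (a.1 * b' + a.2.2)

theorem compR_low {m b' S' : ℕ} (h2 : m * b' ≤ S') (a : Trk m b') : (a.1 : ℕ) * b' + a.2.2 < S' := by
  have e1 := Nat.mul_le_mul_right b' (Nat.succ_le_of_lt a.1.isLt)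
  rw [Nat.succ_mul] at e1
  have e2 := a.2.2.isLt
  omega

theorem compR_lt_succ {m b' S' : ℕ} (h2 : m * b' ≤ S') (a : Trk m b') :
    compR S' a < (a.2.1 : ℕ) * S' + S' := by
  have := compR_low h2 a
  unfold compR
  omega

theorem comp_mul_le {m S' S : ℕ} (h1 : m * S' ≤ S) (p : Fin m) : (p : ℕ) * S' + S' ≤ S := by
  have e1 := Nat.mul_le_mul_right S' (Nat.succ_le_of_lt p.isLt)
  rw [Nat.succ_mul] at e1
  omega

theorem compR_lt {m b' S' S : ℕ} (h1 : m * S' ≤ S) (h2 : m * b' ≤ S') (a : Trk m b') :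
    compR S' a < S :=
  lt_of_lt_of_le (compR_lt_succ h2 a) (comp_mul_le h1 a.2.1)

theorem compR_inj {m b' S' : ℕ} (h2 : m * b' ≤ S') {a a' : Trk m b'} (h : compR S' a = compR S' a') :
    a = a' := by
  obtain ⟨e1, e2⟩ := comp_digit_inj (compR_low h2 a) (compR_low h2 a') h
  obtain ⟨e3, e4⟩ := comp_digit_inj a.2.2.isLt a'.2.2.isLt e2
  exact Prod.ext (Fin.ext e3) (Prod.ext (Fin.ext e1) (Fin.ext e4))

/-! ### Tiles -/

theorem tile_shift (L X Y a c x y : ℕ) : tile L (X + a) (Y + c) x y = tile L X Y (a + x) (c + y) := by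
  simp only [tile, Nat.add_assoc]

theorem tile_inj {X Y S x y x' y' : ℕ} (hX : X + S ≤ L) (hY : Y + S ≤ L) (hx : x < S) (hy : y < S)
    (hx' : x' < S) (hy' : y' < S) (h : tile L X Y x y = tile L X Y x' y') : x = x' ∧ y = y' := by
  simp only [tile, Prod.mk.injEq] at h
  obtain ⟨e1, e2⟩ := h
  rw [ZMod.natCast_eq_natCast_iff'] at e1 e2
  rw [Nat.mod_eq_of_lt (by omega), Nat.mod_eq_of_lt (by omega)] at e1 e2
  omega

theorem mem_square {X Y S : ℕ} {u : Site L} :
    u ∈ square L X Y S ↔ ∃ x < S, ∃ y < S, tile L X Y x y = u := by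
  simp only [square, mem_image, mem_product, mem_range, Prod.exists]
  constructor
  · rintro ⟨x, y, ⟨hx, hy⟩, h⟩
    exact ⟨x, hx, y, hy, h⟩
  · rintro ⟨x, hx, y, hy, h⟩
    exact ⟨x, y, ⟨hx, hy⟩, h⟩

/-- row `r` -/
def rowF (L X Y S r : ℕ) : Finset (Site L) := (Ico 0 S).image fun x => tile L X Y x r

/-- column `r` -/
def colF (L X Y S r : ℕ) : Finset (Site L) := (Ico 0 S).image fun y => tile L X Y r y

/-- segment of the row `r` -/
def segF (L X Y a c r : ℕ) : Finset (Site L) := (Ico a c).image fun x => tile L X Y x r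

theorem mem_rowF {X Y S r : ℕ} {u : Site L} : u ∈ rowF L X Y S r ↔ ∃ x < S, tile L X Y x r = u := by
  simp [rowF]

theorem mem_colF {X Y S r : ℕ} {u : Site L} : u ∈ colF L X Y S r ↔ ∃ y < S, tile L X Y r y = u := by
  simp [colF]

theorem mem_segF {X Y a c r : ℕ} {u : Site L} :
    u ∈ segF L X Y a c r ↔ ∃ x, a ≤ x ∧ x < c ∧ tile L X Y x r = u := by
  simp [segF, and_assoc]

/-! ### The skeleton -/

/-- the route of a track -/
def compRoute (L X Y S : ℕ) {m b' : ℕ} (S' : ℕ) (a : Trk m b') : Finset (Site L) :=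
  (rowF L X Y S (compR S' a) ∪ colF L X Y S (compR S' a)) ∪
    segF L X Y (a.2.1 * S') (compR S' a + 1) (a.1 * S' + a.2.2)

/-- the route of an input track -/
def compIn (L X Y S : ℕ) (j : ℕ) : Finset (Site L) := rowF L X Y S j ∪ colF L X Y S j

/-- the skeleton of a composition -/
noncomputable def compSk (X Y S S' m b' b q G : ℕ) (sk : Fin m × Fin m → Skel L) : Skel L where
  ι := Unit ⊕ ((Trk m b' ⊕ Fin b) ⊕ (Σ pp : Fin m × Fin m, (sk pp).ι))
  fin := inferInstance
  dec := Classical.decEq _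
  k := Sum.elim (fun _ => G) (Sum.elim (fun _ => q) fun s => (sk s.1).k s.2)
  K := Sum.elim (fun _ => square L X Y S) (Sum.elim (Sum.elim (fun a => compRoute L X Y S S' a)
    fun j => compIn L X Y S j) fun s => (sk s.1).K s.2)

/-- the assignments of the skeleton of a composition -/
noncomputable def compAsg (X Y S S' m b' b q G : ℕ) (sk : Fin m × Fin m → Skel L) :
    (compSk X Y S S' m b' b q G sk).Asg ≃
      Fin G × (Trk m b' ⊕ Fin b → Fin q) × (∀ pp, (sk pp).Asg) where
  toFun x := (x (Sum.inl ()), fun a => x (Sum.inr (Sum.inl a)),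
    fun pp i => x (Sum.inr (Sum.inr ⟨pp, i⟩)))
  invFun t := fun i => match i with
    | Sum.inl _ => t.1
    | Sum.inr (Sum.inl a) => t.2.1 a
    | Sum.inr (Sum.inr ⟨pp, i⟩) => t.2.2 pp i
  left_inv x := by
    funext i
    rcases i with _ | a | ⟨pp, i⟩ <;> rfl
  right_inv t := rfl

section props

variable {X Y S S' m b' b q G B : ℕ} {sk : Fin m × Fin m → Skel L}

theorem compRoute_sub (h1 : m * S' ≤ S) (h2 : m * b' ≤ S') (a : Trk m b') :
    compRoute L X Y S S' a ⊆ square L X Y S := by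
  intro u hu
  have hR := compR_lt h1 h2 a
  have hb : (a.2.2 : ℕ) < S' := by
    have := compR_low h2 a
    omega
  have hp := comp_mul_le h1 a.1
  rw [mem_square]
  simp only [compRoute, mem_union, mem_rowF, mem_colF, mem_segF] at hu
  rcases hu with (⟨x, hx, rfl⟩ | ⟨y, hy, rfl⟩) | ⟨x, hx, hx', rfl⟩
  · exact ⟨x, hx, _, hR, rfl⟩
  · exact ⟨_, hR, y, hy, rfl⟩
  · exact ⟨x, by omega, _, by omega, rfl⟩

theorem compIn_sub (h3 : b ≤ S) (j : Fin b) : compIn L X Y S j ⊆ square L X Y S := by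
  intro u hu
  have hj := j.isLt
  rw [mem_square]
  simp only [compIn, mem_union, mem_rowF, mem_colF] at hu
  rcases hu with ⟨x, hx, rfl⟩ | ⟨y, hy, rfl⟩
  · exact ⟨x, hx, _, by omega, rfl⟩
  · exact ⟨_, by omega, y, hy, rfl⟩

theorem child_sub (h1 : m * S' ≤ S) (pp : Fin m × Fin m) :
    square L (X + pp.2 * S') (Y + pp.1 * S') S' ⊆ square L X Y S := by
  intro u hu
  rw [mem_square] at hu ⊢
  obtain ⟨x, hx, y, hy, rfl⟩ := hu
  have e1 := comp_mul_le h1 pp.1
  have e2 := comp_mul_le h1 pp.2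
  exact ⟨pp.2 * S' + x, by omega, pp.1 * S' + y, by omega, (tile_shift L X Y _ _ x y).symm⟩

theorem child_inj (hX : X + S ≤ L) (hY : Y + S ≤ L) (h1 : m * S' ≤ S) {pp pp' : Fin m × Fin m}
    {u : Site L} (h : u ∈ square L (X + pp.2 * S') (Y + pp.1 * S') S')
    (h' : u ∈ square L (X + pp'.2 * S') (Y + pp'.1 * S') S') : pp = pp' := by
  rw [mem_square] at h h'
  obtain ⟨x, hx, y, hy, rfl⟩ := h
  obtain ⟨x', hx', y', hy', e⟩ := h'
  rw [tile_shift, tile_shift] at e
  have e1 := comp_mul_le h1 pp.1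
  have e2 := comp_mul_le h1 pp.2
  have e3 := comp_mul_le h1 pp'.1
  have e4 := comp_mul_le h1 pp'.2
  obtain ⟨e5, e6⟩ := tile_inj hX hY (by omega) (by omega) (by omega) (by omega) e
  exact Prod.ext (Fin.ext (comp_digit_inj hy hy' e6.symm).1) (Fin.ext (comp_digit_inj hx hx' e5.symm).1)

theorem cong_trk (hX : X + S ≤ L) (hY : Y + S ≤ L) (hq : 0 < q) (h1 : m * S' ≤ S) (h2 : m * b' ≤ S')
    (u : Site L) : ∏ a : Trk m b', (if u ∈ compRoute L X Y S S' a then q else 1) ≤ q ^ 3 := by
  rw [← Finset.prod_filter, Finset.prod_const]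
  refine Nat.pow_le_pow_right hq ?_
  by_cases hu : u ∈ square L X Y S
  · rw [mem_square] at hu
    obtain ⟨x, hx, y, hy, rfl⟩ := hu
    have hsub : univ.filter (fun a : Trk m b' => tile L X Y x y ∈ compRoute L X Y S S' a) ⊆
        (univ.filter (fun a : Trk m b' => compR S' a = y) ∪
          univ.filter (fun a : Trk m b' => compR S' a = x)) ∪
        univ.filter (fun a : Trk m b' => (a.1 : ℕ) * S' + a.2.2 = y ∧ (a.2.1 : ℕ) * S' ≤ x ∧
          x < (a.2.1 : ℕ) * S' + S') := by
      intro a ha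
      have hR := compR_lt h1 h2 a
      have hR' := compR_lt_succ h2 a
      have hb : (a.2.2 : ℕ) < S' := by
        have := compR_low h2 a
        omega
      have hp := comp_mul_le h1 a.1
      simp only [mem_filter, mem_univ, true_and, compRoute, mem_union, mem_rowF, mem_colF,
        mem_segF] at ha
      simp only [mem_union, mem_filter, mem_univ, true_and]
      rcases ha with (⟨x', hx', e⟩ | ⟨y', hy', e⟩) | ⟨x', hx', hx'', e⟩
      · left; left
        exact (tile_inj hX hY hx' hR hx hy e).2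
      · left; right
        exact (tile_inj hX hY hR hy' hx hy e).1
      · right
        obtain ⟨e1, e2⟩ := tile_inj hX hY (by omega) (by omega) hx hy e
        omega
    refine (card_le_card hsub).trans ((card_union_le _ _).trans ?_)
    have c1 : (univ.filter (fun a : Trk m b' => compR S' a = y)).card ≤ 1 := by
      rw [card_le_one]
      intro a ha a' ha'
      simp only [mem_filter, mem_univ, true_and] at ha ha'
      exact compR_inj h2 (ha.trans ha'.symm)
    have c2 : (univ.filter (fun a : Trk m b' => compR S' a = x)).card ≤ 1 := by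
      rw [card_le_one]
      intro a ha a' ha'
      simp only [mem_filter, mem_univ, true_and] at ha ha'
      exact compR_inj h2 (ha.trans ha'.symm)
    have c3 : (univ.filter (fun a : Trk m b' => (a.1 : ℕ) * S' + a.2.2 = y ∧ (a.2.1 : ℕ) * S' ≤ x ∧
          x < (a.2.1 : ℕ) * S' + S')).card ≤ 1 := by
      rw [card_le_one]
      intro a ha a' ha'
      simp only [mem_filter, mem_univ, true_and] at ha ha'
      have hb : (a.2.2 : ℕ) < S' := by
        have := compR_low h2 a
        omega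
      have hb' : (a'.2.2 : ℕ) < S' := by
        have := compR_low h2 a'
        omega
      obtain ⟨f1, f2⟩ := comp_digit_inj hb hb' (ha.1.trans ha'.1.symm)
      obtain ⟨f3, -⟩ := comp_digit_inj (n := S') (a := a.2.1) (b := x - a.2.1 * S') (c := a'.2.1)
        (e := x - a'.2.1 * S') (by omega) (by omega) (by omega)
      exact Prod.ext (Fin.ext f1) (Prod.ext (Fin.ext f3) (Fin.ext f2))
    have := card_union_le (univ.filter (fun a : Trk m b' => compR S' a = y))
      (univ.filter (fun a : Trk m b' => compR S' a = x))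
    omega
  · rw [Finset.filter_false_of_mem, card_empty]
    · omega
    · intro a _ ha
      exact hu (compRoute_sub h1 h2 a ha)

theorem cong_in (hX : X + S ≤ L) (hY : Y + S ≤ L) (hq : 0 < q) (h3 : b ≤ S)
    (u : Site L) : ∏ j : Fin b, (if u ∈ compIn L X Y S j then q else 1) ≤ q ^ 2 := by
  rw [← Finset.prod_filter, Finset.prod_const]
  refine Nat.pow_le_pow_right hq ?_
  by_cases hu : u ∈ square L X Y S
  · rw [mem_square] at hu
    obtain ⟨x, hx, y, hy, rfl⟩ := hu
    have hsub : univ.filter (fun j : Fin b => tile L X Y x y ∈ compIn L X Y S j) ⊆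
        univ.filter (fun j : Fin b => (j : ℕ) = y) ∪ univ.filter (fun j : Fin b => (j : ℕ) = x) := by
      intro j hj
      have hj' := j.isLt
      simp only [mem_filter, mem_univ, true_and, compIn, mem_union, mem_rowF, mem_colF] at hj
      simp only [mem_union, mem_filter, mem_univ, true_and]
      rcases hj with ⟨x', hx', e⟩ | ⟨y', hy', e⟩
      · left
        exact (tile_inj hX hY hx' (by omega) hx hy e).2
      · right
        exact (tile_inj hX hY (by omega) hy' hx hy e).1
    refine (card_le_card hsub).trans ((card_union_le _ _).trans ?_)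
    have c1 : ∀ z : ℕ, (univ.filter (fun j : Fin b => (j : ℕ) = z)).card ≤ 1 := by
      intro z
      rw [card_le_one]
      intro a ha a' ha'
      simp only [mem_filter, mem_univ, true_and] at ha ha'
      exact Fin.ext (ha.trans ha'.symm)
    have := c1 x
    have := c1 y
    omega
  · rw [Finset.filter_false_of_mem, card_empty]
    · omega
    · intro a _ ha
      exact hu (compIn_sub h3 a ha)

theorem cong_child (hX : X + S ≤ L) (hY : Y + S ≤ L) (hm : 0 < m) (h1 : m * S' ≤ S)
    (hsk : ∀ pp : Fin m × Fin m, (sk pp).Good (square L (X + pp.2 * S') (Y + pp.1 * S') S') B)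
    (u : Site L) : ∏ s : (Σ pp : Fin m × Fin m, (sk pp).ι),
      (if u ∈ (sk s.1).K s.2 then (sk s.1).k s.2 else 1) ≤ B := by
  rw [Fintype.prod_sigma]
  have hone : ∀ pp : Fin m × Fin m, u ∉ square L (X + pp.2 * S') (Y + pp.1 * S') S' →
      ∏ i : (sk pp).ι, (if u ∈ (sk pp).K i then (sk pp).k i else 1) = 1 := by
    intro pp hpp
    refine Finset.prod_eq_one fun i _ => if_neg fun hi => hpp ((hsk pp).sub i hi)
  have hle : ∀ pp : Fin m × Fin m,
      ∏ i : (sk pp).ι, (if u ∈ (sk pp).K i then (sk pp).k i else 1) ≤ B := by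
    intro pp
    rw [← Finset.prod_filter]
    exact (hsk pp).cong u
  by_cases hu : ∃ pp : Fin m × Fin m, u ∈ square L (X + pp.2 * S') (Y + pp.1 * S') S'
  · obtain ⟨pp, hpp⟩ := hu
    refine le_trans (le_of_eq ?_) (hle pp)
    refine Finset.prod_eq_single pp (fun pp' _ hne => hone pp' fun h => hne ?_) fun h =>
      absurd (mem_univ _) h
    exact child_inj hX hY h1 h hpp
  · push Not at hu
    refine le_trans (le_of_eq (Finset.prod_eq_one fun pp _ => hone pp (hu pp))) ?_
    have e1 := hle (⟨0, hm⟩, ⟨0, hm⟩)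
    rw [hone _ (hu _)] at e1
    exact e1

theorem compSk_good (hX : X + S ≤ L) (hY : Y + S ≤ L) (hq : 0 < q) (hG : 0 < G) (hm : 0 < m)
    (hS' : 0 < S') (h1 : m * S' ≤ S) (h2 : m * b' ≤ S') (h3 : b ≤ S)
    (hsk : ∀ pp : Fin m × Fin m, (sk pp).Good (square L (X + pp.2 * S') (Y + pp.1 * S') S') B) :
    (compSk X Y S S' m b' b q G sk).Good (square L X Y S) (G * q ^ 5 * B) := by
  have hS : 0 < S := lt_of_lt_of_le (Nat.mul_pos hm hS') h1
  constructor
  · rintro (_ | (a | j) | ⟨pp, i⟩)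
    · exact hG
    · exact hq
    · exact hq
    · exact (hsk pp).pos i
  · rintro (_ | (a | j) | ⟨pp, i⟩)
    · exact ⟨tile L X Y 0 0, mem_square.2 ⟨0, hS, 0, hS, rfl⟩⟩
    · exact ⟨tile L X Y 0 (compR S' a), mem_union_left _ (mem_union_left _ (mem_rowF.2 ⟨0, hS, rfl⟩))⟩
    · exact ⟨tile L X Y 0 j, mem_union_left _ (mem_rowF.2 ⟨0, hS, rfl⟩)⟩
    · exact (hsk pp).ne i
  · rintro (_ | (a | j) | ⟨pp, i⟩)
    · exact subset_rfl
    · exact compRoute_sub h1 h2 a
    · exact compIn_sub h3 j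
    · exact ((hsk pp).sub i).trans (child_sub h1 pp)
  · rintro (_ | (a | j) | ⟨pp, i⟩)
    · exact conn_square X Y S
    · have hR := compR_lt h1 h2 a
      have hb : (a.2.2 : ℕ) < S' := by
        have := compR_low h2 a
        omega
      have hp := comp_mul_le h1 a.1
      refine conn_union _ _ (conn_union _ _ (conn_row X Y 0 S _) (conn_col X Y 0 S _)
        (tile L X Y (compR S' a) (compR S' a)) (mem_rowF.2 ⟨_, hR, rfl⟩) (mem_colF.2 ⟨_, hR, rfl⟩))
        (conn_row X Y _ _ _) (tile L X Y (compR S' a) (a.1 * S' + a.2.2))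
        (mem_union_right _ (mem_colF.2 ⟨_, by omega, rfl⟩))
        (mem_segF.2 ⟨_, ?_, Nat.lt_succ_self _, rfl⟩)
      unfold compR
      omega
    · have hj := j.isLt
      exact conn_union _ _ (conn_row X Y 0 S _) (conn_col X Y 0 S _) (tile L X Y j j)
        (mem_rowF.2 ⟨_, by omega, rfl⟩) (mem_colF.2 ⟨_, by omega, rfl⟩)
    · exact (hsk pp).conn i
  · intro u
    rw [Finset.prod_filter]
    have e : ∏ i : (compSk X Y S S' m b' b q G sk).ι,
        (if u ∈ (compSk X Y S S' m b' b q G sk).K i then (compSk X Y S S' m b' b q G sk).k i else 1) =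
        (if u ∈ square L X Y S then G else 1) *
          (((∏ a : Trk m b', (if u ∈ compRoute L X Y S S' a then q else 1)) *
            ∏ j : Fin b, (if u ∈ compIn L X Y S j then q else 1)) *
            ∏ s : (Σ pp : Fin m × Fin m, (sk pp).ι),
              (if u ∈ (sk s.1).K s.2 then (sk s.1).k s.2 else 1)) := by
      have e1 := Fintype.prod_sum_type (fun i : Unit ⊕ ((Trk m b' ⊕ Fin b) ⊕
        (Σ pp : Fin m × Fin m, (sk pp).ι)) => (if u ∈ (compSk X Y S S' m b' b q G sk).K i then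
        (compSk X Y S S' m b' b q G sk).k i else 1))
      refine e1.trans ?_
      rw [Fintype.prod_sum_type, Fintype.prod_sum_type]
      simp only [Finset.univ_unique, Finset.prod_singleton]
      rfl
    rw [e]
    have f1 : (if u ∈ square L X Y S then G else 1) ≤ G := by
      split_ifs
      · exact le_rfl
      · exact hG
    have f2 := cong_trk hX hY hq h1 h2 u
    have f3 := cong_in hX hY hq h3 u
    have f4 := cong_child hX hY hm h1 hsk u
    calc _ ≤ G * ((q ^ 3 * q ^ 2) * B) :=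
          Nat.mul_le_mul f1 (Nat.mul_le_mul (Nat.mul_le_mul f2 f3) f4)
      _ = G * q ^ 5 * B := by ring

end props

/-! ### The factors -/

section factors

variable {X Y S S' m b' b q G B : ℕ} {sk : Fin m × Fin m → Skel L}

/-- position of a track or of an input track -/
def compP {m b' b : ℕ} (S' : ℕ) : Trk m b' ⊕ Fin b → ℕ :=
  Sum.elim (fun a => compR S' a) fun j => j

/-- the route of a track or of an input track -/
def compK (L X Y S : ℕ) {m b' b : ℕ} (S' : ℕ) : Trk m b' ⊕ Fin b → Finset (Site L) :=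
  Sum.elim (fun a => compRoute L X Y S S' a) fun j => compIn L X Y S j

theorem compP_lt (h1 : m * S' ≤ S) (h2 : m * b' ≤ S') (h3 : b ≤ S) (a : Trk m b' ⊕ Fin b) :
    compP S' a < S := by
  rcases a with a | j
  · exact compR_lt h1 h2 a
  · exact lt_of_lt_of_le j.isLt h3

theorem row_mem_compK {x : ℕ} (hx : x < S) (a : Trk m b' ⊕ Fin b) :
    tile L X Y x (compP S' a) ∈ compK L X Y S S' a := by
  rcases a with a | j
  · exact mem_union_left _ (mem_union_left _ (mem_rowF.2 ⟨x, hx, rfl⟩))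
  · exact mem_union_left _ (mem_rowF.2 ⟨x, hx, rfl⟩)

theorem col_mem_compK {y : ℕ} (hy : y < S) (a : Trk m b' ⊕ Fin b) :
    tile L X Y (compP S' a) y ∈ compK L X Y S S' a := by
  rcases a with a | j
  · exact mem_union_left _ (mem_union_right _ (mem_colF.2 ⟨y, hy, rfl⟩))
  · exact mem_union_right _ (mem_colF.2 ⟨y, hy, rfl⟩)

theorem tap_mem (a : Trk m b') :
    tile L (X + a.2.1 * S') (Y + a.1 * S') 0 a.2.2 ∈ compK (b := b) L X Y S S' (Sum.inl a) := by
  refine mem_union_right _ (mem_segF.2 ⟨a.2.1 * S', le_rfl, ?_, ?_⟩)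
  · unfold compR
    omega
  · rw [tile_shift, Nat.add_zero]

variable (X Y S S' m b' b q G sk) in
/-- the factors, as a function of the profile, the tracks and the variables of the children -/
noncomputable def compF (C : Fin G → Trk m b' ⊕ Fin b → Trk m b' ⊕ Fin b → Fin q → Fin q → ℂ)
    (φc : Fin G → ∀ pp, Site L → (Fin b' → Fin q) → (sk pp).Asg → ℂ) (u : Site L)
    (ℓ : Fin b → Fin q) (g : Fin G) (w : Trk m b' ⊕ Fin b → Fin q) (y : ∀ pp, (sk pp).Asg) : ℂ :=
  (∏ j : Fin b, if u = tile L X Y 0 j then (if w (Sum.inr j) = ℓ j then 1 else 0) else 1) *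
  (∏ a, ∏ a', if u = tile L X Y (compP S' a') (compP S' a) then C g a a' (w a) (w a') else 1) *
  ∏ pp : Fin m × Fin m, φc g pp u (fun i => w (Sum.inl (pp.1, pp.2, i))) (y pp)

/-- the factors outside the square -/
theorem compF_out {C : Fin G → Trk m b' ⊕ Fin b → Trk m b' ⊕ Fin b → Fin q → Fin q → ℂ}
    {φc : Fin G → ∀ pp, Site L → (Fin b' → Fin q) → (sk pp).Asg → ℂ}
    (h1 : m * S' ≤ S) (h2 : m * b' ≤ S') (h3 : b ≤ S)
    (hout : ∀ g (pp : Fin m × Fin m) u, u ∉ square L (X + pp.2 * S') (Y + pp.1 * S') S' →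
      ∀ ℓ x, φc g pp u ℓ x = 1) {u : Site L} (hu : u ∉ square L X Y S) (ℓ : Fin b → Fin q)
    (g : Fin G) (w : Trk m b' ⊕ Fin b → Fin q) (y : ∀ pp, (sk pp).Asg) :
    compF X Y S' m b' b q G sk C φc u ℓ g w y = 1 := by
  unfold compF
  rw [Finset.prod_eq_one, Finset.prod_eq_one, Finset.prod_eq_one]
  · simp
  · intro pp _
    exact hout g pp u (fun h => hu (child_sub h1 pp h)) _ _
  · intro a _
    refine Finset.prod_eq_one fun a' _ => if_neg ?_
    rintro rfl
    exact hu (mem_square.2 ⟨_, compP_lt h1 h2 h3 a', _, compP_lt h1 h2 h3 a, rfl⟩)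
  · intro j _
    refine if_neg ?_
    rintro rfl
    have := j.isLt
    exact hu (mem_square.2 ⟨0, by omega, _, by omega, rfl⟩)

theorem prod_tiles {α : Type*} [Fintype α] (t : α → Site L) (F : α → ℂ) :
    ∏ u : Site L, ∏ a : α, (if u = t a then F a else 1) = ∏ a, F a := by
  rw [Finset.prod_comm]
  refine Finset.prod_congr rfl fun a _ => ?_
  rw [Finset.prod_ite_eq' Finset.univ (t a) (fun _ => F a)]
  simp

/-- the product of all the factors -/
theorem compF_prod (C : Fin G → Trk m b' ⊕ Fin b → Trk m b' ⊕ Fin b → Fin q → Fin q → ℂ)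
    (φc : Fin G → ∀ pp, Site L → (Fin b' → Fin q) → (sk pp).Asg → ℂ) (ℓ : Fin b → Fin q)
    (g : Fin G) (w : Trk m b' ⊕ Fin b → Fin q) (y : ∀ pp, (sk pp).Asg) :
    ∏ u : Site L, compF X Y S' m b' b q G sk C φc u ℓ g w y =
      (∏ j : Fin b, if w (Sum.inr j) = ℓ j then 1 else 0) *
      (∏ a, ∏ a', C g a a' (w a) (w a')) *
      ∏ pp : Fin m × Fin m, ∏ u, φc g pp u (fun i => w (Sum.inl (pp.1, pp.2, i))) (y pp) := by
  unfold compF
  rw [Finset.prod_mul_distrib, Finset.prod_mul_distrib]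
  congr 1
  · congr 1
    · exact prod_tiles (fun j : Fin b => tile L X Y 0 j)
        (fun j => if w (Sum.inr j) = ℓ j then (1 : ℂ) else 0)
    · rw [Finset.prod_comm]
      refine Finset.prod_congr rfl fun a _ => ?_
      exact prod_tiles (fun a' => tile L X Y (compP S' a') (compP S' a))
        (fun a' => C g a a' (w a) (w a'))
  · exact Finset.prod_comm

/-- the sum over the variables of the children -/
theorem compF_sum (C : Fin G → Trk m b' ⊕ Fin b → Trk m b' ⊕ Fin b → Fin q → Fin q → ℂ)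
    (φc : Fin G → ∀ pp, Site L → (Fin b' → Fin q) → (sk pp).Asg → ℂ)
    (f' : Fin G → Fin m → Fin m → (Fin b' → Fin q) → ℂ)
    (hf' : ∀ g (pp : Fin m × Fin m) ℓ, f' g pp.1 pp.2 ℓ = ∑ x, ∏ u, φc g pp u ℓ x)
    (ℓ : Fin b → Fin q) (g : Fin G) :
    ∑ w : Trk m b' ⊕ Fin b → Fin q, ∑ y : (∀ pp, (sk pp).Asg),
      ∏ u : Site L, compF X Y S' m b' b q G sk C φc u ℓ g w y =
    ∑ w : Trk m b' → Fin q,
      (∏ a, ∏ a', C g a a' (Sum.elim w ℓ a) (Sum.elim w ℓ a')) *
        ∏ p, ∏ p', f' g p p' fun i => w (p, p', i) := by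
  have e1 : ∀ w : Trk m b' ⊕ Fin b → Fin q, ∑ y : (∀ pp, (sk pp).Asg),
      ∏ u : Site L, compF X Y S' m b' b q G sk C φc u ℓ g w y =
      (∏ j : Fin b, if w (Sum.inr j) = ℓ j then 1 else 0) *
      ((∏ a, ∏ a', C g a a' (w a) (w a')) *
        ∏ p, ∏ p', f' g p p' fun i => w (Sum.inl (p, p', i))) := by
    intro w
    simp only [compF_prod]
    rw [← Finset.mul_sum, mul_assoc]
    congr 2
    have e2 := Finset.prod_univ_sum (fun pp : Fin m × Fin m => (Finset.univ : Finset (sk pp).Asg))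
      (fun pp y => ∏ u, φc g pp u (fun i => w (Sum.inl (pp.1, pp.2, i))) y)
    rw [Fintype.piFinset_univ] at e2
    rw [← e2, Fintype.prod_prod_type]
    refine Finset.prod_congr rfl fun p _ => Finset.prod_congr rfl fun p' _ => ?_
    exact (hf' g (p, p') _).symm
  simp only [e1]
  rw [← Equiv.sum_comp (Equiv.sumArrowEquivProdArrow (Trk m b') (Fin b) (Fin q)).symm,
    Fintype.sum_prod_type]
  refine Finset.sum_congr rfl fun w _ => ?_
  rw [Finset.sum_eq_single ℓ]
  · have e3 : (Equiv.sumArrowEquivProdArrow (Trk m b') (Fin b) (Fin q)).symm (w, ℓ) =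
        Sum.elim w ℓ := rfl
    rw [e3]
    simp
  · intro t _ ht
    have e3 : (Equiv.sumArrowEquivProdArrow (Trk m b') (Fin b) (Fin q)).symm (w, t) =
        Sum.elim w t := rfl
    rw [e3]
    obtain ⟨j, hj⟩ := Function.ne_iff.1 ht
    rw [Finset.prod_eq_zero (Finset.mem_univ j), zero_mul]
    rw [if_neg]
    simpa using hj
  · intro h
    exact absurd (mem_univ _) h

end factors

/-- YA5: composition. -/
theorem place_comp {S' b' m S b q B G : ℕ} {𝓕' : Set ((Fin b' → Fin q) → ℂ)} (hq : 0 < q)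
    (hG : 0 < G) (hm : 0 < m) (hS' : 0 < S') (h : Placeable L S' b' q B 𝓕') (h1 : m * S' ≤ S)
    (h2 : m * b' ≤ S') (h3 : b ≤ S) :
    Placeable L S b q (G * q ^ 5 * B) (compClass m b b' q G 𝓕') := by
  intro X Y hX hY
  have hch : ∀ pp : Fin m × Fin m, ∃ sk : Skel L,
      sk.Good (square L (X + pp.2 * S') (Y + pp.1 * S') S') B ∧
      ∀ f ∈ 𝓕', sk.Rz (square L (X + pp.2 * S') (Y + pp.1 * S') S')
        (fun i : Fin b' => tile L (X + pp.2 * S') (Y + pp.1 * S') 0 i) f := by
    intro pp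
    have e1 := comp_mul_le h1 pp.1
    have e2 := comp_mul_le h1 pp.2
    exact h (X + pp.2 * S') (Y + pp.1 * S') (by omega) (by omega)
  choose sk hgood hrz using hch
  refine ⟨compSk X Y S S' m b' b q G sk,
    compSk_good hX hY hq hG hm hS' h1 h2 h3 hgood, ?_⟩
  rintro f ⟨C, f', hf', hf⟩
  have hrz' : ∀ (g : Fin G) (pp : Fin m × Fin m), ∃ φ : Site L → (Fin b' → Fin q) → (sk pp).Asg → ℂ,
      (∀ u ℓ ℓ' x x', (∀ i : Fin b', tile L (X + pp.2 * S') (Y + pp.1 * S') 0 i = u → ℓ i = ℓ' i) →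
        (∀ i, u ∈ (sk pp).K i → x i = x' i) → φ u ℓ x = φ u ℓ' x') ∧
      (∀ u, u ∉ square L (X + pp.2 * S') (Y + pp.1 * S') S' → ∀ ℓ x, φ u ℓ x = 1) ∧
      ∀ ℓ, f' g pp.1 pp.2 ℓ = ∑ x, ∏ u, φ u ℓ x := fun g pp =>
    hrz pp _ (hf' g pp.1 pp.2)
  choose φc hloc hout hsum using hrz'
  set AE := compAsg X Y S S' m b' b q G sk with hAE
  refine ⟨fun u ℓ x => compF X Y S' m b' b q G sk C φc u ℓ (AE x).1 (AE x).2.1 (AE x).2.2,
    ?_, ?_, ?_⟩
  · intro u ℓ ℓ' x x' hℓ hx
    by_cases hu : u ∈ square L X Y S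
    · have hg : (AE x).1 = (AE x').1 := hx (Sum.inl ()) hu
      have hw : ∀ a : Trk m b' ⊕ Fin b, u ∈ compK L X Y S S' a → (AE x).2.1 a = (AE x').2.1 a := by
        intro a ha
        refine hx (Sum.inr (Sum.inl a)) ?_
        rcases a with a | j
        · exact ha
        · exact ha
      have hy : ∀ pp i, u ∈ (sk pp).K i → (AE x).2.2 pp i = (AE x').2.2 pp i := fun pp i hi =>
        hx (Sum.inr (Sum.inr ⟨pp, i⟩)) hi
      show compF X Y S' m b' b q G sk C φc u ℓ (AE x).1 (AE x).2.1 (AE x).2.2 =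
        compF X Y S' m b' b q G sk C φc u ℓ' (AE x').1 (AE x').2.1 (AE x').2.2
      rw [← hg]
      unfold compF
      congr 1
      · congr 1
        · refine Finset.prod_congr rfl fun j _ => ?_
          by_cases ha : u = tile L X Y 0 j
          · have hj := j.isLt
            have hmem : u ∈ compK (m := m) (b' := b') L X Y S S' (Sum.inr j) := by
              rw [ha]
              exact row_mem_compK (by omega) (Sum.inr j)
            rw [if_pos ha, if_pos ha, hw _ hmem, hℓ j ha.symm]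
          · rw [if_neg ha, if_neg ha]
        · refine Finset.prod_congr rfl fun a _ => Finset.prod_congr rfl fun a' _ => ?_
          split_ifs with ha
          · rw [hw a (by rw [ha]; exact row_mem_compK (compP_lt h1 h2 h3 a') a),
              hw a' (by rw [ha]; exact col_mem_compK (compP_lt h1 h2 h3 a) a')]
          · rfl
      · refine Finset.prod_congr rfl fun pp _ => ?_
        refine hloc _ pp u _ _ _ _ (fun i hi => ?_) (hy pp)
        refine hw _ ?_
        rw [← hi]
        exact tap_mem (X := X) (Y := Y) (S := S) (S' := S') (b := b) ((pp.1, pp.2, i) : Trk m b')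
    · show compF X Y S' m b' b q G sk C φc u ℓ (AE x).1 (AE x).2.1 (AE x).2.2 =
        compF X Y S' m b' b q G sk C φc u ℓ' (AE x').1 (AE x').2.1 (AE x').2.2
      rw [compF_out h1 h2 h3 hout hu, compF_out h1 h2 h3 hout hu]
  · intro u hu ℓ x
    exact compF_out h1 h2 h3 hout hu _ _ _ _
  · intro ℓ
    rw [hf ℓ]
    have e := Equiv.sum_comp AE (fun t => ∏ u : Site L,
      compF X Y S' m b' b q G sk C φc u ℓ t.1 t.2.1 t.2.2)
    refine Eq.trans ?_ e.symm
    rw [Fintype.sum_prod_type]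
    refine Finset.sum_congr rfl fun g _ => ?_
    rw [Fintype.sum_prod_type]
    exact (compF_sum C φc f' hsum ℓ g).symm

end Pool.Agent.PepsY
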