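import Pool.Agent.PepsY.FixDcp2

/-!
# YB5: decomposition for a fixed offset
-/

open Finset

set_option autoImplicit false
set_option linter.unusedSectionVars false

namespace Pool.Agent.PepsY

open Pool.Agent.PEPS953 Pool.Agent.PepsX

variable {d r n L : ℕ} [NeZero L]

namespace Fx

theorem pad {I : Type*} [Fintype I] [Nonempty I] {N : ℕ} (hN : Fintype.card I ≤ N) {X : Blk L}
    {PP : Blk L → Prop} {m b' lam Lam : ℕ} (F : I → Dcp d r n X PP m b' lam Lam) :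
    ∃ D : Fin N → Dcp d r n X PP m b' lam Lam, ∀ V' x,
      ∑ k, (D k).val V' x = ∑ i, (F i).val V' x := by
  classical
  obtain ⟨emb⟩ : Nonempty (I ↪ Fin N) := Function.Embedding.nonempty_of_card_le (by simpa using hN)
  obtain ⟨i₀⟩ := ‹Nonempty I›
  refine ⟨fun k => if h : ∃ i, emb i = k then F h.choose else { F i₀ with a := 0 }, fun V' x => ?_⟩
  rw [← sum_subset (subset_univ (univ.map emb)), sum_map]
  · refine sum_congr rfl fun i _ => ?_
    have h : ∃ j, emb j = emb i := ⟨i, rfl⟩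
    simp only [dif_pos h]
    rw [emb.injective h.choose_spec]
  · intro k _ hk
    have h : ¬ ∃ i, emb i = k := by
      rintro ⟨i, rfl⟩
      exact hk (mem_map_of_mem _ (mem_univ _))
    simp only [dif_neg h]
    unfold Dcp.val
    simp only [zero_mul]

/-- The good profiles. -/
def good (g m β' : ℕ) (X : Blk L) : Finset (Finset ((ℕ × ℕ) × ℕ) × Finset ((ℕ × ℕ) × ℕ)) :=
  ((TT g X.s X.e).powerset ×ˢ (TT g X.s X.e).powerset).filter fun P =>
    Disjoint P.1 P.2 ∧ g ^ 2 + P.1.card ≤ m ^ 2 ∧ P.2.card ≤ m ^ 2 * β' ∧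
      ∀ p ∈ US g X.s P.1, (ws X P.1 P.2 p).card + 1 ≤ β'

theorem card_TT (g s e n : ℕ) (h : e ≤ n) : (TT g s e).card ≤ g ^ 2 * n := by
  unfold TT gr
  rw [card_product, card_product, card_range, Nat.card_Ico, sq]
  exact Nat.mul_le_mul_left _ (by omega)

theorem card_good (g m β' : ℕ) (X : Blk L) (h : X.e ≤ n) :
    (good g m β' X).card ≤ (1 + g ^ 2 * n) ^ (m ^ 2 * (1 + β')) := by
  have hsub : good g m β' X ⊆ ((TT g X.s X.e).powerset.filter fun D => D.card ≤ m ^ 2) ×ˢ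
      ((TT g X.s X.e).powerset.filter fun D => D.card ≤ m ^ 2 * β') := by
    intro P hP
    obtain ⟨h1, h2, h3, h4, h5⟩ := mem_filter.1 hP
    obtain ⟨h6, h7⟩ := mem_product.1 h1
    exact mem_product.2 ⟨mem_filter.2 ⟨h6, by omega⟩, mem_filter.2 ⟨h7, h4⟩⟩
  have hT := card_TT g X.s X.e n h
  calc (good g m β' X).card ≤ _ := card_le_card hsub
    _ = _ := card_product _ _
    _ ≤ (1 + (TT g X.s X.e).card) ^ (m ^ 2) * (1 + (TT g X.s X.e).card) ^ (m ^ 2 * β') :=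
        Nat.mul_le_mul (card_small_le _ _) (card_small_le _ _)
    _ = (1 + (TT g X.s X.e).card) ^ (m ^ 2 * (1 + β')) := by
        rw [← pow_add, mul_add, mul_one]
    _ ≤ _ := Nat.pow_le_pow_left (by omega) _

/-- The condition on the slice. -/
def SC (r α B' : ℕ) (X : Blk L) (Y : Blk L) (x : Asn d r n L) : Prop :=
  S0 r α Y x < B' ∧ (Y.e = X.e ∨ B' ≤ S0 r α Y x + S1 r α Y x)

theorem sum_Ico_pred {a b : ℕ} (h : a < b) (l : ℕ → ℕ) :
    ∑ t ∈ Ico a b, l t = ∑ t ∈ Ico a (b - 1), l t + l (b - 1) := by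
  obtain ⟨k, rfl⟩ : ∃ k, b = k + 1 := ⟨b - 1, by omega⟩
  rw [Nat.add_sub_cancel, sum_Ico_succ_top (by omega)]

theorem mch_iff {g α B' lam m β' : ℕ} {X : Blk L} (hX : X.s < X.e) (prt : Site L → ℕ × ℕ)
    {P : Finset ((ℕ × ℕ) × ℕ) × Finset ((ℕ × ℕ) × ℕ)} (hP : P ∈ good g m β' X) (x : Asn d r n L) :
    Mch g X.s X.e B' lam (fun c => ld r α (cel X.C prt c) x)
      (fun c => ct (Crs r (cel X.C prt c)) x) P ↔
    (∀ p ∈ US g X.s P.1, SC r α B' X (bk X prt P.1 p) x) ∧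
      ∀ p ∈ US g X.s P.1, WW r lam X prt P.1 P.2 x p := by
  obtain ⟨h1, h2, h3, h4, h5⟩ := mem_filter.1 hP
  obtain ⟨h6, h7⟩ := mem_product.1 h1
  rw [mem_powerset] at h6 h7
  unfold Mch
  constructor
  · rintro ⟨_, _, _, h⟩
    constructor
    · rintro ⟨c, a⟩ hp
      obtain ⟨hc, ha⟩ := (mem_US h6).1 hp
      have hlt := bk_lt (prt := prt) hX h6 hp
      obtain ⟨h8, h9⟩ := (h c hc).1.2 a ha
      refine ⟨h8, ?_⟩
      unfold S0 S1
      rw [← sum_Ico_pred hlt.2.1]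
      exact h9
    · rintro ⟨c, a⟩ hp
      obtain ⟨hc, ha⟩ := (mem_US h6).1 hp
      exact ((h c hc).2 a ha).2
  · rintro ⟨h8, h9⟩
    refine ⟨h6, h7, h2, fun c hc => ⟨⟨tms_sub h6 c, fun a ha => ?_⟩, fun a ha => ⟨win_sub _ _ _ _, ?_⟩⟩⟩
    · have hp := (mem_US h6).2 ⟨hc, ha⟩
      have hlt := bk_lt (prt := prt) hX h6 hp
      obtain ⟨h10, h11⟩ := h8 _ hp
      refine ⟨h10, ?_⟩
      unfold S0 S1 at h11
      rw [← sum_Ico_pred hlt.2.1] at h11
      exact h11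
    · exact h9 _ ((mem_US h6).2 ⟨hc, ha⟩)

theorem vol_of_SC {R g A₁ A₂ V K V' m b' lam Lam α B' β' γ' : ℕ} (hr : 0 < r)
    (P : Prm r R g A₁ A₂ V K V' m b' lam Lam α B' β' γ') {X : Blk L}
    {Y : Blk L} (hY : Y.s < Y.e) (hA : Y.C.card ≤ A₁) {x : Asn d r n L}
    (h : SC r α B' X Y x) : vol Y x ≤ V' := by
  have h1 := P.p1
  have h2 := ct_ins_le hr Y.C x (Y.e - 1)
  have h3 : ∑ t ∈ Ico Y.s (Y.e - 1), ct (Ins r Y.C) x t ≤ S0 r α Y x :=
    sum_le_sum fun t _ => Nat.le_add_left _ _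
  have h4 := h.1
  rw [vol_eq, sum_Ico_pred hY]
  have h5 : 0 ≤ α * A₂ := Nat.zero_le _
  omega

theorem S0_lt {α : ℕ} {Y : Blk L} (hY : Y.s < Y.e) (hn : Y.e ≤ n) (x : Asn d r n L) :
    S0 r α Y x < (α + 1) * n * L ^ 2 + 1 ∧ S1 r α Y x < (α + 1) * n * L ^ 2 + 1 := by
  have h1 : (α + 1) * n * L ^ 2 = n * ((α + 1) * L ^ 2) := by ring
  rw [h1]
  constructor
  · unfold S0
    refine Nat.lt_succ_of_le ((sum_le_sum fun t _ => ld_le α Y.C x t).trans ?_)
    rw [sum_const, Nat.card_Ico, smul_eq_mul]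
    exact Nat.mul_le_mul_right _ (by omega)
  · unfold S1
    refine Nat.lt_succ_of_le ((ld_le α Y.C x _).trans ?_)
    exact Nat.le_mul_of_pos_left _ (by omega)

open scoped Classical in
/-- The modes of a good profile. -/
theorem prof_modes {R g A₁ A₂ V K V' m b' lam Lam α B' β' γ' : ℕ}
    {QQ : Finset (Site L) → Prop} (hr : 0 < r)
    (P : Prm r R g A₁ A₂ V K V' m b' lam Lam α B' β' γ') (X : Blk L)
    (hX : X.s < X.e ∧ X.e ≤ n) (G : Geo r R g A₁ A₂ X.C QQ) (o₁ o₂ : Fin R)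
    (w : Fin n → Site L → Opn d r → ℂ) {Q : Finset ((ℕ × ℕ) × ℕ) × Finset ((ℕ × ℕ) × ℕ)}
    (hQ : Q ∈ good g m β' X) :
    ∃ D : ({p // p ∈ US g X.s Q.1} × Fin 2 → Fin ((α + 1) * n * L ^ 2 + 1)) →
      Dcp d r n X (fun Y => Y.s < Y.e ∧ Y.e ≤ n ∧ QQ Y.C) m b' lam Lam, ∀ x,
      ∑ θ, (D θ).val V' x = (if Mch g X.s X.e B' lam (fun c => ld r α (cel X.C (G.part o₁ o₂) c) x)
        (fun c => ct (Crs r (cel X.C (G.part o₁ o₂) c)) x) Q then 1 else 0) * Wt w X x := by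
  set prt : Site L → ℕ × ℕ := G.part o₁ o₂ with hprt'
  have hprt : ∀ v ∈ X.C, prt v ∈ gr g := by
    intro v hv
    have h := G.bound o₁ o₁.isLt o₂ o₂.isLt v hv
    exact mem_product.2 ⟨mem_range.2 h.1, mem_range.2 h.2⟩
  obtain ⟨h1, h2, h3, h4, h5⟩ := mem_filter.1 hQ
  obtain ⟨h6, h7⟩ := mem_product.1 h1
  rw [mem_powerset] at h6 h7
  obtain ⟨a, z, haz⟩ := stat_expand (J := {p // p ∈ US g X.s Q.1} × Fin 2)
    ((α + 1) * n * L ^ 2 + 1) (Nat.succ_pos _) (fun A => if ∀ u : {p // p ∈ US g X.s Q.1},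
      A (u, 0) < B' ∧ ((bk X prt Q.1 u.1).e = X.e ∨ B' ≤ A (u, 0) + A (u, 1)) then (1 : ℂ) else 0)
  have hD := fun θ : {p // p ∈ US g X.s Q.1} × Fin 2 → Fin ((α + 1) * n * L ^ 2 + 1) =>
    mode_dcp hr P X hX G o₁ o₂ w h6 h3 h5
      (fun p j => if h : p ∈ US g X.s Q.1 then z (θ (⟨p, h⟩, j)) else 1) (a θ)
  choose D hD using hD
  refine ⟨D, fun x => ?_⟩
  simp_rw [hD]
  simp_rw [prod_mul_distrib]
  have e1 : ∀ θ : {p // p ∈ US g X.s Q.1} × Fin 2 → Fin ((α + 1) * n * L ^ 2 + 1),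
      (∏ p ∈ US g X.s Q.1, (if h : p ∈ US g X.s Q.1 then z (θ (⟨p, h⟩, 0)) else 1) ^
        S0 r α (bk X (G.part o₁ o₂) Q.1 p) x) *
      (∏ p ∈ US g X.s Q.1, (if h : p ∈ US g X.s Q.1 then z (θ (⟨p, h⟩, 1)) else 1) ^
        S1 r α (bk X (G.part o₁ o₂) Q.1 p) x) =
      ∏ j : {p // p ∈ US g X.s Q.1} × Fin 2, z (θ j) ^
        (if j.2 = 0 then S0 r α (bk X prt Q.1 j.1.1) x else S1 r α (bk X prt Q.1 j.1.1) x) := by
    intro θ
    rw [Fintype.prod_prod_type, ← prod_mul_distrib, ← prod_coe_sort (US g X.s Q.1)]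
    refine prod_congr rfl fun u _ => ?_
    rw [Fin.prod_univ_two]
    simp only [dif_pos u.2, if_pos, Fin.isValue, one_ne_zero, if_neg, not_false_eq_true]
    rfl
  simp_rw [e1]
  have hA : ∀ j : {p // p ∈ US g X.s Q.1} × Fin 2,
      (if j.2 = 0 then S0 r α (bk X prt Q.1 j.1.1) x else S1 r α (bk X prt Q.1 j.1.1) x) <
        (α + 1) * n * L ^ 2 + 1 := by
    intro j
    have h8 := bk_lt (prt := prt) hX.1 h6 j.1.2
    have h9 := S0_lt (α := α) (r := r) (n := n) (d := d) h8.2.1 (h8.2.2.trans hX.2) x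
    split_ifs
    · exact h9.1
    · exact h9.2
  have e2 := haz _ hA
  have e3 : ∀ c₁ c₂ : ℂ, ∑ θ : {p // p ∈ US g X.s Q.1} × Fin 2 → Fin ((α + 1) * n * L ^ 2 + 1),
      a θ * (c₁ * (c₂ * ∏ j, z (θ j) ^
        (if j.2 = 0 then S0 r α (bk X prt Q.1 j.1.1) x else S1 r α (bk X prt Q.1 j.1.1) x))) =
      c₁ * (c₂ * ∑ θ : {p // p ∈ US g X.s Q.1} × Fin 2 → Fin ((α + 1) * n * L ^ 2 + 1),
      a θ * ∏ j, z (θ j) ^
        (if j.2 = 0 then S0 r α (bk X prt Q.1 j.1.1) x else S1 r α (bk X prt Q.1 j.1.1) x)) := by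
    intro c₁ c₂
    rw [mul_sum, mul_sum]
    refine sum_congr rfl fun θ _ => ?_
    ring
  rw [e3, ← e2]
  have e4 : (∀ u : {p // p ∈ US g X.s Q.1}, (if ((u, 0) : {p // p ∈ US g X.s Q.1} × Fin 2).2 = 0
      then S0 r α (bk X prt Q.1 u.1) x else S1 r α (bk X prt Q.1 u.1) x) < B' ∧
      ((bk X prt Q.1 u.1).e = X.e ∨ B' ≤ (if ((u, 0) : {p // p ∈ US g X.s Q.1} × Fin 2).2 = 0
      then S0 r α (bk X prt Q.1 u.1) x else S1 r α (bk X prt Q.1 u.1) x) +
      (if ((u, 1) : {p // p ∈ US g X.s Q.1} × Fin 2).2 = 0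
      then S0 r α (bk X prt Q.1 u.1) x else S1 r α (bk X prt Q.1 u.1) x))) ↔
      ∀ p ∈ US g X.s Q.1, SC r α B' X (bk X prt Q.1 p) x := by
    simp only [if_pos, Fin.isValue, one_ne_zero, if_neg, not_false_eq_true]
    constructor
    · intro h p hp
      exact h ⟨p, hp⟩
    · intro h u
      exact h u.1 u.2
  have hm := mch_iff (B' := B') (α := α) (lam := lam) hX.1 prt hQ x
  by_cases hs : ∀ p ∈ US g X.s Q.1, SC r α B' X (bk X prt Q.1 p) x
  · rw [if_pos (e4.2 hs), mul_one]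
    have e5 : ∏ p ∈ US g X.s Q.1, (if vol (bk X prt Q.1 p) x ≤ V' then Wt w (bk X prt Q.1 p) x
        else 0) = Wt w X x := by
      rw [← Wt_prod w X hX prt h6 hprt x]
      refine prod_congr rfl fun p hp => ?_
      have h8 := bk_lt (prt := prt) hX.1 h6 hp
      rw [if_pos (vol_of_SC hr P h8.2.1 (G.area o₁ o₁.isLt o₂ o₂.isLt p.1) (hs p hp))]
    rw [e5]
    by_cases hw : ∀ p ∈ US g X.s Q.1, WW r lam X prt Q.1 Q.2 x p
    · rw [if_pos (hm.2 ⟨hs, hw⟩), one_mul]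
      have e6 : ∏ p ∈ US g X.s Q.1, (if WW r lam X prt Q.1 Q.2 x p then (1 : ℂ) else 0) = 1 :=
        prod_eq_one fun p hp => if_pos (hw p hp)
      rw [e6, mul_one]
    · rw [if_neg fun h => hw (hm.1 h).2, zero_mul]
      push Not at hw
      obtain ⟨p, hp, hw⟩ := hw
      rw [prod_eq_zero hp (if_neg hw), mul_zero]
  · rw [if_neg fun h => hs (e4.1 h), if_neg fun h => hs (hm.1 h).1, mul_zero, mul_zero, zero_mul]

end Fx

open Fx in
/-- YB5: decomposition for a fixed offset. -/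
theorem fixed_dcps {R g A₁ A₂ V K V' m b' lam Lam α B' β' γ' : ℕ}
    {QQ : Finset (Site L) → Prop} (hr : 0 < r)
    (P : Prm r R g A₁ A₂ V K V' m b' lam Lam α B' β' γ') (X : Blk L)
    (hX : X.s < X.e ∧ X.e ≤ n) (G : Geo r R g A₁ A₂ X.C QQ) (d₀ : Fin d) (o₁ o₂ : Fin R) :
    ∃ c : Asn d r n L → ℂ,
      (∀ x, lets (X.ext r n) x ≤ K → vol X x ≤ V →
        R * (univ.filter fun b : Fin n × Site L => X.s ≤ b.1 ∧ (b.1 : ℕ) < X.e ∧ Ins r X.C b.2 ∧
          x.o b.1 b.2 ≠ none ∧ ∃ p p' : Box r, G.part o₁ o₂ (boxPos L r b.2 p) ≠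
            G.part o₁ o₂ (boxPos L r b.2 p')).card ≤ 2 * r * V → c x = 1) ∧
      ∀ w : Fin n → Site L → Opn d r → ℂ, ∃ D : Fin (profs₂ n L g m α β') →
        Dcp d r n X (fun Y => Y.s < Y.e ∧ Y.e ≤ n ∧ QQ Y.C) m b' lam Lam,
        ∀ x, ∑ k, (D k).val V' x = c x * Wt w X x := by
  classical
  have _ := d₀
  set prt : Site L → ℕ × ℕ := G.part o₁ o₂ with hprt'
  set MM : Asn d r n L → Finset ((ℕ × ℕ) × ℕ) × Finset ((ℕ × ℕ) × ℕ) → Prop := fun x Q =>
    Mch g X.s X.e B' lam (fun c => ld r α (cel X.C prt c) x)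
        (fun c => ct (Crs r (cel X.C prt c)) x) Q with hMM
  refine ⟨fun x => ∑ Q ∈ good g m β' X, if MM x Q then 1 else 0, fun x hK hV hR => ?_, fun w => ?_⟩
  · obtain ⟨Q, hQ, hu⟩ := mch_exists_unique (g := g) hX.1 P.hB P.hlam
      (fun c => ld r α (cel X.C prt c) x) (fun c => ct (Crs r (cel X.C prt c)) x)
    have h1 : g ^ 2 + Q.1.card ≤ m ^ 2 := by
      refine P.p2 _ ?_
      have h2 := (mch_card hX.1 P.hB hQ).trans (sum_ld_le (g := g) (α := α) hr X prt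
        (G.touch o₁ o₁.isLt o₂ o₂.isLt) x)
      set CR := (univ.filter fun b : Fin n × Site L => X.s ≤ b.1 ∧ (b.1 : ℕ) < X.e ∧ Ins r X.C b.2 ∧
          x.o b.1 b.2 ≠ none ∧ ∃ p p' : Box r, prt (boxPos L r b.2 p) ≠
            prt (boxPos L r b.2 p')).card with hCR
      calc Q.1.card * (R * B') = R * (Q.1.card * B') := by ring
        _ ≤ R * (α * (4 * CR + 4 * lets (X.ext r n) x) + vol X x) := Nat.mul_le_mul_left R h2
        _ = α * (4 * (R * CR) + 4 * (lets (X.ext r n) x * R)) + vol X x * R := by ring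
        _ ≤ α * (4 * (2 * r * V) + 4 * (K * R)) + V * R := by
          refine Nat.add_le_add (Nat.mul_le_mul_left α (Nat.add_le_add (Nat.mul_le_mul_left 4 hR)
            (Nat.mul_le_mul_left 4 (Nat.mul_le_mul_right R hK)))) (Nat.mul_le_mul_right R hV)
        _ = _ := by ring
    have h2 : ∀ p ∈ US g X.s Q.1, (ws X Q.1 Q.2 p).card + 1 ≤ β' := by
      rintro ⟨c, a⟩ hp
      obtain ⟨hc, ha⟩ := (mem_US hQ.1).1 hp
      have hlt := bk_lt (prt := prt) hX.1 hQ.1 hp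
      refine P.p3 _ ?_
      have h3 := cut_card hlt.2.1 P.hlam ((hQ.2.2.2 c hc).2 a ha)
      have h4 : ∑ t ∈ Ico a (nxt X.e (tms Q.1 c) a - 1), ld r α (cel X.C prt c) x t < B' :=
        ((hQ.2.2.2 c hc).1.2 a ha).1
      have hlt2 : a < nxt X.e (tms Q.1 c) a := hlt.2.1
      have h5 : ∑ t ∈ Ico a (nxt X.e (tms Q.1 c) a - 1), α * ct (Crs r (cel X.C prt c)) x t ≤
          ∑ t ∈ Ico a (nxt X.e (tms Q.1 c) a - 1), ld r α (cel X.C prt c) x t :=
        sum_le_sum fun t _ => Nat.le_add_right _ _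
      rw [← mul_sum] at h5
      have h6 : ct (Crs r (cel X.C prt c)) x (nxt X.e (tms Q.1 c) a - 1) ≤ A₂ :=
        (ct_le _ x _).trans (G.bdry o₁ o₁.isLt o₂ o₂.isLt c)
      have h7 := P.p1
      have h8 : (ws X Q.1 Q.2 (c, a)).card * lam ≤
          ∑ t ∈ Ico a (nxt X.e (tms Q.1 c) a - 1), ct (Crs r (cel X.C prt c)) x t +
            ct (Crs r (cel X.C prt c)) x (nxt X.e (tms Q.1 c) a - 1) := by
        rw [← sum_Ico_pred hlt2]
        exact h3
      calc (ws X Q.1 Q.2 (c, a)).card * (lam * α) = α * ((ws X Q.1 Q.2 (c, a)).card * lam) := by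
            ring
        _ ≤ α * (∑ t ∈ Ico a (nxt X.e (tms Q.1 c) a - 1), ct (Crs r (cel X.C prt c)) x t +
            ct (Crs r (cel X.C prt c)) x (nxt X.e (tms Q.1 c) a - 1)) := Nat.mul_le_mul_left α h8
        _ ≤ V' := by
          rw [mul_add]
          have h9 := Nat.mul_le_mul_left α h6
          clear hlt hu hR
          omega
    have hQg : Q ∈ good g m β' X := by
      refine mem_filter.2 ⟨mem_product.2 ⟨mem_powerset.2 hQ.1, mem_powerset.2 hQ.2.1⟩, hQ.2.2.1,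
        h1, ?_, h2⟩
      have h3 := mch_card_win (w := β') hQ (fun c hc a ha =>
        (Nat.le_succ _).trans (h2 (c, a) ((mem_US hQ.1).2 ⟨hc, ha⟩)))
      refine h3.trans (Nat.mul_le_mul_right β' ((card_US_le g X.s Q.1).trans h1))
    show ∑ Q ∈ good g m β' X, (if MM x Q then (1 : ℂ) else 0) = 1
    rw [sum_eq_single Q, if_pos hQ]
    · intro Q' _ hne
      exact if_neg fun h => hne (hu Q' h)
    · exact fun h => absurd hQg h
  · have hD := fun Q : {Q // Q ∈ good g m β' X} => prof_modes hr P X hX G o₁ o₂ w Q.2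
    choose D hD using hD
    have hne : (good g m β' X).Nonempty := by
      refine ⟨(∅, ∅), mem_filter.2 ⟨mem_product.2 ⟨mem_powerset.2 (empty_subset _),
        mem_powerset.2 (empty_subset _)⟩, disjoint_empty_left _, ?_, Nat.zero_le _, fun p _ => ?_⟩⟩
      · have := P.p2 0 (by rw [zero_mul]; exact Nat.zero_le _)
        simpa using this
      · have h1 := P.p3 0 (by rw [zero_mul]; exact Nat.zero_le _)
        have h2 : ws X ∅ ∅ p = ∅ := by
          unfold ws Fx.win tms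
          simp
        rw [h2]
        simpa using h1
    obtain ⟨Q₀, hQ₀⟩ := hne
    have : Nonempty (Σ Q : {Q // Q ∈ good g m β' X},
        ({p // p ∈ US g X.s Q.1.1} × Fin 2 → Fin ((α + 1) * n * L ^ 2 + 1))) :=
      ⟨⟨⟨Q₀, hQ₀⟩, fun _ => 0⟩⟩
    have hcard : Fintype.card (Σ Q : {Q // Q ∈ good g m β' X},
        ({p // p ∈ US g X.s Q.1.1} × Fin 2 → Fin ((α + 1) * n * L ^ 2 + 1))) ≤
          profs₂ n L g m α β' := by
      rw [Fintype.card_sigma]
      unfold profs₂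
      calc _ ≤ ∑ Q : {Q // Q ∈ good g m β' X}, ((α + 1) * n * L ^ 2 + 1) ^ (2 * m ^ 2) := by
            refine sum_le_sum fun Q _ => ?_
            rw [Fintype.card_fun, Fintype.card_prod, Fintype.card_coe, Fintype.card_fin,
              Fintype.card_fin]
            refine Nat.pow_le_pow_right (Nat.succ_pos _) ?_
            have h1 := (card_US_le g X.s Q.1.1).trans (mem_filter.1 Q.2).2.2.1
            omega
        _ = (good g m β' X).card * ((α + 1) * n * L ^ 2 + 1) ^ (2 * m ^ 2) := by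
            rw [sum_const, card_univ, Fintype.card_coe, smul_eq_mul]
        _ ≤ _ := Nat.mul_le_mul_right _ (card_good g m β' X hX.2)
    obtain ⟨D', hD'⟩ := pad hcard (fun i => D i.1 i.2)
    refine ⟨D', fun x => ?_⟩
    rw [hD', Fintype.sum_sigma, sum_mul, ← sum_coe_sort (good g m β' X)]
    exact sum_congr rfl fun Q _ => hD Q x

end Pool.Agent.PepsY
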