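import Pool.Agent.PepsY.Offsets
import Pool.Agent.PepsY.Fixed

/-!
# Part B: decomposition of a block
-/

open Finset

set_option autoImplicit false
set_option linter.unusedSectionVars false
set_option linter.unusedVariables false

namespace Pool.Agent.PepsY

open Pool.Agent.PEPS953 Pool.Agent.PepsX

variable {d r n L : ℕ} [NeZero L]

private lemma dcps_mem_of_ins (hr : 0 < r) (C : Finset (Site L)) (τ : Site L) (h : Ins r C τ) :
    τ ∈ C := by
  have h0 := h (⟨0, hr⟩, ⟨0, hr⟩)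
  unfold boxPos at h0
  simpa using h0

/-- The weights twisted by `ζ` at the internal insertions. -/
noncomputable def dcpsTw (C : Finset (Site L)) (ζ : Site L → ℂ)
    (w : Fin n → Site L → Opn d r → ℂ) : Fin n → Site L → Opn d r → ℂ :=
  fun t τ o => w t τ o * (if Ins r C τ ∧ o ≠ none then ζ τ else 1)

private lemma Wt_dcpsTw (hr : 0 < r) (X : Blk L) (ζ : Site L → ℂ)
    (w : Fin n → Site L → Opn d r → ℂ) (x : Asn d r n L) :
    Wt (dcpsTw X.C ζ w) X x = (∏ b ∈ univ.filter (fun b : Fin n × Site L =>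
      X.s ≤ b.1 ∧ (b.1 : ℕ) < X.e ∧ Ins r X.C b.2 ∧ x.o b.1 b.2 ≠ none), ζ b.2) * Wt w X x := by
  classical
  have h1 : (∏ b ∈ univ.filter (fun b : Fin n × Site L =>
      X.s ≤ b.1 ∧ (b.1 : ℕ) < X.e ∧ Ins r X.C b.2 ∧ x.o b.1 b.2 ≠ none), ζ b.2) =
      ∏ t ∈ univ.filter (fun t : Fin n => X.s ≤ t ∧ (t : ℕ) < X.e), ∏ v ∈ X.C,
        (if Ins r X.C v ∧ x.o t v ≠ none then ζ v else 1) := by
    rw [prod_filter, ← univ_product_univ, prod_product, prod_filter]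
    refine prod_congr rfl fun t _ => ?_
    split_ifs with ht
    · rw [← prod_subset (subset_univ X.C)]
      · refine prod_congr rfl fun v _ => ?_
        refine if_congr ?_ rfl rfl
        simp only
        tauto
      · intro v _ hv
        rw [if_neg]
        rintro ⟨_, _, h3, _⟩
        exact hv (dcps_mem_of_ins hr _ _ h3)
    · refine prod_eq_one fun v _ => ?_
      rw [if_neg]
      rintro ⟨h1, h2, _⟩
      exact ht ⟨h1, h2⟩
  rw [h1]
  unfold Wt
  rw [← prod_mul_distrib]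
  refine prod_congr rfl fun t _ => ?_
  rw [← prod_mul_distrib]
  refine prod_congr rfl fun v _ => ?_
  unfold dcpsTw
  ring

/-- Multiplication of the coefficient of a decomposition. -/
def Dcp.smul {X : Blk L} {PP : Blk L → Prop} {m b' lam Lam : ℕ} (c : ℂ)
    (D : Dcp d r n X PP m b' lam Lam) : Dcp d r n X PP m b' lam Lam :=
  { D with a := c * D.a }

private lemma Dcp.smul_val {X : Blk L} {PP : Blk L → Prop} {m b' lam Lam : ℕ} (c : ℂ)
    (D : Dcp d r n X PP m b' lam Lam) (V' : ℕ) (x : Asn d r n L) :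
    (D.smul c).val V' x = c * D.val V' x := by
  unfold Dcp.val
  change c * D.a * _ = c * (D.a * _)
  rw [mul_assoc]
  rfl

/-- YB6: decomposition. -/
theorem exists_dcps {R g A₁ A₂ V K V' m b' lam Lam α B' β' γ' : ℕ}
    {QQ : Finset (Site L) → Prop} (hr : 0 < r)
    (P : Prm r R g A₁ A₂ V K V' m b' lam Lam α B' β' γ') (X : Blk L)
    (hX : X.s < X.e ∧ X.e ≤ n) (G : Geo r R g A₁ A₂ X.C QQ) (d₀ : Fin d)
    (w : Fin n → Site L → Opn d r → ℂ) :
    ∃ D : Fin (profs n L R g m α β') →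
        Dcp d r n X (fun Y => Y.s < Y.e ∧ Y.e ≤ n ∧ QQ Y.C) m b' lam Lam,
      ∀ x, lets (X.ext r n) x ≤ K → TWt w V X x = ∑ k, (D k).val V' x := by
  classical
  obtain ⟨χ, a, ζ, hχ1, hχ2, hχ3⟩ := offsets (d := d) (r := r) (n := n) (L := L) (V := V)
    (α := α) hr P.hR X hX G
  choose c hc1 hc2 using fun o₁ o₂ => fixed_dcps (d := d) hr P X hX G d₀ o₁ o₂
  choose D hD using fun o₁ o₂ θ => hc2 o₁ o₂ (dcpsTw X.C (ζ o₁ o₂ θ) w)
  have hcard : Fintype.card (Fin (profs n L R g m α β')) =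
      Fintype.card (((Fin R × Fin R) × Fin (profs₁ n L R α)) × Fin (profs₂ n L g m α β')) := by
    simp only [Fintype.card_prod, Fintype.card_fin]
    rfl
  obtain ⟨e⟩ := Fintype.card_eq.1 hcard
  refine ⟨fun k => (D (e k).1.1.1 (e k).1.1.2 (e k).1.2 (e k).2).smul
    (a (e k).1.1.1 (e k).1.1.2 (e k).1.2), fun x hx => ?_⟩
  have h1 : (∑ k, ((D (e k).1.1.1 (e k).1.1.2 (e k).1.2 (e k).2).smul
      (a (e k).1.1.1 (e k).1.1.2 (e k).1.2)).val V' x) =
      ∑ o : Fin R × Fin R, ∑ θ, a o.1 o.2 θ * (c o.1 o.2 x *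
        ((∏ b ∈ univ.filter (fun b : Fin n × Site L =>
          X.s ≤ b.1 ∧ (b.1 : ℕ) < X.e ∧ Ins r X.C b.2 ∧ x.o b.1 b.2 ≠ none),
            ζ o.1 o.2 θ b.2) * Wt w X x)) := by
    rw [Equiv.sum_comp e fun k => ((D k.1.1.1 k.1.1.2 k.1.2 k.2).smul
      (a k.1.1.1 k.1.1.2 k.1.2)).val V' x, Fintype.sum_prod_type, Fintype.sum_prod_type]
    refine sum_congr rfl fun o _ => sum_congr rfl fun θ _ => ?_
    simp only [Dcp.smul_val]
    rw [← mul_sum, hD, Wt_dcpsTw hr]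
  rw [h1]
  have h2 : ∀ o : Fin R × Fin R, (∑ θ, a o.1 o.2 θ * (c o.1 o.2 x *
        ((∏ b ∈ univ.filter (fun b : Fin n × Site L =>
          X.s ≤ b.1 ∧ (b.1 : ℕ) < X.e ∧ Ins r X.C b.2 ∧ x.o b.1 b.2 ≠ none),
            ζ o.1 o.2 θ b.2) * Wt w X x))) = if χ o.1 o.2 x then c o.1 o.2 x * Wt w X x else 0 := by
    intro o
    have h3 : (∑ θ, a o.1 o.2 θ * (c o.1 o.2 x *
        ((∏ b ∈ univ.filter (fun b : Fin n × Site L =>
          X.s ≤ b.1 ∧ (b.1 : ℕ) < X.e ∧ Ins r X.C b.2 ∧ x.o b.1 b.2 ≠ none),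
            ζ o.1 o.2 θ b.2) * Wt w X x))) =
        (∑ θ, a o.1 o.2 θ * (∏ b ∈ univ.filter (fun b : Fin n × Site L =>
          X.s ≤ b.1 ∧ (b.1 : ℕ) < X.e ∧ Ins r X.C b.2 ∧ x.o b.1 b.2 ≠ none),
            ζ o.1 o.2 θ b.2)) * (c o.1 o.2 x * Wt w X x) := by
      rw [sum_mul]
      refine sum_congr rfl fun θ _ => ?_
      ring
    rw [h3]
    split_ifs with hχ
    · rw [(hχ3 o.1 o.2 x).1 hχ, one_mul]
    · rw [(hχ3 o.1 o.2 x).2 hχ, zero_mul]
  rw [sum_congr rfl fun o _ => h2 o]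
  unfold TWt
  split_ifs with hV
  · obtain ⟨o, ho, huniq⟩ := hχ1 x hV
    rw [sum_eq_single o]
    · rw [if_pos ho, hc1 o.1 o.2 x hx hV (hχ2 o.1 o.2 x ho).2, one_mul]
    · intro o' _ hne
      exact if_neg fun h => hne (huniq o' h)
    · intro hno
      exact absurd (mem_univ _) hno
  · symm
    refine sum_eq_zero fun o _ => if_neg fun h => hV (hχ2 o.1 o.2 x h).1

end Pool.Agent.PepsY
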