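import Pool.Agent.PepsY.FixMode

/-!
# The decomposition for a profile and a mode (for YB5)
-/

open Finset

set_option autoImplicit false
set_option linter.unusedSectionVars false

namespace Pool.Agent.PepsY.Fx

open Pool.Agent.PEPS953 Pool.Agent.PepsX Pool.Agent.PepsY

variable {d r n L : ℕ} [NeZero L]

theorem vis_inl {Y : Blk L} {t : Fin (n + 1)} {v : Site L} :
    (Sum.inl (t, v) : Vr n L) ∈ Y.vis r n ↔ v ∈ Y.C ∧ Y.s ≤ t ∧ (t : ℕ) ≤ Y.e := by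
  unfold Blk.vis
  rw [inl_mem_disjSum, mem_filter]
  simp only [mem_univ, true_and]

theorem vis_inr {Y : Blk L} {t : Fin n} {v : Site L} :
    (Sum.inr (t, v) : Vr n L) ∈ Y.vis r n ↔ Tch r Y.C v ∧ Y.s ≤ t ∧ (t : ℕ) < Y.e := by
  unfold Blk.vis
  rw [inr_mem_disjSum, mem_filter]
  simp only [mem_univ, true_and]

theorem ext_inl {Y : Blk L} {t : Fin (n + 1)} {v : Site L} :
    (Sum.inl (t, v) : Vr n L) ∈ Y.ext r n ↔ v ∈ Y.C ∧ ((t : ℕ) = Y.s ∨ (t : ℕ) = Y.e) := by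
  unfold Blk.ext
  rw [inl_mem_disjSum, mem_filter]
  simp only [mem_univ, true_and]

theorem ext_inr {Y : Blk L} {t : Fin n} {v : Site L} :
    (Sum.inr (t, v) : Vr n L) ∈ Y.ext r n ↔
      Tch r Y.C v ∧ ¬ Ins r Y.C v ∧ Y.s ≤ t ∧ (t : ℕ) < Y.e := by
  unfold Blk.ext
  rw [inr_mem_disjSum, mem_filter]
  simp only [mem_univ, true_and]

/-- The views of a child. -/
def ZZ (r n β' γ' : ℕ) (Y : Blk L) (W : Finset ℕ) (ι : ℕ → ℕ) (ch : Site L → ℕ) (i : ℕ) :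
    Finset (Vr n L) :=
  (univ.filter fun p : Fin (n + 1) × Site L => p.2 ∈ Y.C ∧
    (((p.1 : ℕ) = Y.s ∧ β' + ch p.2 = i) ∨ ((p.1 : ℕ) = Y.e ∧ β' + γ' + ch p.2 = i))).disjSum
  (univ.filter fun p : Fin n × Site L => Crs r Y.C p.2 ∧ Y.s ≤ p.1 ∧ (p.1 : ℕ) < Y.e ∧
    ι (lst Y.s W p.1) = i)

theorem ZZ_inl {β' γ' : ℕ} {Y : Blk L} {W : Finset ℕ} {ι : ℕ → ℕ} {ch : Site L → ℕ} {i : ℕ}
    {t : Fin (n + 1)} {v : Site L} : (Sum.inl (t, v) : Vr n L) ∈ ZZ r n β' γ' Y W ι ch i ↔ v ∈ Y.C ∧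
    (((t : ℕ) = Y.s ∧ β' + ch v = i) ∨ ((t : ℕ) = Y.e ∧ β' + γ' + ch v = i)) := by
  unfold ZZ
  rw [inl_mem_disjSum, mem_filter]
  simp only [mem_univ, true_and]

theorem ZZ_inr {β' γ' : ℕ} {Y : Blk L} {W : Finset ℕ} {ι : ℕ → ℕ} {ch : Site L → ℕ} {i : ℕ}
    {t : Fin n} {v : Site L} : (Sum.inr (t, v) : Vr n L) ∈ ZZ r n β' γ' Y W ι ch i ↔
    Crs r Y.C v ∧ Y.s ≤ t ∧ (t : ℕ) < Y.e ∧ ι (lst Y.s W t) = i := by
  unfold ZZ
  rw [inr_mem_disjSum, mem_filter]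
  simp only [mem_univ, true_and]

theorem ZZ_sub (β' γ' : ℕ) (Y : Blk L) (W : Finset ℕ) (ι : ℕ → ℕ) (ch : Site L → ℕ) (i : ℕ) :
    ZZ r n β' γ' Y W ι ch i ⊆ Y.ext r n := by
  rintro (⟨t, v⟩ | ⟨t, v⟩) h
  · rw [ZZ_inl] at h
    rw [ext_inl]
    exact ⟨h.1, h.2.imp And.left And.left⟩
  · rw [ZZ_inr] at h
    rw [ext_inr]
    exact ⟨h.1.1, h.1.2, h.2.1, h.2.2.1⟩

theorem ZZ_cov {β' γ' b' : ℕ} (hb : β' + 2 * γ' ≤ b') {Y : Blk L} {W : Finset ℕ} {ι : ℕ → ℕ}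
    {ch : Site L → ℕ}
    (hι : ∀ a ∈ insert Y.s W, ι a < β') (hch : ∀ v ∈ Y.C, ch v < γ') {x : Vr n L}
    (hx : x ∈ Y.ext r n) : ∃ i : Fin b', x ∈ ZZ r n β' γ' Y W ι ch i := by
  rcases x with ⟨t, v⟩ | ⟨t, v⟩
  · rw [ext_inl] at hx
    have h1 := hch v hx.1
    rcases hx.2 with h2 | h2
    · refine ⟨⟨β' + ch v, by omega⟩, ?_⟩
      rw [ZZ_inl]
      exact ⟨hx.1, Or.inl ⟨h2, rfl⟩⟩
    · refine ⟨⟨β' + γ' + ch v, by omega⟩, ?_⟩
      rw [ZZ_inl]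
      exact ⟨hx.1, Or.inr ⟨h2, rfl⟩⟩
  · rw [ext_inr] at hx
    have h1 := hι _ (lst_mem (s := Y.s) W hx.2.2.1)
    refine ⟨⟨ι (lst Y.s W t), by omega⟩, ?_⟩
    rw [ZZ_inr]
    exact ⟨⟨hx.1, hx.2.1⟩, hx.2.2.1, hx.2.2.2, rfl⟩

theorem ZZ_paths {β' γ' lam : ℕ} {Y : Blk L} (W : Finset ℕ) (ι : ℕ → ℕ) {ch : Site L → ℕ}
    (hch : ∀ v ∈ Y.C, ch v < γ') (hch2 : ∀ j, (Y.C.filter fun v => ch v = j).card ≤ lam) (i : ℕ) :
    paths (ZZ r n β' γ' Y W ι ch i) ≤ lam := by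
  unfold paths
  by_cases hi : i < β' + γ'
  · refine le_trans (card_le_card_of_injOn (t := Y.C.filter fun v => ch v = i - β') Prod.snd ?_ ?_)
      (hch2 (i - β'))
    · rintro ⟨t, v⟩ h
      have h1 := ZZ_inl.1 (mem_filter.1 h).2
      refine mem_coe.2 (mem_filter.2 ⟨h1.1, ?_⟩)
      simp only
      omega
    · rintro ⟨t, v⟩ h ⟨t', v'⟩ h' he
      have h1 := ZZ_inl.1 (mem_filter.1 h).2
      have h1' := ZZ_inl.1 (mem_filter.1 h').2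
      simp only at he
      subst he
      have h2 : t = t' := Fin.ext (by omega)
      rw [h2]
  · refine le_trans (card_le_card_of_injOn (t := Y.C.filter fun v => ch v = i - β' - γ') Prod.snd
      ?_ ?_) (hch2 (i - β' - γ'))
    · rintro ⟨t, v⟩ h
      have h1 := ZZ_inl.1 (mem_filter.1 h).2
      have h2 := hch v h1.1
      refine mem_coe.2 (mem_filter.2 ⟨h1.1, ?_⟩)
      simp only
      omega
    · rintro ⟨t, v⟩ h ⟨t', v'⟩ h' he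
      have h1 := ZZ_inl.1 (mem_filter.1 h).2
      have h1' := ZZ_inl.1 (mem_filter.1 h').2
      have h2 := hch v h1.1
      have h2' := hch v' h1'.1
      simp only at he
      subst he
      have h2 : t = t' := Fin.ext (by omega)
      rw [h2]

/-- The factor of a view. -/
noncomputable def JJ (r lam α : ℕ) (Y : Blk L) (W : Finset ℕ) (ι : ℕ → ℕ) (z : Fin 2 → ℂ) (i : ℕ)
    (x : Asn d r n L) : ℂ :=
  ∏ a' ∈ (insert Y.s W).filter (fun a' => ι a' = i), Jw lam α Y.e W z (ct (Crs r Y.C) x) a'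

theorem JJ_congr {lam α β' γ' : ℕ} {Y : Blk L} (hY : Y.s < Y.e) {W : Finset ℕ}
    (hW : W ⊆ Ico (Y.s + 1) Y.e) {ι : ℕ → ℕ} {ch : Site L → ℕ}
    (z : Fin 2 → ℂ) (i : ℕ) {x x' : Asn d r n L} (h : ∀ a ∈ ZZ r n β' γ' Y W ι ch i, x a = x' a) :
    JJ r lam α Y W ι z i x = JJ r lam α Y W ι z i x' := by
  unfold JJ
  refine prod_congr rfl fun a' ha' => ?_
  obtain ⟨h1, h2⟩ := mem_filter.1 ha'
  have h3 := mem_lt hY hW h1
  have h4 := nxt_le Y.e W a'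
  refine Jw_congr fun t ht1 ht2 => ct_congr _ fun t' τ h5 h6 => ?_
  refine h (Sum.inr (t', τ)) ?_
  rw [ZZ_inr]
  refine ⟨h6, by omega, by omega, ?_⟩
  have h7 : lst Y.s W (t' : ℕ) = a' :=
    (lst_eq_iff (e := Y.e) (by omega) (by omega) h1 h3.1).2 ⟨by omega, by omega⟩
  rw [h7]
  exact h2

theorem JJ_lets {lam Lam α A₂ β' γ' : ℕ} (hLam : lam + A₂ ≤ Lam) {Y : Blk L} (hY : Y.s < Y.e)
    {W : Finset ℕ} (hW : W ⊆ Ico (Y.s + 1) Y.e) {ι : ℕ → ℕ} {ch : Site L → ℕ}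
    (hι : ∀ a ∈ insert Y.s W, ∀ a' ∈ insert Y.s W, ι a = ι a' → a = a')
    (hA : (univ.filter (Crs r Y.C)).card ≤ A₂)
    (z : Fin 2 → ℂ) (i : ℕ) (x : Asn d r n L) (h : JJ r lam α Y W ι z i x ≠ 0) :
    lets (ZZ r n β' γ' Y W ι ch i) x ≤ Lam := by
  by_cases hi : ∃ a' ∈ insert Y.s W, ι a' = i
  · obtain ⟨a', ha', hi⟩ := hi
    have h1 : Jw lam α Y.e W z (ct (Crs r Y.C) x) a' ≠ 0 := by
      unfold JJ at h
      rw [prod_ne_zero_iff] at h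
      exact h a' (mem_filter.2 ⟨ha', hi⟩)
    have h2 : WCd lam Y.e W (ct (Crs r Y.C) x) a' := by
      by_contra h3
      unfold Jw at h1
      rw [if_neg h3] at h1
      exact h1 rfl
    have h3 := mem_lt hY hW ha'
    have h4 := nxt_le Y.e W a'
    have h5 : a' < nxt Y.e W a' := lt_nxt h3.2
    have h6 : lets (ZZ r n β' γ' Y W ι ch i) x ≤
        ∑ t ∈ Ico a' (nxt Y.e W a'), ct (Crs r Y.C) x t := by
      rw [sum_ct]
      unfold lets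
      refine card_le_card fun p hp => ?_
      obtain ⟨h7, h8⟩ := (mem_filter.1 hp).2
      obtain ⟨t, v⟩ := p
      obtain ⟨h9, h10, h11, h12⟩ := ZZ_inr.1 h7
      have h13 : lst Y.s W t = a' := hι _ (lst_mem W h10) _ ha' (by rw [h12, hi])
      have h14 := (lst_eq_iff h10 h11 ha' h3.1).1 h13
      exact mem_filter.2 ⟨mem_univ _, h14.1, h14.2, h9, h8⟩
    refine h6.trans ?_
    obtain ⟨k, hk⟩ : ∃ k, nxt Y.e W a' = k + 1 := ⟨nxt Y.e W a' - 1, by omega⟩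
    have h7 := h2.1
    rw [hk, Nat.add_sub_cancel] at h7
    rw [hk, sum_Ico_succ_top (by omega)]
    have h8 := ct_le (Crs r Y.C) x k
    omega
  · push Not at hi
    have h1 : lets (ZZ r n β' γ' Y W ι ch i) x = 0 := by
      unfold lets
      rw [card_eq_zero, filter_eq_empty_iff]
      rintro ⟨t, v⟩ _ ⟨h2, _⟩
      obtain ⟨_, h3, _, h4⟩ := ZZ_inr.1 h2
      exact hi _ (lst_mem W h3) h4
    rw [h1]
    exact Nat.zero_le _

open scoped Classical in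
theorem prod_JJ {lam α b' : ℕ} {Y : Blk L} (hY : Y.s < Y.e)
    {W : Finset ℕ} (hW : W ⊆ Ico (Y.s + 1) Y.e) {ι : ℕ → ℕ}
    (hι : ∀ a ∈ insert Y.s W, ι a < b') (z : Fin 2 → ℂ) (x : Asn d r n L) :
    ∏ i : Fin b', JJ r lam α Y W ι z i x =
      (if ∀ a' ∈ insert Y.s W, WCd lam Y.e W (ct (Crs r Y.C) x) a' then 1 else 0) *
        ∏ t ∈ Ico Y.s Y.e, zf Y.e z t ^ (α * ct (Crs r Y.C) x t) := by
  have h1 := prod_Jw (lam := lam) (α := α) hY hW z (ct (Crs r Y.C) x)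
  have h2 : ∏ i : Fin b', JJ r lam α Y W ι z i x =
      ∏ a' ∈ insert Y.s W, Jw lam α Y.e W z (ct (Crs r Y.C) x) a' := by
    unfold JJ
    rw [← prod_range (fun i => ∏ a' ∈ (insert Y.s W).filter (fun a' => ι a' = i),
      Jw lam α Y.e W z (ct (Crs r Y.C) x) a')]
    exact prod_fiberwise_of_maps_to (fun a ha => mem_range.2 (hι a ha)) _
  rw [h2, h1]

end Pool.Agent.PepsY.Fx
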