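import Pool.Agent.PepsY.FixDcp

/-!
# The decomposition for a profile and a mode (for YB5)
-/

open Finset

set_option autoImplicit false
set_option linter.unusedSectionVars false

namespace Pool.Agent.PepsY.Fx

open Pool.Agent.PEPS953 Pool.Agent.PepsX Pool.Agent.PepsY

variable {d r n L : ℕ} [NeZero L]

section

variable {X : Blk L} {prt : Site L → ℕ × ℕ} {g : ℕ} {𝒟 : Finset ((ℕ × ℕ) × ℕ)}

theorem bk_lt (hX : X.s < X.e) (h𝒟 : 𝒟 ⊆ TT g X.s X.e) {p : (ℕ × ℕ) × ℕ}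
    (hp : p ∈ US g X.s 𝒟) :
    X.s ≤ (bk X prt 𝒟 p).s ∧ (bk X prt 𝒟 p).s < (bk X prt 𝒟 p).e ∧ (bk X prt 𝒟 p).e ≤ X.e := by
  obtain ⟨c, a⟩ := p
  obtain ⟨hc, ha⟩ := (mem_US h𝒟).1 hp
  have hlt := mem_lt hX (tms_sub h𝒟 c) ha
  exact ⟨hlt.1, lt_nxt hlt.2, nxt_le X.e (tms 𝒟 c) a⟩

/-- A cell and a layer belong to a slice. -/
theorem exists_slice (h𝒟 : 𝒟 ⊆ TT g X.s X.e) {c : ℕ × ℕ} (hc : c ∈ gr g) {t : ℕ} (h1 : X.s ≤ t)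
    (h2 : t < X.e) : ∃ p ∈ US g X.s 𝒟, p.1 = c ∧ (bk X prt 𝒟 p).s ≤ t ∧
      t < (bk X prt 𝒟 p).e := by
  refine ⟨(c, lst X.s (tms 𝒟 c) t), (mem_US h𝒟).2 ⟨hc, lst_mem _ h1⟩, rfl, lst_le _ _ _, ?_⟩
  exact lst_lt_nxt h1 h2

/-- Two different slices of the same cell. -/
theorem slice_disj (h𝒟 : 𝒟 ⊆ TT g X.s X.e) {p p' : (ℕ × ℕ) × ℕ}
    (hX : X.s < X.e) (hp : p ∈ US g X.s 𝒟) (hp' : p' ∈ US g X.s 𝒟) (hc : p.1 = p'.1) (hne : p ≠ p') :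
    (bk X prt 𝒟 p).e ≤ (bk X prt 𝒟 p').s ∨ (bk X prt 𝒟 p').e ≤ (bk X prt 𝒟 p).s := by
  obtain ⟨c, a⟩ := p
  obtain ⟨c', a'⟩ := p'
  simp only at hc
  subst hc
  obtain ⟨h1, h2⟩ := (mem_US h𝒟).1 hp
  obtain ⟨h1', h2'⟩ := (mem_US h𝒟).1 hp'
  have hlt := mem_lt hX (tms_sub h𝒟 c) h2
  have hlt' := mem_lt hX (tms_sub h𝒟 c) h2'
  have h3 : a ≠ a' := fun h => hne (by rw [h])
  rcases lt_or_gt_of_ne h3 with h4 | h4
  · exact Or.inl (nxt_le_of_lt hlt.1 h2' h4)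
  · exact Or.inr (nxt_le_of_lt hlt'.1 h2 h4)

theorem vis_iff (h𝒟 : 𝒟 ⊆ TT g X.s X.e) (hX : X.s < X.e)
    (hprt : ∀ v ∈ X.C, prt v ∈ gr g) (x : Vr n L) : x ∈ X.vis r n ↔
      ∃ u : {p // p ∈ US g X.s 𝒟}, x ∈ (bk X prt 𝒟 u.1).vis r n := by
  rcases x with ⟨t, v⟩ | ⟨t, v⟩
  · rw [vis_inl]
    constructor
    · rintro ⟨h1, h2, h3⟩
      obtain ⟨p, hp, hc, h4, h5⟩ := exists_slice (prt := prt) h𝒟 (hprt v h1)
        (t := min (t : ℕ) (X.e - 1)) (by omega) (by omega)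
      refine ⟨⟨p, hp⟩, vis_inl.2 ⟨mem_filter.2 ⟨h1, hc.symm⟩, ?_, ?_⟩⟩
      · simp only
        omega
      · have := (bk_lt (prt := prt) hX h𝒟 hp).2.2
        simp only
        omega
    · rintro ⟨⟨p, hp⟩, h⟩
      change (Sum.inl (t, v) : Vr n L) ∈ (bk X prt 𝒟 p).vis r n at h
      have h1 := vis_inl.1 h
      have h2 := bk_lt (prt := prt) hX h𝒟 hp
      have h3 := (mem_filter.1 h1.1).1
      exact ⟨h3, by omega, by omega⟩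
  · rw [vis_inr]
    constructor
    · rintro ⟨⟨q, hq⟩, h2, h3⟩
      obtain ⟨p, hp, hc, h4, h5⟩ := exists_slice (prt := prt) h𝒟 (hprt _ hq) h2 h3
      exact ⟨⟨p, hp⟩, vis_inr.2 ⟨⟨q, mem_filter.2 ⟨hq, hc.symm⟩⟩, h4, h5⟩⟩
    · rintro ⟨⟨p, hp⟩, h⟩
      change (Sum.inr (t, v) : Vr n L) ∈ (bk X prt 𝒟 p).vis r n at h
      obtain ⟨⟨q, hq⟩, h1⟩ := vis_inr.1 h
      have h2 := bk_lt (prt := prt) hX h𝒟 hp
      exact ⟨⟨q, (mem_filter.1 hq).1⟩, by omega, by omega⟩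

theorem ext_of_vis (h𝒟 : 𝒟 ⊆ TT g X.s X.e) (hX : X.s < X.e) {p : (ℕ × ℕ) × ℕ}
    (hp : p ∈ US g X.s 𝒟) {x : Vr n L} (h1 : x ∈ (bk X prt 𝒟 p).vis r n) (h2 : x ∈ X.ext r n) :
    x ∈ (bk X prt 𝒟 p).ext r n := by
  have h3 := bk_lt (prt := prt) hX h𝒟 hp
  rcases x with ⟨t, v⟩ | ⟨t, v⟩
  · rw [vis_inl] at h1
    rw [ext_inl] at h2 ⊢
    exact ⟨h1.1, by omega⟩
  · rw [vis_inr] at h1
    rw [ext_inr] at h2 ⊢
    exact ⟨h1.1, fun h4 => h2.2.1 fun q => (mem_filter.1 (h4 q)).1, h1.2⟩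

theorem ext_of_two (h𝒟 : 𝒟 ⊆ TT g X.s X.e) (hX : X.s < X.e) {p p' : (ℕ × ℕ) × ℕ}
    (hp : p ∈ US g X.s 𝒟) (hp' : p' ∈ US g X.s 𝒟) (hne : p ≠ p') {x : Vr n L}
    (h1 : x ∈ (bk X prt 𝒟 p).vis r n) (h2 : x ∈ (bk X prt 𝒟 p').vis r n) :
    x ∈ (bk X prt 𝒟 p).ext r n := by
  have h3 := bk_lt (prt := prt) hX h𝒟 hp
  have h3' := bk_lt (prt := prt) hX h𝒟 hp'
  rcases x with ⟨t, v⟩ | ⟨t, v⟩
  · rw [vis_inl] at h1 h2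
    rw [ext_inl]
    have hc : p.1 = p'.1 := (mem_filter.1 h1.1).2.symm.trans (mem_filter.1 h2.1).2
    rcases slice_disj (prt := prt) h𝒟 hX hp hp' hc hne with h4 | h4
    · exact ⟨h1.1, by omega⟩
    · exact ⟨h1.1, by omega⟩
  · rw [vis_inr] at h1 h2
    rw [ext_inr]
    refine ⟨h1.1, fun h4 => ?_, h1.2⟩
    obtain ⟨q, hq⟩ := h2.1
    have hc : p.1 = p'.1 := (mem_filter.1 (h4 q)).2.symm.trans (mem_filter.1 hq).2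
    rcases slice_disj (prt := prt) h𝒟 hX hp hp' hc hne with h5 | h5
    · omega
    · omega

end

/-- The condition on the windows. -/
def WW (r lam : ℕ) (X : Blk L) (prt : Site L → ℕ × ℕ) (𝒟 𝒲 : Finset ((ℕ × ℕ) × ℕ))
    (x : Asn d r n L) (p : (ℕ × ℕ) × ℕ) : Prop :=
  ∀ a' ∈ insert (bk X prt 𝒟 p).s (ws X 𝒟 𝒲 p), WCd lam (bk X prt 𝒟 p).e (ws X 𝒟 𝒲 p)
    (ct (Crs r (bk X prt 𝒟 p).C) x) a'

/-- The total load of a slice, except for the last layer. -/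
def S0 (r α : ℕ) (Y : Blk L) (x : Asn d r n L) : ℕ := ∑ t ∈ Ico Y.s (Y.e - 1), ld r α Y.C x t

/-- The load of the last layer of a slice. -/
def S1 (r α : ℕ) (Y : Blk L) (x : Asn d r n L) : ℕ := ld r α Y.C x (Y.e - 1)

open scoped Classical in
theorem mode_dcp {R g A₁ A₂ V K V' m b' lam Lam α B' β' γ' : ℕ}
    {QQ : Finset (Site L) → Prop} (hr : 0 < r)
    (P : Prm r R g A₁ A₂ V K V' m b' lam Lam α B' β' γ') (X : Blk L)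
    (hX : X.s < X.e ∧ X.e ≤ n) (G : Geo r R g A₁ A₂ X.C QQ) (o₁ o₂ : Fin R)
    (w : Fin n → Site L → Opn d r → ℂ) {𝒟 𝒲 : Finset ((ℕ × ℕ) × ℕ)} (h𝒟 : 𝒟 ⊆ TT g X.s X.e)
    (hcard : g ^ 2 + 𝒟.card ≤ m ^ 2)
    (hwin : ∀ p ∈ US g X.s 𝒟, (ws X 𝒟 𝒲 p).card + 1 ≤ β')
    (zz : (ℕ × ℕ) × ℕ → Fin 2 → ℂ) (coef : ℂ) :
    ∃ D : Dcp d r n X (fun Y => Y.s < Y.e ∧ Y.e ≤ n ∧ QQ Y.C) m b' lam Lam, ∀ x,
      D.val V' x = coef * ∏ p ∈ US g X.s 𝒟,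
        ((if vol (bk X (G.part o₁ o₂) 𝒟 p) x ≤ V' then Wt w (bk X (G.part o₁ o₂) 𝒟 p) x else 0) *
        ((if WW r lam X (G.part o₁ o₂) 𝒟 𝒲 x p then 1 else 0) *
        (zz p 0 ^ S0 r α (bk X (G.part o₁ o₂) 𝒟 p) x *
          zz p 1 ^ S1 r α (bk X (G.part o₁ o₂) 𝒟 p) x))) := by
  set prt : Site L → ℕ × ℕ := G.part o₁ o₂ with hprt'
  have hprt : ∀ v ∈ X.C, prt v ∈ gr g := by
    intro v hv
    have h := G.bound o₁ o₁.isLt o₂ o₂.isLt v hv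
    exact mem_product.2 ⟨mem_range.2 h.1, mem_range.2 h.2⟩
  have hWs : ∀ p, ws X 𝒟 𝒲 p ⊆ Ico ((bk X prt 𝒟 p).s + 1) (bk X prt 𝒟 p).e :=
    fun p => win_sub _ _ _ _
  have hι0 : ∀ u : {p // p ∈ US g X.s 𝒟}, ∃ ι : ℕ → ℕ,
      (∀ a ∈ insert (bk X prt 𝒟 u.1).s (ws X 𝒟 𝒲 u.1), ι a < β') ∧
      ∀ a ∈ insert (bk X prt 𝒟 u.1).s (ws X 𝒟 𝒲 u.1),
      ∀ a' ∈ insert (bk X prt 𝒟 u.1).s (ws X 𝒟 𝒲 u.1), ι a = ι a' → a = a' :=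
    fun u => exists_enum _ ((card_insert_le _ _).trans (hwin u.1 u.2))
  choose ι hι1 hι2 using hι0
  have hch0 : ∀ u : {p // p ∈ US g X.s 𝒟}, ∃ ch : Site L → ℕ,
      (∀ v ∈ (bk X prt 𝒟 u.1).C, ch v < γ') ∧
      ∀ j, ((bk X prt 𝒟 u.1).C.filter fun v => ch v = j).card ≤ lam :=
    fun u => exists_chunk _ P.hlam ((G.area o₁ o₁.isLt o₂ o₂.isLt u.1.1).trans P.p5)
  choose ch hch1 hch2 using hch0
  have hs := fun u : {p // p ∈ US g X.s 𝒟} => bk_lt (prt := prt) hX.1 h𝒟 u.2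
  let D : Dcp d r n X (fun Y => Y.s < Y.e ∧ Y.e ≤ n ∧ QQ Y.C) m b' lam Lam :=
    { U := {p // p ∈ US g X.s 𝒟}
      fin := inferInstance
      dec := inferInstance
      card_le := by
        rw [Fintype.card_coe]
        exact (card_US_le g X.s 𝒟).trans hcard
      X' := fun u => bk X prt 𝒟 u.1
      prop := fun u => ⟨(hs u).2.1, (hs u).2.2.trans hX.2, G.prop o₁ o₁.isLt o₂ o₂.isLt u.1.1⟩
      w' := wm w X prt 𝒟 zz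
      Z := fun u i => ZZ r n β' γ' (bk X prt 𝒟 u.1) (ws X 𝒟 𝒲 u.1) (ι u) (ch u) i
      J := fun u i => JJ r lam α (bk X prt 𝒟 u.1) (ws X 𝒟 𝒲 u.1) (ι u) (zz u.1) i
      a := coef
      hvis := vis_iff h𝒟 hX.1 hprt
      hext := fun u x => ext_of_vis h𝒟 hX.1 u.2
      hdis := fun u u' x hne => ext_of_two h𝒟 hX.1 u.2 u'.2 (fun h => hne (Subtype.ext h))
      hcov := fun u x hx => ZZ_cov P.p6 (hι1 u) (hch1 u) hx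
      hsub := fun u i => ZZ_sub _ _ _ _ _ _ _
      hpth := fun u i => ZZ_paths _ _ (hch1 u) (hch2 u) _
      hJ := fun u i x x' h => JJ_congr (hs u).2.1 (hWs u.1) _ _ h
      hJ0 := fun u i x h => JJ_lets P.p4 (hs u).2.1 (hWs u.1) (hι2 u)
        (G.bdry o₁ o₁.isLt o₂ o₂.isLt u.1.1) _ _ x h }
  refine ⟨D, fun x => ?_⟩
  have hβ : ∀ u : {p // p ∈ US g X.s 𝒟}, ∀ a ∈ insert (bk X prt 𝒟 u.1).s (ws X 𝒟 𝒲 u.1),
      ι u a < b' := fun u a ha => by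
    have h1 := hι1 u a ha
    have h2 := P.p6
    omega
  set F : (ℕ × ℕ) × ℕ → ℂ := fun p =>
        ((if vol (bk X prt 𝒟 p) x ≤ V' then Wt w (bk X prt 𝒟 p) x else 0) *
        ((if WW r lam X prt 𝒟 𝒲 x p then 1 else 0) *
        (zz p 0 ^ S0 r α (bk X prt 𝒟 p) x *
          zz p 1 ^ S1 r α (bk X prt 𝒟 p) x))) with hF
  have e1 : D.val V' x = coef * ∏ u : {p // p ∈ US g X.s 𝒟}, F u.1 := by
    unfold Dcp.val
    refine congrArg (coef * ·) (prod_congr rfl fun u _ => ?_)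
    show TWt (wm w X prt 𝒟 zz) V' (bk X prt 𝒟 u.1) x *
      ∏ i : Fin b', JJ r lam α (bk X prt 𝒟 u.1) (ws X 𝒟 𝒲 u.1) (ι u) (zz u.1) i x = _
    rw [prod_JJ (hs u).2.1 (hWs u.1) (hβ u)]
    unfold TWt
    by_cases hv : vol (bk X prt 𝒟 u.1) x ≤ V'
    · rw [if_pos hv, Wt_wm hr w X hX prt h𝒟 zz u.2]
      simp only [hF, if_pos hv]
      have h3 : (∏ t ∈ Ico u.1.2 (nxt X.e (tms 𝒟 u.1.1) u.1.2),
          zf (nxt X.e (tms 𝒟 u.1.1) u.1.2) (zz u.1) t ^ ct (Ins r (cel X.C prt u.1.1)) x t) *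
          ∏ t ∈ Ico (bk X prt 𝒟 u.1).s (bk X prt 𝒟 u.1).e, zf (bk X prt 𝒟 u.1).e (zz u.1) t ^
            (α * ct (Crs r (bk X prt 𝒟 u.1).C) x t) =
          zz u.1 0 ^ S0 r α (bk X prt 𝒟 u.1) x * zz u.1 1 ^ S1 r α (bk X prt 𝒟 u.1) x := by
        unfold S0 S1
        rw [← prod_zf (hs u).2.1 (zz u.1) (ld r α (bk X prt 𝒟 u.1).C x)]
        unfold bk
        simp only
        rw [← prod_mul_distrib]
        refine prod_congr rfl fun t _ => ?_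
        rw [← pow_add]
        unfold ld
        rw [add_comm]
      rw [← h3]
      unfold WW
      ring_nf
    · rw [if_neg hv]
      simp only [hF, if_neg hv, zero_mul]
  rw [e1, prod_coe_sort (US g X.s 𝒟) F]

end Pool.Agent.PepsY.Fx
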