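import Pool.Agent.PepsY.FixMatch

/-!
# The loads of the cells (for YB5)
-/

open Finset

set_option autoImplicit false
set_option linter.unusedSectionVars false

namespace Pool.Agent.PepsY.Fx

open Pool.Agent.PEPS953 Pool.Agent.PepsX Pool.Agent.PepsY

variable {d r n L : ℕ} [NeZero L]

/-- The box at `τ` meets `C` and is not contained in `C`. -/
def Crs (r : ℕ) (C : Finset (Site L)) (τ : Site L) : Prop := Tch r C τ ∧ ¬ Ins r C τ

instance (r : ℕ) (C : Finset (Site L)) : DecidablePred (Crs r C) :=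
  fun τ => inferInstanceAs (Decidable (Tch r C τ ∧ ¬ Ins r C τ))

instance (r : ℕ) (C : Finset (Site L)) : DecidablePred (Ins r C) :=
  fun τ => inferInstanceAs (Decidable (Ins r C τ))

/-- The number of insertions in the layer `t` at the translates with the property `Q`. -/
def ct (Q : Site L → Prop) [DecidablePred Q] (x : Asn d r n L) (t : ℕ) : ℕ :=
  (univ.filter fun a : Fin n × Site L => (a.1 : ℕ) = t ∧ Q a.2 ∧ x.o a.1 a.2 ≠ none).card

theorem sum_ct (Q : Site L → Prop) [DecidablePred Q] (x : Asn d r n L) (a b : ℕ) :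
    ∑ t ∈ Ico a b, ct Q x t = (univ.filter fun p : Fin n × Site L =>
      a ≤ p.1 ∧ (p.1 : ℕ) < b ∧ Q p.2 ∧ x.o p.1 p.2 ≠ none).card := by
  rw [card_eq_sum_card_fiberwise (f := fun p : Fin n × Site L => (p.1 : ℕ)) (t := Ico a b) (by
    intro p hp
    have h := (mem_filter.1 hp).2
    exact mem_coe.2 (mem_Ico.2 ⟨h.1, h.2.1⟩))]
  refine sum_congr rfl fun t ht => ?_
  have ht := mem_Ico.1 ht
  unfold ct
  congr 1
  ext p
  rw [mem_filter, mem_filter, mem_filter]
  constructor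
  · rintro ⟨_, h1, h2, h3⟩
    exact ⟨⟨mem_univ _, by omega, by omega, h2, h3⟩, h1⟩
  · rintro ⟨⟨_, _, _, h2, h3⟩, h1⟩
    exact ⟨mem_univ _, h1, h2, h3⟩

theorem ct_le (Q : Site L → Prop) [DecidablePred Q] (x : Asn d r n L) (t : ℕ) :
    ct Q x t ≤ (univ.filter Q).card := by
  unfold ct
  refine card_le_card_of_injOn Prod.snd ?_ ?_
  · intro p hp
    have h := (mem_filter.1 hp).2
    exact mem_coe.2 (mem_filter.2 ⟨mem_univ _, h.2.1⟩)
  · rintro ⟨t1, v1⟩ h1 ⟨t2, v2⟩ h2 h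
    have h3 := (mem_filter.1 h1).2.1
    have h4 := (mem_filter.1 h2).2.1
    simp only at h h3 h4
    subst h
    have : t1 = t2 := Fin.ext (h3.trans h4.symm)
    rw [this]

theorem ct_congr (Q : Site L → Prop) [DecidablePred Q] {x x' : Asn d r n L} {t : ℕ}
    (h : ∀ (t' : Fin n) τ, (t' : ℕ) = t → Q τ → x.o t' τ = x'.o t' τ) : ct Q x t = ct Q x' t := by
  unfold ct
  congr 1
  ext p
  rw [mem_filter, mem_filter]
  constructor
  · rintro ⟨h0, h1, h2, h3⟩
    exact ⟨h0, h1, h2, by rwa [← h _ _ h1 h2]⟩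
  · rintro ⟨h0, h1, h2, h3⟩
    exact ⟨h0, h1, h2, by rwa [h _ _ h1 h2]⟩

theorem vol_eq (X : Blk L) (x : Asn d r n L) : vol X x = ∑ t ∈ Ico X.s X.e, ct (Ins r X.C) x t := by
  rw [sum_ct]
  rfl

/-- The cell. -/
def cel (C : Finset (Site L)) (prt : Site L → ℕ × ℕ) (c : ℕ × ℕ) : Finset (Site L) :=
  C.filter fun v => prt v = c

/-- The load. -/
def ld (r α : ℕ) (C : Finset (Site L)) (x : Asn d r n L) (t : ℕ) : ℕ :=
  α * ct (Crs r C) x t + ct (Ins r C) x t

theorem mem_of_ins (hr : 0 < r) {C : Finset (Site L)} {τ : Site L} (h : Ins r C τ) : τ ∈ C := by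
  have := h (⟨0, hr⟩, ⟨0, hr⟩)
  rwa [boxPos_zero] at this

theorem ct_ins_le (hr : 0 < r) (C : Finset (Site L)) (x : Asn d r n L) (t : ℕ) :
    ct (Ins r C) x t ≤ C.card :=
  (ct_le _ x t).trans (card_le_card fun _ h => mem_of_ins hr (mem_filter.1 h).2)

theorem card_site' : Fintype.card (Site L) = L ^ 2 := by
  rw [Fintype.card_prod, ZMod.card, sq]

theorem ct_le_sq (Q : Site L → Prop) [DecidablePred Q] (x : Asn d r n L) (t : ℕ) :
    ct Q x t ≤ L ^ 2 := by
  rw [← card_site' (L := L)]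
  exact (ct_le Q x t).trans (card_le_univ _)

theorem ld_le (α : ℕ) (C : Finset (Site L)) (x : Asn d r n L) (t : ℕ) :
    ld r α C x t ≤ (α + 1) * L ^ 2 := by
  unfold ld
  rw [add_mul, one_mul]
  exact add_le_add (Nat.mul_le_mul_left α (ct_le_sq _ x t)) (ct_le_sq _ x t)

/-- The total load. -/
theorem sum_ld_le {g α : ℕ} (hr : 0 < r) (X : Blk L) (prt : Site L → ℕ × ℕ)
    (htouch : ∀ τ, ((univ.filter fun p : Box r => boxPos L r τ p ∈ X.C).image
      fun p => prt (boxPos L r τ p)).card ≤ 4) (x : Asn d r n L) :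
    ∑ c ∈ gr g, ∑ t ∈ Ico X.s X.e, ld r α (cel X.C prt c) x t ≤
      α * (4 * (univ.filter fun b : Fin n × Site L => X.s ≤ b.1 ∧ (b.1 : ℕ) < X.e ∧ Ins r X.C b.2 ∧
        x.o b.1 b.2 ≠ none ∧ ∃ p p' : Box r, prt (boxPos L r b.2 p) ≠
          prt (boxPos L r b.2 p')).card + 4 * lets (X.ext r n) x) + vol X x := by
  classical
  unfold ld
  simp_rw [sum_add_distrib, ← mul_sum]
  refine add_le_add (Nat.mul_le_mul_left α ?_) ?_
  · simp_rw [sum_ct]
    unfold lets
    simp_rw [card_filter]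
    rw [sum_comm, mul_sum, mul_sum, ← sum_add_distrib]
    refine sum_le_sum fun b _ => ?_
    rw [← card_filter]
    by_cases hb : ((gr g).filter fun c => X.s ≤ b.1 ∧ (b.1 : ℕ) < X.e ∧ Crs r (cel X.C prt c) b.2 ∧
      x.o b.1 b.2 ≠ none).Nonempty
    · have h4 : ((gr g).filter fun c => X.s ≤ b.1 ∧ (b.1 : ℕ) < X.e ∧
          Crs r (cel X.C prt c) b.2 ∧ x.o b.1 b.2 ≠ none).card ≤ 4 := by
        refine (card_le_card ?_).trans (htouch b.2)
        intro c hc
        obtain ⟨p, hp⟩ := (mem_filter.1 hc).2.2.2.1.1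
        have hp2 := mem_filter.1 hp
        exact mem_image.2 ⟨p, mem_filter.2 ⟨mem_univ _, hp2.1⟩, hp2.2⟩
      obtain ⟨c, hc⟩ := hb
      obtain ⟨h1, h2, ⟨⟨p, hp⟩, h3⟩, h5⟩ := (mem_filter.1 hc).2
      have hp2 := mem_filter.1 hp
      by_cases hi : Ins r X.C b.2
      · have h6 : ∃ p', boxPos L r b.2 p' ∉ cel X.C prt c := by
          by_contra h7
          push Not at h7
          exact h3 h7
        obtain ⟨p', hp'⟩ := h6
        have h7 : prt (boxPos L r b.2 p) ≠ prt (boxPos L r b.2 p') := by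
          intro h8
          refine hp' (mem_filter.2 ⟨hi p', ?_⟩)
          rw [← h8]
          exact hp2.2
        rw [if_pos ⟨h1, h2, hi, h5, p, p', h7⟩]
        omega
      · have h6 : Sum.inr b ∈ X.ext r n := by
          unfold Blk.ext
          rw [inr_mem_disjSum, mem_filter]
          exact ⟨mem_univ _, ⟨p, hp2.1⟩, hi, h1, h2⟩
        rw [if_pos (show (Sum.inr b ∈ X.ext r n ∧ x.o b.1 b.2 ≠ none) from ⟨h6, h5⟩)]
        omega
    · rw [not_nonempty_iff_eq_empty.1 hb, card_empty]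
      exact Nat.zero_le _
  · rw [vol_eq]
    simp_rw [sum_ct, card_filter]
    rw [sum_comm]
    refine sum_le_sum fun b _ => ?_
    rw [← card_filter]
    by_cases hb : ((gr g).filter fun c => X.s ≤ b.1 ∧ (b.1 : ℕ) < X.e ∧ Ins r (cel X.C prt c) b.2 ∧
      x.o b.1 b.2 ≠ none).Nonempty
    · have h4 : ((gr g).filter fun c => X.s ≤ b.1 ∧ (b.1 : ℕ) < X.e ∧
          Ins r (cel X.C prt c) b.2 ∧ x.o b.1 b.2 ≠ none).card ≤ 1 := by
        rw [card_le_one]
        intro c hc c' hc'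
        have h1 := mem_filter.1 (mem_of_ins hr (mem_filter.1 hc).2.2.2.1)
        have h2 := mem_filter.1 (mem_of_ins hr (mem_filter.1 hc').2.2.2.1)
        exact h1.2.symm.trans h2.2
      obtain ⟨c, hc⟩ := hb
      obtain ⟨h1, h2, h3, h5⟩ := (mem_filter.1 hc).2
      rw [if_pos ⟨h1, h2, fun p => (mem_filter.1 (h3 p)).1, h5⟩]
      exact h4
    · rw [not_nonempty_iff_eq_empty.1 hb, card_empty]
      exact Nat.zero_le _

end Pool.Agent.PepsY.Fx
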