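import Pool.Agent.PepsY.FixSlice

/-!
# The profile of a family of loads (for YB5)
-/

open Finset

set_option autoImplicit false
set_option linter.unusedSectionVars false

namespace Pool.Agent.PepsY.Fx

open Pool.Agent.PEPS953 Pool.Agent.PepsX Pool.Agent.PepsY

/-- The grid of the cells. -/
def gr (g : ℕ) : Finset (ℕ × ℕ) := range g ×ˢ range g

/-- The possible positions of the cuts. -/
def TT (g s e : ℕ) : Finset ((ℕ × ℕ) × ℕ) := gr g ×ˢ Ico (s + 1) e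

/-- The windows of the cell `c` in `[a, b)`. -/
def win (𝒲 : Finset ((ℕ × ℕ) × ℕ)) (c : ℕ × ℕ) (a b : ℕ) : Finset ℕ :=
  (tms 𝒲 c).filter fun t => a < t ∧ t < b

theorem win_sub (𝒲 : Finset ((ℕ × ℕ) × ℕ)) (c : ℕ × ℕ) (a b : ℕ) : win 𝒲 c a b ⊆ Ico (a + 1) b := by
  intro t ht
  have := (mem_filter.1 ht).2
  rw [mem_Ico]
  omega

theorem mem_win {𝒲 : Finset ((ℕ × ℕ) × ℕ)} {c : ℕ × ℕ} {a b t : ℕ} :
    t ∈ win 𝒲 c a b ↔ (c, t) ∈ 𝒲 ∧ a < t ∧ t < b := by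
  unfold win
  rw [mem_filter, mem_tms]

theorem tms_sub {g s e : ℕ} {𝒟 : Finset ((ℕ × ℕ) × ℕ)} (h : 𝒟 ⊆ TT g s e) (c : ℕ × ℕ) :
    tms 𝒟 c ⊆ Ico (s + 1) e := by
  intro t ht
  exact (mem_product.1 (h (mem_tms.1 ht))).2

/-- The pair of the set of cuts and of the set of the starts of the windows matches the loads. -/
def Mch (g s e B lam : ℕ) (l m : ℕ × ℕ → ℕ → ℕ)
    (P : Finset ((ℕ × ℕ) × ℕ) × Finset ((ℕ × ℕ) × ℕ)) : Prop :=
  P.1 ⊆ TT g s e ∧ P.2 ⊆ TT g s e ∧ Disjoint P.1 P.2 ∧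
    ∀ c ∈ gr g, Cut s e B (l c) (tms P.1 c) ∧ ∀ a ∈ insert s (tms P.1 c),
      Cut a (nxt e (tms P.1 c) a) lam (m c) (win P.2 c a (nxt e (tms P.1 c) a))

theorem ext_pairs {g s e : ℕ} {𝒟 𝒟' : Finset ((ℕ × ℕ) × ℕ)} (h : 𝒟 ⊆ TT g s e)
    (h' : 𝒟' ⊆ TT g s e) (hc : ∀ c ∈ gr g, tms 𝒟 c = tms 𝒟' c) : 𝒟 = 𝒟' := by
  ext ⟨c, t⟩
  constructor
  · intro hp
    have h1 := (mem_product.1 (h hp)).1
    rw [← mem_tms] at hp ⊢
    rwa [← hc c h1]
  · intro hp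
    have h1 := (mem_product.1 (h' hp)).1
    rw [← mem_tms] at hp ⊢
    rwa [hc c h1]

theorem mch_exists_unique {g s e B lam : ℕ} (hse : s < e) (hB : 0 < B) (hlam : 0 < lam)
    (l m : ℕ × ℕ → ℕ → ℕ) : ∃! P, Mch g s e B lam l m P := by
  classical
  choose D hD hDu using fun c => cut_exists_unique hse hB (l c)
  have hW0 : ∀ c a, ∃ W, a < nxt e (D c) a → Cut a (nxt e (D c) a) lam (m c) W ∧
      ∀ W', Cut a (nxt e (D c) a) lam (m c) W' → W' = W := by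
    intro c a
    by_cases h : a < nxt e (D c) a
    · obtain ⟨W, hW, hWu⟩ := cut_exists_unique h hlam (m c)
      exact ⟨W, fun _ => ⟨hW, hWu⟩⟩
    · exact ⟨∅, fun h' => absurd h' h⟩
  choose W hW using hW0
  have hDs : ∀ c, D c ⊆ Ico (s + 1) e := fun c => (hD c).1
  have hlt : ∀ c, ∀ a ∈ insert s (D c), a < nxt e (D c) a := fun c a ha =>
    lt_nxt (mem_lt hse (hDs c) ha).2
  set 𝒟 : Finset ((ℕ × ℕ) × ℕ) := (TT g s e).filter fun p => p.2 ∈ D p.1 with h𝒟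
  set 𝒲 : Finset ((ℕ × ℕ) × ℕ) := (TT g s e).filter fun p => p.2 ∉ D p.1 ∧
    p.2 ∈ W p.1 (lst s (D p.1) p.2) with h𝒲
  have htD : ∀ c ∈ gr g, tms 𝒟 c = D c := by
    intro c hc
    ext t
    rw [mem_tms, h𝒟, mem_filter]
    constructor
    · exact fun h => h.2
    · exact fun h => ⟨mem_product.2 ⟨hc, hDs c h⟩, h⟩
  have htW : ∀ c ∈ gr g, ∀ a ∈ insert s (D c), win 𝒲 c a (nxt e (D c) a) = W c a := by
    intro c hc a ha
    have h1 := mem_lt hse (hDs c) ha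
    have h2 := nxt_le e (D c) a
    ext t
    rw [mem_win, h𝒲, mem_filter]
    constructor
    · rintro ⟨⟨_, h3, h4⟩, h5, h6⟩
      rwa [(lst_eq_iff (by omega) (by omega) ha h1.1).2 ⟨h5.le, h6⟩] at h4
    · intro h3
      have h4 := mem_Ico.1 ((hW c a (hlt c a ha)).1.1 h3)
      refine ⟨⟨mem_product.2 ⟨hc, mem_Ico.2 ?_⟩, ?_, ?_⟩, by omega, h4.2⟩
      · simp only
        omega
      · intro h5
        have := nxt_le_of_mem e h5 (show a < t by omega)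
        simp only at this
        omega
      · simp only
        rwa [(lst_eq_iff (by omega) (by omega) ha h1.1).2 ⟨by omega, h4.2⟩]
  refine ⟨(𝒟, 𝒲), ⟨filter_subset _ _, filter_subset _ _, ?_, ?_⟩, ?_⟩
  · rw [disjoint_left]
    intro p hp hp'
    exact (mem_filter.1 hp').2.1 (mem_filter.1 hp).2
  · intro c hc
    simp only
    rw [htD c hc]
    refine ⟨hD c, fun a ha => ?_⟩
    rw [htW c hc a ha]
    exact (hW c a (hlt c a ha)).1
  · rintro ⟨𝒟', 𝒲'⟩ ⟨h1, h2, h3, h4⟩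
    simp only at h1 h2 h3 h4
    have e1 : ∀ c ∈ gr g, tms 𝒟' c = D c := fun c hc => hDu c _ (h4 c hc).1
    have e2 : 𝒟' = 𝒟 := ext_pairs h1 (filter_subset _ _) fun c hc => by rw [e1 c hc, htD c hc]
    refine Prod.ext e2 ?_
    simp only
    refine ext_pairs h2 (filter_subset _ _) fun c hc => ?_
    ext t
    have key : ∀ t, s < t → t < e → t ∉ D c → (t ∈ tms 𝒲' c ↔ t ∈ W c (lst s (D c) t)) := by
      intro t ht1 ht2 ht3
      have h5 := lst_mem (D c) ht1.le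
      have h6 := (h4 c hc).2 (lst s (D c) t) (by rw [e1 c hc]; exact h5)
      rw [e1 c hc] at h6
      rw [← (hW c _ (hlt c _ h5)).2 _ h6, mem_win, ← mem_tms]
      have h7 := lst_lt_nxt (D := D c) ht1.le ht2
      have h8 : lst s (D c) t < t := by
        refine lt_of_le_of_ne (lst_le _ _ _) fun h8 => ?_
        rcases mem_insert.1 h5 with h9 | h9
        · omega
        · rw [h8] at h9
          exact ht3 h9
      exact ⟨fun h => ⟨h, h8, h7⟩, fun h => h.1⟩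
    have hr : t ∈ tms 𝒲 c ↔ (s < t ∧ t < e) ∧ t ∉ D c ∧ t ∈ W c (lst s (D c) t) := by
      rw [mem_tms, h𝒲, mem_filter]
      unfold TT
      rw [mem_product, mem_Ico]
      simp only
      constructor
      · rintro ⟨⟨_, h5⟩, h6⟩
        exact ⟨⟨by omega, h5.2⟩, h6⟩
      · rintro ⟨h5, h6⟩
        exact ⟨⟨hc, by omega, h5.2⟩, h6⟩
    rw [hr]
    constructor
    · intro ht
      have h5 := mem_Ico.1 (tms_sub h2 c ht)
      have h6 : t ∉ D c := by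
        intro h6
        rw [← e1 c hc, mem_tms] at h6
        exact disjoint_left.1 h3 h6 (mem_tms.1 ht)
      exact ⟨⟨by omega, h5.2⟩, h6, (key t (by omega) h5.2 h6).1 ht⟩
    · rintro ⟨h5, h6, h7⟩
      exact (key t h5.1 h5.2 h6).2 h7

theorem card_tms (𝒟 : Finset ((ℕ × ℕ) × ℕ)) (c : ℕ × ℕ) :
    (tms 𝒟 c).card = (𝒟.filter fun p => p.1 = c).card := by
  unfold tms
  refine card_image_of_injOn ?_
  rintro ⟨c1, t1⟩ h1 ⟨c2, t2⟩ h2 h
  have h3 := (mem_filter.1 h1).2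
  have h4 := (mem_filter.1 h2).2
  simp only at h h3 h4
  subst h3
  subst h4
  subst h
  rfl

theorem card_eq_sum_tms {g s e : ℕ} {𝒟 : Finset ((ℕ × ℕ) × ℕ)} (h : 𝒟 ⊆ TT g s e) :
    𝒟.card = ∑ c ∈ gr g, (tms 𝒟 c).card := by
  rw [card_eq_sum_card_fiberwise (f := Prod.fst) (t := gr g)
    fun p hp => (mem_product.1 (h hp)).1]
  exact sum_congr rfl fun c _ => (card_tms 𝒟 c).symm

theorem mch_card {g s e B lam : ℕ} (hse : s < e) (hB : 0 < B) {l m : ℕ × ℕ → ℕ → ℕ}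
    {P : Finset ((ℕ × ℕ) × ℕ) × Finset ((ℕ × ℕ) × ℕ)} (h : Mch g s e B lam l m P) :
    P.1.card * B ≤ ∑ c ∈ gr g, ∑ t ∈ Ico s e, l c t := by
  rw [card_eq_sum_tms h.1, sum_mul]
  exact sum_le_sum fun c hc => cut_card hse hB (h.2.2.2 c hc).1

/-- The starts of the slices. -/
def US (g s : ℕ) (𝒟 : Finset ((ℕ × ℕ) × ℕ)) : Finset ((ℕ × ℕ) × ℕ) := gr g ×ˢ {s} ∪ 𝒟

theorem card_US_le (g s : ℕ) (𝒟 : Finset ((ℕ × ℕ) × ℕ)) : (US g s 𝒟).card ≤ g ^ 2 + 𝒟.card := by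
  refine (card_union_le _ _).trans (le_of_eq ?_)
  unfold gr
  rw [card_product, card_product, card_range, card_singleton]
  ring

theorem mem_US {g s e : ℕ} {𝒟 : Finset ((ℕ × ℕ) × ℕ)} (h : 𝒟 ⊆ TT g s e) {c : ℕ × ℕ} {a : ℕ} :
    (c, a) ∈ US g s 𝒟 ↔ c ∈ gr g ∧ a ∈ insert s (tms 𝒟 c) := by
  unfold US
  rw [mem_union, mem_product, mem_singleton, mem_insert, mem_tms]
  constructor
  · rintro (h1 | h1)
    · exact ⟨h1.1, Or.inl h1.2⟩
    · exact ⟨(mem_product.1 (h h1)).1, Or.inr h1⟩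
  · rintro ⟨h1, h2 | h2⟩
    · exact Or.inl ⟨h1, h2⟩
    · exact Or.inr h2

theorem prod_US {M : Type*} [CommMonoid M] {g s e : ℕ} {𝒟 : Finset ((ℕ × ℕ) × ℕ)}
    (h : 𝒟 ⊆ TT g s e) (f : (ℕ × ℕ) × ℕ → M) :
    ∏ p ∈ US g s 𝒟, f p = ∏ c ∈ gr g, ∏ a ∈ insert s (tms 𝒟 c), f (c, a) := by
  rw [← prod_fiberwise_of_maps_to (s := US g s 𝒟) (t := gr g) (g := Prod.fst)
    (fun p hp => ((mem_US h (c := p.1) (a := p.2)).1 hp).1)]
  refine prod_congr rfl fun c hc => ?_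
  have e1 : (US g s 𝒟).filter (fun p => p.1 = c) = (insert s (tms 𝒟 c)).image fun a => (c, a) := by
    ext ⟨c', a⟩
    rw [mem_filter, mem_US h, mem_image]
    constructor
    · rintro ⟨⟨h1, h2⟩, h3⟩
      simp only at h3
      subst h3
      exact ⟨a, h2, rfl⟩
    · rintro ⟨a', h1, h2⟩
      obtain ⟨rfl, rfl⟩ := Prod.mk.inj h2
      exact ⟨⟨hc, h1⟩, rfl⟩
  rw [e1, prod_image]
  intro a _ a' _ h1
  exact (Prod.mk.inj h1).2

theorem mch_card_win {g s e B lam w : ℕ} {l m : ℕ × ℕ → ℕ → ℕ}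
    {P : Finset ((ℕ × ℕ) × ℕ) × Finset ((ℕ × ℕ) × ℕ)} (h : Mch g s e B lam l m P)
    (hw : ∀ c ∈ gr g, ∀ a ∈ insert s (tms P.1 c),
      (win P.2 c a (nxt e (tms P.1 c) a)).card ≤ w) :
    P.2.card ≤ (US g s P.1).card * w := by
  classical
  obtain ⟨h1, h2, h3, h4⟩ := h
  have hsub : P.2 ⊆ (US g s P.1).biUnion fun p =>
      (win P.2 p.1 p.2 (nxt e (tms P.1 p.1) p.2)).image fun t => (p.1, t) := by
    rintro ⟨c, t⟩ hp
    obtain ⟨hc, ht⟩ := mem_product.1 (h2 hp)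
    have ht' := mem_Ico.1 ht
    simp only at hc ht'
    have h5 := lst_mem (s := s) (tms P.1 c) (t := t) (by omega)
    rw [mem_biUnion]
    refine ⟨(c, lst s (tms P.1 c) t), (mem_US h1).2 ⟨hc, h5⟩, mem_image.2 ⟨t, ?_, rfl⟩⟩
    rw [mem_win]
    refine ⟨hp, ?_, lst_lt_nxt (by omega) ht'.2⟩
    simp only
    refine lt_of_le_of_ne (lst_le _ _ _) fun h8 => ?_
    rcases mem_insert.1 h5 with h9 | h9
    · omega
    · rw [h8, mem_tms] at h9
      exact disjoint_left.1 h3 h9 hp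
  calc P.2.card ≤ _ := card_le_card hsub
    _ ≤ ∑ p ∈ US g s P.1, _ := card_biUnion_le
    _ ≤ ∑ p ∈ US g s P.1, w := sum_le_sum fun p hp => by
        have h6 := (mem_US h1 (c := p.1) (a := p.2)).1 hp
        exact card_image_le.trans (hw p.1 h6.1 p.2 h6.2)
    _ = _ := by rw [sum_const, smul_eq_mul]

end Pool.Agent.PepsY.Fx
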