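import Pool.Agent.PepsY.FixLoad

/-!
# The decomposition for a profile and a mode (for YB5)
-/

open Finset

set_option autoImplicit false
set_option linter.unusedSectionVars false

namespace Pool.Agent.PepsY.Fx

open Pool.Agent.PEPS953 Pool.Agent.PepsX Pool.Agent.PepsY

variable {d r n L : ℕ} [NeZero L]

/-! ### Enumerations -/

theorem exists_enum {A : Type*} [DecidableEq A] (S : Finset A) {k : ℕ} (h : S.card ≤ k) :
    ∃ ι : A → ℕ, (∀ a ∈ S, ι a < k) ∧ ∀ a ∈ S, ∀ a' ∈ S, ι a = ι a' → a = a' := by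
  refine ⟨fun a => if h : a ∈ S then (S.equivFin ⟨a, h⟩ : ℕ) else 0, ?_, ?_⟩
  · intro a ha
    simp only [dif_pos ha]
    exact lt_of_lt_of_le (Fin.isLt _) h
  · intro a ha a' ha' h1
    simp only [dif_pos ha, dif_pos ha'] at h1
    exact congrArg Subtype.val (S.equivFin.injective (Fin.ext h1))

theorem exists_chunk {A : Type*} [DecidableEq A] (S : Finset A) {lam γ : ℕ} (hlam : 0 < lam)
    (h : S.card ≤ γ * lam) : ∃ ch : A → ℕ, (∀ a ∈ S, ch a < γ) ∧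
      ∀ j, (S.filter fun a => ch a = j).card ≤ lam := by
  obtain ⟨ι, h1, h2⟩ := exists_enum S h
  refine ⟨fun a => ι a / lam, fun a ha => Nat.div_lt_of_lt_mul (by
    rw [mul_comm]
    exact h1 a ha), fun j => ?_⟩
  have h3 : (S.filter fun a => ι a / lam = j).card ≤ (Ico (j * lam) (j * lam + lam)).card := by
    refine card_le_card_of_injOn ι ?_ ?_
    · intro a ha
      have h4 := (mem_filter.1 ha).2
      have h5 := Nat.div_mul_le_self (ι a) lam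
      have h6 := Nat.lt_div_mul_add (a := ι a) hlam
      rw [h4] at h5 h6
      exact mem_coe.2 (mem_Ico.2 ⟨h5, h6⟩)
    · intro a ha a' ha' h4
      exact h2 a (mem_filter.1 ha).1 a' (mem_filter.1 ha').1 h4
  rwa [Nat.card_Ico, Nat.add_sub_cancel_left] at h3

theorem prod_fin_Ico {M : Type*} [CommMonoid M] {a b : ℕ} (hb : b ≤ n) (F : ℕ → M) :
    ∏ t ∈ univ.filter (fun t : Fin n => a ≤ t ∧ (t : ℕ) < b), F t = ∏ t ∈ Ico a b, F t := by
  have h : Ico a b = (univ.filter (fun t : Fin n => a ≤ t ∧ (t : ℕ) < b)).image Fin.val := by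
    ext t
    rw [mem_Ico, mem_image]
    constructor
    · rintro ⟨h1, h2⟩
      exact ⟨⟨t, by omega⟩, mem_filter.2 ⟨mem_univ _, h1, h2⟩, rfl⟩
    · rintro ⟨t', h1, rfl⟩
      exact (mem_filter.1 h1).2
  rw [h, prod_image fun a _ b _ h => Fin.ext h]

/-! ### The factor of a mode -/

/-- The factor of an insertion in the layer `t`. -/
def zf (b : ℕ) (z : Fin 2 → ℂ) (t : ℕ) : ℂ := if t + 1 = b then z 1 else z 0

theorem prod_zf {a b : ℕ} (hab : a < b) (z : Fin 2 → ℂ) (l : ℕ → ℕ) :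
    ∏ t ∈ Ico a b, zf b z t ^ l t = z 0 ^ (∑ t ∈ Ico a (b - 1), l t) * z 1 ^ l (b - 1) := by
  obtain ⟨k, rfl⟩ : ∃ k, b = k + 1 := ⟨b - 1, by omega⟩
  rw [Nat.add_sub_cancel, prod_Ico_succ_top (by omega)]
  congr 1
  · rw [← prod_pow_eq_pow_sum]
    refine prod_congr rfl fun t ht => ?_
    have := mem_Ico.1 ht
    unfold zf
    rw [if_neg (by omega)]
  · unfold zf
    rw [if_pos rfl]

/-- The condition on the window starting at `a'`. -/
def WCd (lam b : ℕ) (W : Finset ℕ) (l : ℕ → ℕ) (a' : ℕ) : Prop :=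
  ∑ x ∈ Ico a' (nxt b W a' - 1), l x < lam ∧
    (nxt b W a' = b ∨ lam ≤ ∑ x ∈ Ico a' (nxt b W a'), l x)

open scoped Classical in
/-- The factor of a window. -/
noncomputable def Jw (lam α b : ℕ) (W : Finset ℕ) (z : Fin 2 → ℂ) (l : ℕ → ℕ) (a' : ℕ) : ℂ :=
  if WCd lam b W l a' then ∏ t ∈ Ico a' (nxt b W a'), zf b z t ^ (α * l t) else 0

open scoped Classical in
theorem prod_Jw {lam α a b : ℕ} (hab : a < b) {W : Finset ℕ} (hW : W ⊆ Ico (a + 1) b)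
    (z : Fin 2 → ℂ) (l : ℕ → ℕ) :
    ∏ a' ∈ insert a W, Jw lam α b W z l a' = (if ∀ a' ∈ insert a W, WCd lam b W l a' then 1 else 0) *
      ∏ t ∈ Ico a b, zf b z t ^ (α * l t) := by
  by_cases h : ∀ a' ∈ insert a W, WCd lam b W l a'
  · rw [if_pos h, one_mul, ← prod_slices hab hW]
    refine prod_congr rfl fun a' ha' => ?_
    unfold Jw
    rw [if_pos (h a' ha')]
  · rw [if_neg h, zero_mul]
    push Not at h
    obtain ⟨a', ha', h2⟩ := h
    refine prod_eq_zero ha' ?_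
    unfold Jw
    rw [if_neg h2]

theorem Jw_congr {lam α b : ℕ} {W : Finset ℕ} {z : Fin 2 → ℂ} {l l' : ℕ → ℕ} {a' : ℕ}
    (h : ∀ t, a' ≤ t → t < nxt b W a' → l t = l' t) : Jw lam α b W z l a' = Jw lam α b W z l' a' := by
  have h1 : ∑ x ∈ Ico a' (nxt b W a' - 1), l x = ∑ x ∈ Ico a' (nxt b W a' - 1), l' x :=
    sum_congr rfl fun t ht => by
      have := mem_Ico.1 ht
      exact h t (by omega) (by omega)
  have h2 : ∑ x ∈ Ico a' (nxt b W a'), l x = ∑ x ∈ Ico a' (nxt b W a'), l' x :=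
    sum_congr rfl fun t ht => by
      have := mem_Ico.1 ht
      exact h t (by omega) (by omega)
  have h3 : WCd lam b W l a' ↔ WCd lam b W l' a' := by
    unfold WCd
    rw [h1, h2]
  unfold Jw
  by_cases h4 : WCd lam b W l a'
  · rw [if_pos h4, if_pos (h3.1 h4)]
    refine prod_congr rfl fun t ht => ?_
    have := mem_Ico.1 ht
    rw [h t this.1 this.2]
  · rw [if_neg h4, if_neg fun h5 => h4 (h3.2 h5)]

/-! ### Blocks -/

/-- The block of the slice `p`. -/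
def bk (X : Blk L) (prt : Site L → ℕ × ℕ) (𝒟 : Finset ((ℕ × ℕ) × ℕ)) (p : (ℕ × ℕ) × ℕ) : Blk L :=
  ⟨cel X.C prt p.1, p.2, nxt X.e (tms 𝒟 p.1) p.2⟩

/-- The starts of the windows of the slice `p`, except for the first one. -/
def ws (X : Blk L) (𝒟 𝒲 : Finset ((ℕ × ℕ) × ℕ)) (p : (ℕ × ℕ) × ℕ) : Finset ℕ :=
  win 𝒲 p.1 p.2 (nxt X.e (tms 𝒟 p.1) p.2)

/-- The weight with the factors of the mode. -/
noncomputable def wm (w : Fin n → Site L → Opn d r → ℂ) (X : Blk L) (prt : Site L → ℕ × ℕ)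
    (𝒟 : Finset ((ℕ × ℕ) × ℕ)) (zz : (ℕ × ℕ) × ℕ → Fin 2 → ℂ) (t : Fin n) (v : Site L)
    (q : Opn d r) : ℂ :=
  w t v q * (if q ≠ none ∧ Ins r (cel X.C prt (prt v)) v then
    zf (nxt X.e (tms 𝒟 (prt v)) (lst X.s (tms 𝒟 (prt v)) t))
      (zz (prt v, lst X.s (tms 𝒟 (prt v)) t)) t else 1)

theorem Wt_wm (hr : 0 < r) (w : Fin n → Site L → Opn d r → ℂ) (X : Blk L)
    (hX : X.s < X.e ∧ X.e ≤ n) (prt : Site L → ℕ × ℕ)
    {𝒟 : Finset ((ℕ × ℕ) × ℕ)} {g : ℕ} (h𝒟 : 𝒟 ⊆ TT g X.s X.e) (zz : (ℕ × ℕ) × ℕ → Fin 2 → ℂ)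
    {p : (ℕ × ℕ) × ℕ} (hp : p ∈ US g X.s 𝒟) (x : Asn d r n L) :
    Wt (wm w X prt 𝒟 zz) (bk X prt 𝒟 p) x = Wt w (bk X prt 𝒟 p) x *
      ∏ t ∈ Ico p.2 (nxt X.e (tms 𝒟 p.1) p.2), zf (nxt X.e (tms 𝒟 p.1) p.2) (zz p) t ^
        ct (Ins r (cel X.C prt p.1)) x t := by
  obtain ⟨c, a⟩ := p
  obtain ⟨hc, ha⟩ := (mem_US h𝒟).1 hp
  have hlt := mem_lt hX.1 (tms_sub h𝒟 c) ha
  have hne := nxt_le X.e (tms 𝒟 c) a
  unfold Wt bk
  simp only
  rw [← prod_fin_Ico (n := n) (by omega) (fun t => zf (nxt X.e (tms 𝒟 c) a) (zz (c, a)) t ^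
        ct (Ins r (cel X.C prt c)) x t), ← prod_mul_distrib]
  refine prod_congr rfl fun t ht => ?_
  obtain ⟨ht1, ht2⟩ := (mem_filter.1 ht).2
  have e1 : ∀ v ∈ cel X.C prt c, wm w X prt 𝒟 zz t v (x.o t v) *
      lay (x.o t) v (x.p t.castSucc v) (x.p t.succ v) = (w t v (x.o t v) *
      lay (x.o t) v (x.p t.castSucc v) (x.p t.succ v)) *
      (if x.o t v ≠ none ∧ Ins r (cel X.C prt c) v then
        zf (nxt X.e (tms 𝒟 c) a) (zz (c, a)) t else 1) := by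
    intro v hv
    have h1 : prt v = c := (mem_filter.1 hv).2
    have h2 : lst X.s (tms 𝒟 c) t = a :=
      (lst_eq_iff (by omega) (by omega) ha hlt.1).2 ⟨ht1, ht2⟩
    unfold wm
    rw [h1, h2]
    ring
  rw [prod_congr rfl e1, prod_mul_distrib, prod_ite, prod_const, prod_const_one, mul_one]
  congr 2
  unfold ct
  refine card_bij (fun v _ => (t, v)) ?_ ?_ ?_
  · intro v hv
    obtain ⟨h1, h2, h3⟩ := mem_filter.1 hv
    exact mem_filter.2 ⟨mem_univ _, rfl, h3, h2⟩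
  · intro v _ v' _ h
    exact (Prod.mk.inj h).2
  · rintro ⟨t', v⟩ hv
    obtain ⟨_, h1, h2, h3⟩ := mem_filter.1 hv
    simp only at h1 h2 h3
    have h4 : t' = t := Fin.ext h1
    subst h4
    exact ⟨v, mem_filter.2 ⟨mem_of_ins hr h2, h3, h2⟩, rfl⟩

theorem Wt_prod (w : Fin n → Site L → Opn d r → ℂ) (X : Blk L)
    (hX : X.s < X.e ∧ X.e ≤ n) (prt : Site L → ℕ × ℕ)
    {𝒟 : Finset ((ℕ × ℕ) × ℕ)} {g : ℕ} (h𝒟 : 𝒟 ⊆ TT g X.s X.e)
    (hprt : ∀ v ∈ X.C, prt v ∈ gr g) (x : Asn d r n L) :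
    ∏ p ∈ US g X.s 𝒟, Wt w (bk X prt 𝒟 p) x = Wt w X x := by
  set F : ℕ → Site L → ℂ := fun t v => if h : t < n then w ⟨t, h⟩ v (x.o ⟨t, h⟩ v) *
    lay (x.o ⟨t, h⟩) v (x.p (Fin.castSucc ⟨t, h⟩) v) (x.p (Fin.succ ⟨t, h⟩) v) else 1 with hF
  have h1 : ∀ (Y : Blk L), Y.e ≤ n → Wt w Y x = ∏ t ∈ Ico Y.s Y.e, ∏ v ∈ Y.C, F t v := by
    intro Y hY
    rw [← prod_fin_Ico (n := n) hY]
    unfold Wt
    refine prod_congr rfl fun t _ => prod_congr rfl fun v _ => ?_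
    simp only [hF, dif_pos t.isLt]
  rw [prod_US h𝒟, h1 X hX.2, prod_comm, ← prod_fiberwise_of_maps_to (s := X.C) (t := gr g)
    (g := prt) hprt]
  refine prod_congr rfl fun c hc => ?_
  have e1 : ∀ a ∈ insert X.s (tms 𝒟 c), Wt w (bk X prt 𝒟 (c, a)) x =
      ∏ t ∈ Ico a (nxt X.e (tms 𝒟 c) a), ∏ v ∈ X.C.filter (fun v => prt v = c), F t v := by
    intro a _
    have := nxt_le X.e (tms 𝒟 c) a
    rw [h1 _ (show (bk X prt 𝒟 (c, a)).e ≤ n from by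
      unfold bk
      simp only
      omega)]
    rfl
  rw [prod_congr rfl e1, prod_slices hX.1 (tms_sub h𝒟 c), prod_comm]

end Pool.Agent.PepsY.Fx
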