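import Pool.Agent.PepsY.Slices
import Pool.Agent.PepsX.TermPeps

/-!
# Slices of an interval of layers (for YB5)
-/

open Finset

set_option autoImplicit false
set_option linter.unusedSectionVars false

namespace Pool.Agent.PepsY.Fx

open Pool.Agent.PEPS953 Pool.Agent.PepsX Pool.Agent.PepsY

/-! ### The next cut and the last cut -/

theorem nxt_mem (N : ℕ) (D : Finset ℕ) (a : ℕ) : nxt N D a = N ∨ (nxt N D a ∈ D ∧ a < nxt N D a) := by
  have h := Finset.min'_mem (insert N (D.filter fun x => a < x)) (by simp)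
  rcases mem_insert.1 h with h | h
  · exact Or.inl h
  · exact Or.inr (mem_filter.1 h)

theorem nxt_le (N : ℕ) (D : Finset ℕ) (a : ℕ) : nxt N D a ≤ N :=
  Finset.min'_le _ _ (mem_insert_self _ _)

theorem nxt_le_of_mem (N : ℕ) {D : Finset ℕ} {a x : ℕ} (hx : x ∈ D) (h : a < x) : nxt N D a ≤ x :=
  Finset.min'_le _ _ (mem_insert_of_mem (mem_filter.2 ⟨hx, h⟩))

theorem lt_nxt {N : ℕ} {D : Finset ℕ} {a : ℕ} (h : a < N) : a < nxt N D a := by
  rcases nxt_mem N D a with h1 | h1
  · omega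
  · exact h1.2

theorem mem_lt {s e : ℕ} (hse : s < e) {D : Finset ℕ} (hD : D ⊆ Ico (s + 1) e) {a : ℕ}
    (ha : a ∈ insert s D) : s ≤ a ∧ a < e := by
  rcases mem_insert.1 ha with rfl | ha
  · exact ⟨le_rfl, hse⟩
  · have := mem_Ico.1 (hD ha)
    omega

theorem nxt_le_of_lt {s e : ℕ} {D : Finset ℕ} {a a' : ℕ}
    (hs : s ≤ a) (ha' : a' ∈ insert s D) (h : a < a') : nxt e D a ≤ a' := by
  rcases mem_insert.1 ha' with rfl | ha'
  · omega
  · exact nxt_le_of_mem e ha' h

/-- The last cut before `t`. -/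
def lst (s : ℕ) (D : Finset ℕ) (t : ℕ) : ℕ := sst (insert s D) t

theorem lst_mem {s : ℕ} (D : Finset ℕ) {t : ℕ} (h : s ≤ t) : lst s D t ∈ insert s D := by
  rcases sst_zero_or_mem (insert s D) t with h0 | h0
  · have h1 : s ≤ lst s D t := le_sst (mem_insert_self _ _) h
    have h2 : s = 0 := by
      unfold lst at h1
      omega
    have h3 : lst s D t = s := by
      unfold lst
      omega
    rw [h3]
    exact mem_insert_self _ _
  · exact h0

theorem lst_le (s : ℕ) (D : Finset ℕ) (t : ℕ) : lst s D t ≤ t := sst_le _ _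

theorem le_lst {s : ℕ} {D : Finset ℕ} {t a : ℕ} (ha : a ∈ insert s D) (h : a ≤ t) : a ≤ lst s D t :=
  le_sst ha h

theorem lst_eq_iff {s e : ℕ} {D : Finset ℕ} {a t : ℕ} (hs : s ≤ t) (he : t < e)
    (ha : a ∈ insert s D) (hsa : s ≤ a) : lst s D t = a ↔ a ≤ t ∧ t < nxt e D a := by
  constructor
  · intro h
    refine ⟨h ▸ lst_le s D t, ?_⟩
    rcases nxt_mem e D a with h1 | h1
    · omega
    · by_contra h2
      have h3 := le_lst (s := s) (mem_insert_of_mem h1.1) (not_lt.1 h2)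
      omega
  · rintro ⟨h1, h2⟩
    refine le_antisymm ?_ (le_lst ha h1)
    by_contra h3
    have h4 := nxt_le_of_lt (e := e) hsa (lst_mem D hs) (not_le.1 h3)
    have h5 := lst_le s D t
    omega

theorem lst_lt_nxt {s e : ℕ} {D : Finset ℕ} {t : ℕ} (hs : s ≤ t) (he : t < e) :
    t < nxt e D (lst s D t) :=
  ((lst_eq_iff hs he (lst_mem D hs) (le_lst (mem_insert_self _ _) hs)).1 rfl).2

/-- The slices form a partition. -/
theorem prod_slices {M : Type*} [CommMonoid M] {s e : ℕ} (hse : s < e) {D : Finset ℕ}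
    (hD : D ⊆ Ico (s + 1) e) (f : ℕ → M) :
    ∏ a ∈ insert s D, ∏ t ∈ Ico a (nxt e D a), f t = ∏ t ∈ Ico s e, f t := by
  rw [← prod_fiberwise_of_maps_to (s := Ico s e) (t := insert s D) (g := lst s D)
    (fun t ht => lst_mem D (mem_Ico.1 ht).1)]
  refine prod_congr rfl fun a ha => prod_congr ?_ fun _ _ => rfl
  have h1 := mem_lt hse hD ha
  have h2 := nxt_le e D a
  ext t
  rw [mem_Ico, mem_filter, mem_Ico]
  constructor
  · rintro ⟨h3, h4⟩
    exact ⟨⟨by omega, by omega⟩, (lst_eq_iff (by omega) (by omega) ha h1.1).2 ⟨h3, h4⟩⟩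
  · rintro ⟨⟨h3, h4⟩, h5⟩
    exact (lst_eq_iff h3 h4 ha h1.1).1 h5

theorem sum_slices {s e : ℕ} (hse : s < e) {D : Finset ℕ}
    (hD : D ⊆ Ico (s + 1) e) (f : ℕ → ℕ) :
    ∑ a ∈ insert s D, ∑ t ∈ Ico a (nxt e D a), f t = ∑ t ∈ Ico s e, f t := by
  have h := prod_slices (M := Multiplicative ℕ) hse hD (fun t => Multiplicative.ofAdd (f t))
  simpa [← ofAdd_sum] using h

/-! ### Greedy cuts in absolute times -/

/-- `D` is the set of greedy cuts of `[s, e)`. -/
def Cut (s e B : ℕ) (l : ℕ → ℕ) (D : Finset ℕ) : Prop :=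
  D ⊆ Ico (s + 1) e ∧ ∀ a ∈ insert s D, ∑ x ∈ Ico a (nxt e D a - 1), l x < B ∧
    (nxt e D a = e ∨ B ≤ ∑ x ∈ Ico a (nxt e D a), l x)

theorem nxt_shift (s N : ℕ) (D : Finset ℕ) (a : ℕ) :
    nxt (s + N) (D.image (s + ·)) (s + a) = s + nxt N D a := by
  refine le_antisymm ?_ ?_
  · rcases nxt_mem N D a with h | h
    · rw [h]
      exact nxt_le _ _ _
    · exact nxt_le_of_mem _ (mem_image.2 ⟨_, h.1, rfl⟩) (by omega)
  · rcases nxt_mem (s + N) (D.image (s + ·)) (s + a) with h | h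
    · rw [h]
      have := nxt_le N D a
      omega
    · obtain ⟨x, hx, hx2⟩ := mem_image.1 h.1
      have h3 : a < x := by omega
      have := nxt_le_of_mem N hx h3
      omega

theorem sum_sh (l : ℕ → ℕ) (a b s : ℕ) :
    ∑ x ∈ Ico a b, l (s + x) = ∑ x ∈ Ico (s + a) (s + b), l x := by
  rw [sum_Ico_add, add_comm a, add_comm b]

theorem greedy_shift {s e B : ℕ} (hse : s < e) (hB : 0 < B) (l : ℕ → ℕ) {D : Finset ℕ}
    (hD : D ⊆ Ico 1 (e - s)) :
    Greedy (e - s) B (fun t => l (s + t)) D ↔ Cut s e B l (D.image (s + ·)) := by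
  rw [greedy_iff_slices _ _ (by omega) hB _ _ hD]
  unfold Cut
  have e1 : s + (e - s) = e := by omega
  constructor
  · intro h
    refine ⟨?_, ?_⟩
    · intro x hx
      obtain ⟨y, hy, rfl⟩ := mem_image.1 hx
      have := mem_Ico.1 (hD hy)
      rw [mem_Ico]
      omega
    · intro a ha
      obtain ⟨b, hb, rfl⟩ : ∃ b ∈ insert 0 D, s + b = a := by
        rcases mem_insert.1 ha with rfl | ha
        · exact ⟨0, mem_insert_self _ _, rfl⟩
        · obtain ⟨y, hy, hy2⟩ := mem_image.1 ha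
          exact ⟨y, mem_insert_of_mem hy, hy2⟩
      have h1 := nxt_shift s (e - s) D b
      rw [e1] at h1
      obtain ⟨h2, h3⟩ := h b hb
      have h4 : b < nxt (e - s) D b := lt_nxt (by
        rcases mem_insert.1 hb with rfl | hb
        · omega
        · exact (mem_Ico.1 (hD hb)).2)
      rw [h1]
      have h5 : s + nxt (e - s) D b - 1 = s + (nxt (e - s) D b - 1) := by omega
      rw [h5, ← sum_sh l b (nxt (e - s) D b - 1) s, ← sum_sh l b (nxt (e - s) D b) s]
      refine ⟨h2, ?_⟩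
      rcases h3 with h3 | h3
      · left
        omega
      · exact Or.inr h3
  · rintro ⟨-, h⟩ b hb
    have ha : s + b ∈ insert s (D.image (s + ·)) := by
      rcases mem_insert.1 hb with rfl | hb
      · exact mem_insert_self _ _
      · exact mem_insert_of_mem (mem_image.2 ⟨b, hb, rfl⟩)
    have h1 := nxt_shift s (e - s) D b
    rw [e1] at h1
    obtain ⟨h2, h3⟩ := h _ ha
    rw [h1] at h2 h3
    have h4 : b < nxt (e - s) D b := lt_nxt (by
      rcases mem_insert.1 hb with rfl | hb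
      · omega
      · exact (mem_Ico.1 (hD hb)).2)
    have h5 : s + nxt (e - s) D b - 1 = s + (nxt (e - s) D b - 1) := by omega
    rw [h5, ← sum_sh l b (nxt (e - s) D b - 1) s] at h2
    rw [← sum_sh l b (nxt (e - s) D b) s] at h3
    refine ⟨h2, ?_⟩
    rcases h3 with h3 | h3
    · left
      omega
    · exact Or.inr h3

theorem image_shift {s e : ℕ} {D : Finset ℕ} (hD : D ⊆ Ico (s + 1) e) :
    (D.image fun x => x - s) ⊆ Ico 1 (e - s) ∧ (D.image fun x => x - s).image (s + ·) = D := by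
  constructor
  · intro x hx
    obtain ⟨y, hy, rfl⟩ := mem_image.1 hx
    have := mem_Ico.1 (hD hy)
    rw [mem_Ico]
    omega
  · rw [image_image]
    ext x
    rw [mem_image]
    constructor
    · rintro ⟨y, hy, rfl⟩
      have := mem_Ico.1 (hD hy)
      have e1 : ((fun x => s + x) ∘ fun x => x - s) y = y := by
        simp only [Function.comp_apply]
        omega
      rw [e1]
      exact hy
    · intro hx
      have := mem_Ico.1 (hD hx)
      refine ⟨x, hx, ?_⟩
      simp only [Function.comp_apply]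
      omega

theorem cut_exists_unique {s e B : ℕ} (hse : s < e) (hB : 0 < B) (l : ℕ → ℕ) :
    ∃! D, Cut s e B l D := by
  obtain ⟨D, hD, huniq⟩ := greedy_exists_unique (e - s) B (fun t => l (s + t))
  refine ⟨D.image (s + ·), (greedy_shift hse hB l hD.1).1 hD, ?_⟩
  intro D' hD'
  obtain ⟨h1, h2⟩ := image_shift hD'.1
  have h3 := huniq (D'.image fun x => x - s) ((greedy_shift hse hB l h1).2 (by rw [h2]; exact hD'))
  rw [← h3, h2]

theorem cut_card {s e B : ℕ} (hse : s < e) (hB : 0 < B) {l : ℕ → ℕ} {D : Finset ℕ}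
    (h : Cut s e B l D) : D.card * B ≤ ∑ t ∈ Ico s e, l t := by
  obtain ⟨h1, h2⟩ := image_shift h.1
  have h3 := greedy_card_le _ _ _ _ ((greedy_shift hse hB l h1).2 (by rw [h2]; exact h))
  have h4 : D.card = (D.image fun x => x - s).card := by
    conv_lhs => rw [← h2]
    exact card_image_of_injective _ (add_right_injective s)
  rw [h4]
  refine h3.trans (le_of_eq ?_)
  rw [range_eq_Ico, sum_sh, add_zero, show s + (e - s) = e by omega]

/-! ### Pairs of a cell and a time -/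

/-- The times of the pairs with the first component `c`. -/
def tms (𝒟 : Finset ((ℕ × ℕ) × ℕ)) (c : ℕ × ℕ) : Finset ℕ := (𝒟.filter fun p => p.1 = c).image Prod.snd

theorem mem_tms {𝒟 : Finset ((ℕ × ℕ) × ℕ)} {c : ℕ × ℕ} {t : ℕ} : t ∈ tms 𝒟 c ↔ (c, t) ∈ 𝒟 := by
  unfold tms
  rw [mem_image]
  constructor
  · rintro ⟨⟨c', t'⟩, hx, rfl⟩
    obtain ⟨h1, h2⟩ := mem_filter.1 hx
    simp only at h2
    subst h2
    exact h1
  · intro h
    exact ⟨(c, t), mem_filter.2 ⟨h, rfl⟩, rfl⟩

/-- The number of subsets with at most `k` elements. -/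
theorem card_small_le {A : Type*} [DecidableEq A] (T : Finset A) (k : ℕ) :
    (T.powerset.filter fun D => D.card ≤ k).card ≤ (1 + T.card) ^ k := by
  have hsub : (T.powerset.filter fun D => D.card ≤ k) ⊆ (range (k + 1)).biUnion fun j =>
      T.powersetCard j := by
    intro D hD
    obtain ⟨h1, h2⟩ := mem_filter.1 hD
    rw [mem_biUnion]
    exact ⟨D.card, mem_range.2 (by omega), mem_powersetCard.2 ⟨mem_powerset.1 h1, rfl⟩⟩
  calc _ ≤ _ := card_le_card hsub
    _ ≤ ∑ j ∈ range (k + 1), (T.powersetCard j).card := card_biUnion_le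
    _ = ∑ j ∈ range (k + 1), T.card.choose j := sum_congr rfl fun j _ => card_powersetCard _ _
    _ ≤ (1 + T.card) ^ k := sum_choose_le _ _

end Pool.Agent.PepsY.Fx
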