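import Pool.Agent.PepsY.Blocks

/-!
# YB10: cutting rectangles
-/

open Finset

set_option autoImplicit false
set_option linter.unusedSectionVars false

namespace Pool.Agent.PepsY

open Pool.Agent.PEPS953 Pool.Agent.PepsX

variable {d r n L : ℕ} [NeZero L]

/-! ### Arithmetic in `ZMod L` -/

private lemma gr_val_add (y : ZMod L) (p : ℕ) (h : y.val + p < L) :
    (y + (p : ZMod L)).val = y.val + p := by
  rw [ZMod.val_add, ZMod.val_natCast, Nat.mod_eq_of_lt (a := p) (by omega), Nat.mod_eq_of_lt h]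

private lemma gr_val_add_wrap (y : ZMod L) (p : ℕ) (hp : p < L) (h : L ≤ y.val + p) :
    (y + (p : ZMod L)).val = y.val + p - L := by
  have hy := ZMod.val_lt y
  rw [ZMod.val_add, ZMod.val_natCast, Nat.mod_eq_of_lt hp]
  rw [Nat.mod_eq_sub_mod h, Nat.mod_eq_of_lt (by omega)]

private lemma gr_val_sub (y : ZMod L) (s e : ℕ) (he : e ≤ L) :
    (y - (s : ZMod L)).val < e - s ↔ s ≤ y.val ∧ y.val < e := by
  have hy := ZMod.val_lt y
  rcases Nat.lt_or_ge s e with hse | hse
  · rcases Nat.lt_or_ge y.val s with hys | hys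
    · have h1 : y - (s : ZMod L) = y + ((L - s : ℕ) : ZMod L) := by
        rw [Nat.cast_sub (by omega)]
        simp
        ring
      rw [h1, gr_val_add _ _ (by omega)]
      omega
    · have h1 : y - (s : ZMod L) = ((y.val - s : ℕ) : ZMod L) := by
        rw [Nat.cast_sub hys, ZMod.natCast_zmod_val]
      rw [h1, ZMod.val_natCast, Nat.mod_eq_of_lt (by omega)]
      omega
  · constructor
    · intro h
      omega
    · rintro ⟨h1, h2⟩
      omega

/-! ### Boxes meeting an arc -/

private lemma gr_card_T (a : ZMod L) (l : ℕ) :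
    (univ.filter fun x : ZMod L => ∃ p : Fin r, (x + ((p : ℕ) : ZMod L) - a).val < l).card ≤
      l + r := by
  have hsub : (univ.filter fun x : ZMod L => ∃ p : Fin r, (x + ((p : ℕ) : ZMod L) - a).val < l) ⊆
      (range (l + r)).image fun t : ℕ => a + (t : ZMod L) - (r : ZMod L) := by
    intro x hx
    obtain ⟨p, hp⟩ := (mem_filter.1 hx).2
    have hpr := p.2
    rw [mem_image]
    refine ⟨(x + ((p : ℕ) : ZMod L) - a).val + (r - p), ?_, ?_⟩
    · rw [mem_range]
      omega
    · push_cast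
      rw [ZMod.natCast_zmod_val, Nat.cast_sub hpr.le]
      ring
  calc _ ≤ _ := card_le_card hsub
    _ ≤ _ := card_image_le
    _ = _ := card_range _

private lemma gr_card_N (a : ZMod L) (l : ℕ) (hl : l ≤ L) :
    (univ.filter fun x : ZMod L => (∃ p : Fin r, (x + ((p : ℕ) : ZMod L) - a).val < l) ∧
      ∃ p : Fin r, ¬ (x + ((p : ℕ) : ZMod L) - a).val < l).card ≤ 2 * r := by
  have hsub : (univ.filter fun x : ZMod L =>
      (∃ p : Fin r, (x + ((p : ℕ) : ZMod L) - a).val < l) ∧
        ∃ p : Fin r, ¬ (x + ((p : ℕ) : ZMod L) - a).val < l) ⊆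
      ((range r).image fun t : ℕ => a + (t : ZMod L) - (r : ZMod L)) ∪
        (range r).image fun t : ℕ => a + (l : ZMod L) - ((t + 1 : ℕ) : ZMod L) := by
    intro x hx
    obtain ⟨⟨p, hp⟩, q, hq⟩ := (mem_filter.1 hx).2
    have hpr := p.2
    have hqr := q.2
    set j := (x + ((p : ℕ) : ZMod L) - a).val with hj
    have hx' : x = a + (j : ZMod L) - ((p : ℕ) : ZMod L) := by
      rw [hj, ZMod.natCast_zmod_val]
      ring
    rw [mem_union, mem_image, mem_image]
    rcases Nat.lt_or_ge j p with hjp | hjp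
    · left
      refine ⟨j + (r - p), ?_, ?_⟩
      · rw [mem_range]
        omega
      · rw [hx']
        push_cast
        rw [Nat.cast_sub hpr.le]
        ring
    · right
      have h1 : x + ((q : ℕ) : ZMod L) - a = ((j - p + q : ℕ) : ZMod L) := by
        rw [hx']
        push_cast
        rw [Nat.cast_sub hjp]
        ring
      rw [h1] at hq
      have h2 : l ≤ j - p + q := by
        by_contra hcon
        push Not at hcon
        apply hq
        rw [ZMod.val_natCast, Nat.mod_eq_of_lt (by omega)]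
        exact hcon
      refine ⟨l - (j - p) - 1, ?_, ?_⟩
      · rw [mem_range]
        omega
      · have h3 : l - (j - p) - 1 + 1 = l - (j - p) := by omega
        rw [h3, hx', Nat.cast_sub (by omega), Nat.cast_sub hjp]
        ring
  calc _ ≤ _ := card_le_card hsub
    _ ≤ _ := card_union_le _ _
    _ ≤ r + r := by
        refine Nat.add_le_add (card_image_le.trans ?_) (card_image_le.trans ?_) <;> simp
    _ = 2 * r := by ring

lemma mem_rect (a : Site L) (l₁ l₂ : ℕ) (v : Site L) :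
    v ∈ rect a l₁ l₂ ↔ (v.1 - a.1).val < l₁ ∧ (v.2 - a.2).val < l₂ := by
  unfold rect
  simp

/-- The number of boxes cut by the boundary of a rectangle. -/
theorem bdry_rect {R : ℕ} (hrR : r ≤ R) (hL : 2 * R + r ≤ L) (C : Finset (Site L))
    (hC : IsRect R C) :
    (univ.filter fun τ : Site L => Tch r C τ ∧ ¬ Ins r C τ).card ≤ 12 * r * R := by
  classical
  obtain ⟨a, l₁, l₂, h1, h2, rfl⟩ := hC
  set T₁ := univ.filter fun x : ZMod L => ∃ p : Fin r, (x + ((p : ℕ) : ZMod L) - a.1).val < l₁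
    with hT₁
  set T₂ := univ.filter fun x : ZMod L => ∃ p : Fin r, (x + ((p : ℕ) : ZMod L) - a.2).val < l₂
    with hT₂
  set N₁ := univ.filter fun x : ZMod L => (∃ p : Fin r, (x + ((p : ℕ) : ZMod L) - a.1).val < l₁) ∧
      ∃ p : Fin r, ¬ (x + ((p : ℕ) : ZMod L) - a.1).val < l₁ with hN₁
  set N₂ := univ.filter fun x : ZMod L => (∃ p : Fin r, (x + ((p : ℕ) : ZMod L) - a.2).val < l₂) ∧
      ∃ p : Fin r, ¬ (x + ((p : ℕ) : ZMod L) - a.2).val < l₂ with hN₂
  have cT₁ : T₁.card ≤ 3 * R := (gr_card_T (r := r) a.1 l₁).trans (by omega)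
  have cT₂ : T₂.card ≤ 3 * R := (gr_card_T (r := r) a.2 l₂).trans (by omega)
  have cN₁ : N₁.card ≤ 2 * r := gr_card_N (r := r) a.1 l₁ (by omega)
  have cN₂ : N₂.card ≤ 2 * r := gr_card_N (r := r) a.2 l₂ (by omega)
  have hsub : (univ.filter fun τ : Site L => Tch r (rect a l₁ l₂) τ ∧ ¬ Ins r (rect a l₁ l₂) τ) ⊆
      (N₁ ×ˢ T₂) ∪ (T₁ ×ˢ N₂) := by
    intro τ hτ
    obtain ⟨⟨p, hp⟩, hq⟩ := (mem_filter.1 hτ).2
    unfold Ins at hq
    push Not at hq
    obtain ⟨q, hq⟩ := hq
    rw [mem_rect] at hp hq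
    unfold boxPos at hp hq
    simp only at hp hq
    rw [mem_union, mem_product, mem_product, hT₁, hT₂, hN₁, hN₂]
    simp only [mem_filter, mem_univ, true_and]
    by_cases h3 : (τ.1 + ((q.1 : ℕ) : ZMod L) - a.1).val < l₁
    · right
      refine ⟨⟨p.1, hp.1⟩, ⟨p.2, hp.2⟩, q.2, ?_⟩
      intro h4
      exact hq ⟨h3, h4⟩
    · left
      exact ⟨⟨⟨p.1, hp.1⟩, q.1, h3⟩, p.2, hp.2⟩
  calc _ ≤ _ := card_le_card hsub
    _ ≤ _ := card_union_le _ _
    _ = N₁.card * T₂.card + T₁.card * N₂.card := by rw [card_product, card_product]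
    _ ≤ (2 * r) * (3 * R) + (3 * R) * (2 * r) :=
        Nat.add_le_add (Nat.mul_le_mul cN₁ cT₂) (Nat.mul_le_mul cT₁ cN₂)
    _ = 12 * r * R := by ring

/-! ### Pieces of an interval -/

/-- The index of the piece containing `i`, for the cut points `o, o + R, …`. -/
private def pc (R o i : ℕ) : ℕ := if i < o then 0 else (i - o) / R + 1

private lemma pc_lt {R o i ρ : ℕ} (hR : 0 < R) (hi : i < 2 * (ρ * R)) : pc R o i < 2 * ρ + 1 := by
  unfold pc
  split_ifs with h
  · omega
  · have : (i - o) / R < 2 * ρ := by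
      rw [Nat.div_lt_iff_lt_mul hR]
      calc i - o ≤ i := Nat.sub_le _ _
        _ < 2 * (ρ * R) := hi
        _ = 2 * ρ * R := by ring
    omega

/-- The piece with index `k` is the interval from `lo` to `hi`. -/
private def plo (R o k : ℕ) : ℕ := if k = 0 then 0 else o + (k - 1) * R

private def phi (R o k : ℕ) : ℕ := if k = 0 then o else o + (k - 1) * R + R

private lemma pc_eq_iff {R o i k : ℕ} (hR : 0 < R) :
    pc R o i = k ↔ plo R o k ≤ i ∧ i < phi R o k := by
  unfold pc plo phi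
  rcases Nat.eq_zero_or_pos k with hk | hk
  · subst hk
    simp only [if_true, zero_le, true_and]
    split_ifs with h
    · simp [h]
    · constructor
      · intro h'
        exact h'.elim
      · intro h'
        exact absurd h' h
  · rw [if_neg hk.ne', if_neg hk.ne']
    obtain ⟨m, rfl⟩ : ∃ m, k = m + 1 := ⟨k - 1, by omega⟩
    simp only [Nat.add_sub_cancel]
    split_ifs with h
    · constructor
      · intro h'
        exact h'.elim
      · rintro ⟨h1, _⟩
        have : o ≤ o + m * R := Nat.le_add_right _ _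
        omega
    · rw [Nat.add_right_cancel_iff, Nat.div_eq_iff hR]
      constructor
      · rintro ⟨h1, h2⟩
        constructor <;> omega
      · rintro ⟨h1, h2⟩
        constructor <;> omega

private lemma phi_sub_plo {R o k : ℕ} (ho : o ≤ R) : phi R o k - plo R o k ≤ R := by
  unfold phi plo
  split_ifs <;> omega

private lemma pc_step {R o i j : ℕ} (hR : 0 < R) (h1 : i ≤ j) (h2 : j ≤ i + R) :
    pc R o j = pc R o i ∨ pc R o j = pc R o i + 1 := by
  unfold pc
  by_cases hi : i < o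
  · rw [if_pos hi]
    by_cases hj : j < o
    · rw [if_pos hj]; left; rfl
    · rw [if_neg hj]
      right
      rw [Nat.div_eq_of_lt (by omega)]
  · rw [if_neg hi, if_neg (by omega)]
    have h3 : (i - o) / R ≤ (j - o) / R := Nat.div_le_div_right (by omega)
    have h4 : (j - o) / R ≤ (i - o) / R + 1 := by
      have : (i - o + R) / R = (i - o) / R + 1 := Nat.add_div_right _ hR
      rw [← this]
      exact Nat.div_le_div_right (by omega)
    omega

private lemma pc_change {R o k : ℕ} (h : pc R o (k + 1) ≠ pc R o k) :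
    o ≤ k + 1 ∧ R ∣ k + 1 - o := by
  unfold pc at h
  by_cases h1 : k + 1 < o
  · rw [if_pos h1, if_pos (by omega)] at h
    exact absurd rfl h
  · refine ⟨by omega, ?_⟩
    by_cases h2 : k < o
    · have : k + 1 - o = 0 := by omega
      rw [this]
      exact dvd_zero _
    · rw [if_neg h1, if_neg h2] at h
      have h3 : k + 1 - o = (k - o) + 1 := by omega
      rw [h3] at h ⊢
      by_contra h4
      apply h
      rw [Nat.succ_div, if_neg h4]

private lemma gr_change (g : ℕ → ℕ) (i : ℕ) : ∀ j, g i ≠ g (i + j) →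
    ∃ k, k < j ∧ g (i + k + 1) ≠ g (i + k) := by
  intro j
  induction j with
  | zero => intro h; exact absurd rfl h
  | succ j ih =>
    intro h
    by_cases h2 : g i = g (i + j)
    · refine ⟨j, by omega, ?_⟩
      intro h3
      apply h
      rw [h2, ← h3]
      rfl
    · obtain ⟨k, hk1, hk2⟩ := ih h2
      exact ⟨k, by omega, hk2⟩

/-- At most `r` offsets cut the interval `x, …, x + r - 1`. -/
private lemma pc_few {R : ℕ} (x : ℕ) :
    ((range R).filter fun o : ℕ => ∃ p p' : Fin r, pc R o (x + p) ≠ pc R o (x + p')).card ≤ r := by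
  classical
  have key : ∀ o : ℕ, (∃ p p' : Fin r, pc R o (x + p) ≠ pc R o (x + p')) →
      ∃ k, k < r ∧ pc R o (x + k + 1) ≠ pc R o (x + k) := by
    rintro o ⟨p, p', hne⟩
    have hp := p.2
    have hp' := p'.2
    by_cases h1 : pc R o x = pc R o (x + p)
    · have h2 : pc R o x ≠ pc R o (x + p') := by
        rw [h1]
        exact hne
      obtain ⟨k, hk1, hk2⟩ := gr_change (pc R o) x p' h2
      exact ⟨k, by omega, hk2⟩
    · obtain ⟨k, hk1, hk2⟩ := gr_change (pc R o) x p h1
      exact ⟨k, by omega, hk2⟩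
  choose! f hf1 hf2 using key
  have h := Finset.card_le_card_of_injOn
    (s := (range R).filter fun o : ℕ => ∃ p p' : Fin r, pc R o (x + p) ≠ pc R o (x + p'))
    (t := range r) f (by
      intro o ho
      have ho' := (mem_filter.1 (mem_coe.1 ho)).2
      simpa using hf1 o ho') (by
      intro o ho o' ho' hoo
      have m1 := mem_filter.1 (mem_coe.1 ho)
      have m2 := mem_filter.1 (mem_coe.1 ho')
      have r1 := mem_range.1 m1.1
      have r2 := mem_range.1 m2.1
      obtain ⟨a1, c1⟩ := pc_change (hf2 o m1.2)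
      obtain ⟨a2, c2⟩ := pc_change (hf2 o' m2.2)
      rw [← hoo] at a2 c2
      by_contra hne
      rcases Nat.lt_or_gt_of_ne hne with hlt | hlt
      · have h3 : R ∣ (x + f o + 1 - o) - (x + f o + 1 - o') := Nat.dvd_sub c1 c2
        have h4 : (x + f o + 1 - o) - (x + f o + 1 - o') = o' - o := by omega
        rw [h4] at h3
        have := Nat.le_of_dvd (by omega) h3
        omega
      · have h3 : R ∣ (x + f o + 1 - o') - (x + f o + 1 - o) := Nat.dvd_sub c2 c1
        have h4 : (x + f o + 1 - o') - (x + f o + 1 - o) = o - o' := by omega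
        rw [h4] at h3
        have := Nat.le_of_dvd (by omega) h3
        omega)
  simpa using h

/-- A short arc meets at most two pieces. -/
private lemma pc_touch {R o l : ℕ} (hR : 0 < R) (hrR : r ≤ R) (hl : l + r ≤ L)
    (y : ZMod L) :
    ((univ.filter fun p : Fin r => (y + ((p : ℕ) : ZMod L)).val < l).image
      fun p : Fin r => pc R o (y + ((p : ℕ) : ZMod L)).val).card ≤ 2 := by
  classical
  obtain ⟨b, hb⟩ : ∃ b : ℕ, ∀ p : Fin r, (y + ((p : ℕ) : ZMod L)).val < l →
      b ≤ (y + ((p : ℕ) : ZMod L)).val ∧ (y + ((p : ℕ) : ZMod L)).val ≤ b + R := by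
    rcases Nat.lt_or_ge y.val l with h | h
    · refine ⟨y.val, fun p _ => ?_⟩
      have := p.2
      rw [gr_val_add _ _ (by omega)]
      omega
    · refine ⟨0, fun p hp => ?_⟩
      have hp2 := p.2
      have hy := ZMod.val_lt y
      rcases Nat.lt_or_ge (y.val + p) L with h3 | h3
      · rw [gr_val_add _ _ h3] at hp
        omega
      · rw [gr_val_add_wrap _ _ (by omega) h3]
        omega
  have hsub : ((univ.filter fun p : Fin r => (y + ((p : ℕ) : ZMod L)).val < l).image
      fun p : Fin r => pc R o (y + ((p : ℕ) : ZMod L)).val) ⊆ {pc R o b, pc R o b + 1} := by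
    intro c hc
    obtain ⟨p, hp, rfl⟩ := mem_image.1 hc
    obtain ⟨h1, h2⟩ := hb p (mem_filter.1 hp).2
    rw [mem_insert, mem_singleton]
    exact pc_step hR h1 h2
  exact (card_le_card hsub).trans card_le_two

/-- YB10: cutting rectangles. -/
theorem geo_rect {R ρ : ℕ} (hr : 0 < r) (hrR : r ≤ R) (hρ : 0 < ρ) (hL : 2 * (ρ * R) + r ≤ L)
    (C : Finset (Site L)) (hC : IsRect (ρ * R) C) :
    Nonempty (Geo r R (2 * ρ + 1) (4 * R ^ 2) (12 * r * R) C (IsRect R)) := by
  classical
  have hR : 0 < R := by omega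
  have hRρ : R ≤ ρ * R := Nat.le_mul_of_pos_left R hρ
  obtain ⟨a, l₁, l₂, h1, h2, rfl⟩ := hC
  have hprop : ∀ o₁ < R, ∀ o₂ < R, ∀ c : ℕ × ℕ, IsRect R ((rect a l₁ l₂).filter fun v =>
      (pc R o₁ (v.1 - a.1).val, pc R o₂ (v.2 - a.2).val) = c) := by
    intro o₁ ho₁ o₂ ho₂ c
    refine ⟨(a.1 + (plo R o₁ c.1 : ℕ), a.2 + (plo R o₂ c.2 : ℕ)),
      min l₁ (phi R o₁ c.1) - plo R o₁ c.1, min l₂ (phi R o₂ c.2) - plo R o₂ c.2, ?_, ?_, ?_⟩
    · have := phi_sub_plo (k := c.1) ho₁.le
      omega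
    · have := phi_sub_plo (k := c.2) ho₂.le
      omega
    · ext v
      rw [mem_filter, mem_rect, mem_rect]
      have e1 : v.1 - (a.1 + ((plo R o₁ c.1 : ℕ) : ZMod L)) =
          (v.1 - a.1) - ((plo R o₁ c.1 : ℕ) : ZMod L) := by ring
      have e2 : v.2 - (a.2 + ((plo R o₂ c.2 : ℕ) : ZMod L)) =
          (v.2 - a.2) - ((plo R o₂ c.2 : ℕ) : ZMod L) := by ring
      simp only
      rw [e1, e2, gr_val_sub _ _ _ (by omega), gr_val_sub _ _ _ (by omega), Prod.ext_iff]
      simp only
      rw [pc_eq_iff hR, pc_eq_iff hR]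
      simp only [lt_min_iff]
      tauto
  refine ⟨{
    part := fun o₁ o₂ v => (pc R o₁ (v.1 - a.1).val, pc R o₂ (v.2 - a.2).val)
    cr₁ := fun o τ => ∃ p p' : Fin r, pc R o (τ.1 + ((p : ℕ) : ZMod L) - a.1).val ≠
      pc R o (τ.1 + ((p' : ℕ) : ZMod L) - a.1).val
    cr₂ := fun o τ => ∃ p p' : Fin r, pc R o (τ.2 + ((p : ℕ) : ZMod L) - a.2).val ≠
      pc R o (τ.2 + ((p' : ℕ) : ZMod L) - a.2).val
    dec₁ := fun o τ => inferInstance
    dec₂ := fun o τ => inferInstance
    bound := ?_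
    cross := ?_
    few₁ := ?_
    few₂ := ?_
    touch := ?_
    area := ?_
    bdry := ?_
    prop := hprop }⟩
  · intro o₁ _ o₂ _ v hv
    rw [mem_rect] at hv
    exact ⟨pc_lt hR (by omega), pc_lt hR (by omega)⟩
  · intro o₁ _ o₂ _ τ _ p p' hne
    simp only [boxPos] at hne
    by_cases h3 : pc R o₁ (τ.1 + ((p.1 : ℕ) : ZMod L) - a.1).val =
      pc R o₁ (τ.1 + ((p'.1 : ℕ) : ZMod L) - a.1).val
    · right
      refine ⟨p.2, p'.2, ?_⟩
      intro h4
      apply hne
      rw [h3, h4]
    · left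
      exact ⟨p.1, p'.1, h3⟩
  · intro τ hτ
    have h0 := hτ (⟨0, hr⟩, ⟨0, hr⟩)
    rw [mem_rect] at h0
    simp only [boxPos, Nat.cast_zero, add_zero] at h0
    have e : ∀ p : Fin r, (τ.1 + ((p : ℕ) : ZMod L) - a.1).val = (τ.1 - a.1).val + p := by
      intro p
      have := p.2
      have e' : τ.1 + ((p : ℕ) : ZMod L) - a.1 = (τ.1 - a.1) + ((p : ℕ) : ZMod L) := by ring
      rw [e', gr_val_add _ _ (by omega)]
    simp only [e]
    exact pc_few _
  · intro τ hτ
    have h0 := hτ (⟨0, hr⟩, ⟨0, hr⟩)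
    rw [mem_rect] at h0
    simp only [boxPos, Nat.cast_zero, add_zero] at h0
    have e : ∀ p : Fin r, (τ.2 + ((p : ℕ) : ZMod L) - a.2).val = (τ.2 - a.2).val + p := by
      intro p
      have := p.2
      have e' : τ.2 + ((p : ℕ) : ZMod L) - a.2 = (τ.2 - a.2) + ((p : ℕ) : ZMod L) := by ring
      rw [e', gr_val_add _ _ (by omega)]
    simp only [e]
    exact pc_few _
  · intro o₁ ho₁ o₂ ho₂ τ
    have c1 := pc_touch (L := L) (r := r) (l := l₁) (o := o₁) hR hrR (by omega) (τ.1 - a.1)
    have c2 := pc_touch (L := L) (r := r) (l := l₂) (o := o₂) hR hrR (by omega) (τ.2 - a.2)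
    refine (card_le_card (t := _ ×ˢ _) ?_).trans ((card_product _ _).le.trans
      (Nat.mul_le_mul c1 c2))
    intro c hc
    obtain ⟨p, hp, rfl⟩ := mem_image.1 hc
    have hp' := (mem_filter.1 hp).2
    rw [mem_rect] at hp'
    simp only [boxPos] at hp'
    have e1 : τ.1 + ((p.1 : ℕ) : ZMod L) - a.1 = (τ.1 - a.1) + ((p.1 : ℕ) : ZMod L) := by ring
    have e2 : τ.2 + ((p.2 : ℕ) : ZMod L) - a.2 = (τ.2 - a.2) + ((p.2 : ℕ) : ZMod L) := by ring
    rw [e1, e2] at hp'
    rw [mem_product, mem_image, mem_image]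
    refine ⟨⟨p.1, mem_filter.2 ⟨mem_univ _, hp'.1⟩, ?_⟩, ⟨p.2, mem_filter.2 ⟨mem_univ _, hp'.2⟩, ?_⟩⟩
    · simp only [boxPos]
      rw [e1]
    · simp only [boxPos]
      rw [e2]
  · intro o₁ ho₁ o₂ ho₂ c
    obtain ⟨b, m₁, m₂, hm1, hm2, he⟩ := hprop o₁ ho₁ o₂ ho₂ c
    rw [he]
    have hcard : ∀ (b : ZMod L) (m : ℕ), (univ.filter fun x : ZMod L => (x - b).val < m).card ≤
        m := by
      intro b m
      have := Finset.card_le_card_of_injOn
        (s := univ.filter fun x : ZMod L => (x - b).val < m) (t := range m)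
        (fun x => (x - b).val) (by
          intro x hx
          have := (mem_filter.1 (mem_coe.1 hx)).2
          simpa using this) (by
          intro x _ y _ hxy
          have : x - b = y - b := ZMod.val_injective L hxy
          simpa using this)
      simpa using this
    have hsub : rect b m₁ m₂ ⊆ (univ.filter fun x : ZMod L => (x - b.1).val < m₁) ×ˢ
        (univ.filter fun x : ZMod L => (x - b.2).val < m₂) := by
      intro v hv
      rw [mem_rect] at hv
      rw [mem_product, mem_filter, mem_filter]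
      exact ⟨⟨mem_univ _, hv.1⟩, mem_univ _, hv.2⟩
    calc (rect b m₁ m₂).card ≤ _ := card_le_card hsub
      _ = _ := card_product _ _
      _ ≤ (2 * R) * (2 * R) :=
        Nat.mul_le_mul ((hcard _ _).trans hm1) ((hcard _ _).trans hm2)
      _ = 4 * R ^ 2 := by ring
  · intro o₁ ho₁ o₂ ho₂ c
    exact bdry_rect hrR (by omega) _ (hprop o₁ ho₁ o₂ ho₂ c)

end Pool.Agent.PepsY
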