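import Pool.Agent.PepsY.Views
import Pool.Agent.PepsY.Labels

/-!
# Part B: one level of the recursion
-/

open Finset

set_option autoImplicit false
set_option linter.unusedSectionVars false
set_option linter.unusedVariables false

namespace Pool.Agent.PepsY

open Pool.Agent.PEPS953 Pool.Agent.PepsX

variable {d r n L : ℕ} [NeZero L]

private lemma labs_pos (d₀ : Fin d) (lam Lam : ℕ) : 0 < labs d r n L lam Lam := by
  have hd : 0 < d := lt_of_le_of_lt (Nat.zero_le _) d₀.isLt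
  unfold labs
  exact Nat.mul_pos (Nat.pow_pos hd) (Nat.pow_pos (by omega))

private lemma ext_sub_vis (X : Blk L) (hX : X.s ≤ X.e) : X.ext r n ⊆ X.vis r n := by
  intro a ha
  unfold Blk.ext at ha
  unfold Blk.vis
  rw [mem_disjSum] at ha ⊢
  rcases ha with ⟨b, hb, rfl⟩ | ⟨b, hb, rfl⟩
  · left
    refine ⟨b, ?_, rfl⟩
    simp only [mem_filter, mem_univ, true_and] at hb ⊢
    refine ⟨hb.1, ?_⟩
    omega
  · right
    refine ⟨b, ?_, rfl⟩
    simp only [mem_filter, mem_univ, true_and] at hb ⊢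
    exact ⟨hb.1, hb.2.2⟩

private lemma lets_congr (Z : Finset (Vr n L)) (x x' : Asn d r n L) (h : ∀ a ∈ Z, x a = x' a) :
    lets Z x = lets Z x' := by
  unfold lets
  congr 1
  refine filter_congr fun a _ => ?_
  refine and_congr_right fun ha => ?_
  unfold Asn.o
  rw [h _ ha]

private lemma mem_vld_iff (d₀ : Fin d) (Lam : ℕ) (Z : Finset (Vr n L)) (x : Asn d r n L) :
    x ∈ vld d₀ Lam Z ↔ (∀ a, a ∉ Z → x a = dft d₀ a) ∧ lets Z x ≤ Lam := by
  classical
  unfold vld
  rw [mem_filter]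
  simp only [mem_univ, true_and]

private lemma dc_mem (d₀ : Fin d) (Lam : ℕ) (Z : Finset (Vr n L)) (k : ℕ)
    (hk : k < (vld (r := r) d₀ Lam Z).card) : (dc d₀ Lam Z k : Asn d r n L) ∈ vld d₀ Lam Z := by
  unfold dc
  rw [dif_pos hk]
  exact Subtype.prop _

private lemma exists_code (d₀ : Fin d) (Lam : ℕ) (Z : Finset (Vr n L)) (x : Asn d r n L)
    (hx : x ∈ vld d₀ Lam Z) :
    ∃ k, k < (vld (r := r) d₀ Lam Z).card ∧ (dc d₀ Lam Z k : Asn d r n L) = x := by
  refine ⟨((vld (r := r) d₀ Lam Z).equivFin ⟨x, hx⟩ : ℕ), Fin.isLt _, ?_⟩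
  unfold dc
  rw [dif_pos (Fin.isLt _)]
  simp only [Fin.eta, Equiv.symm_apply_apply]

private lemma dc_inj (d₀ : Fin d) (Lam : ℕ) (Z : Finset (Vr n L)) (k k' : ℕ)
    (hk : k < (vld (r := r) d₀ Lam Z).card) (hk' : k' < (vld (r := r) d₀ Lam Z).card)
    (h : (dc d₀ Lam Z k : Asn d r n L) = dc d₀ Lam Z k') : k = k' := by
  unfold dc at h
  rw [dif_pos hk, dif_pos hk'] at h
  have h2 := (vld (r := r) d₀ Lam Z).equivFin.symm.injective (Subtype.ext h)
  exact Fin.mk.inj_iff.1 h2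

private lemma glue_eq (d₀ : Fin d) {b : ℕ} (Z : Fin b → Finset (Vr n L))
    (W : Fin b → Asn d r n L) (hW : ∀ i i' a, a ∈ Z i → a ∈ Z i' → W i a = W i' a)
    (i : Fin b) (a : Vr n L) (ha : a ∈ Z i) : glue d₀ Z W a = W i a := by
  unfold glue
  have hex : ∃ i, a ∈ Z i := ⟨i, ha⟩
  rw [dif_pos hex]
  exact hW _ _ _ hex.choose_spec ha

private lemma prod_ind {ι : Type*} [Fintype ι] (P : ι → Prop) [∀ i, Decidable (P i)]
    [Decidable (∀ i, P i)] :
    (∏ i, if P i then (1 : ℂ) else 0) = if ∀ i, P i then 1 else 0 := by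
  by_cases h : ∀ i, P i
  · rw [if_pos h]
    exact prod_eq_one fun i _ => if_pos (h i)
  · rw [if_neg h]
    push Not at h
    obtain ⟨i, hi⟩ := h
    exact prod_eq_zero (mem_univ i) (if_neg hi)

private lemma prod_ind2 {ι κ : Type*} [Fintype ι] [Fintype κ] (P : ι → κ → Prop)
    [∀ i j, Decidable (P i j)] [Decidable (∀ i j, P i j)] :
    (∏ i, ∏ j, if P i j then (1 : ℂ) else 0) = if ∀ i j, P i j then 1 else 0 := by
  by_cases h : ∀ i j, P i j
  · rw [if_pos h]
    exact prod_eq_one fun i _ => prod_eq_one fun j _ => if_pos (h i j)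
  · rw [if_neg h]
    push Not at h
    obtain ⟨i, j, hi⟩ := h
    exact prod_eq_zero (mem_univ i) (prod_eq_zero (mem_univ j) (if_neg hi))

open scoped Classical in
private lemma level_one {V' m b b' q lam Lam : ℕ} {PP' : Blk L → Prop}
    {𝓖' : Set ((Fin b' → Fin q) → ℂ)} (hr : 0 < r) (hPP' : ∀ X, PP' X → X.s ≤ X.e) (d₀ : Fin d)
    (hm : 0 < m) (hb' : 0 < b') (hq : labs d r n L lam Lam ≤ q)
    (h' : LevelOK n r d₀ PP' V' b' q lam Lam 𝓖') (X : Blk L) (hX : X.s ≤ X.e)
    (Z₀ : Fin b → Finset (Vr n L)) (hZ₀ : Cover r lam X Z₀)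
    (D : Dcp d r n X PP' m b' lam Lam) :
    ∃ (C : Trk m b' ⊕ Fin b → Trk m b' ⊕ Fin b → Fin q → Fin q → ℂ)
      (f' : Fin m → Fin m → (Fin b' → Fin q) → ℂ), (∀ p p', f' p p' ∈ 𝓖' ∪ {fun _ => 1}) ∧
      ∀ ℓ : Fin b → Fin q, (∀ i, (ℓ i : ℕ) < (vld (r := r) d₀ Lam (Z₀ i)).card) →
        (∀ i i' a, a ∈ Z₀ i → a ∈ Z₀ i' →
          (dc d₀ Lam (Z₀ i) (ℓ i) : Asn d r n L) a = (dc d₀ Lam (Z₀ i') (ℓ i') : Asn d r n L) a) →
        ∑ x ∈ cmp d₀ (X.vis r n) (X.ext r n) (glue d₀ Z₀ fun i => dc d₀ Lam (Z₀ i) (ℓ i)),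
          D.val V' x = ∑ w : Trk m b' → Fin q,
            (∏ a, ∏ a', C a a' (Sum.elim w ℓ a) (Sum.elim w ℓ a')) *
              ∏ p, ∏ p', f' p p' fun i => w (p, p', i) := by
  obtain ⟨ι⟩ : Nonempty (D.U ↪ Fin m × Fin m) := by
    refine Function.Embedding.nonempty_of_card_le ?_
    rw [Fintype.card_prod, Fintype.card_fin, ← pow_two]
    exact D.card_le
  choose fU hfU hag using fun u =>
    h' (D.X' u) (D.prop u) D.w' (D.Z u) ⟨D.hcov u, D.hsub u, D.hpth u⟩
  have hex : ∀ p p' : Fin m, ∃ f0 : (Fin b' → Fin q) → ℂ, f0 ∈ 𝓖' ∪ {fun _ => 1} ∧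
      (∀ u, ι u = (p, p') → f0 = fU u) ∧ ((∀ u, ι u ≠ (p, p')) → f0 = fun _ => 1) := by
    intro p p'
    by_cases h : ∃ u, ι u = (p, p')
    · obtain ⟨u, hu⟩ := h
      refine ⟨fU u, Or.inl (hfU u), fun u' hu' => ?_, fun hno => absurd hu (hno u)⟩
      have : u' = u := ι.injective (hu'.trans hu.symm)
      rw [this]
    · push Not at h
      exact ⟨fun _ => 1, Or.inr rfl, fun u hu => absurd hu (h u), fun _ => rfl⟩
  choose f' hf'1 hf'2 hf'3 using hex
  have hq0 : 0 < q := lt_of_lt_of_le (labs_pos d₀ lam Lam) hq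
  set t₀ : Trk m b' := (⟨0, hm⟩, ⟨0, hm⟩, ⟨0, hb'⟩) with ht₀
  -- the conditions
  set Vd : Trk m b' → Fin q → Prop := fun t c =>
    (∀ u, ι u = (t.1, t.2.1) → (c : ℕ) < (vld (r := r) d₀ Lam (D.Z u t.2.2)).card) ∧
    ((∀ u, ι u ≠ (t.1, t.2.1)) → (c : ℕ) = 0) with hVd
  set Cs : Trk m b' → Trk m b' → Fin q → Fin q → Prop := fun t t' c c' =>
    ∀ u u', ι u = (t.1, t.2.1) → ι u' = (t'.1, t'.2.1) → ∀ a, a ∈ D.Z u t.2.2 →
      a ∈ D.Z u' t'.2.2 → (dc d₀ Lam (D.Z u t.2.2) c : Asn d r n L) a =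
        (dc d₀ Lam (D.Z u' t'.2.2) c' : Asn d r n L) a with hCs
  set Cn : Trk m b' → Fin b → Fin q → Fin q → Prop := fun t j c c' =>
    ∀ u, ι u = (t.1, t.2.1) → ∀ a, a ∈ D.Z u t.2.2 → a ∈ Z₀ j →
      (dc d₀ Lam (D.Z u t.2.2) c : Asn d r n L) a = (dc d₀ Lam (Z₀ j) c' : Asn d r n L) a with hCn
  set dg : Trk m b' → Fin q → ℂ := fun t c => (if t = t₀ then D.a else 1) *
    ((if Vd t c then 1 else 0) * ∏ u, if ι u = (t.1, t.2.1) then
      D.J u t.2.2 (dc d₀ Lam (D.Z u t.2.2) c) else 1) with hdg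
  refine ⟨fun a a' c c' => match a, a' with
    | .inl t, .inl t' => (if t = t' then dg t c else 1) * (if Cs t t' c c' then 1 else 0)
    | .inl t, .inr j => if Cn t j c c' then 1 else 0
    | .inr _, _ => 1, f', hf'1, fun ℓ hℓ hcons => ?_⟩
  set y : Asn d r n L := glue d₀ Z₀ fun i => dc d₀ Lam (Z₀ i) (ℓ i) with hy
  -- the decoded labels
  set dec : (Trk m b' → Fin q) → D.U → Fin b' → Asn d r n L := fun w u i =>
    dc d₀ Lam (D.Z u i) (w ((ι u).1, (ι u).2, i)) with hdec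
  have hprodC : ∀ w : Trk m b' → Fin q,
      (∏ a : Trk m b' ⊕ Fin b, ∏ a' : Trk m b' ⊕ Fin b,
        (match a, a' with
        | .inl t, .inl t' => (if t = t' then dg t (Sum.elim w ℓ a) else 1) *
          (if Cs t t' (Sum.elim w ℓ a) (Sum.elim w ℓ a') then 1 else 0)
        | .inl t, .inr j => if Cn t j (Sum.elim w ℓ a) (Sum.elim w ℓ a') then 1 else 0
        | .inr _, _ => (1 : ℂ))) =
      (∏ t, dg t (w t)) * ((if ∀ t t', Cs t t' (w t) (w t') then 1 else 0) *
        (if ∀ t j, Cn t j (w t) (ℓ j) then 1 else 0)) := by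
    intro w
    rw [Fintype.prod_sum_type]
    simp only [Fintype.prod_sum_type, Sum.elim_inl, Sum.elim_inr, prod_const_one, mul_one]
    rw [prod_mul_distrib]
    simp only [prod_mul_distrib]
    rw [mul_assoc]
    congr 1
    · refine prod_congr rfl fun t _ => ?_
      rw [prod_ite_eq, if_pos (mem_univ _)]
    · congr 1
      · exact prod_ind2 _
      · exact prod_ind2 _
  have hprodJ : ∀ w : Trk m b' → Fin q, (∏ t, dg t (w t)) = D.a *
      ((if ∀ t, Vd t (w t) then 1 else 0) * ∏ u, ∏ i, D.J u i (dec w u i)) := by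
    intro w
    simp only [hdg, prod_mul_distrib, prod_ite_eq', if_pos (mem_univ t₀)]
    congr 2
    · exact prod_ind _
    rw [prod_comm]
    refine prod_congr rfl fun u _ => ?_
    rw [Fintype.prod_prod_type]
    simp only [Fintype.prod_prod_type]
    rw [prod_eq_single (ι u).1]
    · rw [prod_eq_single (ι u).2]
      · refine prod_congr rfl fun i _ => ?_
        rw [if_pos rfl]
      · intro p' _ hp'
        refine prod_eq_one fun i _ => if_neg fun hh => hp' ?_
        exact (congrArg Prod.snd hh).symm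
      · intro hno
        exact absurd (mem_univ _) hno
    · intro p _ hp
      refine prod_eq_one fun p' _ => prod_eq_one fun i _ => if_neg fun hh => hp ?_
      exact (congrArg Prod.fst hh).symm
    · intro hno
      exact absurd (mem_univ _) hno
  have hprodf : ∀ w : Trk m b' → Fin q, (∏ p, ∏ p', f' p p' fun i => w (p, p', i)) =
      ∏ u, fU u fun i => w ((ι u).1, (ι u).2, i) := by
    intro w
    rw [← Fintype.prod_prod_type' fun p p' => f' p p' fun i => w (p, p', i)]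
    symm
    refine Fintype.prod_of_injective ι ι.injective _ _ ?_ ?_
    · intro pp hpp
      rw [hf'3 pp.1 pp.2 fun u hu => hpp ⟨u, hu⟩]
    · intro u
      rw [hf'2 (ι u).1 (ι u).2 u rfl]
  -- the left side
  have hleft : (∑ x ∈ cmp d₀ (X.vis r n) (X.ext r n) y, D.val V' x) =
      D.a * ∑ x ∈ cmp d₀ (X.vis r n) (X.ext r n) y,
        ∏ u, (TWt D.w' V' (D.X' u) x * ∏ i, D.J u i x) := by
    rw [mul_sum]
    rfl
  rw [hleft, views_sum d₀ (X.vis r n) (X.ext r n) (fun u => (D.X' u).vis r n)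
    (fun u => (D.X' u).ext r n) (ext_sub_vis X hX)
    (fun u => ext_sub_vis (D.X' u) (hPP' _ (D.prop u))) D.hvis D.hext D.hdis D.Z D.hcov D.hsub
    (fun u => TWt D.w' V' (D.X' u)) (fun u x x' hx => TWt_congr hr _ _ _ _ _ hx) D.J D.hJ
    (fun u i => vld d₀ Lam (D.Z u i)) (fun u i w hw => ((mem_vld_iff _ _ _ _).1 hw).1) ?_ y]
  · have hright : ∀ w : Trk m b' → Fin q,
        (∏ a : Trk m b' ⊕ Fin b, ∏ a' : Trk m b' ⊕ Fin b,
        (match a, a' with
        | .inl t, .inl t' => (if t = t' then dg t (Sum.elim w ℓ a) else 1) *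
          (if Cs t t' (Sum.elim w ℓ a) (Sum.elim w ℓ a') then 1 else 0)
        | .inl t, .inr j => if Cn t j (Sum.elim w ℓ a) (Sum.elim w ℓ a') then 1 else 0
        | .inr _, _ => (1 : ℂ))) * (∏ p, ∏ p', f' p p' fun i => w (p, p', i)) =
        D.a * (if ∀ t, Vd t (w t) then (if (∀ t t', Cs t t' (w t) (w t')) ∧
          (∀ t j, Cn t j (w t) (ℓ j)) then (∏ u, ∏ i, D.J u i (dec w u i)) *
            ∏ u, fU u (fun i => w ((ι u).1, (ι u).2, i)) else 0) else 0) := by
      intro w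
      rw [hprodC, hprodJ, hprodf]
      by_cases c1 : ∀ t, Vd t (w t)
      · by_cases c2 : ∀ t t', Cs t t' (w t) (w t')
        · by_cases c3 : ∀ t j, Cn t j (w t) (ℓ j)
          · rw [if_pos c1, if_pos c2, if_pos c3, if_pos c1, if_pos ⟨c2, c3⟩]
            ring
          · rw [if_neg c3, if_pos c1, if_neg (fun hh : (∀ t t', Cs t t' (w t) (w t')) ∧
              (∀ t j, Cn t j (w t) (ℓ j)) => c3 hh.2), if_pos c1]
            ring
        · rw [if_neg c2, if_pos c1, if_neg (fun hh : (∀ t t', Cs t t' (w t) (w t')) ∧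
            (∀ t j, Cn t j (w t) (ℓ j)) => c2 hh.1), if_pos c1]
          ring
      · rw [if_neg c1, if_neg c1]
        ring
    rw [sum_congr rfl fun w _ => hright w, ← mul_sum]
    congr 1
    rw [← sum_filter (fun w : Trk m b' → Fin q => ∀ t, Vd t (w t))]
    symm
    refine sum_bij (fun w _ => dec w) ?_ ?_ ?_ ?_
    · intro w hw
      simp only [mem_filter, mem_univ, true_and] at hw
      rw [Fintype.mem_piFinset]
      intro u
      rw [Fintype.mem_piFinset]
      intro i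
      exact dc_mem _ _ _ _ ((hw ((ι u).1, (ι u).2, i)).1 u rfl)
    · intro w hw w2 hw2 heq
      simp only [mem_filter, mem_univ, true_and] at hw hw2
      funext t
      by_cases hu : ∃ u, ι u = (t.1, t.2.1)
      · obtain ⟨u, hu⟩ := hu
        have e1 : t = ((ι u).1, (ι u).2, t.2.2) := by rw [hu]
        have h3 := congrFun (congrFun heq u) t.2.2
        simp only [hdec] at h3
        rw [← e1] at h3
        exact Fin.ext (dc_inj _ _ _ _ _ ((hw t).1 u hu) ((hw2 t).1 u hu) h3)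
      · push Not at hu
        exact Fin.ext (((hw t).2 hu).trans ((hw2 t).2 hu).symm)
    · intro W hW
      rw [Fintype.mem_piFinset] at hW
      have hW2 : ∀ u i, ∃ k : Fin q, (k : ℕ) < (vld (r := r) d₀ Lam (D.Z u i)).card ∧
          (dc d₀ Lam (D.Z u i) k : Asn d r n L) = W u i := by
        intro u i
        have h3 := hW u
        rw [Fintype.mem_piFinset] at h3
        obtain ⟨k, hk, hk2⟩ := exists_code d₀ Lam (D.Z u i) (W u i) (h3 i)
        exact ⟨⟨k, lt_of_lt_of_le hk ((card_vld_le d₀ lam Lam _ (D.hpth u i)).trans hq)⟩, hk, hk2⟩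
      choose κ hκ1 hκ2 using hW2
      have hw : ∀ t : Trk m b', ∃ k : Fin q, (∀ u, ι u = (t.1, t.2.1) → k = κ u t.2.2) ∧
          ((∀ u, ι u ≠ (t.1, t.2.1)) → (k : ℕ) = 0) := by
        intro t
        by_cases hu : ∃ u, ι u = (t.1, t.2.1)
        · obtain ⟨u, hu⟩ := hu
          refine ⟨κ u t.2.2, fun u' hu' => ?_, fun hno => absurd hu (hno u)⟩
          have : u' = u := ι.injective (hu'.trans hu.symm)
          rw [this]
        · push Not at hu
          exact ⟨⟨0, hq0⟩, fun u hu' => absurd hu' (hu u), fun _ => rfl⟩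
      choose w hw1 hw2 using hw
      refine ⟨w, ?_, ?_⟩
      · simp only [mem_filter, mem_univ, true_and]
        intro t
        refine ⟨fun u hu => ?_, hw2 t⟩
        rw [hw1 t u hu]
        exact hκ1 _ _
      · funext u i
        simp only [hdec]
        rw [hw1 ((ι u).1, (ι u).2, i) u rfl]
        exact hκ2 u i
    · intro w hw
      simp only [mem_filter, mem_univ, true_and] at hw
      have hiff : ((∀ t t', Cs t t' (w t) (w t')) ∧ (∀ t j, Cn t j (w t) (ℓ j))) ↔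
          ((∀ u i u' i' a, a ∈ D.Z u i → a ∈ D.Z u' i' → dec w u i a = dec w u' i' a) ∧
            (∀ u i a, a ∈ D.Z u i → a ∈ X.ext r n → dec w u i a = y a)) := by
        constructor
        · rintro ⟨g1, g2⟩
          refine ⟨fun u i u' i' a ha ha' => ?_, fun u i a ha hae => ?_⟩
          · exact g1 ((ι u).1, (ι u).2, i) ((ι u').1, (ι u').2, i') u u' rfl rfl a ha ha'
          · obtain ⟨j, hj⟩ := hZ₀.1 a hae
            rw [hy, glue_eq d₀ Z₀ _ hcons j a hj]
            exact g2 ((ι u).1, (ι u).2, i) j u rfl a ha hj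
        · rintro ⟨g1, g2⟩
          refine ⟨fun t t' u u' hu hu' a ha ha' => ?_, fun t j u hu a ha haj => ?_⟩
          · have h3 := g1 u t.2.2 u' t'.2.2 a ha ha'
            simp only [hdec] at h3
            rw [hu, hu'] at h3
            exact h3
          · have h3 := g2 u t.2.2 a ha (hZ₀.2.1 j haj)
            rw [hy, glue_eq d₀ Z₀ _ hcons j a haj] at h3
            simp only [hdec] at h3
            rw [hu] at h3
            exact h3
      by_cases hc : (∀ t t', Cs t t' (w t) (w t')) ∧ (∀ t j, Cn t j (w t) (ℓ j))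
      · rw [if_pos hc, if_pos (hiff.1 hc)]
        congr 1
        refine prod_congr rfl fun u _ => ?_
        refine hag u (fun i => w ((ι u).1, (ι u).2, i)) ?_ ?_
        · intro i
          exact (hw ((ι u).1, (ι u).2, i)).1 u rfl
        · intro i i' a ha ha'
          exact (hiff.1 hc).1 u i u i' a ha ha'
      · rw [if_neg hc, if_neg fun hh => hc (hiff.2 hh)]
  · intro u i x hJ
    rw [mem_vld_iff]
    refine ⟨fun a ha => ?_, ?_⟩
    · unfold mask
      rw [if_neg ha]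
    · rw [lets_congr (D.Z u i) (mask d₀ (D.Z u i) x) x]
      · exact D.hJ0 u i x hJ
      · intro a ha
        unfold mask
        rw [if_pos ha]

/-- YB7: one level of the recursion. -/
theorem level_step {V V' m b b' q lam Lam N : ℕ} {PP PP' : Blk L → Prop}
    {𝓖' : Set ((Fin b' → Fin q) → ℂ)} (hr : 0 < r) (hPP : ∀ X, PP X → X.s ≤ X.e)
    (hPP' : ∀ X, PP' X → X.s ≤ X.e) (d₀ : Fin d) (hm : 0 < m) (hb' : 0 < b')
    (hq : labs d r n L lam Lam ≤ q) (h' : LevelOK n r d₀ PP' V' b' q lam Lam 𝓖')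
    (hD : ∀ X, PP X → ∀ w : Fin n → Site L → Opn d r → ℂ,
      ∃ D : Fin N → Dcp d r n X PP' m b' lam Lam,
        ∀ x, lets (X.ext r n) x ≤ b * Lam → TWt w V X x = ∑ k, (D k).val V' x) :
    LevelOK n r d₀ PP V b q lam Lam (compClass m b b' q N (𝓖' ∪ {fun _ => 1})) := by
  classical
  intro X hX w Z hZ
  obtain ⟨D, hDD⟩ := hD X hX w
  choose C f' hf' hC using fun k =>
    level_one hr hPP' d₀ hm hb' hq h' X (hPP X hX) Z hZ (D k)
  refine ⟨fun ℓ => ∑ k, ∑ w : Trk m b' → Fin q,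
      (∏ a, ∏ a', C k a a' (Sum.elim w ℓ a) (Sum.elim w ℓ a')) *
        ∏ p, ∏ p', f' k p p' fun i => w (p, p', i), ⟨C, f', hf', fun ℓ => rfl⟩, ?_⟩
  intro ℓ hℓ hcons
  change (∑ k, ∑ w : Trk m b' → Fin q,
      (∏ a, ∏ a', C k a a' (Sum.elim w ℓ a) (Sum.elim w ℓ a')) *
        ∏ p, ∏ p', f' k p p' fun i => w (p, p', i)) = _
  rw [sum_congr rfl fun k _ => (hC k ℓ hℓ hcons).symm, sum_comm]
  unfold Amp
  refine sum_congr rfl fun x hx => ?_
  rw [hDD x ?_]
  -- the number of external insertions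
  set y : Asn d r n L := glue d₀ Z fun i => dc d₀ Lam (Z i) (ℓ i) with hy
  have hxy : ∀ a ∈ X.ext r n, x a = y a := by
    intro a ha
    have h1 := (Fintype.mem_piFinset.1 hx) a
    rw [if_pos ha, mem_singleton] at h1
    exact h1
  have hsub : (univ.filter fun a : Fin n × Site L =>
      (Sum.inr a : Vr n L) ∈ X.ext r n ∧ x.o a.1 a.2 ≠ none) ⊆
      univ.biUnion fun i : Fin b => univ.filter fun a : Fin n × Site L =>
        (Sum.inr a : Vr n L) ∈ Z i ∧
          (dc d₀ Lam (Z i) (ℓ i) : Asn d r n L).o a.1 a.2 ≠ none := by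
    intro a ha
    simp only [mem_filter, mem_univ, true_and, mem_biUnion] at ha ⊢
    obtain ⟨i, hi⟩ := hZ.1 _ ha.1
    refine ⟨i, hi, ?_⟩
    have h1 := hxy _ ha.1
    rw [hy, glue_eq d₀ Z _ hcons i _ hi] at h1
    have h2 := ha.2
    unfold Asn.o at h2 ⊢
    intro h3
    apply h2
    exact h1.trans h3
  unfold lets
  refine (card_le_card hsub).trans (card_biUnion_le.trans ?_)
  refine (sum_le_card_nsmul _ _ Lam fun i _ => ?_).trans ?_
  · exact ((mem_vld_iff _ _ _ _).1 (dc_mem d₀ Lam (Z i) (ℓ i) (hℓ i))).2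
  · rw [card_univ, Fintype.card_fin, smul_eq_mul]

end Pool.Agent.PepsY
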