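import Pool.Agent.PepsY.Params
import Pool.Agent.PepsY.Leaf
import Pool.Agent.PepsY.Comp
import Pool.Agent.PepsY.GeoRect
import Pool.Agent.PepsY.Level
import Pool.Agent.PepsY.Dcps

/-!
# The recursion
-/

open Finset

set_option autoImplicit false
set_option linter.unusedSectionVars false

namespace Pool.Agent.PepsY

open Pool.Agent.PEPS953 Pool.Agent.PepsX

variable {d r n L : ℕ} [NeZero L]

theorem levels (hr : 0 < r) (d₀ : Fin d) {ρ lam R q K Tm : ℕ} (hρ : 24 * r + 310 ≤ ρ)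
    (hR : 24 * r + 8 ≤ R) (hlam : 0 < lam) (hlamL : 12 * r * L ≤ lam) (hlam2 : lam ≤ (ρ * R) ^ 2)
    (hq : labs d r n L lam (2 * lam) ≤ q) (hq0 : 0 < q)
    (hK : 2 * (ρ ^ K * R) + r ≤ L)
    (hT : ∀ i < K, profs n L (ρ ^ i * R) (2 * ρ + 1) (ρ ^ 2) (ρ ^ i * R)
      ((ρ ^ i * R) ^ 2 / lam + 1) * q ^ 5 ≤ Tm) :
    ∀ i ≤ K, ∃ (B : ℕ) (𝓖 : Set ((Fin (bb lam (ρ ^ i * R)) → Fin q) → ℂ)),
      Placeable L (ρ ^ (2 * i) * (ρ ^ 2 * (bb lam R + 3))) (bb lam (ρ ^ i * R)) q B 𝓖 ∧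
      LevelOK (L := L) n r d₀ (LBlk n (ρ ^ i * R)) ((ρ ^ i * R) ^ 3) (bb lam (ρ ^ i * R)) q lam (2 * lam) 𝓖 ∧
      B ≤ Tm ^ i * q ^ bb lam R := by
  have hρ0 : 0 < ρ := by omega
  have hR0 : 0 < R := by omega
  intro i
  induction i with
  | zero =>
    intro _
    refine ⟨q ^ bb lam (ρ ^ 0 * R), Set.univ, ?_, ?_, ?_⟩
    · refine place_leaf hq0 (by positivity) ?_
      have := bb_pow_le (lam := lam) (ρ := ρ) (R := R) hlam hρ0 0
      calc bb lam (ρ ^ 0 * R) ≤ ρ ^ (2 * 0) * (bb lam R + 3) := this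
        _ ≤ ρ ^ (2 * 0) * (ρ ^ 2 * (bb lam R + 3)) := by
            refine Nat.mul_le_mul_left _ (Nat.le_mul_of_pos_left _ (by positivity))
    · intro X _ w Z _
      classical
      refine ⟨fun ℓ => Amp d₀ w _ X (glue d₀ Z fun i => dc d₀ (2 * lam) (Z i) (ℓ i)),
        Set.mem_univ _, fun ℓ _ _ => rfl⟩
    · simp
  | succ i ih =>
    intro hi
    obtain ⟨B, 𝓖, h1, h2, h3⟩ := ih (by omega)
    set R' := ρ ^ i * R with hR'
    have hRR' : R ≤ R' := Nat.le_mul_of_pos_left _ (by positivity)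
    have e1 : ρ ^ (i + 1) * R = ρ * R' := by rw [hR']; ring
    have hR'L : ρ * R' ≤ ρ ^ K * R := by
      rw [← e1]
      exact Nat.mul_le_mul_right _ (Nat.pow_le_pow_right hρ0 (by omega))
    have hb0 : 0 < bb lam R' := Nat.add_pos_left (Nat.succ_pos _) _
    set G := profs n L R' (2 * ρ + 1) (ρ ^ 2) R' (R' ^ 2 / lam + 1) with hG
    have hG0 : 0 < G := by
      have : 0 < R' := by omega
      rw [hG]; unfold profs profs₁ profs₂
      positivity
    have hplace := place_comp (m := ρ ^ 2) (S := ρ ^ (2 * (i + 1)) * (ρ ^ 2 * (bb lam R + 3)))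
      (b := bb lam (ρ ^ (i + 1) * R)) (G := G) hq0 hG0 (by positivity) (by positivity)
      (place_const (by positivity) h1) ?_ ?_ ?_
    · refine ⟨_, _, hplace, ?_, ?_⟩
      · refine level_step hr (fun X hX => hX.1.le) (fun X hX => hX.1.le) d₀ (by positivity) hb0 hq h2 ?_
        rintro X ⟨hX1, hX2, hX3⟩ w
        rw [e1] at hX3 ⊢
        obtain ⟨Geo⟩ := geo_rect (L := L) (R := R') (ρ := ρ) hr (by omega) hρ0 (by omega) X.C hX3
        have hR'L' : R' ≤ L := by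
          have : R' ≤ ρ * R' := Nat.le_mul_of_pos_left _ hρ0
          omega
        exact exists_dcps hr (prm_step (r := r) (ρ := ρ) (R := R') (lam := lam) hρ
          (by omega) hlam ((Nat.mul_le_mul_left _ hR'L').trans hlamL)
          (hlam2.trans (Nat.pow_le_pow_left (Nat.mul_le_mul_left _ hRR') 2))) X ⟨hX1, hX2⟩ Geo d₀ w
      · calc G * q ^ 5 * B ≤ Tm * (Tm ^ i * q ^ bb lam R) := by
              exact Nat.mul_le_mul (hT i (by omega)) h3
          _ = Tm ^ (i + 1) * q ^ bb lam R := by ring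
    · rw [show ρ ^ (2 * (i + 1)) = ρ ^ 2 * ρ ^ (2 * i) by ring, mul_assoc]
    · calc ρ ^ 2 * bb lam R' ≤ ρ ^ 2 * (ρ ^ (2 * i) * (bb lam R + 3)) :=
            Nat.mul_le_mul_left _ (bb_pow_le hlam hρ0 i)
        _ = ρ ^ (2 * i) * (ρ ^ 2 * (bb lam R + 3)) := by ring
    · calc bb lam (ρ ^ (i + 1) * R) ≤ ρ ^ (2 * (i + 1)) * (bb lam R + 3) := bb_pow_le hlam hρ0 _
        _ ≤ ρ ^ (2 * (i + 1)) * (ρ ^ 2 * (bb lam R + 3)) :=
            Nat.mul_le_mul_left _ (Nat.le_mul_of_pos_left _ (by positivity))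

end Pool.Agent.PepsY
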