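import Pool.Agent.PepsX.Cheb
import Pool.Agent.PepsY.Asymp

/-!
# The bound for gapped ground states
-/

open Finset
open scoped InnerProductSpace

set_option autoImplicit false
set_option linter.unusedSectionVars false
set_option linter.deprecated false

namespace Pool.Agent.PepsY

open Pool.Agent.PEPS953 Pool.Agent.PepsX

/-- The bound for states which have an overlap with a PEPS. -/
theorem main_bound {d r : ℕ} (hd : 2 ≤ d) (hr : 0 < r) {h : Matrix (LConf d r) (LConf d r) ℂ}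
    (hh : h.IsHermitian) {Δ : ℝ} (hΔ : 0 < Δ) (κ : ℝ) :
    ∃ (C : ℝ) (L₀ : ℕ), 0 < C ∧ ∀ (L : ℕ) [NeZero L], L₀ ≤ L → ∀ (E : ℝ) (Ψ : Hil d L),
      IsGappedGS (ham L h) E Δ Ψ → ∀ Q : ℝ, 1 ≤ Q → Q ≤ κ * (L : ℝ) ^ 2 →
      ∀ (D₀ : ℕ) (Φ₀ : Hil d L), IsPEPS D₀ Φ₀ → Φ₀ ≠ 0 →
      Real.exp (-Q) * ‖Φ₀‖ ≤ ‖⟪Ψ, Φ₀⟫_ℂ‖ →
      ∃ (D : ℕ) (Φ : Hil d L), IsPEPS D Φ ∧
        (D : ℝ) ≤ D₀ * Real.exp (C * (L : ℝ) * (Real.log L) ^ 2) ∧
        ‖Φ - Ψ‖ ≤ Real.exp (-Q) := by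
  set J : ℝ := Real.sqrt (2 * entNorm h / Δ) with hJ
  have hJ0 : 0 ≤ J := Real.sqrt_nonneg _
  obtain ⟨c₁, hc₁⟩ := exists_nat_ge (3 * (J + 2) * κ)
  obtain ⟨c, L₀, H⟩ := poly_peps d r c₁ hd hr
  refine ⟨2 * (c + 1), max (max L₀ r) 3, by positivity, ?_⟩
  intro L _ hL E Ψ hgs Q hQ1 hQL D₀ Φ₀ hΦ₀ hΦ₀0 hov
  have hL3 : 3 ≤ L := (le_max_right _ _).trans hL
  have hL1 : 1 ≤ L := by omega
  have hL1' : (1 : ℝ) ≤ L := by exact_mod_cast hL1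
  have hL3' : (3 : ℝ) ≤ L := by exact_mod_cast hL3
  have hLL₀ : L₀ ≤ L := ((le_max_left _ _).trans (le_max_left _ _)).trans hL
  have hrL : r ≤ L := ((le_max_right _ _).trans (le_max_left _ _)).trans hL
  have hH := norm_ham_le hrL h
  have hJsq : J ^ 2 = 2 * entNorm h / Δ :=
    Real.sq_sqrt (div_nonneg (mul_nonneg (by norm_num) (entNorm_nonneg h)) hΔ.le)
  set q : ℕ := ⌈(L : ℝ) * J⌉₊ + 1 with hq
  have hq0 : 0 < q := Nat.succ_pos _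
  have hqJ : (L : ℝ) * J ≤ q := by
    rw [hq]; push_cast
    have := Nat.le_ceil ((L : ℝ) * J)
    linarith
  have hqle : (q : ℝ) ≤ L * (J + 2) := by
    rw [hq]; push_cast
    have := (Nat.ceil_lt_add_one (mul_nonneg (by linarith : (0 : ℝ) ≤ L) hJ0)).le
    nlinarith
  have hqH : 2 * ‖ham L h‖ ≤ (q : ℝ) ^ 2 * Δ := by
    calc 2 * ‖ham L h‖ ≤ 2 * ((L : ℝ) ^ 2 * entNorm h) := by linarith
      _ = (L * J) ^ 2 * Δ := by rw [mul_pow, hJsq]; field_simp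
      _ ≤ (q : ℝ) ^ 2 * Δ :=
        mul_le_mul_of_nonneg_right (pow_le_pow_left₀ (by positivity) hqJ 2) hΔ.le
  set N : ℕ := ⌈2 * Q⌉₊ with hN
  have hN2 : 2 * Q ≤ N := Nat.le_ceil _
  have hN3 : (N : ℝ) ≤ 3 * Q := by
    have := (Nat.ceil_lt_add_one (by linarith : (0 : ℝ) ≤ 2 * Q)).le
    rw [← hN] at this
    linarith
  have hN0 : 0 < N := by
    have : (0 : ℝ) < N := by linarith
    exact_mod_cast this
  have hn0 : 0 < N * q := Nat.mul_pos hN0 hq0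
  have hnK : N * q ≤ c₁ * L ^ 3 := by
    have : ((N * q : ℕ) : ℝ) ≤ ((c₁ * L ^ 3 : ℕ) : ℝ) := by
      push_cast
      calc (N : ℝ) * q ≤ (3 * Q) * (L * (J + 2)) :=
            mul_le_mul hN3 hqle (Nat.cast_nonneg _) (by linarith)
        _ ≤ (3 * (κ * (L : ℝ) ^ 2)) * (L * (J + 2)) := by
            refine mul_le_mul_of_nonneg_right ?_ (by positivity)
            linarith
        _ = (3 * (J + 2) * κ) * (L : ℝ) ^ 3 := by ring
        _ ≤ c₁ * (L : ℝ) ^ 3 := mul_le_mul_of_nonneg_right hc₁ (by positivity)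
    exact_mod_cast this
  obtain ⟨P, hPdeg, hP⟩ := cheb_filter hgs (ham_isSymmetric hh) hΔ q hq0 hqH N
  obtain ⟨K, D, hK, hD, hpeps⟩ := H L hLL₀ (N * q) hn0 hnK h P hPdeg D₀ Φ₀ hΦ₀
  have hc0 : 0 < ‖⟪Ψ, Φ₀⟫_ℂ‖ :=
    lt_of_lt_of_le (mul_pos (Real.exp_pos _) (norm_pos_iff.mpr hΦ₀0)) hov
  have hc0' : ⟪Ψ, Φ₀⟫_ℂ ≠ 0 := norm_pos_iff.mp hc0
  have hlog1 : 1 ≤ Real.log L := by
    rw [Real.le_log_iff_exp_le (by linarith)]
    have := Real.exp_one_lt_d9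
    linarith
  have hKlog : (K : ℝ) ≤ Real.log L := by
    have h1 : (3 : ℝ) ^ K ≤ L := by exact_mod_cast hK
    have h2 : Real.exp K ≤ L := by
      refine le_trans ?_ h1
      rw [← mul_one (K : ℝ), Real.exp_nat_mul]
      refine pow_le_pow_left₀ (Real.exp_pos _).le ?_ K
      have := Real.exp_one_lt_d9
      linarith
    exact (Real.le_log_iff_exp_le (by linarith)).mpr h2
  refine ⟨D, (⟪Ψ, Φ₀⟫_ℂ)⁻¹ • (Polynomial.aeval (ham L h) P) Φ₀, hpeps.smul _, ?_, ?_⟩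
  · have hD' : (D : ℝ) ≤ D₀ * (L : ℝ) ^ (c * L * (K + 1)) := by exact_mod_cast hD
    refine hD'.trans (mul_le_mul_of_nonneg_left ?_ (Nat.cast_nonneg _))
    rw [← Real.exp_log (show (0 : ℝ) < (L : ℝ) ^ (c * L * (K + 1)) by positivity), Real.log_pow]
    refine Real.exp_le_exp.mpr ?_
    push_cast
    calc (c : ℝ) * L * (K + 1) * Real.log L ≤ c * L * (2 * Real.log L) * Real.log L := by
          gcongr
          linarith
      _ = 2 * c * L * Real.log L ^ 2 := by ring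
      _ ≤ 2 * (c + 1) * L * Real.log L ^ 2 := by gcongr; linarith
  · have h1 : (⟪Ψ, Φ₀⟫_ℂ)⁻¹ • (Polynomial.aeval (ham L h) P) Φ₀ - Ψ =
        (⟪Ψ, Φ₀⟫_ℂ)⁻¹ • ((Polynomial.aeval (ham L h) P) Φ₀ - ⟪Ψ, Φ₀⟫_ℂ • Ψ) := by
      rw [smul_sub, smul_smul, inv_mul_cancel₀ hc0', one_smul]
    rw [h1, norm_smul, norm_inv, inv_mul_le_iff₀ hc0]
    calc ‖(Polynomial.aeval (ham L h) P) Φ₀ - ⟪Ψ, Φ₀⟫_ℂ • Ψ‖ ≤ Real.exp (-(N : ℝ)) * ‖Φ₀‖ := hP Φ₀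
      _ ≤ Real.exp (-Q + -Q) * ‖Φ₀‖ :=
        mul_le_mul_of_nonneg_right (Real.exp_le_exp.mpr (by linarith)) (norm_nonneg _)
      _ = (Real.exp (-Q) * ‖Φ₀‖) * Real.exp (-Q) := by rw [Real.exp_add]; ring
      _ ≤ ‖⟪Ψ, Φ₀⟫_ℂ‖ * Real.exp (-Q) := mul_le_mul_of_nonneg_right hov (Real.exp_pos _).le

/-- A basis vector is a PEPS of bond dimension one. -/
lemma isPEPS_single {d L : ℕ} [NeZero L] (s₀ : Conf d L) :
    IsPEPS 1 (EuclideanSpace.single s₀ (1 : ℂ) : Hil d L) := by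
  refine ⟨fun u σ _ _ _ _ => if σ = s₀ u then 1 else 0, fun s => ?_⟩
  simp only [Finset.univ_unique, Finset.sum_const, Finset.card_singleton, one_smul]
  rw [Finset.prod_ite_zero]
  simp only [EuclideanSpace.single_apply]
  by_cases hs : s = s₀
  · simp [hs]
  · rw [if_neg hs, if_neg]
    intro h
    exact hs (funext fun u => h u (Finset.mem_univ _))

/-- The bound for gapped ground states, for all precisions `exp (-κ L ^ 2)`. -/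
theorem main_cor {d r : ℕ} (hd : 2 ≤ d) (hr : 0 < r) {h : Matrix (LConf d r) (LConf d r) ℂ}
    (hh : h.IsHermitian) {Δ : ℝ} (hΔ : 0 < Δ) (κ : ℝ) :
    ∃ (C : ℝ) (L₀ : ℕ), 0 < C ∧ ∀ (L : ℕ) [NeZero L], L₀ ≤ L → ∀ (E : ℝ) (Ψ : Hil d L),
      IsGappedGS (ham L h) E Δ Ψ →
      ∃ (D : ℕ) (Φ : Hil d L), IsPEPS D Φ ∧
        (D : ℝ) ≤ Real.exp (C * (L : ℝ) * (Real.log L) ^ 2) ∧
        ‖Φ - Ψ‖ ≤ Real.exp (-(κ * (L : ℝ) ^ 2)) := by
  obtain ⟨m, hm⟩ : ∃ m : ℝ, m = max (max 1 κ) (Real.log d) := ⟨_, rfl⟩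
  obtain ⟨C, L₀, hC, H⟩ := main_bound hd hr hh hΔ m
  have hm1 : 1 ≤ m := hm ▸ (le_max_left _ _).trans (le_max_left _ _)
  have hmκ : κ ≤ m := hm ▸ (le_max_right _ _).trans (le_max_left _ _)
  have hml : Real.log d ≤ m := hm ▸ le_max_right _ _
  have hd0 : (0 : ℝ) < d := by
    have : 0 < d := by omega
    exact_mod_cast this
  refine ⟨C, L₀, hC, ?_⟩
  intro L _ hL E Ψ hgs
  have hL1 : (1 : ℝ) ≤ L := by
    have : 0 < L := Nat.pos_of_ne_zero (NeZero.ne L)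
    exact_mod_cast this
  have hLsq : (1 : ℝ) ≤ (L : ℝ) ^ 2 := one_le_pow₀ hL1
  have hQ1 : 1 ≤ m * (L : ℝ) ^ 2 :=
    hLsq.trans (le_mul_of_one_le_left (by positivity) hm1)
  have hcard : Fintype.card (Conf d L) = d ^ (L * L) := by
    rw [Fintype.card_fun, Fintype.card_fin, Fintype.card_prod, ZMod.card]
  have hsum : ∑ s, ‖Ψ s‖ ^ 2 = 1 := by
    rw [← EuclideanSpace.norm_sq_eq, hgs.norm_eq, one_pow]
  obtain ⟨s, hs⟩ : ∃ s, 1 / (d : ℝ) ^ (L * L) ≤ ‖Ψ s‖ ^ 2 := by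
    by_contra hcon
    push Not at hcon
    have h1 : ∑ s, ‖Ψ s‖ ^ 2 < ∑ s : Conf d L, 1 / (d : ℝ) ^ (L * L) :=
      Finset.sum_lt_sum_of_nonempty ⟨fun _ => ⟨0, by omega⟩, Finset.mem_univ _⟩
        (fun s _ => hcon s)
    rw [hsum, Finset.sum_const, Finset.card_univ, hcard, nsmul_eq_mul, Nat.cast_pow,
      mul_one_div_cancel (by positivity)] at h1
    exact lt_irrefl _ h1
  have hs0 : (EuclideanSpace.single s (1 : ℂ) : Hil d L) ≠ 0 := by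
    rw [← norm_pos_iff, EuclideanSpace.norm_single, norm_one]
    exact one_pos
  have hov : Real.exp (-(m * (L : ℝ) ^ 2)) * ‖(EuclideanSpace.single s (1 : ℂ) : Hil d L)‖ ≤
      ‖⟪Ψ, (EuclideanSpace.single s (1 : ℂ) : Hil d L)⟫_ℂ‖ := by
    rw [EuclideanSpace.norm_single, norm_one, mul_one, EuclideanSpace.inner_single_right, one_mul,
      RCLike.norm_conj]
    refine le_of_sq_le_sq ?_ (norm_nonneg _)
    refine le_trans ?_ hs
    rw [← Real.exp_nat_mul, one_div, ← Real.exp_log (show (0 : ℝ) < (d : ℝ) ^ (L * L) by positivity),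
      ← Real.exp_neg, Real.log_pow]
    refine Real.exp_le_exp.mpr ?_
    push_cast
    have h2 : (L : ℝ) * L * Real.log d ≤ m * (L : ℝ) ^ 2 := by
      calc (L : ℝ) * L * Real.log d ≤ (L : ℝ) * L * m :=
            mul_le_mul_of_nonneg_left hml (by positivity)
        _ = m * (L : ℝ) ^ 2 := by ring
    nlinarith
  obtain ⟨D, Φ, hΦ, hD, hdist⟩ := H L hL E Ψ hgs (m * (L : ℝ) ^ 2) hQ1 le_rfl 1 _
    (isPEPS_single s) hs0 hov
  refine ⟨D, Φ, hΦ, ?_, hdist.trans (Real.exp_le_exp.mpr ?_)⟩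
  · simpa using hD
  · have : κ * (L : ℝ) ^ 2 ≤ m * (L : ℝ) ^ 2 := mul_le_mul_of_nonneg_right hmκ (by positivity)
    linarith

end Pool.Agent.PepsY
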