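import Pool.Agent.PepsY.Blocks

/-!
# YB4: choice of the offset
-/

open Finset

set_option autoImplicit false
set_option linter.unusedSectionVars false

namespace Pool.Agent.PepsY

open Pool.Agent.PEPS953 Pool.Agent.PepsX

namespace Offsets

variable {d r n L : ℕ} [NeZero L]

/-- The internal insertions. -/
def inn (X : Blk L) (x : Asn d r n L) : Finset (Fin n × Site L) :=
  univ.filter fun b : Fin n × Site L =>
    X.s ≤ b.1 ∧ (b.1 : ℕ) < X.e ∧ Ins r X.C b.2 ∧ x.o b.1 b.2 ≠ none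

lemma vol_eq (X : Blk L) (x : Asn d r n L) : vol X x = (inn X x).card := rfl

/-- The contribution of an insertion to the statistics `j`. -/
def chi {R g A₁ A₂ : ℕ} {C : Finset (Site L)} {QQ : Finset (Site L) → Prop}
    (G : Geo r R g A₁ A₂ C QQ) : Option (Fin R ⊕ Fin R) → Site L → ℕ
  | none, _ => 1
  | some (Sum.inl o), v => if G.cr₁ o v then 1 else 0
  | some (Sum.inr o), v => if G.cr₂ o v then 1 else 0

/-- The statistics of an assignment. -/
def stat {R g A₁ A₂ : ℕ} {QQ : Finset (Site L) → Prop} (X : Blk L)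
    (G : Geo r R g A₁ A₂ X.C QQ) (x : Asn d r n L) (j : Option (Fin R ⊕ Fin R)) : ℕ :=
  ∑ b ∈ inn X x, chi G j b.2

section

variable {R g A₁ A₂ : ℕ} {QQ : Finset (Site L) → Prop} {X : Blk L}
  (G : Geo r R g A₁ A₂ X.C QQ) (x : Asn d r n L)

lemma chi_le (j : Option (Fin R ⊕ Fin R)) (v : Site L) : chi G j v ≤ 1 := by
  rcases j with _ | o | o
  · exact le_rfl
  · change (if G.cr₁ o v then 1 else 0) ≤ 1
    split_ifs <;> simp
  · change (if G.cr₂ o v then 1 else 0) ≤ 1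
    split_ifs <;> simp

lemma stat_none : stat X G x none = vol X x := by
  rw [vol_eq, stat, card_eq_sum_ones]
  rfl

lemma stat_le (j : Option (Fin R ⊕ Fin R)) : stat X G x j ≤ vol X x := by
  rw [← stat_none G x]
  exact sum_le_sum fun b _ => chi_le G j b.2

lemma vol_le : vol X x ≤ n * L ^ 2 := by
  rw [vol_eq]
  refine (card_le_univ _).trans (le_of_eq ?_)
  rw [Fintype.card_prod, Fintype.card_prod, Fintype.card_fin, ZMod.card]
  ring

lemma sum_stat_le (e : Fin R → Option (Fin R ⊕ Fin R))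
    (he : ∀ v : Site L, Ins r X.C v → ∑ o : Fin R, chi G (e o) v ≤ r) :
    ∑ o : Fin R, stat X G x (e o) ≤ r * vol X x := by
  unfold stat
  rw [Finset.sum_comm, vol_eq, mul_comm, ← smul_eq_mul, ← sum_const]
  refine sum_le_sum fun b hb => he b.2 ?_
  exact (mem_filter.1 hb).2.2.2.1

lemma sum_inl (v : Site L) (hv : Ins r X.C v) :
    ∑ o : Fin R, chi G (some (Sum.inl o)) v ≤ r := by
  have h := G.few₁ v hv
  rw [card_filter, ← Fin.sum_univ_eq_sum_range (fun o => if G.cr₁ o v then 1 else 0)] at h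
  exact h

lemma sum_inr (v : Site L) (hv : Ins r X.C v) :
    ∑ o : Fin R, chi G (some (Sum.inr o)) v ≤ r := by
  have h := G.few₂ v hv
  rw [card_filter, ← Fin.sum_univ_eq_sum_range (fun o => if G.cr₂ o v then 1 else 0)] at h
  exact h

lemma exists_offset (hR : 0 < R) (e : Fin R → Option (Fin R ⊕ Fin R))
    (he : ∀ v : Site L, Ins r X.C v → ∑ o : Fin R, chi G (e o) v ≤ r) :
    ∃ o : Fin R, R * stat X G x (e o) ≤ r * vol X x := by
  by_contra hcon
  push Not at hcon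
  have h1 := sum_stat_le G x e he
  have h2 : ∑ _o : Fin R, r * vol X x < ∑ o : Fin R, R * stat X G x (e o) := by
    refine sum_lt_sum_of_nonempty ?_ fun o _ => hcon o
    exact ⟨⟨0, hR⟩, mem_univ _⟩
  rw [sum_const, card_univ, Fintype.card_fin, smul_eq_mul, ← Finset.mul_sum] at h2
  exact absurd (Nat.mul_le_mul_left R h1) (not_le.2 h2)

/-- The offset `o` is the least one which is good. -/
def Least (R r : ℕ) (e : Fin R → Option (Fin R ⊕ Fin R)) (A : Option (Fin R ⊕ Fin R) → ℕ)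
    (o : Fin R) : Prop :=
  R * A (e o) ≤ r * A none ∧ ∀ o' < o, ¬ R * A (e o') ≤ r * A none

lemma least_unique {e : Fin R → Option (Fin R ⊕ Fin R)} {A : Option (Fin R ⊕ Fin R) → ℕ}
    {o o' : Fin R} (h : Least R r e A o) (h' : Least R r e A o') : o = o' := by
  rcases lt_trichotomy o o' with hlt | heq | hgt
  · exact absurd h.1 (h'.2 o hlt)
  · exact heq
  · exact absurd h'.1 (h.2 o' hgt)

lemma least_exists (hR : 0 < R) (e : Fin R → Option (Fin R ⊕ Fin R))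
    (he : ∀ v : Site L, Ins r X.C v → ∑ o : Fin R, chi G (e o) v ≤ r) :
    ∃ o : Fin R, Least R r e (stat X G x) o := by
  classical
  obtain ⟨o₀, ho₀⟩ := exists_offset G x hR e he
  rw [← stat_none G x] at ho₀
  have hne : (univ.filter fun o : Fin R =>
      R * stat X G x (e o) ≤ r * stat X G x none).Nonempty :=
    ⟨o₀, mem_filter.2 ⟨mem_univ _, ho₀⟩⟩
  refine ⟨_, (mem_filter.1 (min'_mem _ hne)).2, fun o' ho' hcon => ?_⟩
  exact absurd (min'_le _ o' (mem_filter.2 ⟨mem_univ _, hcon⟩)) (not_le.2 ho')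

lemma prod_stat (y : Option (Fin R ⊕ Fin R) → ℂ) :
    ∏ j, y j ^ stat X G x j = ∏ b ∈ inn X x, ∏ j, y j ^ chi G j b.2 := by
  rw [Finset.prod_comm]
  exact prod_congr rfl fun j _ => by rw [stat, ← prod_pow_eq_pow_sum]

end

end Offsets

variable {d r n L : ℕ} [NeZero L]

open Offsets in
/-- YB4: choice of the offset. -/
theorem offsets {R g A₁ A₂ V α : ℕ} {QQ : Finset (Site L) → Prop} (hr : 0 < r) (hR : 0 < R)
    (X : Blk L) (hX : X.s < X.e ∧ X.e ≤ n) (G : Geo r R g A₁ A₂ X.C QQ) :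
    ∃ (χ : Fin R → Fin R → Asn d r n L → Prop)
      (a : Fin R → Fin R → Fin (profs₁ n L R α) → ℂ)
      (ζ : Fin R → Fin R → Fin (profs₁ n L R α) → Site L → ℂ),
      (∀ x, vol X x ≤ V → ∃! o : Fin R × Fin R, χ o.1 o.2 x) ∧
      (∀ o₁ o₂ x, χ o₁ o₂ x → vol X x ≤ V ∧
        R * (univ.filter fun b : Fin n × Site L => X.s ≤ b.1 ∧ (b.1 : ℕ) < X.e ∧ Ins r X.C b.2 ∧
          x.o b.1 b.2 ≠ none ∧ ∃ p p' : Box r, G.part o₁ o₂ (boxPos L r b.2 p) ≠
            G.part o₁ o₂ (boxPos L r b.2 p')).card ≤ 2 * r * V) ∧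
      ∀ o₁ o₂ x, (χ o₁ o₂ x → ∑ θ, a o₁ o₂ θ * ∏ b ∈ univ.filter (fun b : Fin n × Site L =>
          X.s ≤ b.1 ∧ (b.1 : ℕ) < X.e ∧ Ins r X.C b.2 ∧ x.o b.1 b.2 ≠ none), ζ o₁ o₂ θ b.2 = 1) ∧
        (¬ χ o₁ o₂ x → ∑ θ, a o₁ o₂ θ * ∏ b ∈ univ.filter (fun b : Fin n × Site L =>
          X.s ≤ b.1 ∧ (b.1 : ℕ) < X.e ∧ Ins r X.C b.2 ∧ x.o b.1 b.2 ≠ none), ζ o₁ o₂ θ b.2 = 0) := by
  classical
  have _ := hr
  have _ := hX
  set e₁ : Fin R → Option (Fin R ⊕ Fin R) := fun o => some (Sum.inl o) with he₁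
  set e₂ : Fin R → Option (Fin R ⊕ Fin R) := fun o => some (Sum.inr o) with he₂
  set M : ℕ := (α + 1) * n * L ^ 2 + 1 with hM
  set T : Fin R → Fin R → (Option (Fin R ⊕ Fin R) → ℕ) → Prop := fun o₁ o₂ A =>
    A none ≤ V ∧ Least R r e₁ A o₁ ∧ Least R r e₂ A o₂ with hT
  have hcard : Fintype.card (Option (Fin R ⊕ Fin R) → Fin M) = profs₁ n L R α := by
    rw [Fintype.card_fun, Fintype.card_fin, Fintype.card_option, Fintype.card_sum,
      Fintype.card_fin, profs₁, two_mul]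
  let E : (Option (Fin R ⊕ Fin R) → Fin M) ≃ Fin (profs₁ n L R α) :=
    Fintype.equivFinOfCardEq hcard
  have hex := fun o₁ o₂ : Fin R => stat_expand (J := Option (Fin R ⊕ Fin R)) M (Nat.succ_pos _)
    (fun A => if T o₁ o₂ A then (1 : ℂ) else 0)
  choose a z haz using hex
  refine ⟨fun o₁ o₂ x => T o₁ o₂ (stat X G x), fun o₁ o₂ θ => a o₁ o₂ (E.symm θ),
    fun o₁ o₂ θ v => ∏ j, z o₁ o₂ (E.symm θ j) ^ chi G j v, ?_, ?_, ?_⟩
  · intro x hx
    obtain ⟨o₁, h₁⟩ := least_exists G x hR e₁ (sum_inl G)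
    obtain ⟨o₂, h₂⟩ := least_exists G x hR e₂ (sum_inr G)
    refine ⟨(o₁, o₂), ⟨by rw [stat_none]; exact hx, h₁, h₂⟩, ?_⟩
    rintro ⟨o₁', o₂'⟩ ⟨-, h₁', h₂'⟩
    exact Prod.ext (least_unique h₁' h₁) (least_unique h₂' h₂)
  · rintro o₁ o₂ x ⟨hv, h₁, h₂⟩
    rw [stat_none] at hv
    refine ⟨hv, ?_⟩
    have hle : (univ.filter fun b : Fin n × Site L => X.s ≤ b.1 ∧ (b.1 : ℕ) < X.e ∧
        Ins r X.C b.2 ∧ x.o b.1 b.2 ≠ none ∧ ∃ p p' : Box r, G.part o₁ o₂ (boxPos L r b.2 p) ≠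
          G.part o₁ o₂ (boxPos L r b.2 p')).card ≤
        stat X G x (e₁ o₁) + stat X G x (e₂ o₂) := by
      have hsub : (univ.filter fun b : Fin n × Site L => X.s ≤ b.1 ∧ (b.1 : ℕ) < X.e ∧
          Ins r X.C b.2 ∧ x.o b.1 b.2 ≠ none ∧ ∃ p p' : Box r, G.part o₁ o₂ (boxPos L r b.2 p) ≠
            G.part o₁ o₂ (boxPos L r b.2 p')) ⊆
          (inn X x).filter fun b => G.cr₁ o₁ b.2 ∨ G.cr₂ o₂ b.2 := by
        intro b hb
        obtain ⟨-, hb1, hb2, hb3, hb4, p, p', hb5⟩ := mem_filter.1 hb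
        exact mem_filter.2 ⟨mem_filter.2 ⟨mem_univ _, hb1, hb2, hb3, hb4⟩,
          G.cross o₁ o₁.2 o₂ o₂.2 b.2 hb3 p p' hb5⟩
      refine (card_le_card hsub).trans ?_
      rw [card_filter, stat, stat, ← sum_add_distrib]
      refine sum_le_sum fun b _ => ?_
      change (if G.cr₁ o₁ b.2 ∨ G.cr₂ o₂ b.2 then 1 else 0) ≤
        (if G.cr₁ o₁ b.2 then 1 else 0) + (if G.cr₂ o₂ b.2 then 1 else 0)
      by_cases hc1 : G.cr₁ o₁ b.2
      · simp [hc1]
      · by_cases hc2 : G.cr₂ o₂ b.2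
        · simp [hc2]
        · simp [hc1, hc2]
    have h₁' := h₁.1
    have h₂' := h₂.1
    rw [stat_none] at h₁' h₂'
    calc R * _ ≤ R * (stat X G x (e₁ o₁) + stat X G x (e₂ o₂)) := Nat.mul_le_mul_left R hle
      _ = R * stat X G x (e₁ o₁) + R * stat X G x (e₂ o₂) := by ring
      _ ≤ r * vol X x + r * vol X x := Nat.add_le_add h₁' h₂'
      _ ≤ r * V + r * V := Nat.add_le_add (Nat.mul_le_mul_left r hv) (Nat.mul_le_mul_left r hv)
      _ = 2 * r * V := by ring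
  · intro o₁ o₂ x
    have hlt : ∀ j, stat X G x j < M := by
      intro j
      have h1 := (stat_le G x j).trans (vol_le (X := X) x)
      have h2 : n * L ^ 2 ≤ (α + 1) * n * L ^ 2 := by
        rw [mul_assoc]; exact Nat.le_mul_of_pos_left _ (Nat.succ_pos _)
      omega
    have hsum : ∑ θ, a o₁ o₂ (E.symm θ) * ∏ b ∈ univ.filter (fun b : Fin n × Site L =>
        X.s ≤ b.1 ∧ (b.1 : ℕ) < X.e ∧ Ins r X.C b.2 ∧ x.o b.1 b.2 ≠ none),
          ∏ j, z o₁ o₂ (E.symm θ j) ^ chi G j b.2 =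
        if T o₁ o₂ (stat X G x) then (1 : ℂ) else 0 := by
      rw [haz o₁ o₂ (stat X G x) hlt, ← Equiv.sum_comp E.symm]
      refine sum_congr rfl fun θ _ => ?_
      rw [prod_stat]
      rfl
    refine ⟨fun h => ?_, fun h => ?_⟩
    · exact hsum.trans (if_pos h)
    · exact hsum.trans (if_neg h)

end Pool.Agent.PepsY
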