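import Pool.Agent.PepsY.Blocks

/-!
# Parameters of the recursion
-/

open Finset

set_option autoImplicit false

namespace Pool.Agent.PepsY

/-- The number of views of a block of side `R`. -/
def bb (lam R : ℕ) : ℕ := (R ^ 2 / lam + 1) + 2 * (4 * R ^ 2 / lam + 1)

lemma third_le {R : ℕ} (hR : 2 ≤ R) : R ^ 3 ≤ 3 * (R ^ 3 / 2) := by
  have h : 8 ≤ R ^ 3 := by
    calc 8 = 2 ^ 3 := by norm_num
      _ ≤ R ^ 3 := Nat.pow_le_pow_left hR 3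
  omega

lemma half_le {r R : ℕ} (hR : 24 * r + 8 ≤ R) :
    R ^ 3 / 2 + R * (12 * r * R) + 4 * R ^ 2 ≤ R ^ 3 := by
  have h1 : 2 * (R * (12 * r * R) + 4 * R ^ 2) ≤ R ^ 3 := by
    calc 2 * (R * (12 * r * R) + 4 * R ^ 2) = (24 * r + 8) * R ^ 2 := by ring
      _ ≤ R * R ^ 2 := Nat.mul_le_mul_right _ hR
      _ = R ^ 3 := by ring
  omega

lemma mul_div_le' (a lam : ℕ) : lam * (a / lam) ≤ a := Nat.mul_div_le a lam

lemma p3_aux {k lam R : ℕ} (hlam : 0 < lam) (hR : 0 < R) (h : k * (lam * R) ≤ R ^ 3) :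
    k + 1 ≤ R ^ 2 / lam + 1 := by
  have h1 : k * lam ≤ R ^ 2 := by
    have h2 : (k * lam) * R ≤ R ^ 2 * R := by
      calc (k * lam) * R = k * (lam * R) := by ring
        _ ≤ R ^ 3 := h
        _ = R ^ 2 * R := by ring
    exact Nat.le_of_mul_le_mul_right h2 hR
  have h3 : k ≤ R ^ 2 / lam := (Nat.le_div_iff_mul_le hlam).mpr h1
  omega

lemma p5_aux {R lam : ℕ} (hlam : 0 < lam) : 4 * R ^ 2 ≤ (4 * R ^ 2 / lam + 1) * lam := by
  have h := Nat.lt_div_mul_add (a := 4 * R ^ 2) hlam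
  rw [Nat.add_mul, one_mul]
  exact h.le

theorem prm_step {r ρ R lam : ℕ} (hρ : 24 * r + 310 ≤ ρ) (hR : 24 * r + 8 ≤ R)
    (hlam : 0 < lam) (h1 : 12 * r * R ≤ lam) (h2 : lam ≤ (ρ * R) ^ 2) :
    Prm r R (2 * ρ + 1) (4 * R ^ 2) (12 * r * R) ((ρ * R) ^ 3) (bb lam (ρ * R) * (2 * lam)) (R ^ 3)
      (ρ ^ 2) (bb lam R) lam (2 * lam) R (R ^ 3 / 2) (R ^ 2 / lam + 1) (4 * R ^ 2 / lam + 1) where
  hR := by omega
  hα := by omega
  hB := by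
    have h := third_le (R := R) (by omega)
    have : 0 < R ^ 3 := by have : 0 < R := by omega
                           positivity
    omega
  hlam := hlam
  p1 := half_le hR
  p2 := by
    intro k hk
    have hR0 : 0 < R := by omega
    set B' := R ^ 3 / 2 with hB'
    have hB3 : R ^ 3 ≤ 3 * B' := third_le (by omega)
    set K := bb lam (ρ * R) * (2 * lam) with hK
    have hKle : K ≤ 24 * (ρ * R) ^ 2 := by
      have e1 := mul_div_le' ((ρ * R) ^ 2) lam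
      have e2 := mul_div_le' (4 * (ρ * R) ^ 2) lam
      calc K = 2 * (lam * ((ρ * R) ^ 2 / lam)) + 4 * (lam * (4 * (ρ * R) ^ 2 / lam)) +
            6 * lam := by rw [hK]; unfold bb; ring
        _ ≤ 2 * (ρ * R) ^ 2 + 4 * (4 * (ρ * R) ^ 2) + 6 * (ρ * R) ^ 2 := by
            gcongr
        _ = 24 * (ρ * R) ^ 2 := by ring
    have hk1 : k * B' ≤ 8 * r * (ρ * R) ^ 3 + 4 * K * R + (ρ * R) ^ 3 := by
      have : R * (k * B') ≤ R * (8 * r * (ρ * R) ^ 3 + 4 * K * R + (ρ * R) ^ 3) := by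
        calc R * (k * B') = k * (R * B') := by ring
          _ ≤ R * (8 * r * (ρ * R) ^ 3 + 4 * K * R) + (ρ * R) ^ 3 * R := hk
          _ = _ := by ring
      exact Nat.le_of_mul_le_mul_left this hR0
    have hk2 : k * R ^ 3 ≤ ((24 * r + 3) * ρ ^ 3 + 288 * ρ ^ 2) * R ^ 3 := by
      calc k * R ^ 3 ≤ k * (3 * B') := Nat.mul_le_mul_left _ hB3
        _ = 3 * (k * B') := by ring
        _ ≤ 3 * (8 * r * (ρ * R) ^ 3 + 4 * K * R + (ρ * R) ^ 3) := Nat.mul_le_mul_left _ hk1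
        _ ≤ 3 * (8 * r * (ρ * R) ^ 3 + 4 * (24 * (ρ * R) ^ 2) * R + (ρ * R) ^ 3) := by gcongr
        _ = ((24 * r + 3) * ρ ^ 3 + 288 * ρ ^ 2) * R ^ 3 := by ring
    have hk3 : k ≤ (24 * r + 3) * ρ ^ 3 + 288 * ρ ^ 2 :=
      Nat.le_of_mul_le_mul_right hk2 (by positivity)
    have hρ1 : 1 ≤ ρ := by omega
    calc (2 * ρ + 1) ^ 2 + k ≤ (2 * ρ + 1) ^ 2 + ((24 * r + 3) * ρ ^ 3 + 288 * ρ ^ 2) := by
          gcongr
      _ ≤ (24 * r + 310) * ρ ^ 3 := by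
          have a1 : ρ ^ 2 ≤ ρ ^ 3 := Nat.pow_le_pow_right hρ1 (by norm_num)
          have a2 : ρ ≤ ρ ^ 3 := Nat.le_self_pow (by norm_num) ρ
          have a3 : 1 ≤ ρ ^ 3 := Nat.one_le_pow _ _ hρ1
          nlinarith
      _ ≤ ρ * ρ ^ 3 := Nat.mul_le_mul_right _ hρ
      _ = (ρ ^ 2) ^ 2 := by ring
  p3 := fun k hk => p3_aux hlam (by omega) hk
  p4 := by omega
  p5 := p5_aux hlam
  p6 := le_rfl

theorem prm_top {r ρ R lam c₁ n L : ℕ} (hρ : 24 * (8 * r + 1) * c₁ + 4 ≤ ρ) (hR : 24 * r + 8 ≤ R)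
    (hlam : 0 < lam) (h1 : 12 * r * R ≤ lam) (hL : L ≤ 2 * (ρ * R)) (hn : n ≤ c₁ * L ^ 3) :
    Prm r R (L / R) (4 * R ^ 2) (12 * r * R) n 0 (R ^ 3)
      (ρ ^ 2) (bb lam R) lam (2 * lam) R (R ^ 3 / 2) (R ^ 2 / lam + 1) (4 * R ^ 2 / lam + 1) where
  hR := by omega
  hα := by omega
  hB := by
    have h := third_le (R := R) (by omega)
    have : 0 < R ^ 3 := by have : 0 < R := by omega
                           positivity
    omega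
  hlam := hlam
  p1 := half_le hR
  p2 := by
    intro k hk
    have hR0 : 0 < R := by omega
    set B' := R ^ 3 / 2 with hB'
    have hB3 : R ^ 3 ≤ 3 * B' := third_le (by omega)
    have hk1 : k * B' ≤ (8 * r + 1) * n := by
      have : R * (k * B') ≤ R * ((8 * r + 1) * n) := by
        calc R * (k * B') = k * (R * B') := by ring
          _ ≤ R * (8 * r * n + 4 * 0 * R) + n * R := hk
          _ = _ := by ring
      exact Nat.le_of_mul_le_mul_left this hR0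
    have hk2 : k * R ^ 3 ≤ (24 * (8 * r + 1) * c₁ * ρ ^ 3) * R ^ 3 := by
      calc k * R ^ 3 ≤ k * (3 * B') := Nat.mul_le_mul_left _ hB3
        _ = 3 * (k * B') := by ring
        _ ≤ 3 * ((8 * r + 1) * (c₁ * (2 * (ρ * R)) ^ 3)) := by
            refine Nat.mul_le_mul_left _ (hk1.trans (Nat.mul_le_mul_left _ (hn.trans ?_)))
            exact Nat.mul_le_mul_left _ (Nat.pow_le_pow_left hL 3)
        _ = (24 * (8 * r + 1) * c₁ * ρ ^ 3) * R ^ 3 := by ring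
    have hk3 : k ≤ 24 * (8 * r + 1) * c₁ * ρ ^ 3 :=
      Nat.le_of_mul_le_mul_right hk2 (by positivity)
    have hg : L / R ≤ 2 * ρ := by
      calc L / R ≤ (2 * (ρ * R)) / R := Nat.div_le_div_right hL
        _ = (2 * ρ) * R / R := by ring_nf
        _ = 2 * ρ := Nat.mul_div_cancel _ hR0
    have hρ1 : 1 ≤ ρ := by omega
    calc (L / R) ^ 2 + k ≤ (2 * ρ) ^ 2 + 24 * (8 * r + 1) * c₁ * ρ ^ 3 := by
          gcongr
      _ ≤ (24 * (8 * r + 1) * c₁ + 4) * ρ ^ 3 := by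
          have a1 : ρ ^ 2 ≤ ρ ^ 3 := Nat.pow_le_pow_right hρ1 (by norm_num)
          nlinarith
      _ ≤ ρ * ρ ^ 3 := Nat.mul_le_mul_right _ hρ
      _ = (ρ ^ 2) ^ 2 := by ring
  p3 := fun k hk => p3_aux hlam (by omega) hk
  p4 := by omega
  p5 := p5_aux hlam
  p6 := le_rfl

lemma bb_pow_le {lam ρ R : ℕ} (hlam : 0 < lam) (hρ : 0 < ρ) (i : ℕ) :
    bb lam (ρ ^ i * R) ≤ ρ ^ (2 * i) * (bb lam R + 3) := by
  have key : ∀ a : ℕ, ρ ^ (2 * i) * a / lam ≤ ρ ^ (2 * i) * (a / lam + 1) := by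
    intro a
    rw [Nat.div_le_iff_le_mul_add_pred hlam]
    have h : a ≤ (a / lam + 1) * lam := by
      have := Nat.lt_div_mul_add (a := a) hlam
      rw [Nat.add_mul, one_mul]; exact this.le
    calc ρ ^ (2 * i) * a ≤ ρ ^ (2 * i) * ((a / lam + 1) * lam) := Nat.mul_le_mul_left _ h
      _ = lam * (ρ ^ (2 * i) * (a / lam + 1)) := by ring
      _ ≤ _ := Nat.le_add_right _ _
  have hp : 1 ≤ ρ ^ (2 * i) := Nat.one_le_pow _ _ hρ
  have e1 : (ρ ^ i * R) ^ 2 = ρ ^ (2 * i) * R ^ 2 := by ring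
  have e2 : 4 * (ρ ^ i * R) ^ 2 = ρ ^ (2 * i) * (4 * R ^ 2) := by ring
  unfold bb
  rw [e2, e1]
  have k1 := key (R ^ 2)
  have k2 := key (4 * R ^ 2)
  calc ρ ^ (2 * i) * R ^ 2 / lam + 1 + 2 * (ρ ^ (2 * i) * (4 * R ^ 2) / lam + 1)
      ≤ ρ ^ (2 * i) * (R ^ 2 / lam + 1) + 1 + 2 * (ρ ^ (2 * i) * (4 * R ^ 2 / lam + 1) + 1) := by
        gcongr
    _ = ρ ^ (2 * i) * (R ^ 2 / lam + 1 + 2 * (4 * R ^ 2 / lam + 1)) + 3 := by ring
    _ ≤ ρ ^ (2 * i) * (R ^ 2 / lam + 1 + 2 * (4 * R ^ 2 / lam + 1)) + ρ ^ (2 * i) * 3 := by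
        nlinarith
    _ = _ := by ring

/-- The choice of the base scale `R` and of the number `K` of levels. -/
theorem choose_scale {ρ L : ℕ} (hρ : 2 ≤ ρ) (hL : ρ * (Nat.sqrt (12 * ρ ^ 2 * L) + 1) ≤ L) :
    ∃ K R : ℕ, ρ ^ (K + 1) * R ≤ L ∧ L ≤ 2 * (ρ * (ρ ^ K * R)) ∧ 12 * ρ ^ 2 * L ≤ R ^ 2 ∧
      R ≤ ρ * (Nat.sqrt (12 * ρ ^ 2 * L) + 1) ∧ ρ ^ K ≤ L := by
  set s := Nat.sqrt (12 * ρ ^ 2 * L) + 1 with hs
  have hs0 : 0 < s := Nat.succ_pos _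
  have hρs : 0 < ρ * s := by positivity
  have hq : L / (ρ * s) ≠ 0 := by
    have : 1 ≤ L / (ρ * s) := (Nat.le_div_iff_mul_le hρs).mpr (by rw [one_mul]; exact hL)
    omega
  set K := Nat.log ρ (L / (ρ * s)) with hK
  have h1 : ρ ^ K ≤ L / (ρ * s) := Nat.pow_log_le_self ρ hq
  have h2 : L / (ρ * s) < ρ ^ (K + 1) := Nat.lt_pow_succ_log_self (by omega) _
  have h1' : ρ ^ (K + 1) * s ≤ L := by
    calc ρ ^ (K + 1) * s = ρ ^ K * (ρ * s) := by ring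
      _ ≤ L := (Nat.le_div_iff_mul_le hρs).mp h1
  have h2' : L < ρ ^ (K + 1) * (ρ * s) := (Nat.div_lt_iff_lt_mul hρs).mp h2
  have hP : 0 < ρ ^ (K + 1) := by positivity
  refine ⟨K, L / ρ ^ (K + 1), Nat.mul_div_le L _, ?_, ?_, ?_, ?_⟩
  · have hR1 : 1 ≤ L / ρ ^ (K + 1) := by
      rw [Nat.le_div_iff_mul_le hP, one_mul]
      calc ρ ^ (K + 1) = ρ ^ (K + 1) * 1 := (mul_one _).symm
        _ ≤ ρ ^ (K + 1) * s := Nat.mul_le_mul_left _ hs0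
        _ ≤ L := h1'
    have h3 := (Nat.lt_mul_div_succ L hP).le
    calc L ≤ ρ ^ (K + 1) * (L / ρ ^ (K + 1) + 1) := h3
      _ ≤ ρ ^ (K + 1) * (2 * (L / ρ ^ (K + 1))) := Nat.mul_le_mul_left _ (by omega)
      _ = 2 * (ρ * (ρ ^ K * (L / ρ ^ (K + 1)))) := by ring
  · have hsR : s ≤ L / ρ ^ (K + 1) := by
      rw [Nat.le_div_iff_mul_le hP, mul_comm]; exact h1'
    calc 12 * ρ ^ 2 * L ≤ s ^ 2 := by
          have := (Nat.lt_succ_sqrt' (12 * ρ ^ 2 * L)).le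
          exact this
      _ ≤ _ := Nat.pow_le_pow_left hsR 2
  · have : L / ρ ^ (K + 1) < ρ * s := by
      rw [Nat.div_lt_iff_lt_mul hP, mul_comm]; exact h2'
    exact this.le
  · exact h1.trans (Nat.div_le_self _ _)

lemma bb_mul_le {lam R : ℕ} : bb lam R * lam ≤ 9 * R ^ 2 + 3 * lam := by
  have e1 := mul_div_le' (R ^ 2) lam
  have e2 := mul_div_le' (4 * R ^ 2) lam
  calc bb lam R * lam = lam * (R ^ 2 / lam) + 2 * (lam * (4 * R ^ 2 / lam)) + 3 * lam := by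
        unfold bb; ring
    _ ≤ R ^ 2 + 2 * (4 * R ^ 2) + 3 * lam := by gcongr
    _ = _ := by ring

/-- The squares fit in the torus. -/
lemma fits {ρ L K R : ℕ} (hρ : 0 < ρ) (hR : 0 < R) (h1 : ρ ^ (K + 1) * R ≤ L)
    (h3 : 12 * ρ ^ 2 * L ≤ R ^ 2) (hL : 0 < L) :
    ρ ^ 2 * (ρ ^ (2 * K) * (ρ ^ 2 * (bb (18 * ρ ^ 2 * L) R + 3))) ≤ L := by
  set b := bb (18 * ρ ^ 2 * L) R with hb
  have e1 : (b + 3) * (18 * ρ ^ 2 * L) ≤ 18 * R ^ 2 := by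
    have := bb_mul_le (lam := 18 * ρ ^ 2 * L) (R := R)
    calc (b + 3) * (18 * ρ ^ 2 * L) = b * (18 * ρ ^ 2 * L) + 3 * (18 * ρ ^ 2 * L) := by ring
      _ ≤ (9 * R ^ 2 + 3 * (18 * ρ ^ 2 * L)) + 3 * (18 * ρ ^ 2 * L) := by gcongr
      _ = 9 * R ^ 2 + 9 * (12 * ρ ^ 2 * L) := by ring
      _ ≤ 9 * R ^ 2 + 9 * R ^ 2 := by gcongr
      _ = _ := by ring
  have e2 : (b + 3) * (ρ ^ 2 * L) ≤ R ^ 2 := by
    have : 18 * ((b + 3) * (ρ ^ 2 * L)) ≤ 18 * R ^ 2 := by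
      calc 18 * ((b + 3) * (ρ ^ 2 * L)) = (b + 3) * (18 * ρ ^ 2 * L) := by ring
        _ ≤ _ := e1
    omega
  have e3 : ρ ^ 2 * (ρ ^ (2 * K) * (ρ ^ 2 * (b + 3))) * (R ^ 2 * L) ≤ L * (R ^ 2 * L) := by
    calc ρ ^ 2 * (ρ ^ (2 * K) * (ρ ^ 2 * (b + 3))) * (R ^ 2 * L)
        = (ρ ^ (K + 1) * R) ^ 2 * ((b + 3) * (ρ ^ 2 * L)) := by ring
      _ ≤ L ^ 2 * R ^ 2 := Nat.mul_le_mul (Nat.pow_le_pow_left h1 2) e2
      _ = L * (R ^ 2 * L) := by ring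
  exact Nat.le_of_mul_le_mul_right e3 (by positivity)

end Pool.Agent.PepsY
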