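import Pool.Agent.PepsY.Defs

/-!
# YA1, YA2: a routed network is a PEPO; a PEPO applied to a PEPS
-/

open Finset

set_option autoImplicit false
set_option linter.unusedSectionVars false

namespace Pool.Agent.PepsY

open Pool.Agent.PEPS953 Pool.Agent.PepsY

variable {L d : ℕ} [NeZero L]

/-- The assignment `x`, replaced by the default value outside `S`. -/
def rmask {sk : Skel L} (z : sk.Asg) (S : Finset sk.ι) (x : sk.Asg) : sk.Asg :=
  fun i => if i ∈ S then x i else z i

lemma rmask_mem {sk : Skel L} {z : sk.Asg} {S : Finset sk.ι} {x : sk.Asg} {i : sk.ι} (h : i ∈ S) :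
    rmask z S x i = x i := if_pos h

lemma rmask_not_mem {sk : Skel L} {z : sk.Asg} {S : Finset sk.ι} {x : sk.Asg} {i : sk.ι}
    (h : i ∉ S) : rmask z S x i = z i := if_neg h

/-- A code for the values of the variables in `S`. -/
lemma exists_code {B : ℕ} (sk : Skel L) (S : Finset sk.ι) (h : ∏ i ∈ S, sk.k i ≤ B) :
    ∃ c : sk.Asg → Fin B, ∀ x y, c x = c y → ∀ i ∈ S, x i = y i := by
  classical
  have h1 : Fintype.card (∀ i : {i // i ∈ S}, Fin (sk.k i)) ≤ Fintype.card (Fin B) := by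
    rw [Fintype.card_pi, Fintype.card_fin]
    simp only [Fintype.card_fin]
    rw [← Finset.prod_coe_sort] at h
    exact h
  obtain ⟨g⟩ := Function.Embedding.nonempty_of_card_le h1
  refine ⟨fun x => g fun i => x i, fun x y hxy i hi => ?_⟩
  exact congrFun (g.injective hxy) ⟨i, hi⟩

/-- YA1: a routed network is a PEPO. -/
theorem routed_pepo {B : ℕ} (sk : Skel L) (hg : sk.Good univ B)
    (φ : Site L → Fin d → Fin d → sk.Asg → ℂ)
    (hφ : ∀ u σ σ' x x', (∀ i, u ∈ sk.K i → x i = x' i) → φ u σ σ' x = φ u σ σ' x')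
    (M : Matrix (Conf d L) (Conf d L) ℂ)
    (hM : ∀ s s', M s s' = ∑ x, ∏ u, φ u (s u) (s' u) x) : IsPEPO B M := by
  classical
  obtain ⟨N, hN⟩ : ∃ N : Site L → Finset sk.ι, N = fun u => univ.filter (fun i => u ∈ sk.K i) :=
    ⟨_, rfl⟩
  obtain ⟨R, hR⟩ : ∃ R : Site L → Finset sk.ι, R = fun u =>
    univ.filter (fun i => u ∈ sk.K i ∧ (u.1 + 1, u.2) ∈ sk.K i) := ⟨_, rfl⟩
  obtain ⟨T, hT⟩ : ∃ T : Site L → Finset sk.ι, T = fun u =>
    univ.filter (fun i => u ∈ sk.K i ∧ (u.1, u.2 + 1) ∈ sk.K i) := ⟨_, rfl⟩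
  have mN : ∀ u i, i ∈ N u ↔ u ∈ sk.K i := by intro u i; rw [hN]; simp
  have mR : ∀ u i, i ∈ R u ↔ u ∈ sk.K i ∧ (u.1 + 1, u.2) ∈ sk.K i := by
    intro u i; rw [hR]; simp
  have mT : ∀ u i, i ∈ T u ↔ u ∈ sk.K i ∧ (u.1, u.2 + 1) ∈ sk.K i := by
    intro u i; rw [hT]; simp
  have hc : ∀ u, ∃ c : sk.Asg → Fin B, ∀ x y, c x = c y → ∀ i ∈ N u, x i = y i := by
    intro u
    refine exists_code sk (N u) ?_
    rw [hN]
    exact hg.cong u
  choose c hc using hc
  obtain ⟨z, hz⟩ : ∃ z : sk.Asg, z = fun i => ⟨0, hg.pos i⟩ := ⟨_, rfl⟩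
  -- the local condition
  obtain ⟨P, hP⟩ : ∃ P : Site L → sk.Asg → Fin B → Fin B → Fin B → Fin B → Prop,
      P = fun u y a b a' b' => rmask z (N u) y = y ∧ a = c u (rmask z (R u) y) ∧
        b = c u (rmask z (T u) y) ∧ a' = c (u.1 - 1, u.2) (rmask z (R (u.1 - 1, u.2)) y) ∧
        b' = c (u.1, u.2 - 1) (rmask z (T (u.1, u.2 - 1)) y) := ⟨_, rfl⟩
  refine ⟨fun u σ σ' a b a' b' => ∑ y : sk.Asg, if P u y a b a' b' then φ u σ σ' y else 0,
    fun s s' => ?_⟩
  rw [hM]
  -- expand the product of sums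
  have h1 : ∀ a b : Site L → Fin B,
      (∏ u : Site L, ∑ y : sk.Asg, if P u y (a u) (b u) (a (u.1 - 1, u.2)) (b (u.1, u.2 - 1)) then
        φ u (s u) (s' u) y else 0) =
      ∑ Y : Site L → sk.Asg,
        if (∀ u, P u (Y u) (a u) (b u) (a (u.1 - 1, u.2)) (b (u.1, u.2 - 1))) then
          ∏ u, φ u (s u) (s' u) (Y u) else 0 := by
    intro a b
    rw [Finset.prod_univ_sum, Fintype.piFinset_univ]
    refine Finset.sum_congr rfl fun Y _ => ?_
    rw [Finset.prod_ite_zero]
    simp only [Finset.mem_univ, true_imp_iff]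
  simp_rw [h1]
  have h2 : (∑ a : Site L → Fin B, ∑ b : Site L → Fin B, ∑ Y : Site L → sk.Asg,
        if (∀ u, P u (Y u) (a u) (b u) (a (u.1 - 1, u.2)) (b (u.1, u.2 - 1))) then
          ∏ u, φ u (s u) (s' u) (Y u) else 0) =
      ∑ t : (Site L → Fin B) × (Site L → Fin B) × (Site L → sk.Asg),
        if (∀ u, P u (t.2.2 u) (t.1 u) (t.2.1 u) (t.1 (u.1 - 1, u.2)) (t.2.1 (u.1, u.2 - 1))) then
          ∏ u, φ u (s u) (s' u) (t.2.2 u) else 0 := by
    rw [Fintype.sum_prod_type]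
    refine Finset.sum_congr rfl fun a _ => ?_
    rw [Fintype.sum_prod_type]
  rw [h2]
  -- the correspondence
  obtain ⟨Yx, hYx⟩ : ∃ Yx : sk.Asg → Site L → sk.Asg, Yx = fun x u => rmask z (N u) x := ⟨_, rfl⟩
  obtain ⟨ax, hax⟩ : ∃ ax : sk.Asg → Site L → Fin B, ax = fun x u => c u (rmask z (R u) (Yx x u)) :=
    ⟨_, rfl⟩
  obtain ⟨bx, hbx⟩ : ∃ bx : sk.Asg → Site L → Fin B, bx = fun x u => c u (rmask z (T u) (Yx x u)) :=
    ⟨_, rfl⟩
  have hPx : ∀ x u, P u (Yx x u) (ax x u) (bx x u) (ax x (u.1 - 1, u.2)) (bx x (u.1, u.2 - 1)) := by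
    intro x u
    rw [hP]
    refine ⟨?_, by rw [hax], by rw [hbx], ?_, ?_⟩
    · funext i
      by_cases hi : i ∈ N u
      · rw [rmask_mem hi]
      · rw [rmask_not_mem hi, hYx]
        simp only
        rw [rmask_not_mem hi]
    · rw [hax]
      simp only
      congr 1
      funext i
      by_cases hi : i ∈ R (u.1 - 1, u.2)
      · rw [rmask_mem hi, rmask_mem hi, hYx]
        simp only
        rw [mR] at hi
        have h3 : i ∈ N (u.1 - 1, u.2) := (mN _ _).mpr hi.1
        have h4 : i ∈ N u := by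
          rw [mN]
          have := hi.2
          simpa using this
        rw [rmask_mem h3, rmask_mem h4]
      · rw [rmask_not_mem hi, rmask_not_mem hi]
    · rw [hbx]
      simp only
      congr 1
      funext i
      by_cases hi : i ∈ T (u.1, u.2 - 1)
      · rw [rmask_mem hi, rmask_mem hi, hYx]
        simp only
        rw [mT] at hi
        have h3 : i ∈ N (u.1, u.2 - 1) := (mN _ _).mpr hi.1
        have h4 : i ∈ N u := by
          rw [mN]
          have := hi.2
          simpa using this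
        rw [rmask_mem h3, rmask_mem h4]
      · rw [rmask_not_mem hi, rmask_not_mem hi]
  refine Finset.sum_of_injOn (fun x => (ax x, bx x, Yx x)) ?_ ?_ ?_ ?_
  · intro x _ x' _ hxx
    simp only [Prod.mk.injEq] at hxx
    have h3 := hxx.2.2
    funext i
    obtain ⟨u, hu⟩ := hg.ne i
    have h4 := congrFun (congrFun h3 u) i
    rw [hYx] at h4
    simp only at h4
    rw [rmask_mem ((mN u i).mpr hu), rmask_mem ((mN u i).mpr hu)] at h4
    exact h4
  · intro x _
    exact Finset.mem_coe.mpr (Finset.mem_univ _)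
  · rintro ⟨a, b, Y⟩ _ hx
    simp only
    rw [if_neg]
    intro hcond
    apply hx
    -- the common assignment
    have hadj : ∀ (i : sk.ι) (u v : Site L), u ∈ sk.K i → v ∈ sk.K i → Adj u v → Y u i = Y v i := by
      have hstep1 : ∀ (i : sk.ι) (u : Site L), u ∈ sk.K i → (u.1 + 1, u.2) ∈ sk.K i →
          Y u i = Y (u.1 + 1, u.2) i := by
        intro i u hu hv
        have e1 := hcond u
        have e2 := hcond (u.1 + 1, u.2)
        rw [hP] at e1 e2
        have e3 := e1.2.1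
        have e4 := e2.2.2.2.1
        simp only [add_sub_cancel_right] at e4
        rw [e3] at e4
        have hiN : i ∈ N u := (mN _ _).mpr hu
        have hiR : i ∈ R u := (mR _ _).mpr ⟨hu, hv⟩
        have e5 := hc u _ _ e4 i hiN
        rw [rmask_mem hiR, rmask_mem hiR] at e5
        exact e5
      have hstep2 : ∀ (i : sk.ι) (u : Site L), u ∈ sk.K i → (u.1, u.2 + 1) ∈ sk.K i →
          Y u i = Y (u.1, u.2 + 1) i := by
        intro i u hu hv
        have e1 := hcond u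
        have e2 := hcond (u.1, u.2 + 1)
        rw [hP] at e1 e2
        have e3 := e1.2.2.1
        have e4 := e2.2.2.2.2
        simp only [add_sub_cancel_right] at e4
        rw [e3] at e4
        have hiN : i ∈ N u := (mN _ _).mpr hu
        have hiT : i ∈ T u := (mT _ _).mpr ⟨hu, hv⟩
        have e5 := hc u _ _ e4 i hiN
        rw [rmask_mem hiT, rmask_mem hiT] at e5
        exact e5
      intro i u v hu hv huv
      rcases huv with h | h | h | h
      · subst h; exact hstep1 i u hu hv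
      · subst h; exact hstep2 i u hu hv
      · subst h; exact (hstep1 i v hv hu).symm
      · subst h; exact (hstep2 i v hv hu).symm
    have hconst : ∀ (i : sk.ι) (u v : Site L), u ∈ sk.K i → v ∈ sk.K i → Y u i = Y v i := by
      intro i u v hu hv
      have hpath := hg.conn i u hu v hv
      induction hpath with
      | refl => rfl
      | tail _ hbc ih =>
        rw [ih hbc.1]
        exact hadj i _ _ hbc.1 hbc.2.1 hbc.2.2
    choose r hr using hg.ne
    obtain ⟨x, hxdef⟩ : ∃ x : sk.Asg, x = fun i => Y (r i) i := ⟨_, rfl⟩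
    have hY : ∀ u, Yx x u = Y u := by
      intro u
      rw [hYx]
      funext i
      by_cases hi : i ∈ N u
      · simp only
        rw [rmask_mem hi, hxdef]
        exact hconst i _ _ (hr i) ((mN u i).mp hi)
      · simp only
        rw [rmask_not_mem hi]
        have e1 := hcond u
        rw [hP] at e1
        have e2 := congrFun e1.1 i
        rw [rmask_not_mem hi] at e2
        exact e2
    refine ⟨x, Finset.mem_coe.mpr (Finset.mem_univ _), ?_⟩
    simp only [Prod.mk.injEq]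
    refine ⟨?_, ?_, funext hY⟩
    · funext u
      rw [hax]
      simp only
      rw [hY u]
      have e1 := hcond u
      rw [hP] at e1
      exact e1.2.1.symm
    · funext u
      rw [hbx]
      simp only
      rw [hY u]
      have e1 := hcond u
      rw [hP] at e1
      exact e1.2.2.1.symm
  · intro x _
    simp only
    rw [if_pos (hPx x)]
    refine Finset.prod_congr rfl fun u _ => ?_
    refine hφ _ _ _ _ _ fun i hi => ?_
    rw [hYx]
    simp only
    rw [rmask_mem ((mN u i).mpr hi)]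

/-- YA2: a PEPO applied to a PEPS. -/
theorem pepo_apply {D₀ B : ℕ} {M : Matrix (Conf d L) (Conf d L) ℂ} (hM : IsPEPO B M) {Φ₀ : Hil d L}
    (hΦ : IsPEPS D₀ Φ₀) (ψ : Hil d L) (hψ : ∀ s, ψ s = ∑ f, M s f * Φ₀ f) :
    IsPEPS (D₀ * B) ψ := by
  classical
  obtain ⟨A, hA⟩ := hM
  obtain ⟨A₀, hA₀⟩ := hΦ
  have hcard : Fintype.card (Fin D₀ × Fin B) = D₀ * B := by
    simp [Fintype.card_prod]
  rw [← hcard]
  apply IsPEPSL.isPEPS
  refine ⟨fun u σ a b a' b' => ∑ τ : Fin d, A u σ τ a.2 b.2 a'.2 b'.2 *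
    A₀ u τ a.1 b.1 a'.1 b'.1, fun s => ?_⟩
  rw [hψ s]
  set e := (Equiv.arrowProdEquivProdArrow (Site L) (fun _ => Fin D₀) (fun _ => Fin B)).symm with he
  have hE : ∀ (a : Site L → Fin D₀) (α : Site L → Fin B) (u : Site L), e (a, α) u = (a u, α u) :=
    fun _ _ _ => rfl
  have h1 : ∀ (a b : Site L → Fin D₀ × Fin B),
      (∏ u : Site L, ∑ τ : Fin d, A u (s u) τ (a u).2 (b u).2 (a (u.1 - 1, u.2)).2
        (b (u.1, u.2 - 1)).2 * A₀ u τ (a u).1 (b u).1 (a (u.1 - 1, u.2)).1 (b (u.1, u.2 - 1)).1) =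
      ∑ f : Site L → Fin d, (∏ u : Site L, A u (s u) (f u) (a u).2 (b u).2 (a (u.1 - 1, u.2)).2
        (b (u.1, u.2 - 1)).2) * ∏ u : Site L, A₀ u (f u) (a u).1 (b u).1 (a (u.1 - 1, u.2)).1
          (b (u.1, u.2 - 1)).1 := by
    intro a b
    rw [Finset.prod_univ_sum, Fintype.piFinset_univ]
    refine Finset.sum_congr rfl fun f _ => ?_
    rw [Finset.prod_mul_distrib]
  simp_rw [h1]
  have h2 : ∀ a : Site L → Fin D₀ × Fin B,
      (∑ b : Site L → Fin D₀ × Fin B, ∑ f : Site L → Fin d,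
        (∏ u : Site L, A u (s u) (f u) (a u).2 (b u).2 (a (u.1 - 1, u.2)).2
        (b (u.1, u.2 - 1)).2) * ∏ u : Site L, A₀ u (f u) (a u).1 (b u).1 (a (u.1 - 1, u.2)).1
          (b (u.1, u.2 - 1)).1) =
      ∑ f : Site L → Fin d, ∑ b : Site L → Fin D₀ × Fin B,
        (∏ u : Site L, A u (s u) (f u) (a u).2 (b u).2 (a (u.1 - 1, u.2)).2
        (b (u.1, u.2 - 1)).2) * ∏ u : Site L, A₀ u (f u) (a u).1 (b u).1 (a (u.1 - 1, u.2)).1
          (b (u.1, u.2 - 1)).1 := fun a => Finset.sum_comm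
  simp_rw [h2]
  rw [Finset.sum_comm]
  refine Finset.sum_congr rfl fun f _ => ?_
  rw [hA s f, hA₀ f]
  rw [← e.sum_comp, Fintype.sum_prod_type]
  have h3 : ∀ (a : Site L → Fin D₀) (α : Site L → Fin B),
      (∑ b : Site L → Fin D₀ × Fin B,
        (∏ u : Site L, A u (s u) (f u) (e (a, α) u).2 (b u).2 (e (a, α) (u.1 - 1, u.2)).2
        (b (u.1, u.2 - 1)).2) * ∏ u : Site L, A₀ u (f u) (e (a, α) u).1 (b u).1
          (e (a, α) (u.1 - 1, u.2)).1 (b (u.1, u.2 - 1)).1) =
      ∑ b : Site L → Fin D₀, ∑ β : Site L → Fin B,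
        (∏ u : Site L, A u (s u) (f u) (α u) (β u) (α (u.1 - 1, u.2)) (β (u.1, u.2 - 1))) *
          ∏ u : Site L, A₀ u (f u) (a u) (b u) (a (u.1 - 1, u.2)) (b (u.1, u.2 - 1)) := by
    intro a α
    rw [← e.sum_comp, Fintype.sum_prod_type]
    rfl
  simp_rw [h3]
  rw [Finset.sum_mul_sum]
  rw [Finset.sum_comm]
  refine Finset.sum_congr rfl fun a _ => Finset.sum_congr rfl fun α _ => ?_
  rw [Finset.sum_mul_sum, Finset.sum_comm]

end Pool.Agent.PepsY
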