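import Pool.Agent.PepsY.Blocks
import Pool.Agent.PepsX.TermPeps

/-!
# Characterization of greedy cuts by conditions on the slices (package YB3)
-/

open Finset

set_option autoImplicit false
set_option linter.unusedSectionVars false

namespace Pool.Agent.PepsY

open Pool.Agent.PEPS953 Pool.Agent.PepsX

theorem nxt_gt {N : ℕ} (D : Finset ℕ) {a : ℕ} (ha : a < N) : a < nxt N D a := by
  have h := min'_mem (insert N (D.filter fun x => a < x)) (by simp)
  rw [mem_insert, mem_filter] at h
  unfold nxt
  rcases h with h | h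
  · rw [h]; exact ha
  · exact h.2

theorem nxt_le (N : ℕ) (D : Finset ℕ) (a : ℕ) : nxt N D a ≤ N :=
  min'_le _ _ (mem_insert_self _ _)

theorem nxt_le_of_mem {N : ℕ} {D : Finset ℕ} {a x : ℕ} (hx : x ∈ D) (hax : a < x) : nxt N D a ≤ x :=
  min'_le _ _ (mem_insert_of_mem (mem_filter.2 ⟨hx, hax⟩))

theorem nxt_eq_or_mem (N : ℕ) (D : Finset ℕ) (a : ℕ) : nxt N D a = N ∨ nxt N D a ∈ D := by
  have h := min'_mem (insert N (D.filter fun x => a < x)) (by simp)
  rw [mem_insert, mem_filter] at h
  rcases h with h | h
  · exact Or.inl h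
  · exact Or.inr h.1

/-- `a` is the greatest element of `D` (or zero) below `t` for `a ≤ t < nxt N D a` -/
theorem sst_of_lt_nxt {N : ℕ} {D : Finset ℕ} {a t : ℕ} (ha : a ∈ insert 0 D) (hat : a ≤ t)
    (htn : t < nxt N D a) : sst D t = a := by
  refine le_antisymm ?_ ?_
  · by_contra hlt
    rw [not_le] at hlt
    rcases sst_zero_or_mem D t with h | h
    · omega
    · have h1 := nxt_le_of_mem (N := N) h hlt
      have h2 := sst_le D t
      omega
  · rcases mem_insert.1 ha with rfl | h
    · exact Nat.zero_le _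
    · exact le_sst h hat

theorem sum_Icc_eq_Ico (l : ℕ → ℕ) (a t : ℕ) : ∑ x ∈ Icc a t, l x = ∑ x ∈ Ico a (t + 1), l x := by
  congr 1

/-- YB3: characterization of greedy cuts by conditions on the slices. -/
theorem greedy_iff_slices (N B : ℕ) (hN : 0 < N) (hB : 0 < B) (l : ℕ → ℕ) (D : Finset ℕ)
    (hD : D ⊆ Ico 1 N) : Greedy N B l D ↔ ∀ a ∈ insert 0 D,
      ∑ x ∈ Ico a (nxt N D a - 1), l x < B ∧
        (nxt N D a = N ∨ B ≤ ∑ x ∈ Ico a (nxt N D a), l x) := by
  have hlt : ∀ a ∈ insert 0 D, a < N := by
    intro a ha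
    rcases mem_insert.1 ha with rfl | h
    · exact hN
    · exact (mem_Ico.1 (hD h)).2
  constructor
  · rintro ⟨-, hG⟩ a ha
    have h1 := nxt_gt D (hlt a ha)
    have h2 := nxt_le N D a
    constructor
    · rcases Nat.lt_or_ge (a + 1) (nxt N D a) with h3 | h3
      · have h4 := hG (nxt N D a - 2) (by omega)
        rw [sst_of_lt_nxt (N := N) ha (by omega) (by omega), sum_Icc_eq_Ico,
          show nxt N D a - 2 + 1 = nxt N D a - 1 by omega] at h4
        rw [← not_le, ← h4]
        intro h5
        have := nxt_le_of_mem (N := N) (a := a) h5 (by omega)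
        omega
      · rw [Ico_eq_empty (by omega), sum_empty]
        exact hB
    · rcases nxt_eq_or_mem N D a with h3 | h3
      · exact Or.inl h3
      · right
        have h4 := (mem_Ico.1 (hD h3)).2
        have h5 := hG (nxt N D a - 1) (by omega)
        rw [sst_of_lt_nxt (N := N) ha (by omega) (by omega), sum_Icc_eq_Ico,
          show nxt N D a - 1 + 1 = nxt N D a by omega] at h5
        exact h5.1 h3
  · intro H
    refine ⟨hD, fun t ht => ?_⟩
    have ha : sst D t ∈ insert 0 D := by
      rw [mem_insert]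
      exact sst_zero_or_mem D t
    have h1 : t < nxt N D (sst D t) := by
      rcases nxt_eq_or_mem N D (sst D t) with h | h
      · omega
      · by_contra hcon
        have h2 := le_sst h (not_lt.1 hcon)
        have h3 := nxt_gt D (hlt _ ha)
        omega
    obtain ⟨H1, H2⟩ := H _ ha
    have h0 := sst_le D t
    rw [sum_Icc_eq_Ico]
    constructor
    · intro h2
      have h3 : nxt N D (sst D t) = t + 1 :=
        le_antisymm (nxt_le_of_mem h2 (by omega)) h1
      rw [h3] at H2
      rcases H2 with h4 | h4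
      · omega
      · exact h4
    · intro h2
      by_contra h3
      have h4 : t + 2 ≤ nxt N D (sst D t) := by
        rcases nxt_eq_or_mem N D (sst D t) with h | h
        · omega
        · have : nxt N D (sst D t) ≠ t + 1 := fun he => h3 (he ▸ h)
          omega
      have h5 : ∑ x ∈ Ico (sst D t) (t + 1), l x ≤ ∑ x ∈ Ico (sst D t) (nxt N D (sst D t) - 1), l x :=
        sum_le_sum_of_subset (Ico_subset_Ico_right (by omega))
      omega

end Pool.Agent.PepsY
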