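import Pool.Agent.PepsY.Routed
import Pool.Agent.PepsY.Conn

/-!
# Part A: the top level
-/

open Finset

set_option autoImplicit false
set_option linter.unusedSectionVars false
set_option linter.unusedVariables false

namespace Pool.Agent.PepsY

open Pool.Agent.PEPS953

variable {L d : ℕ} [NeZero L]

/-- The row and the column of a track. -/
def topIdx (S' : ℕ) {m b' : ℕ} (a : Trk m b') : ℕ := (a.2.1 : ℕ) * S' + (a.1 * b' + a.2.2)

/-- The whole row `y`. -/
def topRow (L y : ℕ) : Finset (Site L) := (Ico 0 L).image fun x => tile L 0 0 x y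

/-- The whole column `x`. -/
def topCol (L x : ℕ) : Finset (Site L) := (Ico 0 L).image fun y => tile L 0 0 x y

/-- The tap of a track. -/
def topTap (L S' : ℕ) {m b' : ℕ} (a : Trk m b') : Finset (Site L) :=
  (Ico ((a.2.1 : ℕ) * S') (topIdx S' a + 1)).image fun x => tile L 0 0 x (a.1 * S' + a.2.2)

/-- The route of a track. -/
def topRoute (L S' : ℕ) {m b' : ℕ} (a : Trk m b') : Finset (Site L) :=
  (topRow L (topIdx S' a) ∪ topCol L (topIdx S' a)) ∪ topTap L S' a

private lemma top_cast_eq_iff {n : ℕ} (hn : n < L) (v : ZMod L) : ((n : ℕ) : ZMod L) = v ↔ n = v.val := by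
  constructor
  · rintro rfl
    rw [ZMod.val_cast_of_lt hn]
  · rintro rfl
    exact ZMod.natCast_zmod_val v

private lemma mem_topRow (y : ℕ) (u : Site L) : u ∈ topRow L y ↔ u.2 = ((y : ℕ) : ZMod L) := by
  unfold topRow tile
  simp only [mem_image, mem_Ico, Nat.zero_le, true_and, zero_add]
  constructor
  · rintro ⟨x, _, rfl⟩
    rfl
  · intro h
    refine ⟨u.1.val, ZMod.val_lt _, ?_⟩
    rw [ZMod.natCast_zmod_val, ← h]

private lemma mem_topCol (x : ℕ) (u : Site L) : u ∈ topCol L x ↔ u.1 = ((x : ℕ) : ZMod L) := by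
  unfold topCol tile
  simp only [mem_image, mem_Ico, Nat.zero_le, true_and, zero_add]
  constructor
  · rintro ⟨y, _, rfl⟩
    rfl
  · intro h
    refine ⟨u.2.val, ZMod.val_lt _, ?_⟩
    rw [ZMod.natCast_zmod_val, ← h]

private lemma mem_topTap (S' : ℕ) {m b' : ℕ} (a : Trk m b') (u : Site L) :
    u ∈ topTap L S' a ↔ ∃ x, (a.2.1 : ℕ) * S' ≤ x ∧ x ≤ topIdx S' a ∧
      u = ((x : ZMod L), ((a.1 * S' + a.2.2 : ℕ) : ZMod L)) := by
  unfold topTap tile
  simp only [mem_image, mem_Ico, zero_add]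
  constructor
  · rintro ⟨x, ⟨h1, h2⟩, rfl⟩
    exact ⟨x, h1, by omega, rfl⟩
  · rintro ⟨x, h1, h2, rfl⟩
    exact ⟨x, ⟨h1, by omega⟩, rfl⟩

private lemma mem_topSquare (X Y S : ℕ) (u : Site L) :
    u ∈ square L X Y S ↔ ∃ x y, x < S ∧ y < S ∧ u = (((X + x : ℕ) : ZMod L), ((Y + y : ℕ) : ZMod L)) := by
  unfold square tile
  simp only [mem_image, mem_product, mem_range, Prod.exists]
  constructor
  · rintro ⟨x, y, ⟨h1, h2⟩, rfl⟩
    exact ⟨x, y, h1, h2, rfl⟩
  · rintro ⟨x, y, h1, h2, rfl⟩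
    exact ⟨x, y, ⟨h1, h2⟩, rfl⟩

/-- The skeleton of the top level. -/
def topSkel (L d S' b' q : ℕ) [NeZero L] {m : ℕ} (sk : Fin m × Fin m → Skel L) : Skel L where
  ι := Trk m b' ⊕ ((Σ pp : Fin m × Fin m, (sk pp).ι) ⊕ (ZMod L ⊕ ZMod L))
  fin := inferInstance
  dec := inferInstance
  k := Sum.elim (fun _ => q) (Sum.elim (fun j => (sk j.1).k j.2) (fun _ => d ^ L))
  K := Sum.elim (fun a => topRoute L S' a) (Sum.elim (fun j => (sk j.1).K j.2)
    (Sum.elim (fun y => topRow L y.val) (fun y => topRow L y.val)))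

/-- The assignments of the skeleton of the top level. -/
def topAsg (L d S' b' q : ℕ) [NeZero L] {m : ℕ} (sk : Fin m × Fin m → Skel L) :
    (topSkel L d S' b' q sk).Asg ≃ (Trk m b' → Fin q) × (∀ pp, (sk pp).Asg) ×
      (ZMod L → Fin (d ^ L)) × (ZMod L → Fin (d ^ L)) where
  toFun X := (fun a => X (.inl a), fun pp i => X (.inr (.inl ⟨pp, i⟩)),
    fun y => X (.inr (.inr (.inl y))), fun y => X (.inr (.inr (.inr y))))
  invFun t := fun i => match i with
    | .inl a => t.1 a
    | .inr (.inl j) => t.2.1 j.1 j.2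
    | .inr (.inr (.inl y)) => t.2.2.1 y
    | .inr (.inr (.inr y)) => t.2.2.2 y
  left_inv X := by
    funext i
    rcases i with a | ⟨⟨a, b⟩⟩ | y | y <;> rfl
  right_inv t := rfl

private lemma topIdx_lt {S' b' m : ℕ} (h1 : m * S' ≤ L) (h2 : m * b' ≤ S') (a : Trk m b') :
    (a.1 : ℕ) * b' + a.2.2 < S' ∧ topIdx S' a < L ∧ (a.2.2 : ℕ) < S' ∧
      (a.1 : ℕ) * S' + a.2.2 < L := by
  obtain ⟨p, p', i⟩ := a
  have hp := p.isLt
  have hp' := p'.isLt
  have hi := i.isLt
  have e1 : ((p : ℕ) + 1) * b' ≤ m * b' := Nat.mul_le_mul_right _ hp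
  have e2 : ((p' : ℕ) + 1) * S' ≤ m * S' := Nat.mul_le_mul_right _ hp'
  have e3 : ((p : ℕ) + 1) * S' ≤ m * S' := Nat.mul_le_mul_right _ hp
  rw [Nat.add_mul, Nat.one_mul] at e1 e2 e3
  refine ⟨?_, ?_, ?_, ?_⟩
  · change (p : ℕ) * b' + i < S'
    omega
  · change (p' : ℕ) * S' + (p * b' + i) < L
    omega
  · change (i : ℕ) < S'
    omega
  · change (p : ℕ) * S' + i < L
    have : (i : ℕ) < S' := by omega
    omega

private lemma top_div_unique {S a b x y : ℕ} (hx : x < S) (hy : y < S) (h : a * S + x = b * S + y) :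
    a = b ∧ x = y := by
  have hS : 0 < S := by omega
  have h1 : (a * S + x) / S = a := by
    rw [Nat.add_comm, Nat.add_mul_div_right _ _ hS, Nat.div_eq_of_lt hx, Nat.zero_add]
  have h2 : (b * S + y) / S = b := by
    rw [Nat.add_comm, Nat.add_mul_div_right _ _ hS, Nat.div_eq_of_lt hy, Nat.zero_add]
  have h3 : a = b := by rw [← h1, h, h2]
  subst h3
  exact ⟨rfl, by omega⟩

private lemma topIdx_inj {S' b' m : ℕ} (h1 : m * S' ≤ L) (h2 : m * b' ≤ S') (a a' : Trk m b')
    (h : topIdx S' a = topIdx S' a') : a = a' := by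
  have ha := (topIdx_lt (L := L) h1 h2 a).1
  have ha' := (topIdx_lt (L := L) h1 h2 a').1
  obtain ⟨e1, e2⟩ := top_div_unique ha ha' h
  obtain ⟨e3, e4⟩ := top_div_unique a.2.2.isLt a'.2.2.isLt e2
  exact Prod.ext (Fin.ext e3) (Prod.ext (Fin.ext e1) (Fin.ext e4))

private lemma card_route {S' b' m : ℕ} (h1 : m * S' ≤ L) (h2 : m * b' ≤ S') (u : Site L) :
    (univ.filter fun a : Trk m b' => u ∈ topRoute L S' a).card ≤ 3 := by
  classical
  have hsub : (univ.filter fun a : Trk m b' => u ∈ topRoute L S' a) ⊆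
      ((univ.filter fun a : Trk m b' => u ∈ topRow L (topIdx S' a)) ∪
      (univ.filter fun a : Trk m b' => u ∈ topCol L (topIdx S' a))) ∪
      (univ.filter fun a : Trk m b' => u ∈ topTap L S' a) := by
    intro a ha
    simp only [topRoute, mem_filter, mem_univ, true_and, mem_union] at ha ⊢
    exact ha
  have c1 : (univ.filter fun a : Trk m b' => u ∈ topRow L (topIdx S' a)).card ≤ 1 := by
    rw [card_le_one]
    intro a ha a' ha'
    simp only [mem_filter, mem_univ, true_and, mem_topRow] at ha ha'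
    have e1 := (top_cast_eq_iff (topIdx_lt h1 h2 a).2.1 u.2).1 ha.symm
    have e2 := (top_cast_eq_iff (topIdx_lt h1 h2 a').2.1 u.2).1 ha'.symm
    exact topIdx_inj h1 h2 a a' (e1.trans e2.symm)
  have c2 : (univ.filter fun a : Trk m b' => u ∈ topCol L (topIdx S' a)).card ≤ 1 := by
    rw [card_le_one]
    intro a ha a' ha'
    simp only [mem_filter, mem_univ, true_and, mem_topCol] at ha ha'
    have e1 := (top_cast_eq_iff (topIdx_lt h1 h2 a).2.1 u.1).1 ha.symm
    have e2 := (top_cast_eq_iff (topIdx_lt h1 h2 a').2.1 u.1).1 ha'.symm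
    exact topIdx_inj h1 h2 a a' (e1.trans e2.symm)
  have c3 : (univ.filter fun a : Trk m b' => u ∈ topTap L S' a).card ≤ 1 := by
    rw [card_le_one]
    intro a ha a' ha'
    simp only [mem_filter, mem_univ, true_and, mem_topTap] at ha ha'
    obtain ⟨x, hx1, hx2, hx3⟩ := ha
    obtain ⟨x', hx1', hx2', hx3'⟩ := ha'
    obtain ⟨g1, g2, g3, g4⟩ := topIdx_lt (L := L) h1 h2 a
    obtain ⟨g1', g2', g3', g4'⟩ := topIdx_lt (L := L) h1 h2 a'
    have k1 : x = u.1.val := (top_cast_eq_iff (lt_of_le_of_lt hx2 g2) u.1).1 (by rw [hx3])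
    have k1' : x' = u.1.val := (top_cast_eq_iff (lt_of_le_of_lt hx2' g2') u.1).1 (by rw [hx3'])
    have k2 : (a.1 : ℕ) * S' + a.2.2 = u.2.val := (top_cast_eq_iff g4 u.2).1 (by rw [hx3])
    have k2' : (a'.1 : ℕ) * S' + a'.2.2 = u.2.val := (top_cast_eq_iff g4' u.2).1 (by rw [hx3'])
    obtain ⟨e1, e2⟩ := top_div_unique g3 g3' (k2.trans k2'.symm)
    unfold topIdx at hx2 hx2'
    obtain ⟨z, hz⟩ := Nat.exists_eq_add_of_le hx1
    obtain ⟨z', hz'⟩ := Nat.exists_eq_add_of_le hx1'
    have e3 : (a.2.1 : ℕ) = a'.2.1 := by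
      refine (top_div_unique (S := S') (x := z) (y := z') ?_ ?_ ?_).1
      · omega
      · omega
      · rw [← hz, ← hz', k1, k1']
    exact Prod.ext (Fin.ext e1) (Prod.ext (Fin.ext e3) (Fin.ext e2))
  calc _ ≤ _ := card_le_card hsub
    _ ≤ _ := card_union_le _ _
    _ ≤ _ := Nat.add_le_add_right (card_union_le _ _) _
    _ ≤ 3 := by omega

private lemma square_unique {S' m : ℕ} (h1 : m * S' ≤ L) (u : Site L) (pp pp' : Fin m × Fin m)
    (h : u ∈ square L (pp.2 * S') (pp.1 * S') S') (h' : u ∈ square L (pp'.2 * S') (pp'.1 * S') S') :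
    pp = pp' := by
  rw [mem_topSquare] at h h'
  obtain ⟨x, y, hx, hy, hu⟩ := h
  obtain ⟨x', y', hx', hy', hu'⟩ := h'
  have key : ∀ (p : Fin m) (z : ℕ), z < S' → (p : ℕ) * S' + z < L := by
    intro p z hz
    have e2 : ((p : ℕ) + 1) * S' ≤ m * S' := Nat.mul_le_mul_right _ p.isLt
    rw [Nat.add_mul, Nat.one_mul] at e2
    omega
  have k1 := (top_cast_eq_iff (key pp.2 x hx) u.1).1 (by rw [hu])
  have k1' := (top_cast_eq_iff (key pp'.2 x' hx') u.1).1 (by rw [hu'])
  have k2 := (top_cast_eq_iff (key pp.1 y hy) u.2).1 (by rw [hu])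
  have k2' := (top_cast_eq_iff (key pp'.1 y' hy') u.2).1 (by rw [hu'])
  exact Prod.ext (Fin.ext (top_div_unique hy hy' (k2.trans k2'.symm)).1)
    (Fin.ext (top_div_unique hx hx' (k1.trans k1'.symm)).1)

private lemma topSkel_good {S' b' m q B : ℕ} (hd : 0 < d) (hq : 0 < q) (hB : 0 < B)
    (h1 : m * S' ≤ L) (h2 : m * b' ≤ S') (sk : Fin m × Fin m → Skel L)
    (hsk : ∀ pp, (sk pp).Good (square L (pp.2 * S') (pp.1 * S') S') B) :
    (topSkel L d S' b' q sk).Good univ (d ^ L * d ^ L * (q ^ 3 * B)) := by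
  classical
  have hL : 0 < L := Nat.pos_of_ne_zero (NeZero.ne L)
  have hrow : ∀ y, (topRow L y).Nonempty := fun y =>
    ⟨(0, (y : ZMod L)), by rw [mem_topRow]⟩
  refine ⟨?_, ?_, ?_, ?_, ?_⟩
  · rintro (a | j | y | y)
    · exact hq
    · exact (hsk j.1).pos j.2
    · exact Nat.pow_pos hd
    · exact Nat.pow_pos hd
  · rintro (a | j | y | y)
    · exact (((hrow _).mono subset_union_left).mono subset_union_left)
    · exact (hsk j.1).ne j.2
    · exact hrow _
    · exact hrow _
  · intro i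
    exact subset_univ _
  · rintro (a | j | y | y)
    · change Conn (topRoute L S' a)
      have hu1 : ((topIdx S' a : ZMod L), (topIdx S' a : ZMod L)) ∈ topRow L (topIdx S' a) := by
        rw [mem_topRow]
      have hu2 : ((topIdx S' a : ZMod L), (topIdx S' a : ZMod L)) ∈ topCol L (topIdx S' a) := by
        rw [mem_topCol]
      have hu3 : ((topIdx S' a : ZMod L), ((a.1 * S' + a.2.2 : ℕ) : ZMod L)) ∈
          topCol L (topIdx S' a) := by
        rw [mem_topCol]
      have hu4 : ((topIdx S' a : ZMod L), ((a.1 * S' + a.2.2 : ℕ) : ZMod L)) ∈ topTap L S' a := by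
        rw [mem_topTap]
        exact ⟨topIdx S' a, Nat.le_add_right _ _, le_rfl, rfl⟩
      exact conn_union _ _ (conn_union _ _ (conn_row _ _ _ _ _) (conn_col _ _ _ _ _) _ hu1 hu2)
        (conn_row _ _ _ _ _) _ (mem_union_right _ hu3) hu4
    · exact (hsk j.1).conn j.2
    · exact conn_row _ _ _ _ _
    · exact conn_row _ _ _ _ _
  · intro u
    rw [prod_filter]
    change ∏ i : Trk m b' ⊕ ((Σ pp : Fin m × Fin m, (sk pp).ι) ⊕ (ZMod L ⊕ ZMod L)), _ ≤ _
    rw [Fintype.prod_sum_type, Fintype.prod_sum_type, Fintype.prod_sum_type]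
    have t1 : (∏ a : Trk m b', if u ∈ topRoute L S' a then q else 1) ≤ q ^ 3 := by
      rw [← prod_filter, prod_const]
      exact Nat.pow_le_pow_right hq (card_route h1 h2 u)
    have t2 : (∏ j : (Σ pp : Fin m × Fin m, (sk pp).ι), if u ∈ (sk j.1).K j.2 then
        (sk j.1).k j.2 else 1) ≤ B := by
      rw [← univ_sigma_univ, prod_sigma]
      change (∏ pp : Fin m × Fin m, ∏ i : (sk pp).ι, if u ∈ (sk pp).K i then
        (sk pp).k i else 1) ≤ B
      have hone : ∀ pp : Fin m × Fin m, u ∉ square L (pp.2 * S') (pp.1 * S') S' →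
          (∏ i : (sk pp).ι, if u ∈ (sk pp).K i then (sk pp).k i else 1) = 1 := by
        intro pp hpp
        refine prod_eq_one fun i _ => ?_
        rw [if_neg]
        intro hi
        exact hpp ((hsk pp).sub i hi)
      by_cases hex : ∃ pp : Fin m × Fin m, u ∈ square L (pp.2 * S') (pp.1 * S') S'
      · obtain ⟨pp, hpp⟩ := hex
        rw [prod_eq_single pp]
        · rw [← prod_filter]
          exact (hsk pp).cong u
        · intro pp' _ hne
          refine hone pp' fun h' => hne ?_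
          exact square_unique h1 u pp' pp h' hpp
        · intro hno
          exact absurd (mem_univ _) hno
      · push Not at hex
        rw [prod_eq_one fun pp _ => hone pp (hex pp)]
        exact hB
    have t3 : (∏ y : ZMod L, if u ∈ topRow L y.val then d ^ L else 1) = d ^ L := by
      rw [prod_eq_single u.2]
      · rw [if_pos]
        rw [mem_topRow, ZMod.natCast_zmod_val]
      · intro y _ hy
        rw [if_neg]
        rw [mem_topRow, ZMod.natCast_zmod_val]
        exact fun h => hy h.symm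
      · intro hno
        exact absurd (mem_univ _) hno
    calc _ = (∏ a : Trk m b', if u ∈ topRoute L S' a then q else 1) *
          ((∏ j : (Σ pp : Fin m × Fin m, (sk pp).ι), if u ∈ (sk j.1).K j.2 then
            (sk j.1).k j.2 else 1) *
          ((∏ y : ZMod L, if u ∈ topRow L y.val then d ^ L else 1) *
            (∏ y : ZMod L, if u ∈ topRow L y.val then d ^ L else 1))) := rfl
      _ ≤ q ^ 3 * (B * (d ^ L * d ^ L)) := by
          rw [t3]
          exact Nat.mul_le_mul t1 (Nat.mul_le_mul_right _ t2)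
      _ = _ := by ring

/-- YA7: the top level. -/
theorem top_pepo {S' b' m q B : ℕ} {𝓕' : Set ((Fin b' → Fin q) → ℂ)} (hd : 0 < d) (hq : 0 < q)
    (hm : 0 < m) (hS' : 0 < S') (h : Placeable L S' b' q B 𝓕') (h1 : m * S' ≤ L)
    (h2 : m * b' ≤ S')
    (C : Trk m b' → Trk m b' → Fin q → Fin q → ℂ)
    (f' : Fin m → Fin m → (Fin b' → Fin q) → ℂ) (hf' : ∀ p p', f' p p' ∈ 𝓕')
    (E : Trk m b' → ZMod L → (ZMod L → Fin d) → (ZMod L → Fin d) → Fin q → ℂ)
    (M : Matrix (Conf d L) (Conf d L) ℂ)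
    (hM : ∀ s f, M s f = ∑ w : Trk m b' → Fin q, (∏ a, ∏ a', C a a' (w a) (w a')) *
      (∏ p, ∏ p', f' p p' fun i => w (p, p', i)) *
      ∏ a, ∏ y, E a y (fun x => s (x, y)) (fun x => f (x, y)) (w a)) :
    IsPEPO (d ^ L * d ^ L * (q ^ 3 * B)) M := by
  classical
  have hL : 0 < L := Nat.pos_of_ne_zero (NeZero.ne L)
  have hchild : ∀ p : Fin m, (p : ℕ) * S' + S' ≤ L := by
    intro p
    have e2 : ((p : ℕ) + 1) * S' ≤ m * S' := Nat.mul_le_mul_right _ p.isLt
    rw [Nat.add_mul, Nat.one_mul] at e2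
    omega
  choose sk hsk hrz using fun pp : Fin m × Fin m =>
    h (pp.2 * S') (pp.1 * S') (hchild pp.2) (hchild pp.1)
  have hB : 0 < B := by
    have h0 := (hsk (⟨0, hm⟩, ⟨0, hm⟩)).cong (0, 0)
    refine lt_of_lt_of_le (prod_pos fun i _ => ?_) h0
    exact (hsk (⟨0, hm⟩, ⟨0, hm⟩)).pos i
  choose φ hφ1 hφ2 hφ3 using fun pp : Fin m × Fin m => hrz pp (f' pp.1 pp.2) (hf' _ _)
  have hcard : Fintype.card (Fin (d ^ L)) = Fintype.card (ZMod L → Fin d) := by
    rw [Fintype.card_fin, Fintype.card_fun, Fintype.card_fin, ZMod.card]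
  obtain ⟨e⟩ := Fintype.card_eq.1 hcard
  set A := topAsg L d S' b' q sk with hA
  -- the factors as functions of the components of the assignment
  set ψ : Site L → Fin d → Fin d → ((Trk m b' → Fin q) × (∀ pp, (sk pp).Asg) ×
      (ZMod L → Fin (d ^ L)) × (ZMod L → Fin (d ^ L))) → ℂ := fun u σ σ' t =>
    ((if σ = e (t.2.2.1 u.2) u.1 then 1 else 0) * (if σ' = e (t.2.2.2 u.2) u.1 then 1 else 0)) *
    (((∏ a, ∏ a', if u = (((topIdx S' a' : ℕ) : ZMod L), ((topIdx S' a : ℕ) : ZMod L)) then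
      C a a' (t.1 a) (t.1 a') else 1) *
    (∏ pp : Fin m × Fin m, φ pp u (fun i => t.1 (pp.1, pp.2, i)) (t.2.1 pp))) *
    ∏ a, if u.1 = ((topIdx S' a : ℕ) : ZMod L) then
      E a u.2 (e (t.2.2.1 u.2)) (e (t.2.2.2 u.2)) (t.1 a) else 1) with hψ
  refine routed_pepo (topSkel L d S' b' q sk) (topSkel_good hd hq hB h1 h2 sk hsk)
    (fun u σ σ' X => ψ u σ σ' (A X)) ?_ M ?_
  · -- locality
    intro u σ σ' X X' hX
    have hrow : u ∈ topRow L u.2.val := by rw [mem_topRow, ZMod.natCast_zmod_val]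
    have hS : (A X).2.2.1 u.2 = (A X').2.2.1 u.2 := hX (.inr (.inr (.inl u.2))) hrow
    have hF : (A X).2.2.2 u.2 = (A X').2.2.2 u.2 := hX (.inr (.inr (.inr u.2))) hrow
    have hw : ∀ a, u ∈ topRoute L S' a → (A X).1 a = (A X').1 a := fun a ha => hX (.inl a) ha
    simp only [hψ]
    rw [hS, hF]
    congr 1
    congr 1
    · congr 1
      · refine prod_congr rfl fun a _ => prod_congr rfl fun a' _ => ?_
        split_ifs with hu
        · rw [hw a, hw a']
          · refine mem_union_left _ (mem_union_right _ ?_)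
            rw [mem_topCol, hu]
          · refine mem_union_left _ (mem_union_left _ ?_)
            rw [mem_topRow, hu]
        · rfl
      · refine prod_congr rfl fun pp _ => hφ1 pp u _ _ _ _ ?_ ?_
        · intro i hi
          refine hw (pp.1, pp.2, i) (mem_union_right _ ?_)
          rw [mem_topTap]
          refine ⟨pp.2 * S', le_rfl, Nat.le_add_right _ _, ?_⟩
          rw [← hi]
          rfl
        · intro i hi
          exact hX (.inr (.inl ⟨pp, i⟩)) hi
    · refine prod_congr rfl fun a _ => ?_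
      split_ifs with hu
      · rw [hw a]
        refine mem_union_left _ (mem_union_right _ ?_)
        rw [mem_topCol, hu]
      · rfl
  · -- the value
    intro s f
    rw [Equiv.sum_comp A fun t => ∏ u, ψ u (s u) (f u) t, hM]
    have hprod : ∀ t : (Trk m b' → Fin q) × (∀ pp, (sk pp).Asg) ×
        (ZMod L → Fin (d ^ L)) × (ZMod L → Fin (d ^ L)), ∏ u, ψ u (s u) (f u) t =
        (if (t.2.2.1 = fun y => e.symm fun x => s (x, y)) then 1 else 0) *
        (if (t.2.2.2 = fun y => e.symm fun x => f (x, y)) then 1 else 0) *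
        (((∏ a, ∏ a', C a a' (t.1 a) (t.1 a')) *
          (∏ pp : Fin m × Fin m, ∏ u, φ pp u (fun i => t.1 (pp.1, pp.2, i)) (t.2.1 pp))) *
          ∏ a, ∏ y, E a y (e (t.2.2.1 y)) (e (t.2.2.2 y)) (t.1 a)) := by
      intro t
      simp only [hψ]
      rw [prod_mul_distrib, prod_mul_distrib, prod_mul_distrib, prod_mul_distrib]
      have d1 : ∀ (g : Conf d L) (S : ZMod L → Fin (d ^ L)),
          (∏ u : Site L, if g u = e (S u.2) u.1 then (1 : ℂ) else 0) =
          if (S = fun y => e.symm fun x => g (x, y)) then 1 else 0 := by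
        intro g S
        by_cases hS : S = fun y => e.symm fun x => g (x, y)
        · rw [if_pos hS]
          subst hS
          refine prod_eq_one fun u _ => ?_
          rw [Equiv.apply_symm_apply, if_pos rfl]
        · rw [if_neg hS]
          have hex : ∃ u : Site L, g u ≠ e (S u.2) u.1 := by
            by_contra hno
            push Not at hno
            apply hS
            funext y
            rw [Equiv.eq_symm_apply]
            funext x
            exact (hno (x, y)).symm
          obtain ⟨u, hu⟩ := hex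
          exact prod_eq_zero (mem_univ u) (if_neg hu)
      rw [d1 s, d1 f]
      congr 1
      congr 1
      · congr 1
        · rw [prod_comm]
          refine prod_congr rfl fun a _ => ?_
          rw [prod_comm]
          refine prod_congr rfl fun a' _ => ?_
          rw [prod_ite_eq' univ, if_pos (mem_univ _)]
        · rw [prod_comm]
      · rw [prod_comm]
        refine prod_congr rfl fun a _ => ?_
        rw [← univ_product_univ, prod_product]
        rw [prod_eq_single ((topIdx S' a : ℕ) : ZMod L)]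
        · exact prod_congr rfl fun y _ => if_pos rfl
        · intro x _ hx
          exact prod_eq_one fun y _ => if_neg hx
        · intro hno
          exact absurd (mem_univ _) hno
    simp only [hprod]
    rw [Fintype.sum_prod_type]
    refine sum_congr rfl fun w _ => ?_
    rw [Fintype.sum_prod_type]
    have hinner : ∀ xs : (∀ pp, (sk pp).Asg),
        (∑ SF : (ZMod L → Fin (d ^ L)) × (ZMod L → Fin (d ^ L)),
          (if (SF.1 = fun y => e.symm fun x => s (x, y)) then (1 : ℂ) else 0) *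
          (if (SF.2 = fun y => e.symm fun x => f (x, y)) then 1 else 0) *
          (((∏ a, ∏ a', C a a' (w a) (w a')) *
          (∏ pp : Fin m × Fin m, ∏ u, φ pp u (fun i => w (pp.1, pp.2, i)) (xs pp))) *
          ∏ a, ∏ y, E a y (e (SF.1 y)) (e (SF.2 y)) (w a))) =
        ((∏ a, ∏ a', C a a' (w a) (w a')) *
          (∏ pp : Fin m × Fin m, ∏ u, φ pp u (fun i => w (pp.1, pp.2, i)) (xs pp))) *
          ∏ a, ∏ y, E a y (fun x => s (x, y)) (fun x => f (x, y)) (w a) := by
      intro xs
      rw [sum_eq_single (fun y => e.symm fun x => s (x, y), fun y => e.symm fun x => f (x, y))]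
      · simp only [if_true, one_mul, Equiv.apply_symm_apply]
      · rintro ⟨S, F⟩ _ hne
        by_cases hS : S = fun y => e.symm fun x => s (x, y)
        · by_cases hF : F = fun y => e.symm fun x => f (x, y)
          · exact absurd (Prod.ext hS hF) hne
          · rw [if_neg hF, mul_zero, zero_mul]
        · rw [if_neg hS, zero_mul, zero_mul]
      · intro hno
        exact absurd (mem_univ _) hno
    rw [sum_congr rfl fun xs _ => hinner xs, ← sum_mul, ← mul_sum]
    congr 1
    congr 1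
    rw [← Fintype.prod_sum fun (pp : Fin m × Fin m) (x : (sk pp).Asg) =>
      ∏ u, φ pp u (fun i => w (pp.1, pp.2, i)) x, Fintype.prod_prod_type]
    refine prod_congr rfl fun p _ => prod_congr rfl fun p' _ => ?_
    exact hφ3 (p, p') (fun i => w (p, p', i))

end Pool.Agent.PepsY
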